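import Pool.Agent.Work.MP_2cde6c_an.Exist

set_option autoImplicit false

/-!
# Existence of optimal potentials in a bounded region (conclusion)
-/

open MeasureTheory Filter
open scoped ENNReal Topology ContDiff

namespace Pool.Agent.Work.MP_2cde6c_an

variable {d : ℕ}

/-- admissible potentials confined to `S` -/
structure Adm (p : ℝ) (S : Set (Fin d → ℝ)) (V : (Fin d → ℝ) → ℝ≥0∞) : Prop where
  meas : Measurable V
  out : ∀ x, x ∉ S → V x = ⊤
  int : ∫⁻ x, V x ^ (-p) ≤ 1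

theorem adm_top {p : ℝ} (hp : 0 < p) (S : Set (Fin d → ℝ)) : Adm p S (fun _ => ⊤) := by
  refine ⟨measurable_const, fun _ _ => rfl, ?_⟩
  rw [ENNReal.top_rpow_of_neg (by linarith)]
  simp

theorem single_sum {k : ℕ} (j : Fin k) (f : Fin k → (Fin d → ℝ) → ℝ) (x : Fin d → ℝ) :
    ∑ j', (Pi.single j (1 : ℝ) : Fin k → ℝ) j' * f j' x = f j x := by
  simp [Pi.single_apply]

theorem single_sum_sq {k : ℕ} (j : Fin k) :
    ∑ j', (Pi.single j (1 : ℝ) : Fin k → ℝ) j' ^ 2 = 1 := by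
  simp [Pi.single_apply]

theorem lsc {p : ℝ} (hp : 0 < p) (hp1 : p ≤ 1) {k : ℕ} {S : Set (Fin d → ℝ)}
    (hS : Bornology.IsBounded S) (hSm : MeasurableSet S)
    {V : ℕ → (Fin d → ℝ) → ℝ≥0∞} (hV : ∀ m, Adm p S (V m))
    {u : ℕ → Fin k → (Fin d → ℝ) → ℝ} {g : ℕ → Fin k → Fin d → (Fin d → ℝ) → ℝ}
    (hd : ∀ m j, Dom (V m) (u m j) (g m j))
    (hon : ∀ m i j, ∫ x, u m i x * u m j x = if i = j then 1 else 0)
    {t : ℕ → ℝ≥0∞} {T K : ℝ≥0∞} (htT : Tendsto t atTop (𝓝 T)) (hK : K ≠ ⊤) (htK : ∀ m, t m ≤ K)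
    (hq : ∀ m (c : Fin k → ℝ), qf (V m) (fun x => ∑ j, c j * u m j x)
      (fun i x => ∑ j, c j * g m j i x) ≤ t m * ENNReal.ofReal (∑ j, c j ^ 2)) :
    ∃ V' : (Fin d → ℝ) → ℝ≥0∞, Adm p S V' ∧
      ∃ (v : Fin k → (Fin d → ℝ) → ℝ) (g' : Fin k → Fin d → (Fin d → ℝ) → ℝ),
      (∀ j, Dom V' (v j) (g' j)) ∧ (∀ i j, ∫ x, v i x * v j x = if i = j then 1 else 0) ∧
      ∀ c : Fin k → ℝ, qf V' (fun x => ∑ j, c j * v j x)
        (fun i x => ∑ j, c j * g' j i x) ≤ T * ENNReal.ofReal (∑ j, c j ^ 2) := by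
  have hgs : ∀ m j, ∑ i, nsq (g m j i) ≤ K := by
    intro m j
    have h1 := hq m (Pi.single j 1)
    have e2 : (fun x => ∑ j', (Pi.single j (1 : ℝ) : Fin k → ℝ) j' * u m j' x) = u m j :=
      funext fun x => single_sum j (u m) x
    have e3 : (fun i x => ∑ j', (Pi.single j (1 : ℝ) : Fin k → ℝ) j' * g m j' i x) = g m j :=
      funext fun i => funext fun x => single_sum j (fun j' => g m j' i) x
    rw [e2, e3, single_sum_sq, ENNReal.ofReal_one, mul_one,
      qf_eq _ (fun i => ((hd m j).wp.mg i).1.aemeasurable)] at h1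
    exact (le_self_add.trans h1).trans (htK m)
  have hun : ∀ m j, nsq (u m j) ≤ K + 1 := by
    intro m j
    rw [nsq_ofReal (hd m j).wp.mu]
    have : ∫ x, u m j x ^ 2 = 1 := by
      simp only [sq]
      rw [hon, if_pos rfl]
    rw [this, ENNReal.ofReal_one]
    exact le_add_self
  obtain ⟨φ, hφ, v, hv, hlim⟩ := rellich (ι := Fin k) (u := u) (g := g)
    (fun m j => (hd m j).wp) hS
    (fun m j => by
      filter_upwards [(hd m j).top] with x hx hxS
      exact hx ((hV m).out x hxS)) (K := K + 1) (by simp [hK]) hun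
    (fun m j => (hgs m j).trans le_self_add)
  obtain ⟨ψ, hψ, hae⟩ := exists_ae_subseq (f := fun n => u (φ n)) (F := v)
    (fun n j => (hd _ j).wp.mu) hv hlim
  have hlim' : ∀ j, Tendsto (fun n => eLpNorm (fun x => u (φ (ψ n)) j x - v j x) 2 volume)
      atTop (𝓝 0) := fun j => (hlim j).comp hψ.tendsto_atTop
  obtain ⟨V', h1, h2, h3, g', h4, h5⟩ := lsc_core hp hp1 hS hSm
    (V := fun n => V (φ (ψ n))) (fun n => (hV _).meas) (fun n => (hV _).out) (fun n => (hV _).int)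
    (u := fun n => u (φ (ψ n))) (g := fun n => g (φ (ψ n))) (fun n j => hd _ j)
    (t := fun n => t (φ (ψ n))) (T := T) (K := K)
    ((htT.comp hφ.tendsto_atTop).comp hψ.tendsto_atTop) hK (fun n => htK _)
    (fun n j i => le_trans (Finset.single_le_sum (f := fun i => nsq (g (φ (ψ n)) j i))
      (fun i _ => zero_le) (Finset.mem_univ i)) (hgs _ j))
    (fun n c => hq _ c) hv hlim' hae
  refine ⟨V', ⟨h1, h2, h3⟩, v, g', h4, fun i j => ?_, h5⟩
  -- orthonormality in the limit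
  have hL : ∀ j, Tendsto (fun n => ((hd (φ (ψ n)) j).wp.mu.toLp (u (φ (ψ n)) j))) atTop
      (𝓝 ((hv j).toLp (v j))) := by
    intro j
    rw [Lp.tendsto_Lp_iff_tendsto_eLpNorm']
    refine (hlim' j).congr fun n => ?_
    apply eLpNorm_congr_ae
    filter_upwards [(hv j).coeFn_toLp, (hd (φ (ψ n)) j).wp.mu.coeFn_toLp] with x hx hx'
    rw [Pi.sub_apply, hx, hx']
  have h6 := (hL i).inner (𝕜 := ℝ) (hL j)
  have h7 : ∀ n, inner ℝ ((hd (φ (ψ n)) i).wp.mu.toLp (u (φ (ψ n)) i))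
      ((hd (φ (ψ n)) j).wp.mu.toLp (u (φ (ψ n)) j)) = if i = j then (1 : ℝ) else 0 := by
    intro n
    rw [Lp_inner, ← hon (φ (ψ n)) i j]
    apply integral_congr_ae
    filter_upwards [(hd (φ (ψ n)) i).wp.mu.coeFn_toLp, (hd (φ (ψ n)) j).wp.mu.coeFn_toLp]
      with x hx hx'
    rw [hx, hx']
  simp only [h7] at h6
  have h8 := tendsto_nhds_unique h6 tendsto_const_nhds
  rw [← h8, Lp_inner]
  apply integral_congr_ae
  filter_upwards [(hv i).coeFn_toLp, (hv j).coeFn_toLp] with x hx hx'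
  rw [hx, hx']

theorem nsq_sum_on {k : ℕ} {v : Fin k → (Fin d → ℝ) → ℝ} (hv : ∀ j, MemLp (v j) 2 volume)
    (hon : ∀ i j, ∫ x, v i x * v j x = if i = j then 1 else 0) (c : Fin k → ℝ) :
    nsq (fun x => ∑ j, c j * v j x) = ENNReal.ofReal (∑ j, c j ^ 2) := by
  have hs : MemLp (fun x => ∑ j, c j * v j x) 2 volume :=
    memLp_finsetSum _ fun j _ => (hv j).const_mul _
  rw [nsq_ofReal hs]
  congr 1
  simp only [sq]
  rw [integral_sum_mul hv c hs]
  refine Finset.sum_congr rfl fun j _ => ?_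
  congr 1
  have e : ∫ x, v j x * ∑ j, c j * v j x = ∫ x, (∑ j, c j * v j x) * v j x := by
    congr 1; ext x; ring
  rw [e, integral_sum_mul hv c (hv j)]
  simp only [hon]
  simp

/-- Existence of an optimal potential among those confined to a bounded set. -/
theorem exists_opt_box {p : ℝ} (hp : 0 < p) (hp1 : p ≤ 1) {S : Set (Fin d → ℝ)}
    (hS : Bornology.IsBounded S) (hSm : MeasurableSet S) (n : ℕ) :
    ∃ V : (Fin d → ℝ) → ℝ≥0∞, Adm p S V ∧ ∀ W, Adm p S W → lamK (n + 1) V ≤ lamK (n + 1) W := by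
  set Λ : ℝ≥0∞ := ⨅ (W : (Fin d → ℝ) → ℝ≥0∞) (_ : Adm p S W), lamK (n + 1) W with hΛ
  have hle : ∀ W, Adm p S W → Λ ≤ lamK (n + 1) W := fun W hW => iInf₂_le W hW
  by_cases hΛt : Λ = ⊤
  · refine ⟨fun _ => ⊤, adm_top hp S, fun W hW => ?_⟩
    have := hle W hW
    rw [hΛt, top_le_iff] at this
    rw [this]
    exact le_top
  · set t : ℕ → ℝ≥0∞ := fun m => Λ + ((m : ℝ≥0∞) + 1)⁻¹ with ht
    have hlt : ∀ m, Λ < t m := fun m => by
      apply ENNReal.lt_add_right hΛt
      rw [Ne, ENNReal.inv_eq_zero]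
      exact ENNReal.add_ne_top.2 ⟨ENNReal.natCast_ne_top m, ENNReal.one_ne_top⟩
    have hex : ∀ m, ∃ W, Adm p S W ∧ lamK (n + 1) W < t m := by
      intro m
      have := hlt m
      rw [hΛ] at this
      simp only [iInf_lt_iff] at this
      obtain ⟨W, hW, h⟩ := this
      exact ⟨W, hW, h⟩
    choose W hW hWt using hex
    have hexE : ∀ m, ∃ (u : Fin (n + 1) → (Fin d → ℝ) → ℝ)
        (g : Fin (n + 1) → Fin d → (Fin d → ℝ) → ℝ) (lm : Fin (n + 1) → ℝ),
        IsEig (W m) u g lm ∧ lamK (n + 1) (W m) = ENNReal.ofReal (lm (Fin.last n)) := fun m =>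
      exists_isEig (hW m).meas hS (hW m).out ((hWt m).trans_le le_top)
    choose u g lm hE hlm using hexE
    have htT : Tendsto t atTop (𝓝 Λ) := by
      have h1 : Tendsto (fun m : ℕ => ((m : ℝ≥0∞) + 1)⁻¹) atTop (𝓝 0) := by
        have := ENNReal.tendsto_inv_nat_nhds_zero
        have h2 := this.comp (tendsto_add_atTop_nat 1)
        refine h2.congr fun m => ?_
        simp
      simpa using h1.const_add Λ
    obtain ⟨V', hV', v, g', hdv, hon, hq⟩ := lsc hp hp1 hS hSm hW (fun m j => (hE m).dom j)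
      (fun m => (hE m).on) htT (K := Λ + 1) (by simp [hΛt]) (fun m => by
        rw [ht]
        simp only
        gcongr
        rw [ENNReal.inv_le_one]
        exact le_add_self) (fun m c => by
        rw [(Dom.sum (hE m).dom c).qf_eq_bf, (hE m).bf_sum]
        have h1 : ENNReal.ofReal (∑ j, lm m j * c j ^ 2)
            ≤ ENNReal.ofReal (lm m (Fin.last n)) * ENNReal.ofReal (∑ j, c j ^ 2) := by
          rw [← ENNReal.ofReal_mul ((hE m).nonneg _)]
          apply ENNReal.ofReal_le_ofReal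
          rw [Finset.mul_sum]
          refine Finset.sum_le_sum fun j _ => ?_
          exact mul_le_mul_of_nonneg_right ((hE m).mono (Fin.le_last j)) (sq_nonneg _)
        refine h1.trans ?_
        gcongr
        rw [← hlm m]
        exact (hWt m).le)
    refine ⟨V', hV', fun W hW => le_trans ?_ (hle W hW)⟩
    refine lamK_le hdv (fun c hc => ?_) (fun c _ => ?_)
    · rw [nsq_sum_on (fun j => (hdv j).wp.mu) hon, Ne, ENNReal.ofReal_eq_zero, not_le]
      exact sum_sq_pos hc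
    · rw [nsq_sum_on (fun j => (hdv j).wp.mu) hon]
      exact hq c

end Pool.Agent.Work.MP_2cde6c_an
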