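import Pool.Agent.Work.MP_2cde6c_an.Cutoff
import Pool.Agent.Work.MP_2cde6c_an.ExistBox

set_option autoImplicit false

/-!
# Cutting off at infinity
-/

open MeasureTheory Filter
open scoped ENNReal Topology ContDiff

namespace Pool.Agent.Work.MP_2cde6c_an

variable {d : ℕ}

theorem integral_sq_eq_norm {k : ℕ} {u : Fin k → (Fin d → ℝ) → ℝ}
    (hu : ∀ j, MemLp (u j) 2 volume) (c : Fin k → ℝ) :
    ∫ x, (∑ j, c j * u j x) ^ 2
      = ‖(∑ j, c j • (hu j).toLp (u j) : Lp ℝ 2 (volume : Measure (Fin d → ℝ)))‖ ^ 2 := by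
  rw [Lp_norm_sq]
  apply integral_congr_ae
  have e2 : ∀ᵐ x ∂(volume : Measure (Fin d → ℝ)), ∀ j,
      (c j • (hu j).toLp (u j) : Lp ℝ 2 (volume : Measure (Fin d → ℝ))) x = c j * u j x := by
    rw [ae_all_iff]
    intro j
    filter_upwards [Lp.coeFn_smul (c j) ((hu j).toLp (u j)), (hu j).coeFn_toLp] with x h1 h2
    rw [h1, Pi.smul_apply, smul_eq_mul, h2]
  filter_upwards [Lp.coeFn_finsetSum Finset.univ (fun j => c j • (hu j).toLp (u j)), e2]
    with x h1 h2
  rw [h1, Finset.sum_apply]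
  congr 1
  exact Finset.sum_congr rfl fun j _ => (h2 j).symm

theorem exists_alpha {k : ℕ} {u : Fin k → (Fin d → ℝ) → ℝ}
    (hu : ∀ j, MemLp (u j) 2 volume)
    (hind : ∀ c : Fin k → ℝ, c ≠ 0 → nsq (fun x => ∑ j, c j * u j x) ≠ 0) :
    ∃ α : ℝ, 0 < α ∧ ∀ c : Fin k → ℝ, α * ∑ j, c j ^ 2 ≤ ∫ x, (∑ j, c j * u j x) ^ 2 := by
  let A : (Fin k → ℝ) →ₗ[ℝ] Lp ℝ 2 (volume : Measure (Fin d → ℝ)) :=
    { toFun := fun c => ∑ j, c j • (hu j).toLp (u j)
      map_add' := by
        intro a b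
        simp [add_smul, Finset.sum_add_distrib]
      map_smul' := by
        intro r a
        simp [Finset.smul_sum, mul_smul] }
  have hker : LinearMap.ker A = ⊥ := by
    rw [LinearMap.ker_eq_bot']
    intro c hc
    by_contra hne
    apply hind c hne
    have hs : MemLp (fun x => ∑ j, c j * u j x) 2 volume :=
      memLp_finsetSum _ fun j _ => (hu j).const_mul _
    rw [nsq_ofReal hs, integral_sq_eq_norm hu c]
    have : (∑ j, c j • (hu j).toLp (u j) : Lp ℝ 2 (volume : Measure (Fin d → ℝ))) = 0 := hc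
    rw [this]
    simp
  obtain ⟨K, hK, hA⟩ := A.exists_antilipschitzWith hker
  refine ⟨1 / ((k : ℝ) * (K : ℝ) ^ 2 + 1), by positivity, fun c => ?_⟩
  rw [integral_sq_eq_norm hu c]
  have h1 : ‖c‖ ≤ K * ‖A c‖ := by
    have := hA.le_mul_dist c 0
    simpa using this
  have h2 : ∑ j, c j ^ 2 ≤ k * ‖c‖ ^ 2 := by
    calc ∑ j, c j ^ 2 ≤ ∑ _j : Fin k, ‖c‖ ^ 2 := by
          refine Finset.sum_le_sum fun j _ => ?_
          have := norm_le_pi_norm c j
          rw [Real.norm_eq_abs] at this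
          rw [← sq_abs]
          exact pow_le_pow_left₀ (abs_nonneg _) this 2
      _ = k * ‖c‖ ^ 2 := by simp
  have h3 : ‖c‖ ^ 2 ≤ (K : ℝ) ^ 2 * ‖A c‖ ^ 2 := by
    rw [← mul_pow]
    exact pow_le_pow_left₀ (norm_nonneg _) h1 2
  have h4 : ∑ j, c j ^ 2 ≤ ((k : ℝ) * (K : ℝ) ^ 2 + 1) * ‖A c‖ ^ 2 := by
    have h5 := mul_le_mul_of_nonneg_left h3 (Nat.cast_nonneg k : (0 : ℝ) ≤ k)
    have h6 := sq_nonneg ‖A c‖
    linarith
  rw [one_div, inv_mul_le_iff₀ (by positivity)]
  exact h4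

/-- Cauchy–Schwarz pointwise -/
theorem comb_sq_le {k : ℕ} (c y : Fin k → ℝ) :
    (∑ j, c j * y j) ^ 2 ≤ (∑ j, c j ^ 2) * ∑ j, y j ^ 2 :=
  Finset.sum_mul_sq_le_sq_mul_sq _ _ _

theorem cut_sum_u {k : ℕ} (c : Fin k → ℝ) (u : Fin k → (Fin d → ℝ) → ℝ) (η : (Fin d → ℝ) → ℝ) :
    (fun x => ∑ j, c j * (η x * u j x)) = fun x => η x * ∑ j, c j * u j x := by
  funext x
  rw [Finset.mul_sum]
  exact Finset.sum_congr rfl fun j _ => by ring

theorem cut_sum_g {k : ℕ} (c : Fin k → ℝ) (u : Fin k → (Fin d → ℝ) → ℝ)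
    (g : Fin k → Fin d → (Fin d → ℝ) → ℝ) (η : (Fin d → ℝ) → ℝ) :
    (fun (i : Fin d) x => ∑ j, c j * (η x * g j i x
        + u j x * fderiv ℝ η x (Pi.single i (1 : ℝ))))
      = fun i x => η x * (∑ j, c j * g j i x)
        + (∑ j, c j * u j x) * fderiv ℝ η x (Pi.single i (1 : ℝ)) := by
  funext i x
  rw [Finset.mul_sum, Finset.sum_mul, ← Finset.sum_add_distrib]
  exact Finset.sum_congr rfl fun j _ => by ring

/-- Confining a potential does not increase the constraint. -/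
theorem confine_int {p : ℝ} (hp : 0 < p) {W : (Fin d → ℝ) → ℝ≥0∞} (hWp : ∫⁻ x, W x ^ (-p) ≤ 1)
    (S : Set (Fin d → ℝ)) [DecidablePred (· ∈ S)] :
    ∫⁻ x, (if x ∈ S then W x else ⊤) ^ (-p) ≤ 1 := by
  refine le_trans (lintegral_mono fun x => ?_) hWp
  split_ifs with h
  · exact le_rfl
  · rw [ENNReal.top_rpow_of_neg (by linarith)]
    exact zero_le

theorem young_sq (a b : ℝ) {δ : ℝ} (hδ : 0 < δ) :
    (a + b) ^ 2 ≤ (1 + δ) * a ^ 2 + (1 + 1 / δ) * b ^ 2 := by
  have h : (1 + δ) * a ^ 2 + (1 + 1 / δ) * b ^ 2 - (a + b) ^ 2 = (δ * a - b) ^ 2 / δ := by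
    field_simp
    ring
  have h2 : 0 ≤ (δ * a - b) ^ 2 / δ := by positivity
  linarith

theorem exists_conf {p : ℝ} (hp : 0 < p) {k : ℕ} {W : (Fin d → ℝ) → ℝ≥0∞} (hW : Measurable W)
    (hWp : ∫⁻ x, W x ^ (-p) ≤ 1) {t : ℝ≥0∞} (ht : lamK k W < t) :
    ∃ (R : ℕ) (W' : (Fin d → ℝ) → ℝ≥0∞), Adm p (Metric.closedBall 0 R) W' ∧ lamK k W' < t := by
  classical
  obtain ⟨t0', h01, h02⟩ := exists_between ht
  obtain ⟨t1', h11, h12⟩ := exists_between h02
  obtain ⟨u, g, hd, hind, hq⟩ := exists_of_lamK_lt hW h01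
  set t0 := t0'.toReal with ht0
  set t1 := t1'.toReal with ht1
  have ht0' : t0' ≠ ⊤ := (h11.trans_le le_top).ne
  have ht1' : t1' ≠ ⊤ := (h12.trans_le le_top).ne
  have ht01 : t0 < t1 := (ENNReal.toReal_lt_toReal ht0' ht1').2 h11
  have ht0n : 0 ≤ t0 := ENNReal.toReal_nonneg
  have humem : ∀ j, MemLp (u j) 2 volume := fun j => (hd j).wp.mu
  obtain ⟨α, hα, hαc⟩ := exists_alpha humem hind
  obtain ⟨C, hC, hcut⟩ := exists_cutoff d
  -- the real inequality
  set U : (Fin k → ℝ) → (Fin d → ℝ) → ℝ := fun c x => ∑ j, c j * u j x with hU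
  set G : (Fin k → ℝ) → Fin d → (Fin d → ℝ) → ℝ := fun c i x => ∑ j, c j * g j i x with hG
  have hdU : ∀ c, Dom W (U c) (G c) := fun c => Dom.sum hd c
  have hqr : ∀ c : Fin k → ℝ, bf W (U c) (G c) (U c) (G c) ≤ t0 * ∫ x, U c x ^ 2 := by
    intro c
    by_cases hc : c = 0
    · have e1 : U c = fun _ => 0 := by funext x; simp [hU, hc]
      have e2 : G c = fun _ _ => 0 := by funext i x; simp [hG, hc]
      rw [e1, e2]
      simp [bf]
    · have h1 := hq c hc
      rw [(hdU c).qf_eq_bf, nsq_ofReal (hdU c).wp.mu, ← ENNReal.ofReal_toReal ht0',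
        ← ENNReal.ofReal_mul ENNReal.toReal_nonneg] at h1
      refine (ENNReal.ofReal_le_ofReal_iff ?_).1 h1
      exact mul_nonneg ENNReal.toReal_nonneg (integral_nonneg fun x => sq_nonneg _)
  -- tails
  set ρ : (Fin d → ℝ) → ℝ := fun x => ∑ j, u j x ^ 2 with hρ
  have hρi : Integrable ρ volume := integrable_finsetSum _ fun j _ => (humem j).integrable_sq
  have hρ0 : ∀ x, 0 ≤ ρ x := fun x => Finset.sum_nonneg fun j _ => sq_nonneg _
  set τ : ℕ → ℝ := fun n => (∫ x, ρ x) - ∫ x in Metric.closedBall (0 : Fin d → ℝ) n, ρ x with hτ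
  have hτlim : Tendsto τ atTop (𝓝 0) := by
    have h1 : Tendsto (fun n : ℕ => ∫ x in Metric.closedBall (0 : Fin d → ℝ) n, ρ x) atTop
        (𝓝 (∫ x in ⋃ n : ℕ, Metric.closedBall (0 : Fin d → ℝ) n, ρ x)) := by
      refine tendsto_setIntegral_of_monotone (fun n => measurableSet_closedBall) ?_
        hρi.integrableOn
      intro n m hnm
      exact Metric.closedBall_subset_closedBall (by exact_mod_cast hnm)
    rw [Metric.iUnion_closedBall_nat, setIntegral_univ] at h1
    have := h1.const_sub (∫ x, ρ x)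
    simpa using this
  -- choice of n
  set E : ℕ → ℝ := fun n => (1 + 1 / ((n : ℝ) + 1)) * t0
    + (1 + ((n : ℝ) + 1)) * (d * (C / ((n : ℝ) + 1)) ^ 2) with hE
  have hElim : Tendsto E atTop (𝓝 t0) := by
    have l1 : Tendsto (fun n : ℕ => 1 / ((n : ℝ) + 1)) atTop (𝓝 0) :=
      tendsto_one_div_add_atTop_nhds_zero_nat
    have e : E = fun n : ℕ => (1 + 1 / ((n : ℝ) + 1)) * t0
        + (1 / ((n : ℝ) + 1) * (1 / ((n : ℝ) + 1)) + 1 / ((n : ℝ) + 1)) * (d * C ^ 2) := by
      funext n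
      rw [hE]
      have : (n : ℝ) + 1 ≠ 0 := by positivity
      field_simp
    rw [e]
    have l2 := ((l1.const_add 1).mul_const t0).add (((l1.mul l1).add l1).mul_const (d * C ^ 2))
    simpa using l2
  have hFlim : Tendsto (fun n => t1 * (1 - τ n / α)) atTop (𝓝 t1) := by
    have := ((hτlim.div_const α).const_sub 1).const_mul t1
    simpa using this
  have hev : ∀ᶠ n in atTop, E n < t1 * (1 - τ n / α) := hElim.eventually_lt hFlim ht01
  have hev2 : ∀ᶠ n in atTop, τ n < α := hτlim.eventually (gt_mem_nhds hα)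
  obtain ⟨n, hn1, hn2⟩ := (hev.and hev2).exists
  -- the cutoff
  obtain ⟨η, hη, hη0, hη1, hηin, hηout, hηd⟩ := hcut 0 (n : ℝ) ((n : ℝ) + 1) (by positivity)
    (by positivity)
  have hηabs : ∀ x, |η x| ≤ 1 := fun x => by rw [abs_of_nonneg (hη0 x)]; exact hη1 x
  set S : Set (Fin d → ℝ) := Metric.closedBall 0 ((2 * n + 1 : ℕ) : ℝ) with hS
  set W' : (Fin d → ℝ) → ℝ≥0∞ := fun x => if x ∈ S then W x else ⊤ with hW'
  have hadm : Adm p S W' := by
    refine ⟨Measurable.ite measurableSet_closedBall hW measurable_const, fun x hx => ?_, ?_⟩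
    · rw [hW']; simp only; rw [if_neg hx]
    · exact confine_int hp hWp S
  have hWW : ∀ x, η x ≠ 0 → W' x = ENNReal.ofReal 1 * W x := by
    intro x hx
    have : x ∈ S := by
      by_contra hxS
      apply hx
      apply hηout
      rw [hS, Metric.mem_closedBall, not_le] at hxS
      push_cast at hxS
      linarith
    rw [hW']; simp only; rw [if_pos this]; simp
  refine ⟨2 * n + 1, W', hadm, lt_of_le_of_lt ?_ h12⟩
  set u' : Fin k → (Fin d → ℝ) → ℝ := fun j x => η x * u j x with hu'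
  set g' : Fin k → Fin d → (Fin d → ℝ) → ℝ := fun j i x => η x * g j i x
    + u j x * fderiv ℝ η x (Pi.single i (1 : ℝ)) with hg'
  have hd' : ∀ j, Dom W' (u' j) (g' j) := fun j => (hd j).cut hη hηabs hηd one_pos hWW
  have hU' : ∀ c : Fin k → ℝ, (fun x => ∑ j, c j * u' j x) = fun x => η x * U c x := fun c =>
    cut_sum_u c u η
  have hG' : ∀ c : Fin k → ℝ, (fun i x => ∑ j, c j * g' j i x) = fun i x => η x * G c i x
      + U c x * fderiv ℝ η x (Pi.single i (1 : ℝ)) := fun c => cut_sum_g c u g η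
  have hdU' : ∀ c : Fin k → ℝ, Dom W' (fun x => η x * U c x) (fun i x => η x * G c i x
      + U c x * fderiv ℝ η x (Pi.single i (1 : ℝ))) := fun c =>
    (hdU c).cut hη hηabs hηd one_pos hWW
  -- lower bound for the norm
  have hlow : ∀ c : Fin k → ℝ, (1 - τ n / α) * ∫ x, U c x ^ 2 ≤ ∫ x, (η x * U c x) ^ 2 := by
    intro c
    set B : Set (Fin d → ℝ) := Metric.closedBall 0 (n : ℝ) with hB
    have i1 : Integrable (fun x => U c x ^ 2) volume := (hdU c).wp.mu.integrable_sq
    have i2 : Integrable (fun x => (η x * U c x) ^ 2) volume := (hdU' c).wp.mu.integrable_sq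
    have h1 : ∫ x in B, U c x ^ 2 ≤ ∫ x, (η x * U c x) ^ 2 := by
      calc ∫ x in B, U c x ^ 2 = ∫ x in B, (η x * U c x) ^ 2 := by
            apply setIntegral_congr_fun measurableSet_closedBall
            intro x hx
            have : η x = 1 := hηin x (Metric.mem_closedBall.1 hx)
            simp only [this, one_mul]
        _ ≤ ∫ x, (η x * U c x) ^ 2 :=
            setIntegral_le_integral i2 (Eventually.of_forall fun x => sq_nonneg _)
    have h2 : ∫ x in Bᶜ, U c x ^ 2 ≤ (∑ j, c j ^ 2) * τ n := by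
      have e1 : τ n = ∫ x in Bᶜ, ρ x := by
        rw [hτ]
        have := integral_add_compl (μ := volume) (s := B) measurableSet_closedBall hρi
        simp only
        linarith
      rw [e1, ← integral_const_mul]
      refine setIntegral_mono_on i1.integrableOn (hρi.const_mul _).integrableOn
        measurableSet_closedBall.compl fun x _ => ?_
      exact comb_sq_le c (fun j => u j x)
    have h3 := integral_add_compl (μ := volume) (s := B) measurableSet_closedBall i1
    have h4 := hαc c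
    have hτn : 0 ≤ τ n := by
      have e1 : τ n = ∫ x in Bᶜ, ρ x := by
        rw [hτ]
        have := integral_add_compl (μ := volume) (s := B) measurableSet_closedBall hρi
        simp only
        linarith
      rw [e1]
      exact integral_nonneg fun x => hρ0 x
    have h5 : (∑ j, c j ^ 2) * τ n ≤ (τ n / α) * ∫ x, U c x ^ 2 := by
      have : (∑ j, c j ^ 2) * τ n = (τ n / α) * (α * ∑ j, c j ^ 2) := by
        field_simp
      rw [this]
      exact mul_le_mul_of_nonneg_left h4 (by positivity)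
    have h6 : (1 - τ n / α) * ∫ x, U c x ^ 2 = (∫ x, U c x ^ 2) - (τ n / α) * ∫ x, U c x ^ 2 := by
      ring
    rw [h6]
    linarith
  -- upper bound for the energy
  have hup : ∀ c : Fin k → ℝ, bf W' (fun x => η x * U c x) (fun i x => η x * G c i x
      + U c x * fderiv ℝ η x (Pi.single i (1 : ℝ))) (fun x => η x * U c x)
      (fun i x => η x * G c i x + U c x * fderiv ℝ η x (Pi.single i (1 : ℝ)))
      ≤ E n * ∫ x, U c x ^ 2 := by
    intro c
    rw [bf_cut one_pos hWW, one_mul]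
    set δ : ℝ := 1 / ((n : ℝ) + 1) with hδ
    have hδ0 : 0 < δ := by positivity
    have hδi : 1 / δ = (n : ℝ) + 1 := by rw [hδ, one_div_one_div]
    set B : ℝ := C / ((n : ℝ) + 1) with hB
    have hB0 : 0 ≤ B := by positivity
    have i1 : Integrable (fun x => U c x ^ 2) volume := (hdU c).wp.mu.integrable_sq
    have h1 : ∀ i, ∫ x, (η x * G c i x + U c x * fderiv ℝ η x (Pi.single i (1 : ℝ))) ^ 2
        ≤ (1 + δ) * (∫ x, G c i x * G c i x) + (1 + 1 / δ) * (B ^ 2 * ∫ x, U c x ^ 2) := by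
      intro i
      have i3 : Integrable (fun x => G c i x * G c i x) volume :=
        integrable_mul ((hdU c).wp.mg i) ((hdU c).wp.mg i)
      rw [← integral_const_mul, ← integral_const_mul, ← integral_const_mul,
        ← integral_add (i3.const_mul _) ((i1.const_mul _).const_mul _)]
      refine integral_mono ((hdU' c).wp.mg i).integrable_sq
        ((i3.const_mul _).add ((i1.const_mul _).const_mul _)) fun x => ?_
      simp only
      set a := η x * G c i x
      set b := U c x * fderiv ℝ η x (Pi.single i (1 : ℝ))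
      have h2 : (a + b) ^ 2 ≤ (1 + δ) * a ^ 2 + (1 + 1 / δ) * b ^ 2 := young_sq a b hδ0
      have h8 : a ^ 2 ≤ G c i x * G c i x := by
        have : a ^ 2 = η x ^ 2 * (G c i x * G c i x) := by simp only [a]; ring
        rw [this]
        have h9 : η x ^ 2 ≤ 1 := pow_le_one₀ (hη0 x) (hη1 x)
        exact mul_le_of_le_one_left (mul_self_nonneg _) h9
      have h10 : b ^ 2 ≤ B ^ 2 * U c x ^ 2 := by
        have : b ^ 2 = |fderiv ℝ η x (Pi.single i (1 : ℝ))| ^ 2 * U c x ^ 2 := by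
          simp only [b]; rw [sq_abs]; ring
        rw [this]
        exact mul_le_mul_of_nonneg_right (pow_le_pow_left₀ (abs_nonneg _) (hηd i x) 2)
          (sq_nonneg _)
      have h11 : (1 + δ) * a ^ 2 ≤ (1 + δ) * (G c i x * G c i x) :=
        mul_le_mul_of_nonneg_left h8 (by positivity)
      have h12 : (1 + 1 / δ) * b ^ 2 ≤ (1 + 1 / δ) * (B ^ 2 * U c x ^ 2) :=
        mul_le_mul_of_nonneg_left h10 (by positivity)
      linarith
    have h2 : ∫ x, (η x * (sV W x * U c x)) ^ 2 ≤ ∫ x, (sV W x * U c x) * (sV W x * U c x) := by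
      have i4 : Integrable (fun x => (sV W x * U c x) * (sV W x * U c x)) volume :=
        integrable_mul (hdU c).mw (hdU c).mw
      refine integral_mono_of_nonneg (Eventually.of_forall fun x => sq_nonneg _) i4
        (Eventually.of_forall fun x => ?_)
      have : (η x * (sV W x * U c x)) ^ 2 = η x ^ 2 * ((sV W x * U c x) * (sV W x * U c x)) := by
        ring
      simp only
      rw [this]
      have h9 : η x ^ 2 ≤ 1 := pow_le_one₀ (hη0 x) (hη1 x)
      exact mul_le_of_le_one_left (mul_self_nonneg _) h9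
    have h3 := hqr c
    rw [bf] at h3
    have h4 : ∑ i, ∫ x, (η x * G c i x + U c x * fderiv ℝ η x (Pi.single i (1 : ℝ))) ^ 2
        ≤ (1 + δ) * (∑ i, ∫ x, G c i x * G c i x) + (1 + 1 / δ) * (d * (B ^ 2 * ∫ x, U c x ^ 2)) := by
      refine (Finset.sum_le_sum fun i _ => h1 i).trans (le_of_eq ?_)
      rw [Finset.sum_add_distrib, ← Finset.mul_sum]
      simp
      ring
    set P := ∑ i, ∫ x, G c i x * G c i x
    set Q := ∫ x, (sV W x * U c x) * (sV W x * U c x)
    set I := ∫ x, U c x ^ 2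
    have hQ : 0 ≤ Q := integral_nonneg fun x => mul_self_nonneg _
    have h5 : (1 + δ) * P + Q ≤ (1 + δ) * (t0 * I) := by
      have : (1 + δ) * (P + Q) ≤ (1 + δ) * (t0 * I) :=
        mul_le_mul_of_nonneg_left h3 (by positivity)
      have h7 := mul_nonneg hδ0.le hQ
      linarith
    have h6 : E n * I = (1 + δ) * (t0 * I) + (1 + 1 / δ) * (d * (B ^ 2 * I)) := by
      rw [hE, hδi]
      simp only
      ring
    rw [h6]
    linarith
  have hfac : 0 < 1 - τ n / α := by
    have : τ n / α < 1 := (div_lt_one hα).2 hn2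
    linarith
  refine lamK_le hd' (fun c hc => ?_) (fun c _ => ?_)
  · rw [hU' c, nsq_ofReal (hdU' c).wp.mu, Ne, ENNReal.ofReal_eq_zero, not_le]
    refine lt_of_lt_of_le ?_ (hlow c)
    refine mul_pos hfac (lt_of_lt_of_le ?_ (hαc c))
    exact mul_pos hα (sum_sq_pos hc)
  · rw [hU' c, hG' c, (hdU' c).qf_eq_bf, nsq_ofReal (hdU' c).wp.mu,
      ← ENNReal.ofReal_toReal ht1', ← ENNReal.ofReal_mul ENNReal.toReal_nonneg]
    apply ENNReal.ofReal_le_ofReal
    have hI : 0 ≤ ∫ x, U c x ^ 2 := integral_nonneg fun x => sq_nonneg _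
    calc _ ≤ E n * ∫ x, U c x ^ 2 := hup c
      _ ≤ (t1 * (1 - τ n / α)) * ∫ x, U c x ^ 2 := mul_le_mul_of_nonneg_right hn1.le hI
      _ = t1 * ((1 - τ n / α) * ∫ x, U c x ^ 2) := by ring
      _ ≤ t1 * ∫ x, (η x * U c x) ^ 2 :=
          mul_le_mul_of_nonneg_left (hlow c) (ht0n.trans ht01.le)

end Pool.Agent.Work.MP_2cde6c_an
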