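import Pool.Agent.Work.MP_2cde6c_an.ExistBox

set_option autoImplicit false

/-!
# Translations and removal of empty slabs
-/

open MeasureTheory Filter
open scoped ENNReal Topology ContDiff

namespace Pool.Agent.Work.MP_2cde6c_an

variable {d : ℕ}

/-- the folding map: identity below `t`, shift by one above -/
noncomputable def sig (i : Fin d) (t : ℝ) (x : Fin d → ℝ) : Fin d → ℝ :=
  if x i < t then x else x + Pi.single i (1 : ℝ)

/-- the slab `t ≤ x_i < t + 1` -/
def slab (i : Fin d) (t : ℝ) : Set (Fin d → ℝ) := {x | t ≤ x i ∧ x i < t + 1}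

theorem mem_slab (i : Fin d) (t : ℝ) (x : Fin d → ℝ) : x ∈ slab i t ↔ t ≤ x i ∧ x i < t + 1 :=
  Iff.rfl

theorem measurableSet_slab (i : Fin d) (t : ℝ) : MeasurableSet (slab i t) :=
  (measurableSet_le measurable_const (measurable_pi_apply i)).inter
    (measurableSet_lt (measurable_pi_apply i) measurable_const)

theorem measurable_sig (i : Fin d) (t : ℝ) : Measurable (sig i t) :=
  Measurable.ite (measurableSet_lt (measurable_pi_apply i) measurable_const) measurable_id
    (measurable_id.add_const _)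

theorem sig_mp (i : Fin d) (t : ℝ) :
    MeasurePreserving (sig i t) volume (volume.restrict (slab i t)ᶜ) := by
  refine ⟨measurable_sig i t, ?_⟩
  ext s hs
  rw [Measure.map_apply (measurable_sig i t) hs, Measure.restrict_apply hs]
  have mlt : MeasurableSet {x : Fin d → ℝ | x i < t} :=
    measurableSet_lt (measurable_pi_apply i) measurable_const
  have mge : MeasurableSet {x : Fin d → ℝ | t + 1 ≤ x i} :=
    measurableSet_le measurable_const (measurable_pi_apply i)
  have e1 : sig i t ⁻¹' s = (s ∩ {x | x i < t}) ∪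
      ((fun x => x + Pi.single i (1 : ℝ)) ⁻¹' (s ∩ {x | t + 1 ≤ x i})) := by
    ext x
    simp only [Set.mem_preimage, Set.mem_union, Set.mem_inter_iff, Set.mem_ofPred_eq, sig,
      Pi.add_apply, Pi.single_eq_same]
    by_cases hx : x i < t
    · rw [if_pos hx]
      constructor
      · intro h
        exact Or.inl ⟨h, hx⟩
      · rintro (h | h)
        · exact h.1
        · exact absurd h.2 (by linarith)
    · rw [if_neg hx]
      constructor
      · intro h
        exact Or.inr ⟨h, by linarith⟩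
      · rintro (h | h)
        · exact absurd h.2 hx
        · exact h.1
  have e2 : s ∩ (slab i t)ᶜ = (s ∩ {x | x i < t}) ∪ (s ∩ {x | t + 1 ≤ x i}) := by
    ext x
    simp only [Set.mem_union, Set.mem_inter_iff, Set.mem_ofPred_eq, Set.mem_compl_iff, mem_slab,
      not_and_or, not_le, not_lt]
    tauto
  rw [e1, e2, measure_union _ ((measurable_add_const _) (hs.inter mge)),
    measure_union _ (hs.inter mge)]
  · congr 1
    exact measure_preimage_add_right volume _ _
  · rw [Set.disjoint_left]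
    intro x hx hx'
    have h1 : x i < t := hx.2
    have h2 : t + 1 ≤ x i := hx'.2
    linarith
  · rw [Set.disjoint_left]
    intro x hx hx'
    have h1 : x i < t := hx.2
    have h2 : t + 1 ≤ (x + (Pi.single i (1 : ℝ) : Fin d → ℝ)) i := hx'.2
    rw [Pi.add_apply, Pi.single_eq_same] at h2
    linarith

theorem sig_ae (i : Fin d) (t : ℝ) {P : (Fin d → ℝ) → Prop}
    (h : ∀ᵐ x ∂(volume : Measure (Fin d → ℝ)), P x) :
    ∀ᵐ x ∂(volume : Measure (Fin d → ℝ)), P (sig i t x) :=
  (sig_mp i t).quasiMeasurePreserving.ae (ae_restrict_of_ae h)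

theorem sig_memLp (i : Fin d) (t : ℝ) {f : (Fin d → ℝ) → ℝ} (hf : MemLp f 2 volume) :
    MemLp (fun x => f (sig i t x)) 2 volume :=
  (hf.restrict _).comp_measurePreserving (sig_mp i t)

theorem sig_lintegral (i : Fin d) (t : ℝ) {f : (Fin d → ℝ) → ℝ≥0∞} (hf : AEMeasurable f volume) :
    ∫⁻ x, f (sig i t x) = ∫⁻ x in (slab i t)ᶜ, f x := by
  rw [← (sig_mp i t).map_eq, lintegral_map' _ (measurable_sig i t).aemeasurable]
  rw [(sig_mp i t).map_eq]
  exact hf.restrict

theorem sig_lintegral_le (i : Fin d) (t : ℝ) {f : (Fin d → ℝ) → ℝ≥0∞}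
    (hf : AEMeasurable f volume) : ∫⁻ x, f (sig i t x) ≤ ∫⁻ x, f x := by
  rw [sig_lintegral i t hf]
  exact setLIntegral_le_lintegral _ _

theorem sig_lintegral_eq (i : Fin d) (t : ℝ) {f : (Fin d → ℝ) → ℝ≥0∞}
    (hf : AEMeasurable f volume)
    (h0 : ∀ᵐ x ∂(volume : Measure (Fin d → ℝ)), x ∈ slab i t → f x = 0) :
    ∫⁻ x, f (sig i t x) = ∫⁻ x, f x := by
  rw [sig_lintegral i t hf, ← lintegral_indicator (measurableSet_slab i t).compl]
  apply lintegral_congr_ae
  filter_upwards [h0] with x hx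
  by_cases hxs : x ∈ slab i t
  · rw [Set.indicator_of_notMem (by simpa using hxs), hx hxs]
  · rw [Set.indicator_of_mem hxs]

theorem sig_integral_eq (i : Fin d) (t : ℝ) {f : (Fin d → ℝ) → ℝ}
    (hf : AEStronglyMeasurable f volume)
    (h0 : ∀ᵐ x ∂(volume : Measure (Fin d → ℝ)), x ∈ slab i t → f x = 0) :
    ∫ x, f (sig i t x) = ∫ x, f x := by
  have h1 : ∫ x, f (sig i t x) = ∫ x in (slab i t)ᶜ, f x := by
    rw [← (sig_mp i t).map_eq, integral_map (measurable_sig i t).aemeasurable]
    rw [(sig_mp i t).map_eq]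
    exact hf.restrict
  rw [h1, ← integral_indicator (measurableSet_slab i t).compl]
  apply integral_congr_ae
  filter_upwards [h0] with x hx
  by_cases hxs : x ∈ slab i t
  · rw [Set.indicator_of_notMem (by simpa using hxs), hx hxs]
  · rw [Set.indicator_of_mem hxs]

/-- the unfolded test function -/
noncomputable def unfold' (i : Fin d) (t : ℝ) (φ : (Fin d → ℝ) → ℝ) (x : Fin d → ℝ) : ℝ :=
  Real.smoothTransition (2 - 3 * (x i - t)) * φ x
    + (1 - Real.smoothTransition (2 - 3 * (x i - t))) * φ (x - Pi.single i (1 : ℝ))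

theorem unfold'_TF (i : Fin d) (t : ℝ) {φ : (Fin d → ℝ) → ℝ} (hφ : TF φ) :
    TF (unfold' i t φ) := by
  have hs : ContDiff ℝ ((⊤ : ℕ∞) : WithTop ℕ∞)
      (fun x : Fin d → ℝ => Real.smoothTransition (2 - 3 * (x i - t))) := by
    refine Real.smoothTransition.contDiff.comp ?_
    exact contDiff_const.sub (contDiff_const.mul ((contDiff_apply ℝ ℝ i).sub contDiff_const))
  exact (hφ.mul_smooth hs).add ((hφ.comp_sub (Pi.single i (1 : ℝ))).mul_smooth
    (contDiff_const.sub hs))

theorem unfold'_low {i : Fin d} {t : ℝ} {φ : (Fin d → ℝ) → ℝ} {x : Fin d → ℝ}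
    (hx : x i ≤ t + 1 / 3) : unfold' i t φ x = φ x := by
  rw [unfold', Real.smoothTransition.one_of_one_le (by linarith)]
  ring

theorem unfold'_high {i : Fin d} {t : ℝ} {φ : (Fin d → ℝ) → ℝ} {x : Fin d → ℝ}
    (hx : t + 2 / 3 ≤ x i) : unfold' i t φ x = φ (x - Pi.single i (1 : ℝ)) := by
  rw [unfold', Real.smoothTransition.zero_of_nonpos (by linarith)]
  ring

theorem unfold'_sig (i : Fin d) (t : ℝ) (φ : (Fin d → ℝ) → ℝ) (x : Fin d → ℝ) :
    unfold' i t φ (sig i t x) = φ x := by
  unfold sig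
  split_ifs with h
  · exact unfold'_low (by linarith)
  · rw [unfold'_high]
    · rw [add_sub_cancel_right]
    · rw [Pi.add_apply, Pi.single_eq_same]
      linarith

theorem fderiv_unfold'_sig (i : Fin d) (t : ℝ) (φ : (Fin d → ℝ) → ℝ) (x v : Fin d → ℝ) :
    fderiv ℝ (unfold' i t φ) (sig i t x) v = fderiv ℝ φ x v := by
  unfold sig
  split_ifs with h
  · have : unfold' i t φ =ᶠ[𝓝 x] φ := by
      have hopen : IsOpen {y : Fin d → ℝ | y i < t + 1 / 3} :=
        isOpen_lt (continuous_apply i) continuous_const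
      filter_upwards [hopen.mem_nhds (show x ∈ {y : Fin d → ℝ | y i < t + 1 / 3} by
        change x i < t + 1 / 3; linarith)] with y hy
      have hy' : y i < t + 1 / 3 := hy
      exact unfold'_low hy'.le
    rw [this.fderiv_eq]
  · have : unfold' i t φ =ᶠ[𝓝 (x + Pi.single i (1 : ℝ))]
        fun y => φ (y - Pi.single i (1 : ℝ)) := by
      have hopen : IsOpen {y : Fin d → ℝ | t + 2 / 3 < y i} :=
        isOpen_lt continuous_const (continuous_apply i)
      filter_upwards [hopen.mem_nhds (show x + Pi.single i (1 : ℝ) ∈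
        {y : Fin d → ℝ | t + 2 / 3 < y i} by
          change t + 2 / 3 < (x + (Pi.single i (1 : ℝ) : Fin d → ℝ)) i
          rw [Pi.add_apply, Pi.single_eq_same]
          linarith)] with y hy
      have hy' : t + 2 / 3 < y i := hy
      exact unfold'_high hy'.le
    rw [this.fderiv_eq, fderiv_comp_sub', add_sub_cancel_right]

theorem ae_ne_hyperplane (i : Fin d) (t : ℝ) :
    ∀ᵐ x ∂(volume : Measure (Fin d → ℝ)), x i ≠ t := by
  rw [ae_iff]
  simp only [not_not]
  exact Measure.pi_hyperplane (fun _ => (volume : Measure ℝ)) i t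

theorem WP.grad_slab {u : (Fin d → ℝ) → ℝ} {g : Fin d → (Fin d → ℝ) → ℝ} (h : WP u g)
    {i : Fin d} {t : ℝ}
    (h0 : ∀ᵐ x ∂(volume : Measure (Fin d → ℝ)), x ∈ slab i t → u x = 0) (l : Fin d) :
    ∀ᵐ x ∂(volume : Measure (Fin d → ℝ)), x ∈ slab i t → g l x = 0 := by
  have hopen : IsOpen {x : Fin d → ℝ | t < x i ∧ x i < t + 1} :=
    (isOpen_lt continuous_const (continuous_apply i)).inter
      (isOpen_lt (continuous_apply i) continuous_const)
  have h1 := h.grad_zero hopen (by
    filter_upwards [h0] with x hx hxU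
    exact hx ⟨hxU.1.le, hxU.2⟩) l
  filter_upwards [h1, ae_ne_hyperplane i t] with x hx hne hxs
  exact hx ⟨lt_of_le_of_ne hxs.1 (Ne.symm hne), hxs.2⟩

theorem WP.fold {u : (Fin d → ℝ) → ℝ} {g : Fin d → (Fin d → ℝ) → ℝ} (h : WP u g)
    {i : Fin d} {t : ℝ}
    (h0 : ∀ᵐ x ∂(volume : Measure (Fin d → ℝ)), x ∈ slab i t → u x = 0) :
    WP (fun x => u (sig i t x)) (fun l x => g l (sig i t x)) := by
  refine ⟨sig_memLp i t h.mu, fun l => sig_memLp i t (h.mg l), ?_⟩
  intro l φ hφ
  have hT := unfold'_TF i t hφ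
  have e1 : ∫ x, u (sig i t x) * fderiv ℝ φ x (Pi.single l (1 : ℝ))
      = ∫ x, u x * fderiv ℝ (unfold' i t φ) x (Pi.single l (1 : ℝ)) := by
    rw [← sig_integral_eq i t (f := fun x => u x *
      fderiv ℝ (unfold' i t φ) x (Pi.single l (1 : ℝ)))
      (h.mu.1.mul (hT.fderiv_continuous _).aestronglyMeasurable)]
    · simp only [fderiv_unfold'_sig]
    · filter_upwards [h0] with x hx hxs
      rw [hx hxs, zero_mul]
  have e2 : ∫ x, g l (sig i t x) * φ x = ∫ x, g l x * unfold' i t φ x := by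
    rw [← sig_integral_eq i t (f := fun x => g l x * unfold' i t φ x)
      ((h.mg l).1.mul hT.1.continuous.aestronglyMeasurable)]
    · simp only [unfold'_sig]
    · filter_upwards [h.grad_slab h0 l] with x hx hxs
      rw [hx hxs, zero_mul]
  rw [e1, e2]
  exact h.wk l _ hT

theorem Dom.fold {V : (Fin d → ℝ) → ℝ≥0∞} {u : (Fin d → ℝ) → ℝ}
    {g : Fin d → (Fin d → ℝ) → ℝ} (h : Dom V u g) {i : Fin d} {t : ℝ}
    (h0 : ∀ᵐ x ∂(volume : Measure (Fin d → ℝ)), x ∈ slab i t → u x = 0) :
    Dom (fun x => V (sig i t x)) (fun x => u (sig i t x)) (fun l x => g l (sig i t x)) :=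
  ⟨h.wp.fold h0, sig_ae i t h.top, sig_memLp i t h.mw⟩

/-- Folding away an empty slab does not increase the min-max value. -/
theorem lamK_fold {V : (Fin d → ℝ) → ℝ≥0∞} (hV : Measurable V) {n : ℕ}
    {u : Fin (n + 1) → (Fin d → ℝ) → ℝ}
    {g : Fin (n + 1) → Fin d → (Fin d → ℝ) → ℝ} {lm : Fin (n + 1) → ℝ} (h : IsEig V u g lm)
    {i : Fin d} {t : ℝ}
    (h0 : ∀ j, ∀ᵐ x ∂(volume : Measure (Fin d → ℝ)), x ∈ slab i t → u j x = 0) :
    lamK (n + 1) (fun x => V (sig i t x)) ≤ ENNReal.ofReal (lm (Fin.last n)) := by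
  have hn : ∀ c : Fin (n + 1) → ℝ, nsq (fun x => ∑ j, c j * u j (sig i t x))
      = nsq (fun x => ∑ j, c j * u j x) := by
    intro c
    have hm : AEMeasurable (fun x => ENNReal.ofReal ((∑ j, c j * u j x) ^ 2)) volume :=
      ENNReal.measurable_ofReal.comp_aemeasurable
        ((Dom.sum h.dom c).wp.mu.1.aemeasurable.pow_const 2)
    refine sig_lintegral_eq i t hm ?_
    have : ∀ᵐ x ∂(volume : Measure (Fin d → ℝ)), ∀ j, x ∈ slab i t → u j x = 0 :=
      ae_all_iff.2 h0
    filter_upwards [this] with x hx hxs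
    have : ∑ j, c j * u j x = 0 := Finset.sum_eq_zero fun j _ => by rw [hx j hxs, mul_zero]
    rw [this]
    simp
  refine lamK_le (fun j => (h.dom j).fold (h0 j)) (fun c hc => ?_) (fun c _ => ?_)
  · rw [hn c]
    exact h.indep hc
  · rw [hn c, h.nsq_sum, ← ENNReal.ofReal_mul (h.nonneg _)]
    have h1 : qf (fun x => V (sig i t x)) (fun x => ∑ j, c j * u j (sig i t x))
        (fun l x => ∑ j, c j * g j l (sig i t x))
        ≤ qf V (fun x => ∑ j, c j * u j x) (fun l x => ∑ j, c j * g j l x) := by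
      unfold qf
      refine sig_lintegral_le i t (f := fun x =>
        (∑ l, ENNReal.ofReal ((∑ j, c j * g j l x) ^ 2))
          + V x * ENNReal.ofReal ((∑ j, c j * u j x) ^ 2)) ?_
      refine AEMeasurable.add (Finset.aemeasurable_fun_sum _ fun l _ => ?_)
        (hV.aemeasurable.mul ?_)
      · exact ENNReal.measurable_ofReal.comp_aemeasurable
          (((Dom.sum h.dom c).wp.mg l).1.aemeasurable.pow_const 2)
      · exact ENNReal.measurable_ofReal.comp_aemeasurable
          ((Dom.sum h.dom c).wp.mu.1.aemeasurable.pow_const 2)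
    refine h1.trans ?_
    rw [(Dom.sum h.dom c).qf_eq_bf, h.bf_sum]
    apply ENNReal.ofReal_le_ofReal
    rw [Finset.mul_sum]
    refine Finset.sum_le_sum fun j _ => ?_
    exact mul_le_mul_of_nonneg_right (h.mono (Fin.le_last j)) (sq_nonneg _)

/-- the box with integer side lengths -/
def Box (L : Fin d → ℕ) : Set (Fin d → ℝ) := {x | ∀ i, 0 ≤ x i ∧ x i < L i}

theorem mem_Box (L : Fin d → ℕ) (x : Fin d → ℝ) : x ∈ Box L ↔ ∀ i, 0 ≤ x i ∧ x i < L i := Iff.rfl

theorem isBounded_Box (L : Fin d → ℕ) : Bornology.IsBounded (Box L) := by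
  refine (Metric.isBounded_iff_subset_closedBall 0).2 ⟨∑ i, (L i : ℝ), fun x hx => ?_⟩
  rw [mem_closedBall_zero_iff, pi_norm_le_iff_of_nonneg
    (Finset.sum_nonneg fun i _ => Nat.cast_nonneg _)]
  intro i
  rw [Real.norm_eq_abs, abs_of_nonneg (hx i).1]
  exact (hx i).2.le.trans (Finset.single_le_sum (f := fun i => (L i : ℝ))
    (fun i _ => Nat.cast_nonneg _) (Finset.mem_univ i))

theorem measurableSet_Box (L : Fin d → ℕ) : MeasurableSet (Box L) := by
  have : Box L = ⋂ i, {x : Fin d → ℝ | 0 ≤ x i ∧ x i < L i} := by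
    ext x
    simp [mem_Box]
  rw [this]
  exact MeasurableSet.iInter fun i =>
    (measurableSet_le measurable_const (measurable_pi_apply i)).inter
      (measurableSet_lt (measurable_pi_apply i) measurable_const)

theorem Adm.mono {p : ℝ} {S S' : Set (Fin d → ℝ)} (h : S ⊆ S') {V : (Fin d → ℝ) → ℝ≥0∞}
    (hV : Adm p S V) : Adm p S' V :=
  ⟨hV.meas, fun x hx => hV.out x fun hc => hx (h hc), hV.int⟩

/-- Folding an admissible potential. -/
theorem Adm.fold {p : ℝ} {L : Fin d → ℕ} {V : (Fin d → ℝ) → ℝ≥0∞} (hV : Adm p (Box L) V)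
    {i : Fin d} {t : ℕ} (ht : t < L i) :
    Adm p (Box (Function.update L i (L i - 1))) (fun x => V (sig i t x)) := by
  refine ⟨hV.meas.comp (measurable_sig i t), fun x hx => ?_, ?_⟩
  · apply hV.out
    intro hc
    apply hx
    rw [mem_Box] at hc ⊢
    intro l
    have hcl := hc l
    by_cases hl : l = i
    · subst hl
      rw [Function.update_self]
      have hcast : ((L l - 1 : ℕ) : ℝ) = (L l : ℝ) - 1 := by
        rw [Nat.cast_sub (by omega)]; simp
      rw [hcast]
      unfold sig at hcl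
      split_ifs at hcl with hlt
      · refine ⟨hcl.1, hlt.trans_le ?_⟩
        have : (t : ℝ) + 1 ≤ L l := by exact_mod_cast ht
        linarith
      · rw [Pi.add_apply, Pi.single_eq_same] at hcl
        rw [not_lt] at hlt
        exact ⟨(Nat.cast_nonneg t).trans hlt, by linarith [hcl.2]⟩
    · rw [Function.update_of_ne hl]
      unfold sig at hcl
      split_ifs at hcl with hlt
      · exact hcl
      · rw [Pi.add_apply, Pi.single_eq_of_ne hl, add_zero] at hcl
        exact hcl
  · refine le_trans ?_ hV.int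
    exact sig_lintegral_le i t (f := fun x => V x ^ (-p)) (hV.meas.pow_const _).aemeasurable

/-! ### shifts -/

theorem Dom.shift {V : (Fin d → ℝ) → ℝ≥0∞} {u : (Fin d → ℝ) → ℝ}
    {g : Fin d → (Fin d → ℝ) → ℝ} (h : Dom V u g) (a : Fin d → ℝ) :
    Dom (fun x => V (x + a)) (fun x => u (x + a)) (fun i x => g i (x + a)) := by
  have mp : MeasurePreserving (fun x : Fin d → ℝ => x + a) volume volume :=
    measurePreserving_add_right volume a
  exact ⟨h.wp.shift a, mp.quasiMeasurePreserving.ae h.top, h.mw.comp_measurePreserving mp⟩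

theorem lamK_shift_le {k : ℕ} {V : (Fin d → ℝ) → ℝ≥0∞} (hV : Measurable V) (a : Fin d → ℝ)
    {t : ℝ≥0∞} (ht : lamK k V < t) : lamK k (fun x => V (x + a)) ≤ t := by
  obtain ⟨u, g, hd, hind, hq⟩ := exists_of_lamK_lt hV ht
  have hn : ∀ c : Fin k → ℝ, nsq (fun x => ∑ j, c j * u j (x + a))
      = nsq (fun x => ∑ j, c j * u j x) := fun c =>
    lintegral_add_right_eq_self (μ := volume)
      (fun x : Fin d → ℝ => ENNReal.ofReal ((∑ j, c j * u j x) ^ 2)) a
  refine lamK_le (fun j => (hd j).shift a) (fun c hc => ?_) (fun c hc => ?_)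
  · rw [hn c]; exact hind c hc
  · rw [hn c]
    refine le_trans (le_of_eq ?_) (hq c hc)
    exact lintegral_add_right_eq_self (μ := volume) (fun x : Fin d → ℝ =>
        (∑ l, ENNReal.ofReal ((∑ j, c j * g j l x) ^ 2))
          + V x * ENNReal.ofReal ((∑ j, c j * u j x) ^ 2)) a

theorem Adm.shift {p : ℝ} {S : Set (Fin d → ℝ)} {V : (Fin d → ℝ) → ℝ≥0∞} (hV : Adm p S V)
    (a : Fin d → ℝ) : Adm p {x | x + a ∈ S} (fun x => V (x + a)) := by
  refine ⟨hV.meas.comp (measurable_add_const a), fun x hx => hV.out _ hx, ?_⟩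
  rw [lintegral_add_right_eq_self (μ := volume) (fun x : Fin d → ℝ => V x ^ (-p)) a]
  exact hV.int

end Pool.Agent.Work.MP_2cde6c_an
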