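import Pool.Agent.Work.MP_2cde6c_an.DeGiorgi
import Pool.Agent.Work.MP_2cde6c_an.Glue
import Pool.Agent.Work.MP_2cde6c_an.CutInf

set_option autoImplicit false

/-!
# Existence of optimal potentials on the whole space
-/

open MeasureTheory Filter
open scoped ENNReal Topology ContDiff

namespace Pool.Agent.Work.MP_2cde6c_an

variable {d : ℕ}

/-- the enlarged slab -/
def eslab (i : Fin d) (t : ℝ) : Set (Fin d → ℝ) := {x | t - 1 ≤ x i ∧ x i < t + 2}

theorem mem_eslab (i : Fin d) (t : ℝ) (x : Fin d → ℝ) :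
    x ∈ eslab i t ↔ t - 1 ≤ x i ∧ x i < t + 2 := Iff.rfl

theorem measurableSet_eslab (i : Fin d) (t : ℝ) : MeasurableSet (eslab i t) :=
  (measurableSet_le measurable_const (measurable_pi_apply i)).inter
    (measurableSet_lt (measurable_pi_apply i) measurable_const)

/-- Smallness on the enlarged slab forces vanishing on the slab. -/
theorem slab_zero {k : ℕ} {u : Fin k → (Fin d → ℝ) → ℝ} (hu : ∀ j, MemLp (u j) 2 volume)
    {ε₀ : ℝ} (hdg : ∀ a : Fin d → ℝ, (∫ x in Metric.closedBall a 1, ∑ j, u j x ^ 2) ≤ ε₀ →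
          ∫ x in Metric.closedBall a (1 / 2), ∑ j, u j x ^ 2 = 0)
    {i : Fin d} {t : ℝ} (h : ∫ x in eslab i t, ∑ j, u j x ^ 2 ≤ ε₀) (j : Fin k) :
    ∀ᵐ x ∂(volume : Measure (Fin d → ℝ)), x ∈ slab i t → u j x = 0 := by
  classical
  have hρi : Integrable (fun x => ∑ j, u j x ^ 2) volume :=
    integrable_finsetSum _ fun j _ => (hu j).integrable_sq
  have hρ0 : ∀ x, 0 ≤ ∑ j, u j x ^ 2 := fun x => Finset.sum_nonneg fun j _ => sq_nonneg _
  set a : (Fin d → ℤ) → (Fin d → ℝ) := fun z l => if l = i then t + 1 / 2 else (z l : ℝ) + 1 / 2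
    with ha
  have hz : ∀ z, ∀ᵐ x ∂(volume : Measure (Fin d → ℝ)), x ∈ Metric.closedBall (a z) (1 / 2) →
      ∑ j, u j x ^ 2 = 0 := by
    intro z
    have h1 : (∫ x in Metric.closedBall (a z) 1, ∑ j, u j x ^ 2) ≤ ε₀ := by
      refine le_trans ?_ h
      refine setIntegral_mono_set hρi.integrableOn (Eventually.of_forall fun x => hρ0 x)
        (Eventually.of_forall ?_)
      intro x hx
      have h2 : dist (x i) (a z i) ≤ 1 :=
        (dist_pi_le_iff zero_le_one).1 (Metric.mem_closedBall.1 hx) i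
      have h3 : a z i = t + 1 / 2 := by rw [ha]; simp
      rw [h3, Real.dist_eq, abs_le] at h2
      exact ⟨by linarith [h2.1], by linarith [h2.2]⟩
    have h2 := hdg (a z) h1
    rw [setIntegral_eq_zero_iff_of_nonneg_ae (Eventually.of_forall fun x => hρ0 x)
      hρi.integrableOn] at h2
    rw [EventuallyEq, ae_restrict_iff' measurableSet_closedBall] at h2
    exact h2
  have hall : ∀ᵐ x ∂(volume : Measure (Fin d → ℝ)), ∀ z, x ∈ Metric.closedBall (a z) (1 / 2) →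
      ∑ j, u j x ^ 2 = 0 := ae_all_iff.2 hz
  filter_upwards [hall] with x hx hxs
  have hmem : x ∈ Metric.closedBall (a fun l => ⌊x l⌋) (1 / 2) := by
    rw [Metric.mem_closedBall, dist_pi_le_iff (by norm_num)]
    intro l
    rw [Real.dist_eq, abs_le]
    by_cases hl : l = i
    · have h3 : a (fun l => ⌊x l⌋) l = t + 1 / 2 := by rw [ha]; simp [hl]
      rw [h3, hl]
      have h4 := hxs.1
      have h5 := hxs.2
      constructor <;> linarith
    · have h3 : a (fun l => ⌊x l⌋) l = (⌊x l⌋ : ℝ) + 1 / 2 := by rw [ha]; simp [hl]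
      rw [h3]
      have h4 := Int.floor_le (x l)
      have h5 := Int.lt_floor_add_one (x l)
      constructor <;> linarith
  have h6 := hx _ hmem
  have h7 := (Finset.sum_eq_zero_iff_of_nonneg (fun j _ => sq_nonneg (u j x))).1 h6 j
    (Finset.mem_univ j)
  exact pow_eq_zero_iff (two_ne_zero) |>.1 h7

/-- Counting: many slabs cannot all carry mass. -/
theorem exists_small_slab {k : ℕ} {u : Fin k → (Fin d → ℝ) → ℝ} (hu : ∀ j, MemLp (u j) 2 volume)
    (hint : ∫ x, ∑ j, u j x ^ 2 = k) {ε₀ : ℝ} (i : Fin d) {R : ℕ}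
    (hR : 3 * (k : ℝ) < R * ε₀) : ∃ t : ℕ, t < R ∧ ∫ x in eslab i t, ∑ j, u j x ^ 2 ≤ ε₀ := by
  classical
  by_contra hcon
  push Not at hcon
  have hρi : Integrable (fun x => ∑ j, u j x ^ 2) volume :=
    integrable_finsetSum _ fun j _ => (hu j).integrable_sq
  have hρ0 : ∀ x, 0 ≤ ∑ j, u j x ^ 2 := fun x => Finset.sum_nonneg fun j _ => sq_nonneg _
  have h1 : (R : ℝ) * ε₀ ≤ ∑ t ∈ Finset.range R, ∫ x in eslab i t, ∑ j, u j x ^ 2 := by
    have : (R : ℝ) * ε₀ = ∑ _t ∈ Finset.range R, ε₀ := by simp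
    rw [this]
    exact Finset.sum_le_sum fun t ht => (hcon t (Finset.mem_range.1 ht)).le
  have h2 : ∑ t ∈ Finset.range R, ∫ x in eslab i t, ∑ j, u j x ^ 2 ≤ 3 * k := by
    have e1 : ∀ t : ℕ, ∫ x in eslab i t, ∑ j, u j x ^ 2
        = ∫ x, (eslab i t).indicator (fun x => ∑ j, u j x ^ 2) x := fun t =>
      (integral_indicator (measurableSet_eslab i t)).symm
    simp only [e1]
    rw [← integral_finsetSum (Finset.range R) (f := fun (t : ℕ) (x : Fin d → ℝ) =>
      (eslab i (t : ℝ)).indicator (fun x => ∑ j, u j x ^ 2) x)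
      (fun t _ => hρi.indicator (measurableSet_eslab i t)), ← hint, ← integral_const_mul]
    refine integral_mono (integrable_finsetSum _ fun t _ =>
      hρi.indicator (measurableSet_eslab i t)) (hρi.const_mul _) fun x => ?_
    simp only
    have e2 : ∑ t ∈ Finset.range R, (eslab i (t : ℝ)).indicator (fun x => ∑ j, u j x ^ 2) x
        = ∑ t ∈ (Finset.range R).filter (fun t : ℕ => x ∈ eslab i (t : ℝ)), ∑ j, u j x ^ 2 := by
      rw [Finset.sum_filter]
      rfl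
    rw [e2, Finset.sum_const, nsmul_eq_mul]
    refine mul_le_mul_of_nonneg_right ?_ (hρ0 x)
    have hcard : ((Finset.range R).filter (fun t : ℕ => x ∈ eslab i (t : ℝ))).card
        ≤ (Finset.Icc (⌊x i⌋ - 1) (⌊x i⌋ + 1)).card := by
      refine Finset.card_le_card_of_injOn (fun t : ℕ => (t : ℤ)) ?_ ?_
      · intro t ht
        have ht' : t ∈ (Finset.range R).filter (fun t : ℕ => x ∈ eslab i (t : ℝ)) := ht
        rw [Finset.mem_filter] at ht'
        have h3 := ht'.2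
        rw [mem_eslab] at h3
        simp only [Finset.coe_Icc, Set.mem_Icc]
        constructor
        · have h4 : (⌊x i⌋ : ℝ) < t + 2 := (Int.floor_le _).trans_lt h3.2
          have h5 : ⌊x i⌋ < (t : ℤ) + 2 := by exact_mod_cast h4
          omega
        · have h4 : (((t : ℤ) - 1 : ℤ) : ℝ) ≤ x i := by push_cast; exact h3.1
          have h5 := Int.le_floor.2 h4
          omega
      · intro t _ t' _ h
        have h' : (t : ℤ) = (t' : ℤ) := h
        exact_mod_cast h'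
    have hc3 : (Finset.Icc (⌊x i⌋ - 1) (⌊x i⌋ + 1)).card = 3 := by
      rw [Int.card_Icc]
      have : ⌊x i⌋ + 1 + 1 - (⌊x i⌋ - 1) = 3 := by ring
      rw [this]
      rfl
    rw [hc3] at hcard
    exact_mod_cast hcard
  linarith

/-- Reduction of one side of the box. -/
theorem reduce_side {p : ℝ} (hp : 0 < p) (hp1 : p ≤ 1) (n : ℕ) {ε₀ Λ : ℝ}
    (hdg : ∀ (S : Set (Fin d → ℝ)) (V : (Fin d → ℝ) → ℝ≥0∞), Adm p S V →
      (∀ W, Adm p S W → lamK (n + 1) V ≤ lamK (n + 1) W) →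
      ∀ (u : Fin (n + 1) → (Fin d → ℝ) → ℝ) (g : Fin (n + 1) → Fin d → (Fin d → ℝ) → ℝ)
        (lm : Fin (n + 1) → ℝ), IsEig V u g lm →
        lamK (n + 1) V = ENNReal.ofReal (lm (Fin.last n)) → lm (Fin.last n) ≤ Λ →
        ∀ a : Fin d → ℝ, (∫ x in Metric.closedBall a 1, ∑ j, u j x ^ 2) ≤ ε₀ →
          ∫ x in Metric.closedBall a (1 / 2), ∑ j, u j x ^ 2 = 0)
    (hΛ0 : 0 ≤ Λ) {L : Fin d → ℕ} {i : Fin d} (hL : 3 * ((n + 1 : ℕ) : ℝ) < L i * ε₀)
    {W : (Fin d → ℝ) → ℝ≥0∞} (hW : Adm p (Box L) W) (hWΛ : lamK (n + 1) W ≤ ENNReal.ofReal Λ) :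
    ∃ W', Adm p (Box (Function.update L i (L i - 1))) W' ∧ lamK (n + 1) W' ≤ lamK (n + 1) W := by
  obtain ⟨V, hV, hmin⟩ := exists_opt_box hp hp1 (isBounded_Box L) (measurableSet_Box L) n
  have hVW := hmin W hW
  have hVfin : lamK (n + 1) V < ⊤ := (hVW.trans hWΛ).trans_lt ENNReal.ofReal_lt_top
  obtain ⟨u, g, lm, hE, hlam⟩ := exists_isEig hV.meas (isBounded_Box L) hV.out hVfin
  have hlmΛ : lm (Fin.last n) ≤ Λ := by
    have h1 := hVW.trans hWΛ
    rw [hlam] at h1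
    exact (ENNReal.ofReal_le_ofReal_iff hΛ0).1 h1
  have hu : ∀ j, MemLp (u j) 2 volume := fun j => (hE.dom j).wp.mu
  have hint : ∫ x, ∑ j, u j x ^ 2 = ((n + 1 : ℕ) : ℝ) := by
    rw [integral_finsetSum _ fun j _ => (hu j).integrable_sq]
    have : ∀ j, ∫ x, u j x ^ 2 = 1 := fun j => by
      have := hE.on j j
      rw [if_pos rfl] at this
      rw [← this]
      simp only [sq]
    simp [this]
  obtain ⟨t, htR, ht⟩ := exists_small_slab hu hint i hL
  have hz := fun j => slab_zero hu (hdg _ V hV hmin u g lm hE hlam hlmΛ) ht j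
  refine ⟨fun x => V (sig i t x), hV.fold htR, ?_⟩
  refine (lamK_fold hV.meas hE hz).trans ?_
  rw [← hlam]
  exact hVW

/-- Reduction to a fixed box. -/
theorem reduce_box {p : ℝ} (hp : 0 < p) (hp1 : p ≤ 1) (n : ℕ) {ε₀ Λ : ℝ} (hε₀ : 0 < ε₀)
    (hdg : ∀ (S : Set (Fin d → ℝ)) (V : (Fin d → ℝ) → ℝ≥0∞), Adm p S V →
      (∀ W, Adm p S W → lamK (n + 1) V ≤ lamK (n + 1) W) →
      ∀ (u : Fin (n + 1) → (Fin d → ℝ) → ℝ) (g : Fin (n + 1) → Fin d → (Fin d → ℝ) → ℝ)
        (lm : Fin (n + 1) → ℝ), IsEig V u g lm →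
        lamK (n + 1) V = ENNReal.ofReal (lm (Fin.last n)) → lm (Fin.last n) ≤ Λ →
        ∀ a : Fin d → ℝ, (∫ x in Metric.closedBall a 1, ∑ j, u j x ^ 2) ≤ ε₀ →
          ∫ x in Metric.closedBall a (1 / 2), ∑ j, u j x ^ 2 = 0)
    (hΛ0 : 0 ≤ Λ) {N : ℕ} (hN : 3 * ((n + 1 : ℕ) : ℝ) < N * ε₀) :
    ∀ (m : ℕ) (L : Fin d → ℕ), ∑ i, L i ≤ m → ∀ (W : (Fin d → ℝ) → ℝ≥0∞), Adm p (Box L) W →
      lamK (n + 1) W ≤ ENNReal.ofReal Λ →
      ∃ W' : (Fin d → ℝ) → ℝ≥0∞, Adm p (Box fun _ : Fin d => N) W' ∧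
        lamK (n + 1) W' ≤ lamK (n + 1) W := by
  intro m
  induction m with
  | zero =>
    intro L hL W hW _
    refine ⟨W, hW.mono ?_, le_rfl⟩
    intro x hx i
    have h0 : L i = 0 := by
      have := Finset.single_le_sum (f := L) (fun i _ => Nat.zero_le _) (Finset.mem_univ i)
      omega
    have h1 := hx i
    rw [h0] at h1
    refine ⟨h1.1, h1.2.trans_le ?_⟩
    simp
  | succ m ih =>
    intro L hL W hW hWΛ
    by_cases hall : ∀ i, L i ≤ N
    · refine ⟨W, hW.mono ?_, le_rfl⟩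
      intro x hx i
      refine ⟨(hx i).1, (hx i).2.trans_le ?_⟩
      exact_mod_cast hall i
    · push Not at hall
      obtain ⟨i, hi⟩ := hall
      have hLi : 3 * ((n + 1 : ℕ) : ℝ) < L i * ε₀ := by
        refine hN.trans_le (mul_le_mul_of_nonneg_right ?_ hε₀.le)
        exact_mod_cast hi.le
      obtain ⟨W', hW', hle⟩ := reduce_side hp hp1 n hdg hΛ0 hLi hW hWΛ
      obtain ⟨W'', hW'', hle'⟩ := ih _ (by
        have h1 : ∑ l, Function.update L i (L i - 1) l < ∑ l, L l := by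
          apply Finset.sum_lt_sum
          · intro l _
            by_cases hl : l = i
            · subst hl; rw [Function.update_self]; omega
            · rw [Function.update_of_ne hl]
          · exact ⟨i, Finset.mem_univ i, by rw [Function.update_self]; omega⟩
        omega) W' hW' (hle.trans hWΛ)
      exact ⟨W'', hW'', hle'.trans hle⟩

/-- Existence of optimal potentials on the whole space. -/
theorem exists_opt {p : ℝ} (hp : 0 < p) (hp1 : p ≤ 1) (n : ℕ) :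
    ∃ V : (Fin d → ℝ) → ℝ≥0∞, Measurable V ∧ ∫⁻ x, V x ^ (-p) ≤ 1 ∧
      (∃ R : ℝ, ∀ x, R < ‖x‖ → V x = ⊤) ∧
      ∀ W : (Fin d → ℝ) → ℝ≥0∞, Measurable W → ∫⁻ x, W x ^ (-p) ≤ 1 →
        lamK (n + 1) V ≤ lamK (n + 1) W := by
  by_cases hex : ∃ W₀ : (Fin d → ℝ) → ℝ≥0∞, Measurable W₀ ∧ ∫⁻ x, W₀ x ^ (-p) ≤ 1 ∧
      lamK (n + 1) W₀ < ⊤
  · obtain ⟨W₀, hW₀m, hW₀p, hW₀⟩ := hex
    set Λ : ℝ := (lamK (n + 1) W₀).toReal + 1 with hΛ
    have hΛ0 : 0 ≤ Λ := by have : 0 ≤ (lamK (n + 1) W₀).toReal := ENNReal.toReal_nonneg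
                           linarith
    have hW₀Λ : lamK (n + 1) W₀ < ENNReal.ofReal Λ := by
      rw [ENNReal.lt_ofReal_iff_toReal_lt hW₀.ne, hΛ]
      linarith
    obtain ⟨ε₀, hε₀, hdg⟩ := de_giorgi d hp hp1 n hΛ0
    obtain ⟨N, hN⟩ := exists_nat_gt (3 * ((n + 1 : ℕ) : ℝ) / ε₀)
    rw [div_lt_iff₀ hε₀] at hN
    obtain ⟨V, hV, hmin⟩ := exists_opt_box hp hp1 (isBounded_Box (fun _ : Fin d => N))
      (measurableSet_Box _) n
    -- the key comparison
    have hkey : ∀ W : (Fin d → ℝ) → ℝ≥0∞, Measurable W → ∫⁻ x, W x ^ (-p) ≤ 1 →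
        ∀ t : ℝ≥0∞, lamK (n + 1) W < t → t ≤ ENNReal.ofReal Λ → lamK (n + 1) V ≤ t := by
      intro W hWm hWp t ht htΛ
      obtain ⟨R, W', hW', hlt⟩ := exists_conf hp hWm hWp ht
      set a : Fin d → ℝ := fun _ => -(R : ℝ) with ha
      have hW'' := hW'.shift a
      have hW''t := lamK_shift_le hW'.meas a hlt
      have hsub : {x : Fin d → ℝ | x + a ∈ Metric.closedBall (0 : Fin d → ℝ) (R : ℝ)}
          ⊆ Box (fun _ => 2 * R + 1) := by
        intro x hx i
        have h1 : x + a ∈ Metric.closedBall (0 : Fin d → ℝ) (R : ℝ) := hx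
        rw [mem_closedBall_zero_iff, pi_norm_le_iff_of_nonneg (Nat.cast_nonneg R)] at h1
        have h2 := h1 i
        rw [Pi.add_apply, Real.norm_eq_abs, abs_le] at h2
        have h3 : a i = -(R : ℝ) := rfl
        rw [h3] at h2
        push_cast
        constructor <;> linarith [h2.1, h2.2]
      obtain ⟨W₃, hW₃, hle⟩ := reduce_box hp hp1 n hε₀ hdg hΛ0 hN _ _ le_rfl _ (hW''.mono hsub)
        (hW''t.trans htΛ)
      exact (hmin W₃ hW₃).trans (hle.trans hW''t)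
    refine ⟨V, hV.meas, hV.int, ?_, fun W hWm hWp => ?_⟩
    · obtain ⟨R, hR⟩ := (isBounded_Box (fun _ : Fin d => N)).subset_closedBall 0
      refine ⟨R, fun x hx => hV.out x fun hc => ?_⟩
      have := hR hc
      rw [mem_closedBall_zero_iff] at this
      exact absurd hx (not_lt.2 this)
    · rcases lt_or_ge (lamK (n + 1) W) (ENNReal.ofReal Λ) with hlt | hge
      · apply le_of_forall_gt_imp_ge_of_dense
        intro t ht
        refine (hkey W hWm hWp (min t (ENNReal.ofReal Λ)) (lt_min ht hlt)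
          (min_le_right _ _)).trans (min_le_left _ _)
      · exact (hkey W₀ hW₀m hW₀p _ hW₀Λ le_rfl).trans hge
  · push Not at hex
    refine ⟨fun _ => ⊤, measurable_const, ?_, ⟨0, fun _ _ => rfl⟩, fun W hWm hWp => ?_⟩
    · exact (adm_top hp (Set.univ : Set (Fin d → ℝ))).int
    · have := hex W hWm hWp
      rw [top_le_iff] at this
      rw [this]
      exact le_top

end Pool.Agent.Work.MP_2cde6c_an
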