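import Mathlib

set_option autoImplicit false

/-!
# Strongly convergent convex combinations of tails
-/

open Filter
open scoped Topology

namespace Pool.Agent.Work.MP_2cde6c_an

variable {𝓗 : Type*} [NormedAddCommGroup 𝓗] [InnerProductSpace ℝ 𝓗]

/-- convex combinations of the tail -/
def tailComb (x : ℕ → 𝓗) (n : ℕ) : Set 𝓗 :=
  {y | ∃ (s : Finset ℕ) (w : ℕ → ℝ), (∀ m ∈ s, n ≤ m) ∧ (∀ m, 0 ≤ w m) ∧ (∀ m, m ∉ s → w m = 0) ∧
    ∑ m ∈ s, w m = 1 ∧ y = ∑ m ∈ s, w m • x m}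

theorem convex_tailComb (x : ℕ → 𝓗) (n : ℕ) : Convex ℝ (tailComb x n) := by
  classical
  rintro _ ⟨s, w, hs, hw, hw0, hw1, rfl⟩ _ ⟨s', w', hs', hw', hw0', hw1', rfl⟩ a b ha hb hab
  have e1 : ∀ (f : ℕ → 𝓗), ∑ m ∈ s, w m • f m = ∑ m ∈ s ∪ s', w m • f m := fun f =>
    Finset.sum_subset Finset.subset_union_left fun m _ hm => by rw [hw0 m hm, zero_smul]
  have e2 : ∀ (f : ℕ → 𝓗), ∑ m ∈ s', w' m • f m = ∑ m ∈ s ∪ s', w' m • f m := fun f =>
    Finset.sum_subset Finset.subset_union_right fun m _ hm => by rw [hw0' m hm, zero_smul]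
  have e3 : ∑ m ∈ s, w m = ∑ m ∈ s ∪ s', w m :=
    Finset.sum_subset Finset.subset_union_left fun m _ hm => hw0 m hm
  have e4 : ∑ m ∈ s', w' m = ∑ m ∈ s ∪ s', w' m :=
    Finset.sum_subset Finset.subset_union_right fun m _ hm => hw0' m hm
  refine ⟨s ∪ s', fun m => a * w m + b * w' m, ?_, ?_, ?_, ?_, ?_⟩
  · intro m hm
    rcases Finset.mem_union.1 hm with h | h
    · exact hs m h
    · exact hs' m h
  · intro m
    exact add_nonneg (mul_nonneg ha (hw m)) (mul_nonneg hb (hw' m))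
  · intro m hm
    rw [Finset.mem_union, not_or] at hm
    change a * w m + b * w' m = 0
    rw [hw0 m hm.1, hw0' m hm.2, mul_zero, mul_zero, add_zero]
  · rw [Finset.sum_add_distrib, ← Finset.mul_sum, ← Finset.mul_sum, ← e3, ← e4, hw1, hw1',
      mul_one, mul_one, hab]
  · rw [e1, e2, Finset.smul_sum, Finset.smul_sum, ← Finset.sum_add_distrib]
    refine Finset.sum_congr rfl fun m _ => ?_
    rw [add_smul, mul_smul, mul_smul]

theorem mem_tailComb (x : ℕ → 𝓗) (n : ℕ) : x n ∈ tailComb x n := by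
  refine ⟨{n}, fun m => if m = n then 1 else 0, by simp, fun m => by dsimp only; split_ifs <;> norm_num, ?_,
    by simp, by simp⟩
  intro m hm
  rw [Finset.mem_singleton] at hm
  simp [hm]

theorem tailComb_anti (x : ℕ → 𝓗) {n m : ℕ} (h : n ≤ m) : tailComb x m ⊆ tailComb x n := by
  rintro _ ⟨s, w, hs, hw, hw0, hw1, rfl⟩
  exact ⟨s, w, fun l hl => h.trans (hs l hl), hw, hw0, hw1, rfl⟩

theorem mazur [CompleteSpace 𝓗] (x : ℕ → 𝓗) {C : ℝ} (hx : ∀ n, ‖x n‖ ≤ C) :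
    ∃ (s : ℕ → Finset ℕ) (w : ℕ → ℕ → ℝ) (y : 𝓗), (∀ n, ∀ m ∈ s n, n ≤ m) ∧
      (∀ n m, 0 ≤ w n m) ∧ (∀ n, ∑ m ∈ s n, w n m = 1) ∧
      Tendsto (fun n => ∑ m ∈ s n, w n m • x m) atTop (𝓝 y) := by
  have hex : ∀ n, ∃ v ∈ closure (tailComb x n), ∀ z ∈ closure (tailComb x n), ‖v‖ ≤ ‖z‖ := by
    intro n
    obtain ⟨v, hv, hmin⟩ := exists_norm_eq_iInf_of_complete_convex
      (K := closure (tailComb x n)) ⟨x n, subset_closure (mem_tailComb x n)⟩
      isClosed_closure.isComplete (convex_tailComb x n).closure (0 : 𝓗)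
    refine ⟨v, hv, fun z hz => ?_⟩
    have h1 : (⨅ w : closure (tailComb x n), ‖(0 : 𝓗) - w‖) ≤ ‖(0 : 𝓗) - z‖ :=
      ciInf_le ⟨0, by rintro _ ⟨w, rfl⟩; exact norm_nonneg _⟩ (⟨z, hz⟩ : closure (tailComb x n))
    rw [← hmin] at h1
    simpa using h1
  choose v hv hmin using hex
  have hmono : Monotone fun n => ‖v n‖ := by
    intro n m hnm
    exact hmin n _ (closure_mono (tailComb_anti x hnm) (hv m))
  have hbdd : ∀ n, ‖v n‖ ≤ C := fun n =>
    (hmin n _ (subset_closure (mem_tailComb x n))).trans (hx n)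
  have hconv : ∃ r, Tendsto (fun n => ‖v n‖) atTop (𝓝 r) :=
    ⟨_, tendsto_atTop_ciSup hmono ⟨C, by rintro _ ⟨n, rfl⟩; exact hbdd n⟩⟩
  obtain ⟨r, hr⟩ := hconv
  have hkey : ∀ n m, n ≤ m → ‖v n - v m‖ ^ 2 ≤ 2 * ‖v m‖ ^ 2 - 2 * ‖v n‖ ^ 2 := by
    intro n m hnm
    have h1 := parallelogram_law_with_norm ℝ (v n) (v m)
    have hmem : (1 / 2 : ℝ) • v n + (1 / 2 : ℝ) • v m ∈ closure (tailComb x n) :=
      (convex_tailComb x n).closure (hv n) (closure_mono (tailComb_anti x hnm) (hv m))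
        (by norm_num) (by norm_num) (by norm_num)
    have h2 := hmin n _ hmem
    rw [← smul_add, norm_smul, Real.norm_eq_abs] at h2
    have h3 : |(1 / 2 : ℝ)| = 1 / 2 := abs_of_pos (by norm_num)
    rw [h3] at h2
    have h4 : 2 * ‖v n‖ ≤ ‖v n + v m‖ := by linarith
    have h5 : (2 * ‖v n‖) ^ 2 ≤ ‖v n + v m‖ ^ 2 :=
      pow_le_pow_left₀ (by positivity) h4 2
    nlinarith
  have hcau : CauchySeq v := by
    rw [Metric.cauchySeq_iff']
    intro δ hδ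
    have h2 : Tendsto (fun n => ‖v n‖ ^ 2) atTop (𝓝 (r ^ 2)) := hr.pow 2
    have h3 : CauchySeq (fun n => ‖v n‖ ^ 2) := h2.cauchySeq
    rw [Metric.cauchySeq_iff'] at h3
    obtain ⟨N, hN⟩ := h3 (δ ^ 2 / 2) (by positivity)
    refine ⟨N, fun n hn => ?_⟩
    have h4 := hN n hn
    rw [Real.dist_eq, abs_lt] at h4
    have h5 := hkey N n hn
    rw [dist_comm, dist_eq_norm]
    have h6 : ‖v N - v n‖ ^ 2 < δ ^ 2 := by linarith
    exact lt_of_pow_lt_pow_left₀ 2 hδ.le h6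
  obtain ⟨y, hy⟩ := cauchySeq_tendsto_of_complete hcau
  have happ : ∀ n : ℕ, ∃ z ∈ tailComb x n, dist (v n) z < 1 / ((n : ℝ) + 1) := fun n =>
    Metric.mem_closure_iff.1 (hv n) _ (by positivity)
  choose z hz hdz using happ
  choose s w hs hw hw0 hw1 hzw using hz
  refine ⟨s, w, y, hs, hw, hw1, ?_⟩
  have h1 : Tendsto z atTop (𝓝 y) := by
    rw [tendsto_iff_dist_tendsto_zero] at hy ⊢
    have h2 : Tendsto (fun n : ℕ => 1 / ((n : ℝ) + 1) + dist (v n) y) atTop (𝓝 (0 + 0)) :=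
      tendsto_one_div_add_atTop_nhds_zero_nat.add hy
    rw [add_zero] at h2
    refine squeeze_zero (fun n => dist_nonneg) (fun n => ?_) h2
    calc dist (z n) y ≤ dist (z n) (v n) + dist (v n) y := dist_triangle _ _ _
      _ ≤ _ := by
        rw [dist_comm (z n) (v n)]
        exact add_le_add (hdz n).le le_rfl
  refine h1.congr fun n => ?_
  exact hzw n

end Pool.Agent.Work.MP_2cde6c_an
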