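import Pool.Agent.Work.MP_2cde6c_an.Eig
import Pool.Agent.Work.MP_2cde6c_an.Mazur

set_option autoImplicit false

/-!
# Convex combinations of sequences of `L²` functions
-/

open MeasureTheory Filter
open scoped ENNReal Topology ContDiff

namespace Pool.Agent.Work.MP_2cde6c_an

variable {d : ℕ}

theorem exists_ae_subseq {ι : Type} [Fintype ι] {f : ℕ → ι → (Fin d → ℝ) → ℝ}
    {F : ι → (Fin d → ℝ) → ℝ} (hf : ∀ n i, MemLp (f n i) 2 volume)
    (hF : ∀ i, MemLp (F i) 2 volume)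
    (h : ∀ i, Tendsto (fun n => eLpNorm (fun x => f n i x - F i x) 2 volume) atTop (𝓝 0)) :
    ∃ φ : ℕ → ℕ, StrictMono φ ∧ ∀ᵐ x ∂(volume : Measure (Fin d → ℝ)), ∀ i,
      Tendsto (fun n => f (φ n) i x) atTop (𝓝 (F i x)) := by
  set D : ℕ → (Fin d → ℝ) → ℝ := fun n x => ∑ i, |f n i x - F i x| with hD
  have hm : ∀ n i, MemLp (fun x => |f n i x - F i x|) 2 volume := fun n i =>
    ((hf n i).sub (hF i)).abs
  have hDm : ∀ n, MemLp (D n) 2 volume := fun n => memLp_finsetSum _ fun i _ => hm n i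
  have ht : Tendsto (fun n => eLpNorm (D n - fun _ => 0) 2 volume) atTop (𝓝 0) := by
    have h1 : Tendsto (fun n => ∑ i, eLpNorm (fun x => |f n i x - F i x|) 2 volume) atTop
        (𝓝 (∑ _i : ι, 0)) := by
      refine tendsto_finsetSum _ fun i _ => ?_
      refine (h i).congr fun n => ?_
      exact (eLpNorm_norm (fun x => f n i x - F i x)).symm
    rw [Finset.sum_const_zero] at h1
    refine tendsto_of_tendsto_of_tendsto_of_le_of_le tendsto_const_nhds h1
      (fun n => zero_le) (fun n => ?_)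
    have e : (D n - fun _ => (0 : ℝ)) = ∑ i, fun x => |f n i x - F i x| := by
      funext x
      simp [hD]
    rw [e]
    exact eLpNorm_sum_le (fun i _ => (hm n i).1) (by norm_num)
  have h2 : TendstoInMeasure volume D atTop (fun _ => (0 : ℝ)) :=
    tendstoInMeasure_of_tendsto_eLpNorm (by norm_num) (fun n => (hDm n).1)
      aestronglyMeasurable_const ht
  obtain ⟨φ, hφ, hae⟩ := h2.exists_seq_tendsto_ae
  refine ⟨φ, hφ, ?_⟩
  filter_upwards [hae] with x hx i
  rw [tendsto_iff_norm_sub_tendsto_zero]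
  refine squeeze_zero (fun n => norm_nonneg _) (fun n => ?_) hx
  rw [Real.norm_eq_abs]
  exact Finset.single_le_sum (f := fun i => |f (φ n) i x - F i x|) (fun i _ => abs_nonneg _)
    (Finset.mem_univ i)

theorem comb_coe {f : ℕ → (Fin d → ℝ) → ℝ} (hf : ∀ m, MemLp (f m) 2 volume) (s : Finset ℕ)
    (w : ℕ → ℝ) : ((∑ m ∈ s, w m • (hf m).toLp (f m) :
      Lp ℝ 2 (volume : Measure (Fin d → ℝ))) : (Fin d → ℝ) → ℝ)
      =ᵐ[volume] fun x => ∑ m ∈ s, w m * f m x := by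
  have e2 : ∀ᵐ x ∂(volume : Measure (Fin d → ℝ)), ∀ m,
      (w m • (hf m).toLp (f m) : Lp ℝ 2 (volume : Measure (Fin d → ℝ))) x = w m * f m x := by
    rw [ae_all_iff]
    intro m
    filter_upwards [Lp.coeFn_smul (w m) ((hf m).toLp (f m)), (hf m).coeFn_toLp] with x h1 h2
    rw [h1, Pi.smul_apply, smul_eq_mul, h2]
  filter_upwards [Lp.coeFn_finsetSum s (fun m => w m • (hf m).toLp (f m)), e2] with x h1 h2
  rw [h1, Finset.sum_apply]
  exact Finset.sum_congr rfl fun m _ => h2 m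

theorem comb_memLp {f : ℕ → (Fin d → ℝ) → ℝ} (hf : ∀ m, MemLp (f m) 2 volume) (s : Finset ℕ)
    (w : ℕ → ℝ) : MemLp (fun x => ∑ m ∈ s, w m * f m x) 2 volume :=
  memLp_finsetSum _ fun m _ => (hf m).const_mul _

/-- Mazur for finite families of `L²` functions, with a.e. convergence. -/
theorem mazur_fun {ι : Type} [Fintype ι] (f : ℕ → ι → (Fin d → ℝ) → ℝ)
    (hf : ∀ m i, MemLp (f m i) 2 volume) {C : ℝ≥0∞} (hC : C ≠ ⊤) (hb : ∀ m i, nsq (f m i) ≤ C) :
    ∃ (s : ℕ → Finset ℕ) (w : ℕ → ℕ → ℝ) (F : ι → (Fin d → ℝ) → ℝ),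
      (∀ n, ∀ m ∈ s n, n ≤ m) ∧ (∀ n m, 0 ≤ w n m) ∧ (∀ n, ∑ m ∈ s n, w n m = 1) ∧
      (∀ i, MemLp (F i) 2 volume) ∧ (∀ i, Measurable (F i)) ∧
      (∀ i, Tendsto (fun n => eLpNorm (fun x => (∑ m ∈ s n, w n m * f m i x) - F i x) 2 volume)
        atTop (𝓝 0)) ∧
      (∀ᵐ x ∂(volume : Measure (Fin d → ℝ)), ∀ i,
        Tendsto (fun n => ∑ m ∈ s n, w n m * f m i x) atTop (𝓝 (F i x))) := by
  classical
  let X : ℕ → PiLp 2 (fun _ : ι => Lp ℝ 2 (volume : Measure (Fin d → ℝ))) := fun m =>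
    WithLp.toLp 2 (fun i => (hf m i).toLp (f m i))
  have hXb : ∀ m, ‖X m‖ ≤ Real.sqrt (Fintype.card ι * C.toReal) := by
    intro m
    apply Real.le_sqrt_of_sq_le
    rw [PiLp.norm_sq_eq_of_L2]
    calc ∑ i, ‖X m i‖ ^ 2 ≤ ∑ _i : ι, C.toReal := by
          refine Finset.sum_le_sum fun i _ => ?_
          have h1 : ENNReal.ofReal (‖X m i‖ ^ 2) ≤ C := by
            rw [Lp_nsq, nsq_congr ((hf m i).coeFn_toLp)]
            exact hb m i
          exact (ENNReal.ofReal_le_iff_le_toReal hC).1 h1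
      _ = Fintype.card ι * C.toReal := by simp
  obtain ⟨s, w, Y, hs, hw, hw1, hlim⟩ := mazur X hXb
  have hcoord : ∀ i, Tendsto (fun n => ∑ m ∈ s n, w n m • (hf m i).toLp (f m i)) atTop
      (𝓝 (Y i)) := by
    intro i
    have := ((PiLp.continuous_apply 2 (fun _ : ι =>
      Lp ℝ 2 (volume : Measure (Fin d → ℝ))) i).tendsto Y).comp hlim
    refine this.congr fun n => ?_
    simp only [Function.comp]
    rw [WithLp.ofLp_sum, Finset.sum_apply]
    rfl
  have hYm : ∀ i, MemLp (Y i : (Fin d → ℝ) → ℝ) 2 volume := fun i => Lp.memLp _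
  have hcoord' : ∀ i, Tendsto (fun n => eLpNorm (fun x => (∑ m ∈ s n, w n m * f m i x)
      - Y i x) 2 volume) atTop (𝓝 0) := by
    intro i
    have h1 := (Lp.tendsto_Lp_iff_tendsto_eLpNorm' _ _).1 (hcoord i)
    refine h1.congr fun n => ?_
    apply eLpNorm_congr_ae
    filter_upwards [comb_coe (fun m => hf m i) (s n) (w n)] with x hx
    rw [Pi.sub_apply, hx]
  obtain ⟨φ, hφ, hae⟩ := exists_ae_subseq
    (f := fun n i x => ∑ m ∈ s n, w n m * f m i x) (F := fun i => Y i)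
    (fun n i => comb_memLp (fun m => hf m i) _ _) hYm hcoord'
  refine ⟨fun n => s (φ n), fun n => w (φ n), fun i => Y i, ?_, fun n m => hw _ _,
    fun n => hw1 _, hYm, fun i => (Lp.stronglyMeasurable (Y i)).measurable, fun i => ?_, hae⟩
  · intro n m hm
    exact (hφ.id_le n).trans (hs _ m hm)
  · exact (hcoord' i).comp hφ.tendsto_atTop

/-- Convex combinations of tails of a convergent sequence converge. -/
theorem comb_tendsto {f : ℕ → (Fin d → ℝ) → ℝ} {F : (Fin d → ℝ) → ℝ}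
    (hf : ∀ m, MemLp (f m) 2 volume) (hF : MemLp F 2 volume)
    (h : Tendsto (fun n => eLpNorm (fun x => f n x - F x) 2 volume) atTop (𝓝 0))
    {s : ℕ → Finset ℕ} {w : ℕ → ℕ → ℝ} (hs : ∀ n, ∀ m ∈ s n, n ≤ m) (hw : ∀ n m, 0 ≤ w n m)
    (hw1 : ∀ n, ∑ m ∈ s n, w n m = 1) :
    Tendsto (fun n => eLpNorm (fun x => (∑ m ∈ s n, w n m * f m x) - F x) 2 volume)
      atTop (𝓝 0) := by
  rw [ENNReal.tendsto_atTop_zero] at h ⊢
  intro ε hε
  obtain ⟨N, hN⟩ := h ε hε
  refine ⟨N, fun n hn => ?_⟩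
  have e : (fun x => (∑ m ∈ s n, w n m * f m x) - F x)
      = ∑ m ∈ s n, fun x => w n m * (f m x - F x) := by
    funext x
    rw [Finset.sum_apply]
    simp only [mul_sub, Finset.sum_sub_distrib]
    rw [← Finset.sum_mul, hw1, one_mul]
  rw [e]
  refine (eLpNorm_sum_le (fun m _ => (((hf m).sub hF).const_mul _).1) (by norm_num)).trans ?_
  calc ∑ m ∈ s n, eLpNorm (fun x => w n m * (f m x - F x)) 2 volume
      ≤ ∑ m ∈ s n, ENNReal.ofReal (w n m) * ε := by
        refine Finset.sum_le_sum fun m hm => ?_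
        have h1 : eLpNorm (fun x => w n m * (f m x - F x)) 2 volume
            = ENNReal.ofReal (w n m) * eLpNorm (fun x => f m x - F x) 2 volume := by
          have := eLpNorm_const_smul (w n m) (fun x => f m x - F x) 2
            (volume : Measure (Fin d → ℝ))
          rw [Real.enorm_eq_ofReal (hw n m)] at this
          exact this
        rw [h1]
        gcongr
        exact hN m (hn.trans (hs n m hm))
    _ = ε := by
        rw [← Finset.sum_mul, ← ENNReal.ofReal_sum_of_nonneg fun m _ => hw n m, hw1]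
        simp

/-- Fatou-type pointwise statement. -/
theorem liminf_comb_ge {y : ℕ → ℝ≥0∞} {yi : ℝ≥0∞} (hy : Tendsto y atTop (𝓝 yi)) (hyt : yi ≠ ⊤)
    {v : ℕ → ℝ≥0∞} {a : ℕ → ℝ≥0∞} {ai : ℝ≥0∞} (ha : Tendsto a atTop (𝓝 ai))
    {s : ℕ → Finset ℕ} {w : ℕ → ℕ → ℝ≥0∞} (hs : ∀ n, ∀ m ∈ s n, n ≤ m)
    (hav : ∀ n, a n ≤ ∑ m ∈ s n, w n m * v m) :
    ai * yi ≤ liminf (fun n => ∑ m ∈ s n, w n m * (v m * y m)) atTop := by
  apply ENNReal.le_of_forall_lt_one_mul_le
  intro r hr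
  by_cases hy0 : yi = 0
  · rw [hy0]; simp
  have hlt : r * yi < yi := by
    have := (ENNReal.mul_lt_mul_iff_left hy0 hyt).2 hr
    rwa [one_mul] at this
  have hev : ∀ᶠ n in atTop, r * yi < y n := hy.eventually (lt_mem_nhds hlt)
  obtain ⟨N, hN⟩ := eventually_atTop.1 hev
  have h1 : ∀ᶠ n in atTop, a n * (r * yi) ≤ ∑ m ∈ s n, w n m * (v m * y m) := by
    filter_upwards [eventually_ge_atTop N] with n hn
    calc a n * (r * yi) ≤ (∑ m ∈ s n, w n m * v m) * (r * yi) := by gcongr; exact hav n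
      _ = ∑ m ∈ s n, w n m * (v m * (r * yi)) := by
          rw [Finset.sum_mul]
          exact Finset.sum_congr rfl fun m _ => by ring
      _ ≤ ∑ m ∈ s n, w n m * (v m * y m) := by
          refine Finset.sum_le_sum fun m hm => ?_
          gcongr
          exact (hN m (hn.trans (hs n m hm))).le
  have hrt : r * yi ≠ ⊤ := (hlt.trans_le le_top).ne
  have h2 : Tendsto (fun n => a n * (r * yi)) atTop (𝓝 (ai * (r * yi))) :=
    ENNReal.Tendsto.mul_const ha (Or.inr hrt)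
  calc r * (ai * yi) = ai * (r * yi) := by ring
    _ = liminf (fun n => a n * (r * yi)) atTop := h2.liminf_eq.symm
    _ ≤ _ := liminf_le_liminf h1

end Pool.Agent.Work.MP_2cde6c_an
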