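import Mathlib

set_option autoImplicit false

/-!
# Scalar convexity facts for the parametrisation of potentials by `θ = 1/(1+V^p)`
-/

open Filter
open scoped ENNReal Topology

namespace Pool.Agent.Work.MP_2cde6c_an

/-- the bounded parameter -/
noncomputable def th (p : ℝ) (v : ℝ≥0∞) : ℝ := ((1 + v ^ p)⁻¹).toReal

/-- potential from the parameter -/
noncomputable def vof (p : ℝ) (θ : ℝ) : ℝ≥0∞ := ((ENNReal.ofReal θ)⁻¹ - 1) ^ (1 / p)

/-- `V^{-p}` from the parameter -/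
noncomputable def mof (θ : ℝ) : ℝ≥0∞ := ((ENNReal.ofReal θ)⁻¹ - 1)⁻¹

theorem th_nonneg (p : ℝ) (v : ℝ≥0∞) : 0 ≤ th p v := ENNReal.toReal_nonneg

theorem th_le_one (p : ℝ) (v : ℝ≥0∞) : th p v ≤ 1 := by
  rw [th]
  have h1 : (1 + v ^ p)⁻¹ ≤ 1 := by
    rw [ENNReal.inv_le_one]
    exact le_self_add
  have := ENNReal.toReal_mono (by norm_num) h1
  simpa using this

theorem th_top {p : ℝ} (hp : 0 < p) : th p ⊤ = 0 := by
  rw [th, ENNReal.top_rpow_of_pos hp]
  simp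

theorem measurable_th (p : ℝ) : Measurable (th p) := by
  have h0 : Measurable fun v : ℝ≥0∞ => v ^ p := ENNReal.continuous_rpow_const.measurable
  have h1 : Measurable fun v : ℝ≥0∞ => 1 + v ^ p := measurable_const.add h0
  exact h1.inv.ennreal_toReal

theorem measurable_vof (p : ℝ) : Measurable (vof p) := by
  unfold vof
  exact ((ENNReal.measurable_ofReal.inv).sub_const 1).pow_const _

theorem continuous_vof {p : ℝ} : Continuous (vof p) := by
  unfold vof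
  exact ENNReal.continuous_rpow_const.comp ((ENNReal.continuous_sub_right 1).comp
    (continuous_inv.comp ENNReal.continuous_ofReal))

theorem continuous_mof : Continuous mof := by
  unfold mof
  exact continuous_inv.comp ((ENNReal.continuous_sub_right 1).comp
    (continuous_inv.comp ENNReal.continuous_ofReal))

theorem vof_th {p : ℝ} (hp : 0 < p) (v : ℝ≥0∞) : vof p (th p v) = v := by
  have h1 : (1 + v ^ p)⁻¹ ≠ ⊤ := by
    rw [Ne, ENNReal.inv_eq_top]
    intro h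
    have := add_eq_zero.1 h
    exact one_ne_zero this.1
  rw [vof, th, ENNReal.ofReal_toReal h1, inv_inv, ENNReal.add_sub_cancel_left ENNReal.one_ne_top,
    ← ENNReal.rpow_mul, mul_one_div_cancel hp.ne', ENNReal.rpow_one]

theorem vof_zero {p : ℝ} (hp : 0 < p) : vof p 0 = ⊤ := by
  rw [vof]
  simp [hp]

theorem vof_rpow {p : ℝ} (hp : 0 < p) (θ : ℝ) : (vof p θ) ^ (-p) = mof θ := by
  rw [vof, mof, ← ENNReal.rpow_mul]
  have : 1 / p * -p = -1 := by field_simp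
  rw [this, ENNReal.rpow_neg_one]

theorem mof_th {p : ℝ} (hp : 0 < p) (v : ℝ≥0∞) : mof (th p v) = v ^ (-p) := by
  rw [← vof_rpow hp, vof_th hp]

theorem vof_eq_ofReal {p : ℝ} (hp : 0 < p) {θ : ℝ} (h0 : 0 < θ) (h1 : θ ≤ 1) :
    vof p θ = ENNReal.ofReal ((θ⁻¹ - 1) ^ (1 / p)) := by
  have h2 : 0 ≤ θ⁻¹ - 1 := by
    have := (one_le_inv₀ h0).2 h1
    linarith
  rw [vof, ← ENNReal.ofReal_inv_of_pos h0, ← ENNReal.ofReal_one,
    ← ENNReal.ofReal_sub _ zero_le_one, ENNReal.ofReal_rpow_of_nonneg h2 (by positivity)]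

theorem mof_eq_ofReal {θ : ℝ} (h0 : 0 ≤ θ) (h1 : θ < 1) :
    mof θ = ENNReal.ofReal ((1 - θ)⁻¹ - 1) := by
  rcases eq_or_lt_of_le h0 with h | h
  · rw [← h, mof]
    simp
  · have h2 : 0 < θ⁻¹ - 1 := by
      have := (one_lt_inv₀ h).2 h1
      linarith
    rw [mof, ← ENNReal.ofReal_inv_of_pos h, ← ENNReal.ofReal_one,
      ← ENNReal.ofReal_sub _ zero_le_one, ← ENNReal.ofReal_inv_of_pos h2]
    congr 1
    have h3 : 1 - θ ≠ 0 := by linarith
    have h4 : θ ≠ 0 := h.ne'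
    have h5 : θ⁻¹ - 1 = (1 - θ) / θ := by field_simp
    rw [h5]
    field_simp
    ring

theorem convexOn_v {p : ℝ} (hp : 0 < p) (hp1 : p ≤ 1) :
    ConvexOn ℝ (Set.Ioc (0 : ℝ) 1) fun θ => (θ⁻¹ - 1) ^ (1 / p) := by
  have h1 : ConvexOn ℝ (Set.Ioc (0 : ℝ) 1) fun θ : ℝ => θ⁻¹ - 1 := by
    have h2 : ConvexOn ℝ (Set.Ioi (0 : ℝ)) fun θ : ℝ => θ⁻¹ := by
      have := convexOn_zpow (𝕜 := ℝ) (-1)
      simpa using this
    have h3 := (h2.subset (fun x hx => hx.1) (convex_Ioc (0 : ℝ) 1)).add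
      (convexOn_const (-1 : ℝ) (convex_Ioc (0 : ℝ) 1))
    refine h3.congr fun x _ => ?_
    simp [sub_eq_add_neg]
  have himg : (fun θ : ℝ => θ⁻¹ - 1) '' Set.Ioc (0 : ℝ) 1 = Set.Ici 0 := by
    ext y
    constructor
    · rintro ⟨θ, ⟨h0, h1⟩, rfl⟩
      have := (one_le_inv₀ h0).2 h1
      simp only [Set.mem_Ici]
      linarith
    · intro hy
      rw [Set.mem_Ici] at hy
      refine ⟨(y + 1)⁻¹, ⟨by positivity, ?_⟩, ?_⟩
      · exact inv_le_one_of_one_le₀ (by linarith)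
      · simp
  have hq : 1 ≤ 1 / p := by
    rw [le_div_iff₀ hp]; linarith
  have h4 : ConvexOn ℝ ((fun θ : ℝ => θ⁻¹ - 1) '' Set.Ioc (0 : ℝ) 1)
      (fun x : ℝ => x ^ (1 / p)) := by
    rw [himg]; exact convexOn_rpow hq
  refine h4.comp h1 ?_
  rw [himg]
  intro x hx y _ hxy
  exact Real.rpow_le_rpow hx hxy (by positivity)

theorem convexOn_m : ConvexOn ℝ (Set.Ico (0 : ℝ) 1) fun θ => (1 - θ)⁻¹ - 1 := by
  have h2 : ConvexOn ℝ (Set.Ioi (0 : ℝ)) fun θ : ℝ => θ⁻¹ := by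
    have := convexOn_zpow (𝕜 := ℝ) (-1)
    simpa using this
  refine ⟨convex_Ico 0 1, ?_⟩
  intro x hx y hy a b ha hb hab
  have h3 := h2.2 (x := 1 - x) (y := 1 - y) (by simpa using hx.2) (by simpa using hy.2) ha hb hab
  simp only [smul_eq_mul] at h3 ⊢
  have e : a * (1 - x) + b * (1 - y) = 1 - (a * x + b * y) := by
    linear_combination hab
  rw [e] at h3
  linarith

theorem vof_convex {p : ℝ} (hp : 0 < p) (hp1 : p ≤ 1) {s : Finset ℕ} {w θ : ℕ → ℝ}
    (hw : ∀ m, 0 ≤ w m) (hw1 : ∑ m ∈ s, w m = 1) (h0 : ∀ m, 0 ≤ θ m) (h1 : ∀ m, θ m ≤ 1) :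
    vof p (∑ m ∈ s, w m * θ m) ≤ ∑ m ∈ s, ENNReal.ofReal (w m) * vof p (θ m) := by
  classical
  by_cases hex : ∃ m ∈ s, 0 < w m ∧ θ m = 0
  · obtain ⟨m, hm, hwm, hθ⟩ := hex
    have : ENNReal.ofReal (w m) * vof p (θ m) = ⊤ := by
      rw [hθ, vof_zero hp, ENNReal.mul_top]
      rw [Ne, ENNReal.ofReal_eq_zero, not_le]
      exact hwm
    have h2 : ENNReal.ofReal (w m) * vof p (θ m) ≤ ∑ m ∈ s, ENNReal.ofReal (w m) * vof p (θ m) :=
      Finset.single_le_sum (f := fun m => ENNReal.ofReal (w m) * vof p (θ m))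
        (fun _ _ => zero_le) hm
    rw [this, top_le_iff] at h2
    rw [h2]
    exact le_top
  · push Not at hex
    set s' := s.filter fun m => 0 < w m with hs'
    have hzero : ∀ m ∈ s, m ∉ s' → w m = 0 := by
      intro m hm hm'
      rw [hs', Finset.mem_filter, not_and] at hm'
      exact le_antisymm (not_lt.1 (hm' hm)) (hw m)
    have hsub : s' ⊆ s := Finset.filter_subset _ _
    have e1 : ∑ m ∈ s, w m * θ m = ∑ m ∈ s', w m * θ m :=
      (Finset.sum_subset hsub fun m hm hm' => by rw [hzero m hm hm', zero_mul]).symm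
    have e2 : ∑ m ∈ s, ENNReal.ofReal (w m) * vof p (θ m)
        = ∑ m ∈ s', ENNReal.ofReal (w m) * vof p (θ m) :=
      (Finset.sum_subset hsub fun m hm hm' => by rw [hzero m hm hm']; simp).symm
    have e3 : ∑ m ∈ s', w m = 1 := by
      rw [← hw1]
      exact Finset.sum_subset hsub fun m hm hm' => hzero m hm hm'
    have hpos : ∀ m ∈ s', 0 < θ m := by
      intro m hm
      rw [hs', Finset.mem_filter] at hm
      exact lt_of_le_of_ne (h0 m) (Ne.symm (hex m hm.1 hm.2))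
    have hmem : ∀ m ∈ s', θ m ∈ Set.Ioc (0 : ℝ) 1 := fun m hm => ⟨hpos m hm, h1 m⟩
    have hJ := (convexOn_v hp hp1).map_sum_le (t := s') (w := w) (p := θ) (fun m _ => hw m) e3 hmem
    have hmem2 : ∑ m ∈ s', w m • θ m ∈ Set.Ioc (0 : ℝ) 1 :=
      (convex_Ioc (0 : ℝ) 1).sum_mem (fun m _ => hw m) e3 hmem
    simp only [smul_eq_mul] at hJ hmem2
    rw [e1, e2, vof_eq_ofReal hp hmem2.1 hmem2.2]
    refine (ENNReal.ofReal_le_ofReal hJ).trans (le_of_eq ?_)
    rw [ENNReal.ofReal_sum_of_nonneg]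
    · refine Finset.sum_congr rfl fun m hm => ?_
      rw [ENNReal.ofReal_mul (hw m), vof_eq_ofReal hp (hmem m hm).1 (hmem m hm).2]
    · intro m hm
      refine mul_nonneg (hw m) (Real.rpow_nonneg ?_ _)
      have := (one_le_inv₀ (hmem m hm).1).2 (hmem m hm).2
      linarith

theorem mof_convex {s : Finset ℕ} {w θ : ℕ → ℝ}
    (hw : ∀ m, 0 ≤ w m) (hw1 : ∑ m ∈ s, w m = 1) (h0 : ∀ m, 0 ≤ θ m) (h1 : ∀ m, θ m ≤ 1) :
    mof (∑ m ∈ s, w m * θ m) ≤ ∑ m ∈ s, ENNReal.ofReal (w m) * mof (θ m) := by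
  classical
  by_cases hex : ∃ m ∈ s, 0 < w m ∧ θ m = 1
  · obtain ⟨m, hm, hwm, hθ⟩ := hex
    have : ENNReal.ofReal (w m) * mof (θ m) = ⊤ := by
      have hm1 : mof 1 = ⊤ := by simp [mof]
      rw [hθ, hm1, ENNReal.mul_top]
      rw [Ne, ENNReal.ofReal_eq_zero, not_le]
      exact hwm
    have h2 : ENNReal.ofReal (w m) * mof (θ m) ≤ ∑ m ∈ s, ENNReal.ofReal (w m) * mof (θ m) :=
      Finset.single_le_sum (f := fun m => ENNReal.ofReal (w m) * mof (θ m))
        (fun _ _ => zero_le) hm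
    rw [this, top_le_iff] at h2
    rw [h2]
    exact le_top
  · push Not at hex
    set s' := s.filter fun m => 0 < w m with hs'
    have hzero : ∀ m ∈ s, m ∉ s' → w m = 0 := by
      intro m hm hm'
      rw [hs', Finset.mem_filter, not_and] at hm'
      exact le_antisymm (not_lt.1 (hm' hm)) (hw m)
    have hsub : s' ⊆ s := Finset.filter_subset _ _
    have e1 : ∑ m ∈ s, w m * θ m = ∑ m ∈ s', w m * θ m :=
      (Finset.sum_subset hsub fun m hm hm' => by rw [hzero m hm hm', zero_mul]).symm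
    have e2 : ∑ m ∈ s, ENNReal.ofReal (w m) * mof (θ m)
        = ∑ m ∈ s', ENNReal.ofReal (w m) * mof (θ m) :=
      (Finset.sum_subset hsub fun m hm hm' => by rw [hzero m hm hm']; simp).symm
    have e3 : ∑ m ∈ s', w m = 1 := by
      rw [← hw1]
      exact Finset.sum_subset hsub fun m hm hm' => hzero m hm hm'
    have hlt : ∀ m ∈ s', θ m < 1 := by
      intro m hm
      rw [hs', Finset.mem_filter] at hm
      exact lt_of_le_of_ne (h1 m) (hex m hm.1 hm.2)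
    have hmem : ∀ m ∈ s', θ m ∈ Set.Ico (0 : ℝ) 1 := fun m hm => ⟨h0 m, hlt m hm⟩
    have hJ := convexOn_m.map_sum_le (t := s') (w := w) (p := θ) (fun m _ => hw m) e3 hmem
    have hmem2 : ∑ m ∈ s', w m • θ m ∈ Set.Ico (0 : ℝ) 1 :=
      (convex_Ico (0 : ℝ) 1).sum_mem (fun m _ => hw m) e3 hmem
    simp only [smul_eq_mul] at hJ hmem2
    rw [e1, e2, mof_eq_ofReal hmem2.1 hmem2.2]
    refine (ENNReal.ofReal_le_ofReal hJ).trans (le_of_eq ?_)
    rw [ENNReal.ofReal_sum_of_nonneg]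
    · refine Finset.sum_congr rfl fun m hm => ?_
      rw [ENNReal.ofReal_mul (hw m), mof_eq_ofReal (hmem m hm).1 (hmem m hm).2]
    · intro m hm
      refine mul_nonneg (hw m) ?_
      have h3 : 0 < 1 - θ m := by have := hlt m hm; linarith
      have h4 : 1 ≤ (1 - θ m)⁻¹ := (one_le_inv₀ h3).2 (by linarith [h0 m])
      linarith

end Pool.Agent.Work.MP_2cde6c_an
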