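import Pool.Agent.Work.MP_2cde6c_an.Eig

set_option autoImplicit false

/-!
# Smooth cutoffs with derivative bounds
-/

open MeasureTheory Filter
open scoped ENNReal Topology ContDiff

namespace Pool.Agent.Work.MP_2cde6c_an

variable {d : ℕ}

theorem smoothTransition_deriv_bound : ∃ C : ℝ, 0 < C ∧ ∀ x, |deriv Real.smoothTransition x| ≤ C := by
  have hsm : ContDiff ℝ 1 Real.smoothTransition := Real.smoothTransition.contDiff
  have hc : Continuous (deriv Real.smoothTransition) := hsm.continuous_deriv le_rfl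
  obtain ⟨C, hC⟩ := (isCompact_Icc (a := (-1 : ℝ)) (b := 2)).exists_bound_of_continuousOn
    hc.continuousOn
  refine ⟨max C 1, by positivity, fun x => ?_⟩
  by_cases hx : x ∈ Set.Icc (-1 : ℝ) 2
  · exact (hC x hx).trans (le_max_left _ _)
  · have : deriv Real.smoothTransition x = 0 := by
      rw [Set.mem_Icc, not_and_or, not_le, not_le] at hx
      rcases hx with hx | hx
      · have : Real.smoothTransition =ᶠ[𝓝 x] fun _ => 0 := by
          filter_upwards [gt_mem_nhds (show x < 0 by linarith)] with y hy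
          exact Real.smoothTransition.zero_of_nonpos hy.le
        rw [this.deriv_eq, deriv_const]
      · have : Real.smoothTransition =ᶠ[𝓝 x] fun _ => 1 := by
          filter_upwards [lt_mem_nhds (show (1 : ℝ) < x by linarith)] with y hy
          exact Real.smoothTransition.one_of_one_le hy.le
        rw [this.deriv_eq, deriv_const]
    rw [this, abs_zero]
    positivity

/-- one-dimensional plateau function -/
noncomputable def plat (r s t : ℝ) : ℝ :=
  Real.smoothTransition ((r + s - t) / s) * Real.smoothTransition ((r + s + t) / s)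

theorem plat_contDiff (r s : ℝ) : ContDiff ℝ ((⊤ : ℕ∞) : WithTop ℕ∞) (plat r s) := by
  unfold plat
  refine ContDiff.mul ?_ ?_
  · exact Real.smoothTransition.contDiff.comp
      ((contDiff_const.sub contDiff_id).div_const s)
  · exact Real.smoothTransition.contDiff.comp
      ((contDiff_const.add contDiff_id).div_const s)

theorem plat_nonneg (r s t : ℝ) : 0 ≤ plat r s t :=
  mul_nonneg (Real.smoothTransition.nonneg _) (Real.smoothTransition.nonneg _)

theorem plat_le_one (r s t : ℝ) : plat r s t ≤ 1 :=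
  mul_le_one₀ (Real.smoothTransition.le_one _) (Real.smoothTransition.nonneg _)
    (Real.smoothTransition.le_one _)

theorem plat_one {r s t : ℝ} (hs : 0 < s) (ht : |t| ≤ r) : plat r s t = 1 := by
  rw [abs_le] at ht
  rw [plat, Real.smoothTransition.one_of_one_le, Real.smoothTransition.one_of_one_le, one_mul]
  · rw [le_div_iff₀ hs]; linarith
  · rw [le_div_iff₀ hs]; linarith

theorem plat_zero {r s t : ℝ} (hs : 0 < s) (ht : r + s ≤ |t|) : plat r s t = 0 := by
  rcases le_or_gt 0 t with h | h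
  · rw [abs_of_nonneg h] at ht
    rw [plat, Real.smoothTransition.zero_of_nonpos, zero_mul]
    exact div_nonpos_of_nonpos_of_nonneg (by linarith) hs.le
  · rw [abs_of_neg h] at ht
    rw [plat, Real.smoothTransition.zero_of_nonpos (x := (r + s + t) / s), mul_zero]
    exact div_nonpos_of_nonpos_of_nonneg (by linarith) hs.le

theorem plat_deriv_bound {C : ℝ} (hC : ∀ x, |deriv Real.smoothTransition x| ≤ C) {r s : ℝ}
    (hs : 0 < s) (t : ℝ) : |deriv (plat r s) t| ≤ 2 * C / s := by
  have hsm : Differentiable ℝ Real.smoothTransition :=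
    (Real.smoothTransition.contDiff (n := 1)).differentiable (by simp)
  have h1 : HasDerivAt (fun t => (r + s - t) / s) (-1 / s) t := by
    have := ((hasDerivAt_id t).const_sub (r + s)).div_const s
    simpa using this
  have h2 : HasDerivAt (fun t => (r + s + t) / s) (1 / s) t := by
    have := ((hasDerivAt_id t).const_add (r + s)).div_const s
    simpa using this
  have h3 := (hsm ((r + s - t) / s)).hasDerivAt.comp t h1
  have h4 := (hsm ((r + s + t) / s)).hasDerivAt.comp t h2
  have h5 : HasDerivAt (plat r s) _ t := h3.mul h4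
  rw [h5.deriv]
  have hC0 : 0 ≤ C := (abs_nonneg _).trans (hC 0)
  refine (abs_add_le _ _).trans ?_
  have e1 : |deriv Real.smoothTransition ((r + s - t) / s) * (-1 / s) *
      (Real.smoothTransition ∘ fun t => (r + s + t) / s) t| ≤ C * (1 / s) * 1 := by
    rw [abs_mul, abs_mul]
    refine mul_le_mul (mul_le_mul (hC _) ?_ (abs_nonneg _) hC0) ?_ (abs_nonneg _) (by positivity)
    · rw [abs_div, abs_neg, abs_one, abs_of_pos hs]
    · rw [Function.comp, abs_of_nonneg (Real.smoothTransition.nonneg _)]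
      exact Real.smoothTransition.le_one _
  have e2 : |(Real.smoothTransition ∘ fun t => (r + s - t) / s) t *
      (deriv Real.smoothTransition ((r + s + t) / s) * (1 / s))| ≤ 1 * (C * (1 / s)) := by
    rw [abs_mul, abs_mul]
    refine mul_le_mul ?_ (mul_le_mul (hC _) ?_ (abs_nonneg _) hC0) (by positivity) (by positivity)
    · rw [Function.comp, abs_of_nonneg (Real.smoothTransition.nonneg _)]
      exact Real.smoothTransition.le_one _
    · rw [abs_div, abs_one, abs_of_pos hs]
  refine (add_le_add e1 e2).trans (le_of_eq ?_)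
  ring

/-- box plateau -/
noncomputable def bump (a : Fin d → ℝ) (r s : ℝ) (x : Fin d → ℝ) : ℝ :=
  ∏ i, plat r s (x i - a i)

theorem bump_contDiff (a : Fin d → ℝ) (r s : ℝ) :
    ContDiff ℝ ((⊤ : ℕ∞) : WithTop ℕ∞) (bump a r s) := by
  unfold bump
  refine contDiff_prod fun i _ => ?_
  exact (plat_contDiff r s).comp ((contDiff_apply ℝ ℝ i).sub contDiff_const)

theorem bump_nonneg (a : Fin d → ℝ) (r s : ℝ) (x : Fin d → ℝ) : 0 ≤ bump a r s x :=
  Finset.prod_nonneg fun _ _ => plat_nonneg _ _ _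

theorem bump_le_one (a : Fin d → ℝ) (r s : ℝ) (x : Fin d → ℝ) : bump a r s x ≤ 1 :=
  Finset.prod_le_one (fun _ _ => plat_nonneg _ _ _) fun _ _ => plat_le_one _ _ _

theorem bump_one {a : Fin d → ℝ} {r s : ℝ} (hr : 0 ≤ r) (hs : 0 < s) {x : Fin d → ℝ}
    (hx : dist x a ≤ r) : bump a r s x = 1 := by
  rw [bump]
  refine Finset.prod_eq_one fun i _ => plat_one hs ?_
  have := (dist_pi_le_iff hr).1 hx i
  rwa [Real.dist_eq] at this

theorem bump_zero {a : Fin d → ℝ} {r s : ℝ} (hr : 0 ≤ r) (hs : 0 < s) {x : Fin d → ℝ}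
    (hx : r + s ≤ dist x a) : bump a r s x = 0 := by
  have : ∃ i, r + s ≤ dist (x i) (a i) := by
    by_contra hcon
    push Not at hcon
    exact absurd ((dist_pi_lt_iff (by linarith)).2 hcon) (not_lt.2 hx)
  obtain ⟨i, hi⟩ := this
  rw [Real.dist_eq] at hi
  exact Finset.prod_eq_zero (Finset.mem_univ i) (plat_zero hs hi)

theorem bump_fderiv_bound {C : ℝ} (hC : ∀ x, |deriv Real.smoothTransition x| ≤ C)
    (a : Fin d → ℝ) {r s : ℝ} (hs : 0 < s) (i : Fin d) (x : Fin d → ℝ) :
    |fderiv ℝ (bump a r s) x (Pi.single i (1 : ℝ))| ≤ 2 * C / s := by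
  classical
  have hd : DifferentiableAt ℝ (bump a r s) x :=
    ((bump_contDiff a r s).differentiable (by simp)).differentiableAt
  have hline : HasDerivAt (fun t : ℝ => x + t • (Pi.single i (1 : ℝ) : Fin d → ℝ))
      (Pi.single i (1 : ℝ)) 0 := by
    have := ((hasDerivAt_id (0 : ℝ)).smul_const (Pi.single i (1 : ℝ) : Fin d → ℝ)).const_add x
    simpa using this
  have h1 : HasDerivAt (fun t : ℝ => bump a r s (x + t • (Pi.single i (1 : ℝ) : Fin d → ℝ)))
      (fderiv ℝ (bump a r s) x (Pi.single i (1 : ℝ))) 0 := by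
    have h2 : HasFDerivAt (bump a r s) (fderiv ℝ (bump a r s) x)
        (x + (0 : ℝ) • (Pi.single i (1 : ℝ) : Fin d → ℝ)) := by
      simpa using hd.hasFDerivAt
    have h3 := h2.comp_hasDerivAt (0 : ℝ) hline
    exact h3
  set P : ℝ := ∏ j ∈ Finset.univ.erase i, plat r s (x j - a j) with hP
  have hP0 : 0 ≤ P := Finset.prod_nonneg fun _ _ => plat_nonneg _ _ _
  have hP1 : P ≤ 1 := Finset.prod_le_one (fun _ _ => plat_nonneg _ _ _)
    fun _ _ => plat_le_one _ _ _
  have hfun : (fun t : ℝ => bump a r s (x + t • (Pi.single i (1 : ℝ) : Fin d → ℝ)))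
      = fun t => plat r s (x i - a i + t) * P := by
    funext t
    rw [bump, ← Finset.mul_prod_erase _ _ (Finset.mem_univ i)]
    congr 1
    · simp; ring_nf
    · refine Finset.prod_congr rfl fun j hj => ?_
      have : j ≠ i := Finset.ne_of_mem_erase hj
      simp [this]
  rw [hfun] at h1
  have h3 : HasDerivAt (fun t => plat r s (x i - a i + t) * P)
      (deriv (plat r s) (x i - a i) * P) 0 := by
    have h4 : HasDerivAt (plat r s) (deriv (plat r s) (x i - a i)) (x i - a i + 0) := by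
      rw [add_zero]
      exact (((plat_contDiff r s).differentiable (by simp)) _).hasDerivAt
    have h5 : HasDerivAt (fun t : ℝ => x i - a i + t) 1 0 := by
      simpa using (hasDerivAt_id (0 : ℝ)).const_add (x i - a i)
    have := (h4.comp (0 : ℝ) h5).mul_const P
    simpa using this
  rw [h1.unique h3, abs_mul, abs_of_nonneg hP0]
  have hb := plat_deriv_bound hC (r := r) hs (x i - a i)
  calc |deriv (plat r s) (x i - a i)| * P ≤ |deriv (plat r s) (x i - a i)| * 1 :=
        mul_le_mul_of_nonneg_left hP1 (abs_nonneg _)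
    _ ≤ 2 * C / s := by rw [mul_one]; exact hb

/-- Uniform cutoffs. -/
theorem exists_cutoff (d : ℕ) : ∃ C : ℝ, 0 < C ∧ ∀ (a : Fin d → ℝ) (r s : ℝ), 0 ≤ r → 0 < s →
    ∃ η : (Fin d → ℝ) → ℝ, ContDiff ℝ ((⊤ : ℕ∞) : WithTop ℕ∞) η ∧ (∀ x, 0 ≤ η x) ∧
      (∀ x, η x ≤ 1) ∧ (∀ x, dist x a ≤ r → η x = 1) ∧ (∀ x, r + s ≤ dist x a → η x = 0) ∧
      ∀ i x, |fderiv ℝ η x (Pi.single i (1 : ℝ))| ≤ C / s := by
  obtain ⟨C, hC0, hC⟩ := smoothTransition_deriv_bound
  refine ⟨2 * C, by positivity, fun a r s hr hs => ⟨bump a r s, bump_contDiff a r s,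
    bump_nonneg a r s, bump_le_one a r s, fun x hx => bump_one hr hs hx,
    fun x hx => bump_zero hr hs hx, fun i x => bump_fderiv_bound hC a hs i x⟩⟩

/-! ### cutting elements of the form domain -/

theorem Dom.cut {V V' : (Fin d → ℝ) → ℝ≥0∞} {u : (Fin d → ℝ) → ℝ}
    {g : Fin d → (Fin d → ℝ) → ℝ} (h : Dom V u g) {χ : (Fin d → ℝ) → ℝ}
    (hχ : ContDiff ℝ ((⊤ : ℕ∞) : WithTop ℕ∞) χ) {A B : ℝ}
    (hA : ∀ x, |χ x| ≤ A) (hB : ∀ i x, |fderiv ℝ χ x (Pi.single i (1 : ℝ))| ≤ B)
    {κ : ℝ} (hκ : 0 < κ) (hV' : ∀ x, χ x ≠ 0 → V' x = ENNReal.ofReal κ * V x) :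
    Dom V' (fun x => χ x * u x)
      (fun i x => χ x * g i x + u x * fderiv ℝ χ x (Pi.single i (1 : ℝ))) := by
  refine ⟨h.wp.mul_smooth hχ hA hB, ?_, ?_⟩
  · filter_upwards [h.top] with x hx hVx
    by_cases h0 : χ x = 0
    · rw [h0, zero_mul]
    · have h1 := hV' x h0
      rw [hVx] at h1
      have h2 : V x = ⊤ := by
        by_contra hne
        exact (ENNReal.mul_ne_top ENNReal.ofReal_ne_top hne) h1.symm
      rw [hx h2, mul_zero]
  · have e : (fun x => sV V' x * (χ x * u x)) = fun x => (Real.sqrt κ * χ x) * (sV V x * u x) := by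
      funext x
      by_cases h0 : χ x = 0
      · rw [h0]; ring
      · rw [sV, hV' x h0, ENNReal.toReal_mul, ENNReal.toReal_ofReal hκ.le,
          Real.sqrt_mul hκ.le, sV]
        ring
    rw [e]
    refine MemLp.of_le_mul (c := Real.sqrt κ * A) h.mw
      ((continuous_const.mul hχ.continuous).aestronglyMeasurable.mul h.mw.1) ?_
    filter_upwards with x
    rw [norm_mul, norm_mul, Real.norm_eq_abs, Real.norm_eq_abs, abs_of_nonneg (Real.sqrt_nonneg _)]
    exact mul_le_mul_of_nonneg_right (mul_le_mul_of_nonneg_left (hA x) (Real.sqrt_nonneg _))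
      (norm_nonneg _)

theorem sV_cut {V V' : (Fin d → ℝ) → ℝ≥0∞} {χ : (Fin d → ℝ) → ℝ}
    {κ : ℝ} (hκ : 0 < κ) (hV' : ∀ x, χ x ≠ 0 → V' x = ENNReal.ofReal κ * V x) (x : Fin d → ℝ)
    (y : ℝ) : sV V' x * (χ x * y) = Real.sqrt κ * (χ x * (sV V x * y)) := by
  by_cases h0 : χ x = 0
  · rw [h0]; ring
  · rw [sV, hV' x h0, ENNReal.toReal_mul, ENNReal.toReal_ofReal hκ.le,
      Real.sqrt_mul hκ.le, sV]
    ring

/-- energy of a cut function -/
theorem bf_cut {V V' : (Fin d → ℝ) → ℝ≥0∞} {χ : (Fin d → ℝ) → ℝ}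
    {κ : ℝ} (hκ : 0 < κ) (hV' : ∀ x, χ x ≠ 0 → V' x = ENNReal.ofReal κ * V x)
    (u : (Fin d → ℝ) → ℝ) (g' : Fin d → (Fin d → ℝ) → ℝ) :
    bf V' (fun x => χ x * u x) g' (fun x => χ x * u x) g'
      = (∑ i, ∫ x, g' i x ^ 2) + κ * ∫ x, (χ x * (sV V x * u x)) ^ 2 := by
  rw [bf]
  congr 1
  · simp only [sq]
  · rw [← integral_const_mul]
    congr 1
    ext x
    rw [sV_cut hκ hV' x (u x)]
    have : Real.sqrt κ * Real.sqrt κ = κ := Real.mul_self_sqrt hκ.le
    linear_combination (χ x * (sV V x * u x)) ^ 2 * this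

end Pool.Agent.Work.MP_2cde6c_an
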