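import Mathlib

set_option autoImplicit false

/-!
# Scalar lemmas for the De Giorgi iteration
-/

open Filter
open scoped Topology

namespace Pool.Agent.Work.MP_2cde6c_an

theorem scalar_step (d : ℕ) {p β : ℝ} (hp : 0 < p) (hp1 : p ≤ 1) (hβ : 0 < β) {K X : ℝ}
    (hK0 : 0 ≤ K) (hK1 : K ≤ 1) (hX0 : 0 ≤ X)
    (h : ∀ ε : ℝ, 0 < ε → ε ^ d * X ≤ (2 * ε) ^ d * (d * ε ^ 2) * K
      + K ^ p * (K / β) * X ^ (1 - p)) :
    X ≤ (2 ^ (d + 1) * d + (2 / β) ^ (1 / p)) * K ^ (1 + 1 / ((d : ℝ) + 1)) := by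
  rcases eq_or_lt_of_le hK0 with hK | hK
  · have h1 := h 1 one_pos
    rw [← hK] at h1 ⊢
    have h2 : (0 : ℝ) ^ (1 + 1 / ((d : ℝ) + 1)) = 0 := Real.zero_rpow (by positivity)
    rw [h2, mul_zero]
    simpa using h1
  set δ : ℝ := 1 / ((d : ℝ) + 1) with hδ
  have hδ0 : 0 < δ := by positivity
  set ε : ℝ := K ^ (δ / 2) with hε
  have hε0 : 0 < ε := Real.rpow_pos_of_pos hK _
  have hεd : 0 < ε ^ d := by positivity
  have hε2 : ε ^ 2 = K ^ δ := by
    rw [hε, ← Real.rpow_natCast, ← Real.rpow_mul hK0]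
    congr 1
    push_cast
    ring
  have hεd' : ε ^ d = K ^ (d * δ / 2) := by
    rw [hε, ← Real.rpow_natCast, ← Real.rpow_mul hK0]
    congr 1
    ring
  have h1 := h ε hε0
  set M1 : ℝ := 2 ^ d * d with hM1
  have hM10 : 0 ≤ M1 := by positivity
  have e1 : (2 * ε) ^ d * (d * ε ^ 2) * K = ε ^ d * (M1 * K ^ (1 + δ)) := by
    rw [mul_pow, hε2, Real.rpow_add hK, Real.rpow_one, hM1]
    ring
  have hKp : 0 ≤ K ^ p := Real.rpow_nonneg hK0 _
  have hKd : 0 < K ^ (1 + δ) := Real.rpow_pos_of_pos hK _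
  rcases le_or_gt X (2 * M1 * K ^ (1 + δ)) with hc | hc
  · refine hc.trans ?_
    have : 2 * M1 = 2 ^ (d + 1) * d := by rw [hM1, pow_succ]; ring
    rw [this]
    refine mul_le_mul_of_nonneg_right ?_ hKd.le
    have : 0 ≤ (2 / β) ^ (1 / p) := Real.rpow_nonneg (by positivity) _
    linarith
  · have hX : 0 < X := lt_of_le_of_lt (by positivity) hc
    have h2 : ε ^ d * (X / 2) ≤ K ^ p * (K / β) * X ^ (1 - p) := by
      have h3 : ε ^ d * (M1 * K ^ (1 + δ)) ≤ ε ^ d * (X / 2) :=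
        mul_le_mul_of_nonneg_left (by linarith) hεd.le
      rw [e1] at h1
      have h4 : ε ^ d * X = ε ^ d * (X / 2) + ε ^ d * (X / 2) := by ring
      linarith
    have hXp : 0 < X ^ (1 - p) := Real.rpow_pos_of_pos hX _
    have e2 : X = X ^ p * X ^ (1 - p) := by rw [← Real.rpow_add hX]; simp
    have h5 : ε ^ d / 2 * X ^ p ≤ K ^ p * (K / β) := by
      have h6 : (ε ^ d / 2 * X ^ p) * X ^ (1 - p) ≤ (K ^ p * (K / β)) * X ^ (1 - p) := by
        calc (ε ^ d / 2 * X ^ p) * X ^ (1 - p) = ε ^ d / 2 * (X ^ p * X ^ (1 - p)) := by ring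
          _ = ε ^ d / 2 * X := by rw [← e2]
          _ = ε ^ d * (X / 2) := by ring
          _ ≤ _ := h2
      exact le_of_mul_le_mul_right h6 hXp
    have h7 : X ^ p ≤ (2 / β) * K ^ (1 + p - d * δ / 2) := by
      have e3 : K ^ (1 + p - d * δ / 2) = K ^ p * K / ε ^ d := by
        rw [hεd', Real.rpow_sub hK, Real.rpow_add hK, Real.rpow_one]
        ring
      rw [e3]
      have h8 : X ^ p = (2 / ε ^ d) * (ε ^ d / 2 * X ^ p) := by field_simp
      rw [h8]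
      calc (2 / ε ^ d) * (ε ^ d / 2 * X ^ p) ≤ (2 / ε ^ d) * (K ^ p * (K / β)) :=
            mul_le_mul_of_nonneg_left h5 (by positivity)
        _ = _ := by ring
    have h9 : X ≤ (2 / β) ^ (1 / p) * K ^ ((1 + p - d * δ / 2) * (1 / p)) := by
      have h10 := Real.rpow_le_rpow (by positivity) h7 (show 0 ≤ 1 / p by positivity)
      rw [← Real.rpow_mul hX0, mul_one_div_cancel hp.ne', Real.rpow_one,
        Real.mul_rpow (by positivity) (by positivity), ← Real.rpow_mul hK0] at h10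
      exact h10
    refine h9.trans ?_
    have h11 : K ^ ((1 + p - d * δ / 2) * (1 / p)) ≤ K ^ (1 + δ) := by
      apply Real.rpow_le_rpow_of_exponent_ge hK hK1
      have h12 : d * δ / 2 + δ ≤ 1 := by
        rw [hδ]
        have : (0:ℝ) ≤ d := Nat.cast_nonneg d
        have h13 : (d : ℝ) * (1 / ((d : ℝ) + 1)) / 2 + 1 / ((d : ℝ) + 1)
            = ((d : ℝ) / 2 + 1) / ((d : ℝ) + 1) := by field_simp
        rw [h13, div_le_one (by positivity)]
        linarith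
      rw [mul_one_div, le_div_iff₀ hp]
      have h14 : p * δ ≤ δ := mul_le_of_le_one_left hδ0.le hp1
      nlinarith
    calc (2 / β) ^ (1 / p) * K ^ ((1 + p - d * δ / 2) * (1 / p))
        ≤ (2 / β) ^ (1 / p) * K ^ (1 + δ) :=
          mul_le_mul_of_nonneg_left h11 (Real.rpow_nonneg (by positivity) _)
      _ ≤ (2 ^ (d + 1) * d + (2 / β) ^ (1 / p)) * K ^ (1 + δ) := by
          refine mul_le_mul_of_nonneg_right ?_ hKd.le
          have : (0:ℝ) ≤ 2 ^ (d + 1) * d := by positivity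
          linarith

theorem iter {A M δ b : ℝ} (hA : 0 < A) (hM : 0 < M) (hδ : 0 < δ) (hb : 0 < b) :
    ∃ ε₀ : ℝ, 0 < ε₀ ∧ ∀ α : ℕ → ℝ, (∀ n, 0 ≤ α n) → α 0 ≤ ε₀ →
      (∀ n, A * 4 ^ n * α n ≤ b → α n ≤ 1 / 4 → α (n + 1) ≤ M * (A * 4 ^ n * α n) ^ (1 + δ)) →
      Tendsto α atTop (𝓝 0) := by
  set κ : ℝ := (4 : ℝ) ^ (-((1 + δ) / δ)) with hκ
  have hκ0 : 0 < κ := Real.rpow_pos_of_pos (by norm_num) _
  have hκ4 : 4 * κ ≤ 1 := by
    have : κ ≤ (4 : ℝ) ^ (-1 : ℝ) := by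
      apply Real.rpow_le_rpow_of_exponent_le (by norm_num)
      have : 1 ≤ (1 + δ) / δ := by rw [le_div_iff₀ hδ]; linarith
      linarith
    rw [Real.rpow_neg_one] at this
    linarith
  have hκ1 : (4 * κ) ^ (1 + δ) = κ := by
    rw [Real.mul_rpow (by norm_num) hκ0.le, Real.rpow_add hκ0, Real.rpow_one, hκ,
      ← Real.rpow_mul (by norm_num : (0:ℝ) ≤ 4)]
    have : -((1 + δ) / δ) * δ = -(1 + δ) := by field_simp
    rw [this]
    have h2 : (4 : ℝ) ^ (1 + δ) * (4 : ℝ) ^ (-(1 + δ)) = 1 := by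
      rw [← Real.rpow_add (by norm_num)]
      simp
    calc (4 : ℝ) ^ (1 + δ) * ((4 : ℝ) ^ (-((1 + δ) / δ)) * (4 : ℝ) ^ (-(1 + δ)))
        = ((4 : ℝ) ^ (1 + δ) * (4 : ℝ) ^ (-(1 + δ))) * (4 : ℝ) ^ (-((1 + δ) / δ)) := by ring
      _ = _ := by rw [h2, one_mul]
  set e : ℝ := (κ / (M * A ^ (1 + δ))) ^ (1 / δ) with he
  have hAd : 0 < A ^ (1 + δ) := Real.rpow_pos_of_pos hA _
  have he0 : 0 < e := Real.rpow_pos_of_pos (by positivity) _
  set ε₀ : ℝ := min (min (b / A) (1 / 4)) e with hε₀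
  have hε₀pos : 0 < ε₀ := lt_min (lt_min (by positivity) (by norm_num)) he0
  have h1 : A * ε₀ ≤ b := by
    have : ε₀ ≤ b / A := (min_le_left _ _).trans (min_le_left _ _)
    rw [le_div_iff₀ hA] at this
    linarith
  have h2 : ε₀ ≤ 1 / 4 := (min_le_left _ _).trans (min_le_right _ _)
  have h3 : M * A ^ (1 + δ) * ε₀ ^ δ ≤ κ := by
    have : ε₀ ^ δ ≤ κ / (M * A ^ (1 + δ)) := by
      have h4 : ε₀ ^ δ ≤ e ^ δ := Real.rpow_le_rpow hε₀pos.le (min_le_right _ _) hδ.le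
      rw [he, ← Real.rpow_mul (by positivity), one_div_mul_cancel hδ.ne', Real.rpow_one] at h4
      exact h4
    rw [le_div_iff₀ (by positivity)] at this
    linarith
  refine ⟨ε₀, hε₀pos, fun α hα0 hα1 hstep => ?_⟩
  have hkey : ∀ n, α n ≤ ε₀ * κ ^ n := by
    intro n
    induction n with
    | zero => simpa using hα1
    | succ n ih =>
      have h5 : (4 * κ) ^ n ≤ 1 := pow_le_one₀ (by positivity) hκ4
      have h6 : A * 4 ^ n * α n ≤ A * ε₀ * (4 * κ) ^ n := by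
        calc A * 4 ^ n * α n ≤ A * 4 ^ n * (ε₀ * κ ^ n) :=
              mul_le_mul_of_nonneg_left ih (by positivity)
          _ = A * ε₀ * (4 * κ) ^ n := by rw [mul_pow]; ring
      have h7 : A * 4 ^ n * α n ≤ b := by
        refine h6.trans (le_trans ?_ h1)
        exact mul_le_of_le_one_right (by positivity) h5
      have hκ1' : κ ≤ 1 := by linarith
      have h8 : α n ≤ 1 / 4 := by
        refine ih.trans (le_trans ?_ h2)
        exact mul_le_of_le_one_right hε₀pos.le (pow_le_one₀ hκ0.le hκ1')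
      refine (hstep n h7 h8).trans ?_
      have h9 : (A * 4 ^ n * α n) ^ (1 + δ) ≤ (A * ε₀ * (4 * κ) ^ n) ^ (1 + δ) :=
        Real.rpow_le_rpow (mul_nonneg (by positivity) (hα0 n)) h6 (by positivity)
      have h10 : (A * ε₀ * (4 * κ) ^ n) ^ (1 + δ) = A ^ (1 + δ) * (ε₀ * ε₀ ^ δ) * κ ^ n := by
        rw [Real.mul_rpow (by positivity) (by positivity), Real.mul_rpow hA.le hε₀pos.le,
          Real.rpow_add hε₀pos, Real.rpow_one]
        congr 1
        rw [← Real.rpow_natCast, ← Real.rpow_mul (by positivity), mul_comm (n : ℝ),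
          Real.rpow_mul (by positivity), hκ1, Real.rpow_natCast]
      calc M * (A * 4 ^ n * α n) ^ (1 + δ)
          ≤ M * (A ^ (1 + δ) * (ε₀ * ε₀ ^ δ) * κ ^ n) := by
            rw [← h10]; exact mul_le_mul_of_nonneg_left h9 hM.le
        _ = (M * A ^ (1 + δ) * ε₀ ^ δ) * (ε₀ * κ ^ n) := by ring
        _ ≤ κ * (ε₀ * κ ^ n) := mul_le_mul_of_nonneg_right h3 (by positivity)
        _ = ε₀ * κ ^ (n + 1) := by rw [pow_succ]; ring
  have hκlt : κ < 1 := by linarith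
  have hlim : Tendsto (fun n : ℕ => ε₀ * κ ^ n) atTop (𝓝 0) := by
    have := (tendsto_pow_atTop_nhds_zero_of_lt_one hκ0.le hκlt).const_mul ε₀
    simpa using this
  exact squeeze_zero hα0 hkey hlim

end Pool.Agent.Work.MP_2cde6c_an
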