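import Pool.Agent.Work.MP_2cde6c_an.Kill
import Pool.Agent.Work.MP_2cde6c_an.Iter

set_option autoImplicit false

/-!
# De Giorgi iteration
-/

open MeasureTheory Filter
open scoped ENNReal Topology ContDiff

namespace Pool.Agent.Work.MP_2cde6c_an

variable {d : ℕ}

/-- One step: local smallness improves. -/
theorem step_est {p : ℝ} (hp : 0 < p) (hp1 : p ≤ 1) {k : ℕ} {S : Set (Fin d → ℝ)}
    {V : (Fin d → ℝ) → ℝ≥0∞} (hV : Adm p S V)
    {u : Fin k → (Fin d → ℝ) → ℝ} {g : Fin k → Fin d → (Fin d → ℝ) → ℝ}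
    {lm : Fin k → ℝ} (hE : IsEig V u g lm)
    {Λ : ℝ} (hΛ : ∀ j, lm j ≤ Λ) (hΛ0 : 0 ≤ Λ) {β : ℝ} (hβ : 0 < β)
    {η : (Fin d → ℝ) → ℝ} (hη : ContDiff ℝ ((⊤ : ℕ∞) : WithTop ℕ∞) η) (hη0 : ∀ x, 0 ≤ η x)
    (hη1 : ∀ x, η x ≤ 1) {B : ℝ}
    (hB : ∀ i x, |fderiv ℝ η x (Pi.single i (1 : ℝ))| ≤ B)
    {a : Fin d → ℝ} {r s : ℝ} (hηin : ∀ x, dist x a ≤ r → η x = 1)
    (hηout : ∀ x, r + s ≤ dist x a → η x = 0)
    {α : ℝ} (hα : (∫ x in Metric.closedBall a (r + s), ∑ j, u j x ^ 2) ≤ α)
    (hK : (2 * Λ + d * B ^ 2) * α ≤ 1)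
    (hm : ∫⁻ x in Metric.closedBall a (r + s), V x ^ (-p)
      ≤ ENNReal.ofReal ((2 * Λ + d * B ^ 2) * α / β)) :
    ∫ x in Metric.closedBall a r, ∑ j, u j x ^ 2
      ≤ k * ((2 ^ (d + 1) * d + (2 / β) ^ (1 / p))
        * ((2 * Λ + d * B ^ 2) * α) ^ (1 + 1 / ((d : ℝ) + 1))) := by
  classical
  have humem : ∀ j, MemLp (u j) 2 volume := fun j => (hE.dom j).wp.mu
  set bs : Set (Fin d → ℝ) := Metric.closedBall a (r + s) with hbs
  have hbm : MeasurableSet bs := measurableSet_closedBall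
  have hηabs : ∀ x, |η x| ≤ 1 := fun x => by rw [abs_of_nonneg (hη0 x)]; exact hη1 x
  have hout : ∀ x, x ∉ bs → η x = 0 := fun x hx => by
    apply hηout
    rw [hbs, Metric.mem_closedBall, not_le] at hx
    exact hx.le
  set K := (2 * Λ + d * B ^ 2) * α with hKdef
  have hsumi : ∫ x in bs, ∑ j, u j x ^ 2 = ∑ j, ∫ x in bs, u j x ^ 2 :=
    integral_finsetSum _ fun j _ => (humem j).integrable_sq.integrableOn
  have hnn : ∀ j, 0 ≤ ∫ x in bs, u j x ^ 2 := fun j => integral_nonneg fun x => sq_nonneg _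
  have hα0 : 0 ≤ α := (integral_nonneg fun x => Finset.sum_nonneg fun j _ => sq_nonneg _).trans hα
  have hK0 : 0 ≤ K := by positivity
  have hj : ∀ j, ∫ x in bs, u j x ^ 2 ≤ α := fun j => by
    refine le_trans ?_ hα
    rw [hsumi]
    exact Finset.single_le_sum (f := fun j => ∫ x in bs, u j x ^ 2) (fun j _ => hnn j)
      (Finset.mem_univ j)
  -- energies
  have hcut : ∀ j, Dom V (fun x => η x * u j x) (fun i x => η x * g j i x
      + u j x * fderiv ℝ η x (Pi.single i (1 : ℝ))) := fun j =>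
    (hE.dom j).cut hη hηabs hB one_pos (fun x _ => by simp)
  have hen : ∀ j, (∑ i, ∫ x, (η x * g j i x + u j x * fderiv ℝ η x (Pi.single i (1 : ℝ))) ^ 2)
      + ∫ x, (η x * (sV V x * u j x)) ^ 2 ≤ K := by
    intro j
    rw [ims (hE.dom j) (f := fun x => lm j * u j x) (fun v h hv => by
      rw [hE.el j v h hv, ← integral_const_mul]
      congr 1
      ext x
      ring) hη hηabs hB]
    have h1 : ∫ x, lm j * u j x * (η x ^ 2 * u j x) ≤ Λ * α := by
      have h2 : ∫ x, lm j * u j x * (η x ^ 2 * u j x)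
          ≤ ∫ x, bs.indicator (fun x => Λ * u j x ^ 2) x := by
        have i1 : Integrable (fun x => lm j * u j x * (η x ^ 2 * u j x)) volume := by
          refine integrable_mul ((humem j).const_mul _) (memLp_bdd_mul (humem j)
            (hη.continuous.pow 2) (A := 1) fun x => ?_)
          rw [abs_pow]
          exact pow_le_one₀ (abs_nonneg _) (hηabs x)
        refine integral_mono i1 (((humem j).integrable_sq.const_mul _).indicator hbm) fun x => ?_
        simp only
        by_cases hx : x ∈ bs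
        · rw [Set.indicator_of_mem hx]
          have h3 : lm j * u j x * (η x ^ 2 * u j x) = lm j * η x ^ 2 * u j x ^ 2 := by ring
          rw [h3]
          refine mul_le_mul_of_nonneg_right ?_ (sq_nonneg _)
          have h4 : η x ^ 2 ≤ 1 := by
            have := hη0 x
            have := hη1 x
            nlinarith
          calc lm j * η x ^ 2 ≤ lm j * 1 := mul_le_mul_of_nonneg_left h4 (hE.nonneg j)
            _ ≤ Λ := by rw [mul_one]; exact hΛ j
        · rw [Set.indicator_of_notMem hx, hout x hx]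
          apply le_of_eq
          ring
      rw [integral_indicator hbm, integral_const_mul] at h2
      exact h2.trans (mul_le_mul_of_nonneg_left (hj j) hΛ0)
    have h2 : (∑ i, ∫ x, (fderiv ℝ η x (Pi.single i (1 : ℝ)) * u j x) ^ 2) ≤ d * B ^ 2 * α := by
      have h3 : ∀ i, ∫ x, (fderiv ℝ η x (Pi.single i (1 : ℝ)) * u j x) ^ 2 ≤ B ^ 2 * α := by
        intro i
        have h4 : ∫ x, (fderiv ℝ η x (Pi.single i (1 : ℝ)) * u j x) ^ 2
            ≤ ∫ x, bs.indicator (fun x => B ^ 2 * u j x ^ 2) x := by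
          refine integral_mono (memLp_bdd_mul (humem j) (cont_pd hη _) (hB i)).integrable_sq
            (((humem j).integrable_sq.const_mul _).indicator hbm) fun x => ?_
          simp only
          by_cases hx : x ∈ bs
          · rw [Set.indicator_of_mem hx, mul_pow]
            refine mul_le_mul_of_nonneg_right ?_ (sq_nonneg _)
            rw [← sq_abs]
            exact pow_le_pow_left₀ (abs_nonneg _) (hB i x) 2
          · rw [Set.indicator_of_notMem hx, pd_zero_of_min hη0 (hout x hx)]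
            simp
        rw [integral_indicator hbm, integral_const_mul] at h4
        exact h4.trans (mul_le_mul_of_nonneg_left (hj j) (sq_nonneg _))
      refine (Finset.sum_le_sum fun i _ => h3 i).trans (le_of_eq ?_)
      simp
      ring
    have h5 : Λ * α + d * B ^ 2 * α ≤ K := by
      rw [hKdef]
      nlinarith [mul_nonneg hΛ0 hα0]
    linarith
  have hX : ∀ j, ∫ x, (η x * u j x) ^ 2 ≤ (2 ^ (d + 1) * d + (2 / β) ^ (1 / p))
        * K ^ (1 + 1 / ((d : ℝ) + 1)) := by
    intro j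
    have hG0 : 0 ≤ ∑ i, ∫ x, (η x * g j i x + u j x * fderiv ℝ η x (Pi.single i (1 : ℝ))) ^ 2 :=
      Finset.sum_nonneg fun i _ => integral_nonneg fun x => sq_nonneg _
    have hW0 : 0 ≤ ∫ x, (η x * (sV V x * u j x)) ^ 2 := integral_nonneg fun x => sq_nonneg _
    have hG1 := hen j
    refine scalar_step d hp hp1 hβ hK0 hK (integral_nonneg fun x => sq_nonneg _) fun ε hε => ?_
    have h1 := nashV hp hp1 hV.meas (hcut j) (A := bs) hbm
      (Eventually.of_forall fun x hx => by rw [hout x hx, zero_mul]) (m := K / β)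
      (by positivity) hm hε
    refine h1.trans (add_le_add ?_ ?_)
    · refine mul_le_mul_of_nonneg_left ?_ (by positivity)
      linarith
    · have e1 : ∫ x, (sV V x * (η x * u j x)) ^ 2 = ∫ x, (η x * (sV V x * u j x)) ^ 2 := by
        congr 1
        ext x
        ring
      rw [e1]
      have h2 : (∫ x, (η x * (sV V x * u j x)) ^ 2) ^ p ≤ K ^ p :=
        Real.rpow_le_rpow hW0 (by linarith) hp.le
      have h3 : 0 ≤ (∫ x, (η x * u j x) ^ 2) ^ (1 - p) :=
        Real.rpow_nonneg (integral_nonneg fun x => sq_nonneg _) _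
      exact mul_le_mul_of_nonneg_right (mul_le_mul_of_nonneg_right h2 (by positivity)) h3
  -- conclusion
  have hsum2 : ∫ x in Metric.closedBall a r, ∑ j, u j x ^ 2
      = ∑ j, ∫ x in Metric.closedBall a r, u j x ^ 2 :=
    integral_finsetSum _ fun j _ => (humem j).integrable_sq.integrableOn
  rw [hsum2]
  calc ∑ j, ∫ x in Metric.closedBall a r, u j x ^ 2
      ≤ ∑ _j : Fin k, (2 ^ (d + 1) * d + (2 / β) ^ (1 / p)) * K ^ (1 + 1 / ((d : ℝ) + 1)) := by
        refine Finset.sum_le_sum fun j _ => le_trans ?_ (hX j)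
        calc ∫ x in Metric.closedBall a r, u j x ^ 2
            = ∫ x in Metric.closedBall a r, (η x * u j x) ^ 2 := by
              apply setIntegral_congr_fun measurableSet_closedBall
              intro x hx
              have : η x = 1 := hηin x (Metric.mem_closedBall.1 hx)
              simp only [this, one_mul]
          _ ≤ ∫ x, (η x * u j x) ^ 2 :=
              setIntegral_le_integral (hcut j).wp.mu.integrable_sq
                (Eventually.of_forall fun x => sq_nonneg _)
    _ = _ := by simp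

theorem de_giorgi (d : ℕ) {p : ℝ} (hp : 0 < p) (hp1 : p ≤ 1) (n : ℕ) {Λ : ℝ} (hΛ0 : 0 ≤ Λ) :
    ∃ ε₀ : ℝ, 0 < ε₀ ∧ ∀ (S : Set (Fin d → ℝ)) (V : (Fin d → ℝ) → ℝ≥0∞), Adm p S V →
      (∀ W, Adm p S W → lamK (n + 1) V ≤ lamK (n + 1) W) →
      ∀ (u : Fin (n + 1) → (Fin d → ℝ) → ℝ) (g : Fin (n + 1) → Fin d → (Fin d → ℝ) → ℝ)
        (lm : Fin (n + 1) → ℝ), IsEig V u g lm →
        lamK (n + 1) V = ENNReal.ofReal (lm (Fin.last n)) → lm (Fin.last n) ≤ Λ →
        ∀ a : Fin d → ℝ, (∫ x in Metric.closedBall a 1, ∑ j, u j x ^ 2) ≤ ε₀ →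
          ∫ x in Metric.closedBall a (1 / 2), ∑ j, u j x ^ 2 = 0 := by
  obtain ⟨β, hβ, hβ'⟩ := exists_beta d hp hp1 hΛ0
  obtain ⟨C, hC, hcut⟩ := exists_cutoff d
  set A : ℝ := 2 * Λ + 64 * d * C ^ 2 + 1 with hA
  have hA0 : 0 < A := by positivity
  set M : ℝ := ((n + 1 : ℕ) : ℝ) * (2 ^ (d + 1) * d + (2 / β) ^ (1 / p)) with hM
  have hM0 : 0 < M := by
    have : 0 < (2 / β) ^ (1 / p) := Real.rpow_pos_of_pos (by positivity) _
    positivity
  set δ : ℝ := 1 / ((d : ℝ) + 1) with hδ
  have hδ0 : 0 < δ := by positivity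
  obtain ⟨ε₀, hε₀, hiter⟩ := iter hA0 hM0 hδ0 (b := min 1 (β / 4)) (by positivity)
  refine ⟨ε₀, hε₀, ?_⟩
  intro S V hV hmin u g lm hE hlam hΛ a ha
  have humem : ∀ j, MemLp (u j) 2 volume := fun j => (hE.dom j).wp.mu
  have hρi : Integrable (fun x => ∑ j, u j x ^ 2) volume :=
    integrable_finsetSum _ fun j _ => (humem j).integrable_sq
  have hρ0 : ∀ x, 0 ≤ ∑ j, u j x ^ 2 := fun x => Finset.sum_nonneg fun j _ => sq_nonneg _
  set r : ℕ → ℝ := fun m => 1 / 2 + (1 / 2) ^ (m + 1) with hr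
  set s : ℕ → ℝ := fun m => (1 / 2) ^ (m + 3) with hs
  have hs0 : ∀ m, 0 < s m := fun m => by rw [hs]; positivity
  have hr0 : ∀ m, 0 ≤ r m := fun m => by rw [hr]; positivity
  have hrs : ∀ m, r (m + 1) + s m + s m = r m := fun m => by
    rw [hr, hs]
    simp only
    ring
  set α : ℕ → ℝ := fun m => ∫ x in Metric.closedBall a (r m), ∑ j, u j x ^ 2 with hα
  have hα0 : ∀ m, 0 ≤ α m := fun m => integral_nonneg fun x => hρ0 x
  have hαmono : ∀ {t t' : ℝ}, t ≤ t' → (∫ x in Metric.closedBall a t, ∑ j, u j x ^ 2)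
      ≤ ∫ x in Metric.closedBall a t', ∑ j, u j x ^ 2 := fun h =>
    setIntegral_mono_set hρi.integrableOn (Eventually.of_forall fun x => hρ0 x)
      (Eventually.of_forall (Metric.closedBall_subset_closedBall h))
  have hlim : Tendsto α atTop (𝓝 0) := by
    refine hiter α hα0 ?_ ?_
    · have : r 0 = 1 := by rw [hr]; norm_num
      rw [hα]; simp only; rw [this]; exact ha
    · intro m h1 h2
      -- constants
      set B : ℝ := C / s m with hB
      have hB2 : B ^ 2 = C ^ 2 * (64 * 4 ^ m) := by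
        rw [hB, div_pow, hs]
        simp only
        have : ((1 / 2 : ℝ) ^ (m + 3)) ^ 2 = 1 / (64 * 4 ^ m) := by
          rw [← pow_mul, one_div, inv_pow, one_div]
          congr 1
          rw [show (m + 3) * 2 = 2 * m + 6 by ring, pow_add, pow_mul]
          norm_num
          ring
        rw [this]
        field_simp
      have hKA : (2 * Λ + d * B ^ 2) * α m ≤ A * 4 ^ m * α m := by
        refine mul_le_mul_of_nonneg_right ?_ (hα0 m)
        rw [hB2, hA]
        have h4 : (1 : ℝ) ≤ 4 ^ m := one_le_pow₀ (by norm_num)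
        have h5 : 2 * Λ ≤ 2 * Λ * 4 ^ m := le_mul_of_one_le_right (by positivity) h4
        have h6 : (0:ℝ) ≤ 4 ^ m := by positivity
        nlinarith
      have hK1 : (2 * Λ + d * B ^ 2) * α m ≤ 1 := hKA.trans (h1.trans (min_le_left _ _))
      have hKβ : (2 * Λ + d * B ^ 2) * α m ≤ β / 4 := hKA.trans (h1.trans (min_le_right _ _))
      -- kill ball with radius r (m+1) + s m
      obtain ⟨η₂, k1, k2, k3, k4, k5, k6⟩ := hcut a (r (m + 1) + s m) (s m)
        (by have := hr0 (m + 1); have := hs0 m; positivity) (hs0 m)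
      have hkill := kill_ball hp hp1 hV hmin hE hlam hΛ hβ' k1 k2 k3 k6
        (r := r (m + 1) + s m) (s := s m) k4 k5 (α := α m)
        (by rw [hrs m]) h2 hK1
      set mm := (∫⁻ x in Metric.closedBall a (r (m + 1) + s m), V x ^ (-p)).toReal with hmm
      have hmt : ∫⁻ x in Metric.closedBall a (r (m + 1) + s m), V x ^ (-p) ≠ ⊤ :=
        (((setLIntegral_le_lintegral _ _).trans hV.int).trans_lt ENNReal.one_lt_top).ne
      have hmle : mm ≤ (2 * Λ + d * B ^ 2) * α m / β := by
        rw [le_div_iff₀ hβ]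
        rcases le_total mm (1 / 2) with hc | hc
        · rwa [min_eq_left hc] at hkill
        · rw [min_eq_right hc] at hkill
          exfalso
          linarith
      -- step
      obtain ⟨η₁, l1, l2, l3, l4, l5, l6⟩ := hcut a (r (m + 1)) (s m) (hr0 _) (hs0 m)
      have hstep := step_est hp hp1 hV hE (fun j => (hE.mono (Fin.le_last j)).trans hΛ) hΛ0 hβ
        l1 l2 l3 l6 l4 l5 (α := α m) (hαmono (by have := hrs m; have := hs0 m; linarith)) hK1
        (by
          rw [← ENNReal.ofReal_toReal hmt]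
          exact ENNReal.ofReal_le_ofReal hmle)
      refine hstep.trans ?_
      rw [hM, mul_assoc]
      refine mul_le_mul_of_nonneg_left ?_ (Nat.cast_nonneg _)
      have h7 : 0 ≤ (2 / β) ^ (1 / p) := Real.rpow_nonneg (by positivity) _
      refine mul_le_mul_of_nonneg_left ?_ (by positivity)
      exact Real.rpow_le_rpow (mul_nonneg (by positivity) (hα0 m)) hKA (by positivity)
  have hle : ∀ m, ∫ x in Metric.closedBall a (1 / 2), ∑ j, u j x ^ 2 ≤ α m := fun m =>
    hαmono (by rw [hr]; simp only; have : (0:ℝ) < (1 / 2) ^ (m + 1) := by positivity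
               linarith)
  exact le_antisymm (ge_of_tendsto hlim (Eventually.of_forall hle))
    (integral_nonneg fun x => hρ0 x)

end Pool.Agent.Work.MP_2cde6c_an
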