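import Mathlib

set_option autoImplicit false

/-!
# Weak gradient pairs on `ℝ^d`
-/

open MeasureTheory Filter
open scoped ENNReal Topology ContDiff

namespace Pool.Agent.Work.MP_2cde6c_an

variable {d : ℕ}

/-- Smooth compactly supported test functions. -/
def TF (φ : (Fin d → ℝ) → ℝ) : Prop :=
  ContDiff ℝ ((⊤ : ℕ∞) : WithTop ℕ∞) φ ∧ HasCompactSupport φ

/-- `g` is the weak gradient of `u`, both in `L²`. -/
structure WP (u : (Fin d → ℝ) → ℝ) (g : Fin d → (Fin d → ℝ) → ℝ) : Prop where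
  mu : MemLp u 2 volume
  mg : ∀ i, MemLp (g i) 2 volume
  wk : ∀ i φ, TF φ → ∫ x, u x * fderiv ℝ φ x (Pi.single i (1 : ℝ)) = - ∫ x, g i x * φ x

/-- squared `L²` norm -/
noncomputable def nsq (f : (Fin d → ℝ) → ℝ) : ℝ≥0∞ := ∫⁻ x, ENNReal.ofReal (f x ^ 2)

theorem nsq_eq (f : (Fin d → ℝ) → ℝ) : nsq f = eLpNorm f 2 volume ^ 2 := by
  rw [eLpNorm_eq_lintegral_rpow_enorm_toReal (by norm_num) (by norm_num)]
  simp only [ENNReal.toReal_ofNat, ENNReal.rpow_ofNat, one_div]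
  rw [← ENNReal.rpow_natCast, ← ENNReal.rpow_mul]
  norm_num [nsq]
  congr 1
  ext x
  rw [← ofReal_norm, ← ENNReal.ofReal_pow (norm_nonneg _)]
  simp

theorem nsq_lt_top {f : (Fin d → ℝ) → ℝ} (hf : MemLp f 2 volume) : nsq f < ⊤ := by
  rw [nsq_eq]
  exact ENNReal.pow_lt_top hf.2

theorem nsq_ne_top {f : (Fin d → ℝ) → ℝ} (hf : MemLp f 2 volume) : nsq f ≠ ⊤ :=
  (nsq_lt_top hf).ne

theorem memLp_of_nsq {f : (Fin d → ℝ) → ℝ} (hf : AEStronglyMeasurable f volume) (h : nsq f < ⊤) :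
    MemLp f 2 volume := by
  refine ⟨hf, ?_⟩
  rw [nsq_eq] at h
  by_contra hc
  rw [not_lt, top_le_iff] at hc
  rw [hc] at h
  simp at h

theorem nsq_congr {f g : (Fin d → ℝ) → ℝ} (h : f =ᵐ[volume] g) : nsq f = nsq g := by
  apply lintegral_congr_ae
  filter_upwards [h] with x hx
  rw [hx]

theorem nsq_toReal {f : (Fin d → ℝ) → ℝ} (hf : MemLp f 2 volume) :
    (nsq f).toReal = ∫ x, f x ^ 2 := by
  rw [nsq, ← integral_eq_lintegral_of_nonneg_ae]
  · exact Eventually.of_forall fun x => sq_nonneg _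
  · exact (hf.1.pow 2)

theorem nsq_ofReal {f : (Fin d → ℝ) → ℝ} (hf : MemLp f 2 volume) :
    nsq f = ENNReal.ofReal (∫ x, f x ^ 2) := by
  rw [← nsq_toReal hf, ENNReal.ofReal_toReal (nsq_ne_top hf)]

theorem nsq_smul (c : ℝ) (f : (Fin d → ℝ) → ℝ) :
    nsq (fun x => c * f x) = ENNReal.ofReal (c ^ 2) * nsq f := by
  unfold nsq
  rw [← lintegral_const_mul' _ _ ENNReal.ofReal_ne_top]
  congr 1
  ext x
  rw [← ENNReal.ofReal_mul (sq_nonneg _), mul_pow]

theorem integrable_mul {f g : (Fin d → ℝ) → ℝ} (hf : MemLp f 2 volume) (hg : MemLp g 2 volume) :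
    Integrable (fun x => f x * g x) volume := by
  exact hf.integrable_mul hg

theorem nsq_eq_zero {f : (Fin d → ℝ) → ℝ} (hf : AEStronglyMeasurable f volume) :
    nsq f = 0 ↔ f =ᵐ[volume] 0 := by
  rw [nsq_eq, pow_eq_zero_iff (by norm_num), eLpNorm_eq_zero_iff hf (by norm_num)]

/-! ### test functions -/

theorem TF.fderiv_continuous {φ : (Fin d → ℝ) → ℝ} (h : TF φ) (v : Fin d → ℝ) :
    Continuous (fun x => fderiv ℝ φ x v) :=
  (h.1.continuous_fderiv (by simp)).clm_apply continuous_const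

theorem TF.fderiv_hasCompactSupport {φ : (Fin d → ℝ) → ℝ} (h : TF φ) (v : Fin d → ℝ) :
    HasCompactSupport (fun x => fderiv ℝ φ x v) :=
  h.2.fderiv_apply (𝕜 := ℝ) v

theorem TF.memLp {φ : (Fin d → ℝ) → ℝ} (h : TF φ) (p : ℝ≥0∞) : MemLp φ p volume :=
  h.1.continuous.memLp_of_hasCompactSupport h.2

theorem TF.memLp_fderiv {φ : (Fin d → ℝ) → ℝ} (h : TF φ) (v : Fin d → ℝ) (p : ℝ≥0∞) :
    MemLp (fun x => fderiv ℝ φ x v) p volume :=
  (h.fderiv_continuous v).memLp_of_hasCompactSupport (h.fderiv_hasCompactSupport v)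

theorem TF.mul_smooth {φ χ : (Fin d → ℝ) → ℝ} (h : TF φ)
    (hχ : ContDiff ℝ ((⊤ : ℕ∞) : WithTop ℕ∞) χ) : TF (fun x => χ x * φ x) :=
  ⟨hχ.mul h.1, h.2.mul_left⟩

theorem TF.comp_sub {φ : (Fin d → ℝ) → ℝ} (h : TF φ) (a : Fin d → ℝ) :
    TF (fun x => φ (x - a)) := by
  refine ⟨h.1.comp (contDiff_id.sub contDiff_const), ?_⟩
  exact h.2.comp_homeomorph (Homeomorph.subRight a)

theorem TF.add {φ ψ : (Fin d → ℝ) → ℝ} (h : TF φ) (h' : TF ψ) : TF (fun x => φ x + ψ x) :=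
  ⟨h.1.add h'.1, h.2.add h'.2⟩

theorem fderiv_comp_sub' (φ : (Fin d → ℝ) → ℝ) (a x v : Fin d → ℝ) :
    fderiv ℝ (fun x => φ (x - a)) x v = fderiv ℝ φ (x - a) v := by
  rw [fderiv_comp_sub]

/-! ### closure properties of weak pairs -/

theorem WP.sum {ι : Type*} [Fintype ι] {u : ι → (Fin d → ℝ) → ℝ}
    {g : ι → Fin d → (Fin d → ℝ) → ℝ} (h : ∀ j, WP (u j) (g j)) (c : ι → ℝ) :
    WP (fun x => ∑ j, c j * u j x) (fun i x => ∑ j, c j * g j i x) := by
  refine ⟨memLp_finsetSum _ fun j _ => (h j).mu.const_mul _,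
    fun i => memLp_finsetSum _ fun j _ => ((h j).mg i).const_mul _, ?_⟩
  intro i φ hφ
  have e1 : ∀ x, (∑ j, c j * u j x) * fderiv ℝ φ x (Pi.single i (1 : ℝ))
      = ∑ j, c j * (u j x * fderiv ℝ φ x (Pi.single i (1 : ℝ))) := by
    intro x; rw [Finset.sum_mul]; exact Finset.sum_congr rfl fun j _ => by ring
  have e2 : ∀ x, (∑ j, c j * g j i x) * φ x = ∑ j, c j * (g j i x * φ x) := by
    intro x; rw [Finset.sum_mul]; exact Finset.sum_congr rfl fun j _ => by ring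
  simp only [e1, e2]
  rw [integral_finsetSum, integral_finsetSum, ← Finset.sum_neg_distrib]
  · refine Finset.sum_congr rfl fun j _ => ?_
    rw [integral_const_mul, integral_const_mul, (h j).wk i φ hφ, mul_neg]
  · intro j _
    exact (integrable_mul ((h j).mg i) (hφ.memLp 2)).const_mul _
  · intro j _
    exact (integrable_mul (h j).mu (hφ.memLp_fderiv _ 2)).const_mul _

theorem WP.congr {u u' : (Fin d → ℝ) → ℝ} {g g' : Fin d → (Fin d → ℝ) → ℝ} (h : WP u g)
    (hu : u =ᵐ[volume] u') (hg : ∀ i, g i =ᵐ[volume] g' i) : WP u' g' := by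
  refine ⟨h.mu.ae_eq hu, fun i => (h.mg i).ae_eq (hg i), ?_⟩
  intro i φ hφ
  have e1 : ∫ x, u' x * fderiv ℝ φ x (Pi.single i (1 : ℝ))
      = ∫ x, u x * fderiv ℝ φ x (Pi.single i (1 : ℝ)) := by
    apply integral_congr_ae
    filter_upwards [hu] with x hx
    rw [hx]
  have e2 : ∫ x, g' i x * φ x = ∫ x, g i x * φ x := by
    apply integral_congr_ae
    filter_upwards [hg i] with x hx
    rw [hx]
  rw [e1, e2, h.wk i φ hφ]

theorem WP.zero : WP (fun _ : Fin d → ℝ => (0 : ℝ)) (fun _ _ => 0) := by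
  refine ⟨by simp, fun i => by simp, ?_⟩
  intro i φ hφ
  simp

theorem WP.add {u u' : (Fin d → ℝ) → ℝ} {g g' : Fin d → (Fin d → ℝ) → ℝ} (h : WP u g)
    (h' : WP u' g') : WP (fun x => u x + u' x) (fun i x => g i x + g' i x) := by
  have := WP.sum (ι := Fin 2) (u := ![u, u']) (g := ![g, g'])
    (by intro j; fin_cases j <;> simpa) (fun _ => 1)
  simpa [Fin.sum_univ_two] using this

theorem WP.smul {u : (Fin d → ℝ) → ℝ} {g : Fin d → (Fin d → ℝ) → ℝ} (h : WP u g) (c : ℝ) :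
    WP (fun x => c * u x) (fun i x => c * g i x) := by
  have := WP.sum (ι := Fin 1) (u := fun _ => u) (g := fun _ => g)
    (by intro j; simpa) (fun _ => c)
  simpa using this

theorem WP.sub {u u' : (Fin d → ℝ) → ℝ} {g g' : Fin d → (Fin d → ℝ) → ℝ} (h : WP u g)
    (h' : WP u' g') : WP (fun x => u x - u' x) (fun i x => g i x - g' i x) := by
  have := h.add (h'.smul (-1))
  simpa [sub_eq_add_neg] using this

theorem WP.shift {u : (Fin d → ℝ) → ℝ} {g : Fin d → (Fin d → ℝ) → ℝ} (h : WP u g)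
    (a : Fin d → ℝ) : WP (fun x => u (x + a)) (fun i x => g i (x + a)) := by
  have mp : MeasurePreserving (fun x : Fin d → ℝ => x + a) volume volume :=
    measurePreserving_add_right volume a
  refine ⟨h.mu.comp_measurePreserving mp, fun i => (h.mg i).comp_measurePreserving mp, ?_⟩
  intro i φ hφ
  have := h.wk i _ (hφ.comp_sub a)
  simp only [fderiv_comp_sub'] at this
  have e1 := integral_add_right_eq_self (μ := volume)
    (fun x : Fin d → ℝ => u x * fderiv ℝ φ (x - a) (Pi.single i (1 : ℝ))) a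
  have e2 := integral_add_right_eq_self (μ := volume)
    (fun x : Fin d → ℝ => g i x * φ (x - a)) a
  simp only [add_sub_cancel_right] at e1 e2
  rw [e1, e2, this]

/-- product rule -/
theorem WP.mul_smooth {u : (Fin d → ℝ) → ℝ} {g : Fin d → (Fin d → ℝ) → ℝ} (h : WP u g)
    {χ : (Fin d → ℝ) → ℝ} (hχ : ContDiff ℝ ((⊤ : ℕ∞) : WithTop ℕ∞) χ) {A B : ℝ}
    (hA : ∀ x, |χ x| ≤ A) (hB : ∀ i x, |fderiv ℝ χ x (Pi.single i (1 : ℝ))| ≤ B) :
    WP (fun x => χ x * u x)
      (fun i x => χ x * g i x + u x * fderiv ℝ χ x (Pi.single i (1 : ℝ))) := by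
  have hdc : ∀ i, Continuous (fun x => fderiv ℝ χ x (Pi.single i (1 : ℝ))) := fun i =>
    (hχ.continuous_fderiv (by simp)).clm_apply continuous_const
  have m1 : ∀ f : (Fin d → ℝ) → ℝ, MemLp f 2 volume → MemLp (fun x => χ x * f x) 2 volume := by
    intro f hf
    refine MemLp.of_le_mul (c := A) hf (hχ.continuous.aestronglyMeasurable.mul hf.1) ?_
    filter_upwards with x
    rw [norm_mul]
    exact mul_le_mul_of_nonneg_right (hA x) (norm_nonneg _)
  have m2 : ∀ i, ∀ f : (Fin d → ℝ) → ℝ, MemLp f 2 volume →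
      MemLp (fun x => f x * fderiv ℝ χ x (Pi.single i (1 : ℝ))) 2 volume := by
    intro i f hf
    refine MemLp.of_le_mul (c := B) hf (hf.1.mul (hdc i).aestronglyMeasurable) ?_
    filter_upwards with x
    rw [norm_mul, mul_comm]
    exact mul_le_mul_of_nonneg_right (hB i x) (norm_nonneg _)
  refine ⟨m1 _ h.mu, fun i => (m1 _ (h.mg i)).add (m2 i _ h.mu), ?_⟩
  intro i φ hφ
  have hT := hφ.mul_smooth hχ
  have key := h.wk i _ hT
  have e : ∀ x, fderiv ℝ (fun x => χ x * φ x) x (Pi.single i (1 : ℝ))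
      = χ x * fderiv ℝ φ x (Pi.single i (1 : ℝ)) + φ x * fderiv ℝ χ x (Pi.single i (1 : ℝ)) := by
    intro x
    rw [fderiv_fun_mul (hχ.differentiable (by simp)).differentiableAt
      (hφ.1.differentiable (by simp)).differentiableAt]
    simp [smul_eq_mul]
  simp only [e] at key
  have i1 : Integrable (fun x => χ x * u x * fderiv ℝ φ x (Pi.single i (1 : ℝ))) volume :=
    integrable_mul (m1 _ h.mu) (hφ.memLp_fderiv _ 2)
  have i2 : Integrable (fun x => u x * fderiv ℝ χ x (Pi.single i (1 : ℝ)) * φ x) volume :=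
    integrable_mul (m2 i _ h.mu) (hφ.memLp 2)
  have i3 : Integrable (fun x => χ x * g i x * φ x) volume :=
    integrable_mul (m1 _ (h.mg i)) (hφ.memLp 2)
  have e1 : ∫ x, u x * (χ x * fderiv ℝ φ x (Pi.single i (1 : ℝ))
      + φ x * fderiv ℝ χ x (Pi.single i (1 : ℝ)))
      = (∫ x, χ x * u x * fderiv ℝ φ x (Pi.single i (1 : ℝ)))
        + ∫ x, u x * fderiv ℝ χ x (Pi.single i (1 : ℝ)) * φ x := by
    rw [← integral_add i1 i2]
    congr 1
    ext x
    ring
  have e2 : ∫ x, (χ x * g i x + u x * fderiv ℝ χ x (Pi.single i (1 : ℝ))) * φ x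
      = (∫ x, χ x * g i x * φ x) + ∫ x, u x * fderiv ℝ χ x (Pi.single i (1 : ℝ)) * φ x := by
    rw [← integral_add i3 i2]
    congr 1
    ext x
    ring
  have e3 : ∫ x, g i x * (χ x * φ x) = ∫ x, χ x * g i x * φ x := by
    congr 1
    ext x
    ring
  rw [e1, e3] at key
  rw [e2]
  linarith

/-- weak pairs are closed under `L²` limits -/
theorem WP.of_tendsto {u : (Fin d → ℝ) → ℝ} {g : Fin d → (Fin d → ℝ) → ℝ}
    {un : ℕ → (Fin d → ℝ) → ℝ} {gn : ℕ → Fin d → (Fin d → ℝ) → ℝ} (h : ∀ n, WP (un n) (gn n))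
    (hu : MemLp u 2 volume) (hg : ∀ i, MemLp (g i) 2 volume)
    (tu : Tendsto (fun n => eLpNorm (fun x => un n x - u x) 2 volume) atTop (𝓝 0))
    (tg : ∀ i, Tendsto (fun n => eLpNorm (fun x => gn n i x - g i x) 2 volume) atTop (𝓝 0)) :
    WP u g := by
  refine ⟨hu, hg, ?_⟩
  intro i φ hφ
  have key : ∀ (f : (Fin d → ℝ) → ℝ) (fn : ℕ → (Fin d → ℝ) → ℝ) (ψ : (Fin d → ℝ) → ℝ),
      MemLp f 2 volume → (∀ n, MemLp (fn n) 2 volume) → MemLp ψ 2 volume →
      Tendsto (fun n => eLpNorm (fun x => fn n x - f x) 2 volume) atTop (𝓝 0) →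
      Tendsto (fun n => ∫ x, fn n x * ψ x) atTop (𝓝 (∫ x, f x * ψ x)) := by
    intro f fn ψ hf hfn hψ ht
    have t2 : Tendsto (fun n => (eLpNorm (fun x => fn n x - f x) 2 volume).toReal
        * (eLpNorm ψ 2 volume).toReal) atTop (𝓝 0) := by
      have := (ENNReal.tendsto_toReal ENNReal.zero_ne_top).comp ht
      simpa using this.mul_const (eLpNorm ψ 2 volume).toReal
    rw [tendsto_iff_norm_sub_tendsto_zero]
    refine squeeze_zero (fun n => norm_nonneg _) (fun n => ?_) t2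
    have hd : MemLp (fun x => fn n x - f x) 2 volume := (hfn n).sub hf
    have e : (∫ x, fn n x * ψ x) - ∫ x, f x * ψ x = ∫ x, (fn n x - f x) * ψ x := by
      rw [← integral_sub (integrable_mul (hfn n) hψ) (integrable_mul hf hψ)]
      congr 1
      ext x
      ring
    rw [e]
    have h1 : (∫ x, (fn n x - f x) * ψ x) = inner ℝ (hψ.toLp ψ) (hd.toLp _) := by
      rw [MeasureTheory.L2.inner_def]
      apply integral_congr_ae
      filter_upwards [hψ.coeFn_toLp, hd.coeFn_toLp] with x hx hx'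
      rw [hx, hx']
      simp
    rw [h1]
    refine (norm_inner_le_norm _ _).trans ?_
    rw [Lp.norm_toLp, Lp.norm_toLp, mul_comm]
  have l1 := key u un _ hu (fun n => (h n).mu) (hφ.memLp_fderiv (Pi.single i (1 : ℝ)) 2) tu
  have l2 := (key (g i) (fun n => gn n i) _ (hg i) (fun n => (h n).mg i) (hφ.memLp 2) (tg i)).neg
  have : (fun n => ∫ x, un n x * fderiv ℝ φ x (Pi.single i (1 : ℝ)))
      = fun n => - ∫ x, gn n i x * φ x := by
    funext n
    exact (h n).wk i φ hφ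
  rw [this] at l1
  exact tendsto_nhds_unique l1 l2

/-- The weak gradient vanishes a.e. on open sets where the function vanishes a.e. -/
theorem WP.grad_zero {u : (Fin d → ℝ) → ℝ} {g : Fin d → (Fin d → ℝ) → ℝ} (h : WP u g)
    {U : Set (Fin d → ℝ)} (hU : IsOpen U) (h0 : ∀ᵐ x ∂volume, x ∈ U → u x = 0) (i : Fin d) :
    ∀ᵐ x ∂volume, x ∈ U → g i x = 0 := by
  have hloc : LocallyIntegrableOn (g i) U volume :=
    ((h.mg i).locallyIntegrable (by norm_num)).locallyIntegrableOn _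
  refine hU.ae_eq_zero_of_integral_contDiff_smul_eq_zero hloc ?_
  intro φ hφ hφc hφU
  have hT : TF φ := ⟨hφ, hφc⟩
  have := h.wk i φ hT
  have e1 : ∫ x, u x * fderiv ℝ φ x (Pi.single i (1 : ℝ)) = 0 := by
    rw [← integral_zero (Fin d → ℝ) ℝ]
    apply integral_congr_ae
    filter_upwards [h0] with x hx
    by_cases hxU : x ∈ U
    · rw [hx hxU, zero_mul]
    · have hx' : x ∉ tsupport φ := fun hc => hxU (hφU hc)
      have : fderiv ℝ φ x = 0 := by
        by_contra hne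
        exact hx' (tsupport_fderiv_subset ℝ (subset_tsupport _ hne))
      rw [this]
      simp
  rw [e1] at this
  have e2 : ∫ x, φ x • g i x = ∫ x, g i x * φ x := by
    congr 1
    ext x
    rw [smul_eq_mul, mul_comm]
  rw [e2]
  linarith

end Pool.Agent.Work.MP_2cde6c_an
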