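import Pool.Agent.Work.MP_2cde6c_an.Form

set_option autoImplicit false

/-!
# Eigenfunctions of a confined potential
-/

open MeasureTheory Filter
open scoped ENNReal Topology ContDiff

namespace Pool.Agent.Work.MP_2cde6c_an

variable {d : ℕ}

theorem state_of_mem {V : (Fin d → ℝ) → ℝ≥0∞} {X : HS d} (hX : X ∈ MV V)
    (h : Dom V (X (Sum.inl 0)) (fun i => X (Sum.inr i))) : h.state = X := by
  ext i : 1
  apply Lp.ext
  rcases i with i | i
  · fin_cases i
    · exact h.state_u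
    · refine h.state_w.trans ?_
      filter_upwards [((mem_MV V X).1 hX).2] with x hx
      exact hx.symm
  · exact h.state_g i

theorem state_sum {ι : Type} [Fintype ι] {V : (Fin d → ℝ) → ℝ≥0∞} {u : ι → (Fin d → ℝ) → ℝ}
    {g : ι → Fin d → (Fin d → ℝ) → ℝ} (h : ∀ j, Dom V (u j) (g j)) (c : ι → ℝ) :
    (Dom.sum h c).state = ∑ j, c j • (h j).state := by
  have key : ∀ (i : Fin 2 ⊕ Fin d) (f : ι → (Fin d → ℝ) → ℝ),
      (∀ j, ((h j).state i : (Fin d → ℝ) → ℝ) =ᵐ[volume] f j) →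
      (((∑ j, c j • (h j).state) i : Lp ℝ 2 (volume : Measure (Fin d → ℝ))) :
        (Fin d → ℝ) → ℝ) =ᵐ[volume] fun x => ∑ j, c j * f j x := by
    intro i f hf
    have e1 : (∑ j, c j • (h j).state) i = ∑ j, c j • ((h j).state i) := by
      rw [WithLp.ofLp_sum, Finset.sum_apply]
      rfl
    rw [e1]
    have e2 : ∀ᵐ x ∂(volume : Measure (Fin d → ℝ)), ∀ j,
        (c j • ((h j).state i) : Lp ℝ 2 (volume : Measure (Fin d → ℝ))) x
          = c j * f j x := by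
      rw [ae_all_iff]
      intro j
      filter_upwards [Lp.coeFn_smul (c j) ((h j).state i), hf j] with x h1 h2
      rw [h1, Pi.smul_apply, smul_eq_mul, h2]
    filter_upwards [Lp.coeFn_finsetSum Finset.univ (fun j => c j • ((h j).state i)), e2]
      with x h1 h2
    rw [h1, Finset.sum_apply]
    exact Finset.sum_congr rfl fun j _ => h2 j
  ext i : 1
  apply Lp.ext
  rcases i with i | i
  · fin_cases i
    · exact (Dom.sum h c).state_u.trans (key (Sum.inl 0) u (fun j => (h j).state_u)).symm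
    · refine (Dom.sum h c).state_w.trans ?_
      refine EventuallyEq.trans ?_ (key (Sum.inl 1) (fun j x => sV V x * u j x)
        (fun j => (h j).state_w)).symm
      filter_upwards with x
      rw [Finset.mul_sum]
      exact Finset.sum_congr rfl fun j _ => by ring
  · exact ((Dom.sum h c).state_g i).trans
      (key (Sum.inr i) (fun j => g j i) (fun j => (h j).state_g i)).symm

theorem integral_sum_mul {ι : Type} [Fintype ι] {u : ι → (Fin d → ℝ) → ℝ}
    (h : ∀ j, MemLp (u j) 2 volume) (c : ι → ℝ) {v : (Fin d → ℝ) → ℝ} (hv : MemLp v 2 volume) :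
    ∫ x, (∑ j, c j * u j x) * v x = ∑ j, c j * ∫ x, u j x * v x := by
  have e : ∀ x, (∑ j, c j * u j x) * v x = ∑ j, c j * (u j x * v x) := by
    intro x
    rw [Finset.sum_mul]
    exact Finset.sum_congr rfl fun j _ => by ring
  simp only [e]
  rw [integral_finsetSum _ fun j _ => (integrable_mul (h j) hv).const_mul _]
  exact Finset.sum_congr rfl fun j _ => integral_const_mul _ _

theorem bf_sum_left {ι : Type} [Fintype ι] {V : (Fin d → ℝ) → ℝ≥0∞} {u : ι → (Fin d → ℝ) → ℝ}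
    {g : ι → Fin d → (Fin d → ℝ) → ℝ} (h : ∀ j, Dom V (u j) (g j)) (c : ι → ℝ)
    {v : (Fin d → ℝ) → ℝ} {w : Fin d → (Fin d → ℝ) → ℝ} (hv : Dom V v w) :
    bf V (fun x => ∑ j, c j * u j x) (fun i x => ∑ j, c j * g j i x) v w
      = ∑ j, c j * bf V (u j) (g j) v w := by
  have h1 := (Dom.sum h c).inner_state hv
  rw [state_sum h c, sum_inner] at h1
  simp only [real_inner_smul_left, (h _).inner_state hv] at h1
  rw [integral_sum_mul (fun j => (h j).wp.mu) c hv.wp.mu] at h1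
  simp only [mul_add, Finset.sum_add_distrib] at h1
  linarith

theorem bf_comm (V : (Fin d → ℝ) → ℝ≥0∞) (u v : (Fin d → ℝ) → ℝ)
    (g h : Fin d → (Fin d → ℝ) → ℝ) : bf V u g v h = bf V v h u g := by
  unfold bf
  congr 1
  · refine Finset.sum_congr rfl fun i _ => ?_
    congr 1; ext x; ring
  · congr 1; ext x; ring

/-- A system of eigenfunctions. -/
structure IsEig (V : (Fin d → ℝ) → ℝ≥0∞) {k : ℕ} (u : Fin k → (Fin d → ℝ) → ℝ)
    (g : Fin k → Fin d → (Fin d → ℝ) → ℝ) (lm : Fin k → ℝ) : Prop where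
  dom : ∀ j, Dom V (u j) (g j)
  on : ∀ i j, ∫ x, u i x * u j x = if i = j then 1 else 0
  el : ∀ j v h, Dom V v h → bf V (u j) (g j) v h = lm j * ∫ x, u j x * v x
  mono : Monotone lm

theorem IsEig.nonneg {V : (Fin d → ℝ) → ℝ≥0∞} {k : ℕ} {u : Fin k → (Fin d → ℝ) → ℝ}
    {g : Fin k → Fin d → (Fin d → ℝ) → ℝ} {lm : Fin k → ℝ} (h : IsEig V u g lm) (j : Fin k) :
    0 ≤ lm j := by
  have h1 := h.el j _ _ (h.dom j)
  rw [h.on, if_pos rfl, mul_one] at h1
  rw [← h1]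
  exact Dom.bf_nonneg _ _ _

/-- squared norm of a combination -/
theorem IsEig.integral_sum_sq {V : (Fin d → ℝ) → ℝ≥0∞} {k : ℕ} {u : Fin k → (Fin d → ℝ) → ℝ}
    {g : Fin k → Fin d → (Fin d → ℝ) → ℝ} {lm : Fin k → ℝ} (h : IsEig V u g lm)
    (c : Fin k → ℝ) : ∫ x, (∑ j, c j * u j x) ^ 2 = ∑ j, c j ^ 2 := by
  simp only [sq]
  rw [integral_sum_mul (fun j => (h.dom j).wp.mu) c (WP.sum (fun j => (h.dom j).wp) c).mu]
  refine Finset.sum_congr rfl fun j _ => ?_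
  congr 1
  have e : ∫ x, u j x * ∑ j, c j * u j x = ∫ x, (∑ j, c j * u j x) * u j x := by
    congr 1; ext x; ring
  rw [e, integral_sum_mul (fun j => (h.dom j).wp.mu) c (h.dom j).wp.mu]
  simp only [h.on]
  simp

theorem IsEig.nsq_sum {V : (Fin d → ℝ) → ℝ≥0∞} {k : ℕ} {u : Fin k → (Fin d → ℝ) → ℝ}
    {g : Fin k → Fin d → (Fin d → ℝ) → ℝ} {lm : Fin k → ℝ} (h : IsEig V u g lm)
    (c : Fin k → ℝ) : nsq (fun x => ∑ j, c j * u j x) = ENNReal.ofReal (∑ j, c j ^ 2) := by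
  rw [nsq_ofReal (WP.sum (fun j => (h.dom j).wp) c).mu, h.integral_sum_sq]

theorem IsEig.bf_sum {V : (Fin d → ℝ) → ℝ≥0∞} {k : ℕ} {u : Fin k → (Fin d → ℝ) → ℝ}
    {g : Fin k → Fin d → (Fin d → ℝ) → ℝ} {lm : Fin k → ℝ} (h : IsEig V u g lm)
    (c : Fin k → ℝ) : bf V (fun x => ∑ j, c j * u j x) (fun i x => ∑ j, c j * g j i x)
      (fun x => ∑ j, c j * u j x) (fun i x => ∑ j, c j * g j i x) = ∑ j, lm j * c j ^ 2 := by
  rw [bf_sum_left h.dom c (Dom.sum h.dom c)]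
  refine Finset.sum_congr rfl fun j _ => ?_
  rw [h.el j _ _ (Dom.sum h.dom c)]
  have e : ∫ x, u j x * ∑ j, c j * u j x = ∫ x, (∑ j, c j * u j x) * u j x := by
    congr 1; ext x; ring
  rw [e, integral_sum_mul (fun j => (h.dom j).wp.mu) c (h.dom j).wp.mu]
  simp only [h.on]
  simp
  ring

theorem sum_sq_pos {k : ℕ} {c : Fin k → ℝ} (hc : c ≠ 0) : 0 < ∑ j, c j ^ 2 := by
  obtain ⟨j, hj⟩ := Function.ne_iff.1 hc
  exact Finset.sum_pos' (fun i _ => sq_nonneg _) ⟨j, Finset.mem_univ _, by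
    have : c j ≠ 0 := hj
    positivity⟩

theorem IsEig.indep {V : (Fin d → ℝ) → ℝ≥0∞} {k : ℕ} {u : Fin k → (Fin d → ℝ) → ℝ}
    {g : Fin k → Fin d → (Fin d → ℝ) → ℝ} {lm : Fin k → ℝ} (h : IsEig V u g lm)
    {c : Fin k → ℝ} (hc : c ≠ 0) : nsq (fun x => ∑ j, c j * u j x) ≠ 0 := by
  rw [h.nsq_sum, Ne, ENNReal.ofReal_eq_zero, not_le]
  exact sum_sq_pos hc

/-- The `k`-th min-max value is attained by the eigenfunctions. -/
theorem IsEig.lamK_le {V : (Fin d → ℝ) → ℝ≥0∞} {n : ℕ} {u : Fin (n + 1) → (Fin d → ℝ) → ℝ}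
    {g : Fin (n + 1) → Fin d → (Fin d → ℝ) → ℝ} {lm : Fin (n + 1) → ℝ} (h : IsEig V u g lm) :
    lamK (n + 1) V ≤ ENNReal.ofReal (lm (Fin.last n)) := by
  refine MP_2cde6c_an.lamK_le h.dom (fun c hc => h.indep hc) fun c _ => ?_
  rw [(Dom.sum h.dom c).qf_eq_bf, h.nsq_sum, h.bf_sum, ← ENNReal.ofReal_mul (h.nonneg _)]
  apply ENNReal.ofReal_le_ofReal
  rw [Finset.mul_sum]
  refine Finset.sum_le_sum fun j _ => ?_
  exact mul_le_mul_of_nonneg_right (h.mono (Fin.le_last j)) (sq_nonneg _)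

/-- Existence of eigenfunctions when the form domain embeds compactly. -/
theorem exists_isEig_of_compact {V : (Fin d → ℝ) → ℝ≥0∞} (hV : Measurable V)
    (hcomp : ∀ X : ℕ → HS d, (∀ n, X n ∈ MV V) → (∃ C : ℝ, ∀ n, ‖X n‖ ≤ C) →
      ∃ φ : ℕ → ℕ, StrictMono φ ∧ ∃ z, Tendsto (fun n => Lproj d (X (φ n))) atTop (𝓝 z))
    {n : ℕ} (hfin : lamK (n + 1) V < ⊤) :
    ∃ (u : Fin (n + 1) → (Fin d → ℝ) → ℝ) (g : Fin (n + 1) → Fin d → (Fin d → ℝ) → ℝ)
      (lm : Fin (n + 1) → ℝ), IsEig V u g lm ∧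
        lamK (n + 1) V = ENNReal.ofReal (lm (Fin.last n)) := by
  obtain ⟨u₀, g₀, hd, hind, -⟩ := exists_of_lamK_lt hV hfin
  have hLA : ∀ c : Fin (n + 1) → ℝ, c ≠ 0 → Lproj d (∑ j, c j • (hd j).state) ≠ 0 := by
    intro c hc h0
    apply hind c hc
    rw [← state_sum hd c, Lproj_apply] at h0
    have h1 := (Dom.sum hd c).state_u
    rw [h0] at h1
    rw [nsq_eq_zero (Dom.sum hd c).wp.mu.1]
    refine h1.symm.trans ?_
    exact Lp.coeFn_zero _ _ _
  obtain ⟨x, ν, hxM, hon, hEL, hmn⟩ := spectral (MV V) (isClosed_MV V) (Lproj d)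
    hcomp (n + 1) (fun j => (hd j).state)
    (fun j => (hd j).state_mem) hLA
  have hdom : ∀ j, Dom V (x j (Sum.inl 0)) (fun i => x j (Sum.inr i)) := fun j =>
    ((mem_MV V _).1 (hxM j)).1
  have hst : ∀ j, (hdom j).state = x j := fun j => state_of_mem (hxM j) (hdom j)
  have hmono := spectral_mono (MV V) (Lproj d) x ν hxM hon hEL hmn
  have hisE : IsEig V (fun j => x j (Sum.inl 0)) (fun j i => x j (Sum.inr i))
      (fun j => ν j - 1) := by
    refine ⟨hdom, fun i j => ?_, fun j v h hv => ?_, fun i j hij => by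
      have := hmono hij
      change ν i - 1 ≤ ν j - 1
      linarith⟩
    · rw [← (hdom i).inner_Lproj (hdom j), hst, hst]
      exact hon i j
    · have h1 := hEL j _ hv.state_mem
      rw [← hst j, (hdom j).inner_state hv, (hdom j).inner_Lproj hv] at h1
      linarith
  refine ⟨_, _, _, hisE, le_antisymm hisE.lamK_le ?_⟩
  -- lower bound
  by_contra hcon
  rw [not_le] at hcon
  obtain ⟨u₁, g₁, hd₁, hind₁, hq₁⟩ := exists_of_lamK_lt hV hcon
  -- find an intermediate value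
  obtain ⟨t, ht1, ht2⟩ := exists_between hcon
  obtain ⟨u₁, g₁, hd₁, hind₁, hq₁⟩ := exists_of_lamK_lt hV ht1
  obtain ⟨c, hc0, hc⟩ := spectral_lower (MV V) (Lproj d) x ν hmn (fun j => (hd₁ j).state)
    (fun j => (hd₁ j).state_mem)
  have h2 := hq₁ c hc0
  have h3 : ENNReal.ofReal (ν (Fin.last n) - 1) * nsq (fun x => ∑ j, c j * u₁ j x)
      ≤ qf V (fun x => ∑ j, c j * u₁ j x) (fun i x => ∑ j, c j * g₁ j i x) := by
    rw [(Dom.sum hd₁ c).qf_eq_bf, nsq_ofReal (Dom.sum hd₁ c).wp.mu,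
      ← ENNReal.ofReal_mul (hisE.nonneg _)]
    apply ENNReal.ofReal_le_ofReal
    rw [← state_sum hd₁ c, ← real_inner_self_eq_norm_sq, ← real_inner_self_eq_norm_sq,
      (Dom.sum hd₁ c).inner_state (Dom.sum hd₁ c),
      (Dom.sum hd₁ c).inner_Lproj (Dom.sum hd₁ c)] at hc
    have e : ∫ x, (∑ j, c j * u₁ j x) ^ 2 = ∫ x, (∑ j, c j * u₁ j x) * ∑ j, c j * u₁ j x := by
      simp only [sq]
    rw [e]
    linarith
  have h4 := h3.trans h2
  have h5 := (ENNReal.mul_le_mul_iff_left (hind₁ c hc0)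
    (nsq_ne_top (Dom.sum hd₁ c).wp.mu)).1 h4
  exact absurd ht2 (not_lt.2 h5)

/-- Existence of eigenfunctions for confined potentials. -/
theorem exists_isEig {V : (Fin d → ℝ) → ℝ≥0∞} (hV : Measurable V) {S : Set (Fin d → ℝ)}
    (hS : Bornology.IsBounded S) (hVS : ∀ x, x ∉ S → V x = ⊤) {n : ℕ}
    (hfin : lamK (n + 1) V < ⊤) :
    ∃ (u : Fin (n + 1) → (Fin d → ℝ) → ℝ) (g : Fin (n + 1) → Fin d → (Fin d → ℝ) → ℝ)
      (lm : Fin (n + 1) → ℝ), IsEig V u g lm ∧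
        lamK (n + 1) V = ENNReal.ofReal (lm (Fin.last n)) :=
  exists_isEig_of_compact hV (fun X hX hb => compact_MV hS hVS X hX hb) hfin

end Pool.Agent.Work.MP_2cde6c_an
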