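import Pool.Agent.Work.MP_2cde6c_an.Comb
import Pool.Agent.Work.MP_2cde6c_an.Conv

set_option autoImplicit false

/-!
# Existence of optimal potentials in a bounded region
-/

open MeasureTheory Filter
open scoped ENNReal Topology ContDiff

namespace Pool.Agent.Work.MP_2cde6c_an

variable {d : ℕ}

theorem liminf_add_liminf_le (a b : ℕ → ℝ≥0∞) :
    liminf a atTop + liminf b atTop ≤ liminf (fun n => a n + b n) atTop := by
  rw [liminf_eq_iSup_iInf_of_nat, liminf_eq_iSup_iInf_of_nat, liminf_eq_iSup_iInf_of_nat,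
    ENNReal.iSup_add_iSup_of_monotone]
  · refine iSup_mono fun n => ?_
    refine le_iInf₂ fun i hi => ?_
    exact add_le_add (iInf₂_le i hi) (iInf₂_le i hi)
  · intro n m hnm
    exact le_iInf₂ fun i hi => iInf₂_le i (hnm.trans hi)
  · intro n m hnm
    exact le_iInf₂ fun i hi => iInf₂_le i (hnm.trans hi)

theorem tail_sup_tendsto {t : ℕ → ℝ≥0∞} {T : ℝ≥0∞} (h : Tendsto t atTop (𝓝 T)) :
    Tendsto (fun n => ⨆ i ≥ n, t i) atTop (𝓝 T) := by
  have h1 : Antitone (fun n => ⨆ i ≥ n, t i) := by
    intro n m hnm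
    exact iSup₂_le fun i hi => le_iSup₂ (f := fun i (_ : i ≥ n) => t i) i (hnm.trans hi)
  have h2 := tendsto_atTop_iInf h1
  rwa [← limsup_eq_iInf_iSup_of_nat, h.limsup_eq] at h2

theorem sq_sum_le {s : Finset ℕ} {w : ℕ → ℝ} (hw : ∀ m, 0 ≤ w m) (hw1 : ∑ m ∈ s, w m = 1)
    (y : ℕ → ℝ) : (∑ m ∈ s, w m * y m) ^ 2 ≤ ∑ m ∈ s, w m * y m ^ 2 := by
  have h := (even_two.convexOn_pow (𝕜 := ℝ)).map_sum_le (t := s) (w := w) (p := y)
    (fun m _ => hw m) hw1 (fun m _ => Set.mem_univ _)
  simpa [smul_eq_mul] using h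

theorem lsc_core {p : ℝ} (hp : 0 < p) (hp1 : p ≤ 1) {k : ℕ} {S : Set (Fin d → ℝ)}
    (hS : Bornology.IsBounded S) (hSm : MeasurableSet S)
    {V : ℕ → (Fin d → ℝ) → ℝ≥0∞} (hV : ∀ m, Measurable (V m))
    (hVS : ∀ m x, x ∉ S → V m x = ⊤) (hVp : ∀ m, ∫⁻ x, V m x ^ (-p) ≤ 1)
    {u : ℕ → Fin k → (Fin d → ℝ) → ℝ} {g : ℕ → Fin k → Fin d → (Fin d → ℝ) → ℝ}
    (hd : ∀ m j, Dom (V m) (u m j) (g m j))
    {t : ℕ → ℝ≥0∞} {T K : ℝ≥0∞} (htT : Tendsto t atTop (𝓝 T)) (hK : K ≠ ⊤) (htK : ∀ m, t m ≤ K)
    (hg : ∀ m j i, nsq (g m j i) ≤ K)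
    (hq : ∀ m (c : Fin k → ℝ), qf (V m) (fun x => ∑ j, c j * u m j x)
      (fun i x => ∑ j, c j * g m j i x) ≤ t m * ENNReal.ofReal (∑ j, c j ^ 2))
    {v : Fin k → (Fin d → ℝ) → ℝ} (hv : ∀ j, MemLp (v j) 2 volume)
    (huv : ∀ j, Tendsto (fun n => eLpNorm (fun x => u n j x - v j x) 2 volume) atTop (𝓝 0))
    (hae : ∀ᵐ x ∂(volume : Measure (Fin d → ℝ)), ∀ j,
      Tendsto (fun n => u n j x) atTop (𝓝 (v j x))) :
    ∃ V' : (Fin d → ℝ) → ℝ≥0∞, Measurable V' ∧ (∀ x, x ∉ S → V' x = ⊤) ∧
      ∫⁻ x, V' x ^ (-p) ≤ 1 ∧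
      ∃ (g' : Fin k → Fin d → (Fin d → ℝ) → ℝ), (∀ j, Dom V' (v j) (g' j)) ∧
      ∀ c : Fin k → ℝ, qf V' (fun x => ∑ j, c j * v j x)
        (fun i x => ∑ j, c j * g' j i x) ≤ T * ENNReal.ofReal (∑ j, c j ^ 2) := by
  classical
  -- the parameter functions
  set θ : ℕ → (Fin d → ℝ) → ℝ := fun m x => th p (V m x) with hθ
  have hθm : ∀ m, Measurable (θ m) := fun m => (measurable_th p).comp (hV m)
  have hθ0 : ∀ m x, 0 ≤ θ m x := fun m x => th_nonneg _ _
  have hθ1 : ∀ m x, θ m x ≤ 1 := fun m x => th_le_one _ _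
  have hθS : ∀ m x, x ∉ S → θ m x = 0 := fun m x hx => by
    rw [hθ]; simp only; rw [hVS m x hx, th_top hp]
  have hSvol : volume S < ⊤ := hS.measure_lt_top
  have hθn : ∀ m, nsq (θ m) ≤ volume S := by
    intro m
    calc nsq (θ m) ≤ ∫⁻ x, S.indicator (fun _ => (1 : ℝ≥0∞)) x := by
          apply lintegral_mono
          intro x
          by_cases hx : x ∈ S
          · rw [Set.indicator_of_mem hx, ← ENNReal.ofReal_one]
            apply ENNReal.ofReal_le_ofReal
            have h0 := hθ0 m x
            have h1 := hθ1 m x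
            nlinarith
          · rw [Set.indicator_of_notMem hx]
            simp only [hθS m x hx]
            simp
      _ = volume S := by rw [lintegral_indicator hSm]; simp
  have hθL : ∀ m, MemLp (θ m) 2 volume := fun m =>
    memLp_of_nsq (hθm m).aestronglyMeasurable ((hθn m).trans_lt hSvol)
  -- Mazur
  obtain ⟨s, w, F, hs, hw, hw1, hFL, hFm, hFlim, hFae⟩ := mazur_fun
    (ι := Option (Fin k × Fin d))
    (fun m o => o.elim (θ m) (fun q => g m q.1 q.2))
    (fun m o => by
      rcases o with _ | q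
      · exact hθL m
      · exact (hd m q.1).wp.mg q.2)
    (C := volume S + K) (ENNReal.add_ne_top.2 ⟨hSvol.ne, hK⟩)
    (fun m o => by
      rcases o with _ | q
      · exact (hθn m).trans le_self_add
      · exact (hg m q.1 q.2).trans le_add_self)
  set Θ := F none with hΘ
  set g' : Fin k → Fin d → (Fin d → ℝ) → ℝ := fun j i => F (some (j, i)) with hg'
  have hΘae : ∀ᵐ x ∂(volume : Measure (Fin d → ℝ)),
      Tendsto (fun n => ∑ m ∈ s n, w n m * θ m x) atTop (𝓝 (Θ x)) := by
    filter_upwards [hFae] with x hx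
    exact hx none
  have hgae : ∀ᵐ x ∂(volume : Measure (Fin d → ℝ)), ∀ j i,
      Tendsto (fun n => ∑ m ∈ s n, w n m * g m j i x) atTop (𝓝 (g' j i x)) := by
    filter_upwards [hFae] with x hx j i
    exact hx (some (j, i))
  -- the limit potential
  set V' : (Fin d → ℝ) → ℝ≥0∞ := fun x => if x ∈ S then vof p (Θ x) else ⊤ with hV'
  have hV'm : Measurable V' :=
    Measurable.ite hSm ((measurable_vof p).comp (hFm none)) measurable_const
  have hV'S : ∀ x, x ∉ S → V' x = ⊤ := fun x hx => by rw [hV']; simp only; rw [if_neg hx]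
  have hV'ae : ∀ᵐ x ∂(volume : Measure (Fin d → ℝ)), V' x = vof p (Θ x) := by
    filter_upwards [hΘae] with x hx
    by_cases hxS : x ∈ S
    · rw [hV']; simp only; rw [if_pos hxS]
    · have h0 : (fun n => ∑ m ∈ s n, w n m * θ m x) = fun _ => 0 := by
        funext n
        exact Finset.sum_eq_zero fun m _ => by rw [hθS m x hxS, mul_zero]
      rw [h0] at hx
      have := tendsto_nhds_unique hx tendsto_const_nhds
      rw [this, vof_zero hp]
      exact hV'S x hxS
  have hV'p : ∫⁻ x, V' x ^ (-p) ≤ 1 := by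
    have h1 : ∫⁻ x, V' x ^ (-p)
        = ∫⁻ x, liminf (fun n => mof (∑ m ∈ s n, w n m * θ m x)) atTop := by
      apply lintegral_congr_ae
      filter_upwards [hV'ae, hΘae] with x h1 h2
      rw [h1, vof_rpow hp]
      exact (((continuous_mof.tendsto _).comp h2).liminf_eq).symm
    rw [h1]
    refine (lintegral_liminf_le fun n => ?_).trans ?_
    · exact continuous_mof.measurable.comp
        (Finset.measurable_fun_sum _ fun m _ => (hθm m).const_mul _)
    · have h2 : ∀ n, ∫⁻ x, mof (∑ m ∈ s n, w n m * θ m x) ≤ 1 := by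
        intro n
        calc ∫⁻ x, mof (∑ m ∈ s n, w n m * θ m x)
            ≤ ∫⁻ x, ∑ m ∈ s n, ENNReal.ofReal (w n m) * mof (θ m x) := by
              apply lintegral_mono
              intro x
              exact mof_convex (hw n) (hw1 n) (fun m => hθ0 m x) (fun m => hθ1 m x)
          _ = ∑ m ∈ s n, ENNReal.ofReal (w n m) * ∫⁻ x, V m x ^ (-p) := by
              rw [lintegral_finsetSum]
              · refine Finset.sum_congr rfl fun m _ => ?_
                rw [lintegral_const_mul' _ _ ENNReal.ofReal_ne_top]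
                congr 1
                apply lintegral_congr
                intro x
                rw [hθ]
                exact mof_th hp _
              · intro m _
                exact (continuous_mof.measurable.comp (hθm m)).const_mul _
          _ ≤ ∑ m ∈ s n, ENNReal.ofReal (w n m) * 1 := by
              gcongr with m _
              exact hVp m
          _ = 1 := by
              simp only [mul_one]
              rw [← ENNReal.ofReal_sum_of_nonneg fun m _ => hw n m, hw1]
              simp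
      refine (liminf_le_liminf (Eventually.of_forall h2)).trans ?_
      rw [liminf_const]
  -- weak pairs in the limit
  have hwp : ∀ j, WP (v j) (g' j) := by
    intro j
    refine WP.of_tendsto (un := fun n x => ∑ m ∈ s n, w n m * u m j x)
      (gn := fun n i x => ∑ m ∈ s n, w n m * g m j i x) (fun n => ?_) (hv j)
      (fun i => hFL (some (j, i))) ?_ ?_
    · have := WP.sum (ι := s n) (u := fun m => u m j) (g := fun m => g m j)
        (fun m => (hd m j).wp) (fun m => w n m)
      simp only [Finset.univ_eq_attach] at this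
      refine this.congr (ae_of_all _ fun x => ?_) (fun i => ae_of_all _ fun x => ?_)
      · exact Finset.sum_attach (s n) (fun m => w n m * u m j x)
      · exact Finset.sum_attach (s n) (fun m => w n m * g m j i x)
    · exact comb_tendsto (fun m => (hd m j).wp.mu) (hv j) (huv j) hs hw hw1
    · intro i
      exact hFlim (some (j, i))
  -- the energy inequality
  have hen : ∀ c : Fin k → ℝ, qf V' (fun x => ∑ j, c j * v j x)
        (fun i x => ∑ j, c j * g' j i x) ≤ T * ENNReal.ofReal (∑ j, c j ^ 2) := by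
    intro c
    set y : ℕ → (Fin d → ℝ) → ℝ≥0∞ := fun m x => ENNReal.ofReal ((∑ j, c j * u m j x) ^ 2) with hy
    set G : ℕ → (Fin d → ℝ) → ℝ≥0∞ := fun n x =>
      ∑ i, ENNReal.ofReal ((∑ j, c j * ∑ m ∈ s n, w n m * g m j i x) ^ 2) with hG
    set Hn : ℕ → (Fin d → ℝ) → ℝ≥0∞ := fun n x =>
      ∑ m ∈ s n, ENNReal.ofReal (w n m) * (V m x * y m x) with hHn
    have hym : ∀ m, AEMeasurable (y m) volume := fun m =>
      ENNReal.measurable_ofReal.comp_aemeasurable
        ((WP.sum (fun j => (hd m j).wp) c).mu.1.aemeasurable.pow_const 2)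
    have hGm : ∀ n, AEMeasurable (G n) volume := by
      intro n
      refine Finset.aemeasurable_fun_sum _ fun i _ => ?_
      refine ENNReal.measurable_ofReal.comp_aemeasurable (AEMeasurable.pow_const ?_ 2)
      refine Finset.aemeasurable_fun_sum _ fun j _ => AEMeasurable.const_mul ?_ _
      exact Finset.aemeasurable_fun_sum _ fun m _ =>
        ((hd m j).wp.mg i).1.aemeasurable.const_mul _
    have hHm : ∀ n, AEMeasurable (Hn n) volume := by
      intro n
      refine Finset.aemeasurable_fun_sum _ fun m _ => ?_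
      exact ((hV m).aemeasurable.mul (hym m)).const_mul _
    have hpt : ∀ᵐ x ∂(volume : Measure (Fin d → ℝ)),
        ((∑ i, ENNReal.ofReal ((∑ j, c j * g' j i x) ^ 2))
          + V' x * ENNReal.ofReal ((∑ j, c j * v j x) ^ 2))
        ≤ liminf (fun n => G n x + Hn n x) atTop := by
      filter_upwards [hV'ae, hΘae, hgae, hae] with x h1 h2 h3 h4
      have l1 : Tendsto (fun n => G n x) atTop
          (𝓝 (∑ i, ENNReal.ofReal ((∑ j, c j * g' j i x) ^ 2))) := by
        refine tendsto_finsetSum _ fun i _ => ?_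
        refine (ENNReal.continuous_ofReal.tendsto _).comp (Tendsto.pow ?_ 2)
        exact tendsto_finsetSum _ fun j _ => (h3 j i).const_mul _
      have l2 : Tendsto (fun m => y m x) atTop
          (𝓝 (ENNReal.ofReal ((∑ j, c j * v j x) ^ 2))) := by
        refine (ENNReal.continuous_ofReal.tendsto _).comp (Tendsto.pow ?_ 2)
        exact tendsto_finsetSum _ fun j _ => (h4 j).const_mul _
      have l3 : Tendsto (fun n => vof p (∑ m ∈ s n, w n m * θ m x)) atTop (𝓝 (vof p (Θ x))) :=
        (continuous_vof.tendsto _).comp h2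
      have l4 := liminf_comb_ge l2 ENNReal.ofReal_ne_top (v := fun m => V m x) l3
        (w := fun n m => ENNReal.ofReal (w n m)) hs (fun n => by
          refine (vof_convex hp hp1 (hw n) (hw1 n) (fun m => hθ0 m x)
            (fun m => hθ1 m x)).trans (le_of_eq ?_)
          refine Finset.sum_congr rfl fun m _ => ?_
          rw [hθ]
          simp only
          rw [vof_th hp])
      rw [h1]
      refine le_trans ?_ (liminf_add_liminf_le _ _)
      rw [l1.liminf_eq]
      exact add_le_add le_rfl l4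
    have hint : ∀ n, ∫⁻ x, (G n x + Hn n x)
        ≤ (⨆ i ≥ n, t i) * ENNReal.ofReal (∑ j, c j ^ 2) := by
      intro n
      have hGpt : ∀ x, G n x ≤ ∑ m ∈ s n, ENNReal.ofReal (w n m) *
          ∑ i, ENNReal.ofReal ((∑ j, c j * g m j i x) ^ 2) := by
        intro x
        have e1 : ∑ m ∈ s n, ENNReal.ofReal (w n m) *
            ∑ i, ENNReal.ofReal ((∑ j, c j * g m j i x) ^ 2)
            = ∑ i, ∑ m ∈ s n, ENNReal.ofReal (w n m) *
              ENNReal.ofReal ((∑ j, c j * g m j i x) ^ 2) := by
          simp only [Finset.mul_sum]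
          exact Finset.sum_comm
        rw [e1]
        refine Finset.sum_le_sum fun i _ => ?_
        have e2 : ∑ j, c j * ∑ m ∈ s n, w n m * g m j i x
            = ∑ m ∈ s n, w n m * ∑ j, c j * g m j i x := by
          simp only [Finset.mul_sum]
          rw [Finset.sum_comm]
          refine Finset.sum_congr rfl fun m _ => Finset.sum_congr rfl fun j _ => ?_
          ring
        rw [e2]
        refine (ENNReal.ofReal_le_ofReal (sq_sum_le (hw n) (hw1 n) _)).trans (le_of_eq ?_)
        rw [ENNReal.ofReal_sum_of_nonneg fun m _ => mul_nonneg (hw n m) (sq_nonneg _)]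
        exact Finset.sum_congr rfl fun m _ => ENNReal.ofReal_mul (hw n m)
      calc ∫⁻ x, (G n x + Hn n x)
          ≤ ∫⁻ x, ∑ m ∈ s n, ENNReal.ofReal (w n m) *
            ((∑ i, ENNReal.ofReal ((∑ j, c j * g m j i x) ^ 2)) + V m x * y m x) := by
            apply lintegral_mono
            intro x
            refine (add_le_add (hGpt x) le_rfl).trans (le_of_eq ?_)
            rw [hHn]
            simp only
            rw [← Finset.sum_add_distrib]
            exact Finset.sum_congr rfl fun m _ => by ring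
        _ = ∑ m ∈ s n, ENNReal.ofReal (w n m) * qf (V m) (fun x => ∑ j, c j * u m j x)
              (fun i x => ∑ j, c j * g m j i x) := by
            rw [lintegral_finsetSum']
            · refine Finset.sum_congr rfl fun m _ => ?_
              rw [lintegral_const_mul' _ _ ENNReal.ofReal_ne_top]
              rfl
            · intro m _
              refine AEMeasurable.const_mul (AEMeasurable.add ?_ ((hV m).aemeasurable.mul (hym m))) _
              refine Finset.aemeasurable_fun_sum _ fun i _ => ?_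
              exact ENNReal.measurable_ofReal.comp_aemeasurable
                (((WP.sum (fun j => (hd m j).wp) c).mg i).1.aemeasurable.pow_const 2)
        _ ≤ ∑ m ∈ s n, ENNReal.ofReal (w n m) *
              ((⨆ i ≥ n, t i) * ENNReal.ofReal (∑ j, c j ^ 2)) := by
            refine Finset.sum_le_sum fun m hm => ?_
            gcongr
            refine (hq m c).trans ?_
            gcongr
            exact le_iSup₂ (f := fun i (_ : i ≥ n) => t i) m (hs n m hm)
        _ = (⨆ i ≥ n, t i) * ENNReal.ofReal (∑ j, c j ^ 2) := by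
            rw [← Finset.sum_mul, ← ENNReal.ofReal_sum_of_nonneg fun m _ => hw n m, hw1]
            simp
    calc qf V' (fun x => ∑ j, c j * v j x) (fun i x => ∑ j, c j * g' j i x)
        ≤ ∫⁻ x, liminf (fun n => G n x + Hn n x) atTop := lintegral_mono_ae hpt
      _ ≤ liminf (fun n => ∫⁻ x, (G n x + Hn n x)) atTop :=
          lintegral_liminf_le' fun n => (hGm n).add (hHm n)
      _ ≤ liminf (fun n => (⨆ i ≥ n, t i) * ENNReal.ofReal (∑ j, c j ^ 2)) atTop :=
          liminf_le_liminf (Eventually.of_forall hint)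
      _ = T * ENNReal.ofReal (∑ j, c j ^ 2) :=
          (ENNReal.Tendsto.mul_const (tail_sup_tendsto htT)
            (Or.inr ENNReal.ofReal_ne_top)).liminf_eq
  have hTfin : T ≠ ⊤ := by
    have : T ≤ K := le_of_tendsto htT (Eventually.of_forall htK)
    exact (this.trans_lt (lt_top_iff_ne_top.2 hK)).ne
  refine ⟨V', hV'm, hV'S, hV'p, g', fun j => ?_, hen⟩
  refine Dom.of_lintegral hV'm (hwp j) ?_
  have h1 := hen (Pi.single j 1)
  have e1 : ∀ (f : Fin k → (Fin d → ℝ) → ℝ) (x : Fin d → ℝ),
      ∑ j', (Pi.single j (1 : ℝ) : Fin k → ℝ) j' * f j' x = f j x := by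
    intro f x
    simp [Pi.single_apply]
  have e2 : (fun x => ∑ j', (Pi.single j (1 : ℝ) : Fin k → ℝ) j' * v j' x) = v j :=
    funext fun x => e1 v x
  rw [e2] at h1
  refine lt_of_le_of_lt ?_ (lt_of_le_of_lt h1 (ENNReal.mul_lt_top (lt_top_iff_ne_top.2 hTfin)
    ENNReal.ofReal_lt_top))
  apply lintegral_mono
  intro x
  exact le_add_self

end Pool.Agent.Work.MP_2cde6c_an
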