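import Mathlib

set_option autoImplicit false

/-!
# Successive minimisation in a Hilbert space
-/

open Filter
open scoped Topology

namespace Pool.Agent.Work.MP_2cde6c_an

variable {𝓗 H : Type*} [NormedAddCommGroup 𝓗] [InnerProductSpace ℝ 𝓗]
  [NormedAddCommGroup H] [InnerProductSpace ℝ H]

theorem eq_zero_of_quadratic {a b : ℝ} (h : ∀ t : ℝ, 0 ≤ 2 * t * b + t ^ 2 * a) : b = 0 := by
  by_contra hb
  have ha : 0 ≤ a := by
    have h1 := h 1
    have h2 := h (-1)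
    nlinarith
  have h1 := h (-b / (a + 1))
  have h2 : 2 * (-b / (a + 1)) * b + (-b / (a + 1)) ^ 2 * a
      = - (b ^ 2 * (a + 2)) / (a + 1) ^ 2 := by
    field_simp
    ring
  rw [h2] at h1
  have h3 : 0 < b ^ 2 * (a + 2) / (a + 1) ^ 2 := by positivity
  have h4 : - (b ^ 2 * (a + 2)) / (a + 1) ^ 2 = - (b ^ 2 * (a + 2) / (a + 1) ^ 2) := by ring
  rw [h4] at h1
  linarith

/-- Existence of a minimiser of the Rayleigh quotient on a closed subspace. -/
theorem exists_min [CompleteSpace 𝓗] (N : Submodule ℝ 𝓗) (hN : IsClosed (N : Set 𝓗))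
    (L : 𝓗 →L[ℝ] H)
    (hcomp : ∀ x : ℕ → 𝓗, (∀ n, x n ∈ N) → (∃ C : ℝ, ∀ n, ‖x n‖ ≤ C) →
      ∃ φ : ℕ → ℕ, StrictMono φ ∧ ∃ z, Tendsto (fun n => L (x (φ n))) atTop (𝓝 z))
    (y₀ : 𝓗) (hy₀ : y₀ ∈ N) (hLy₀ : L y₀ ≠ 0) :
    ∃ y ∈ N, ‖L y‖ = 1 ∧ ∀ v ∈ N, ‖y‖ ^ 2 * ‖L v‖ ^ 2 ≤ ‖v‖ ^ 2 := by
  set S : Set ℝ := {r | ∃ y ∈ N, ‖L y‖ = 1 ∧ r = ‖y‖ ^ 2} with hS
  have hSne : S.Nonempty := by
    refine ⟨_, (‖L y₀‖⁻¹) • y₀, N.smul_mem _ hy₀, ?_, rfl⟩
    rw [map_smul, norm_smul, norm_inv, norm_norm]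
    exact inv_mul_cancel₀ (norm_ne_zero_iff.2 hLy₀)
  have hSb : BddBelow S := ⟨0, by rintro r ⟨y, -, -, rfl⟩; positivity⟩
  set ν := sInf S with hν
  have hν0 : 0 ≤ ν := by
    apply le_csInf hSne
    rintro r ⟨y, -, -, rfl⟩
    positivity
  have hmin : ∀ v ∈ N, ν * ‖L v‖ ^ 2 ≤ ‖v‖ ^ 2 := by
    intro v hv
    by_cases h0 : L v = 0
    · rw [h0]; simp
    · have hne : ‖L v‖ ≠ 0 := norm_ne_zero_iff.2 h0
      have h1 : ν ≤ ‖(‖L v‖⁻¹) • v‖ ^ 2 := by
        apply csInf_le hSb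
        refine ⟨_, N.smul_mem _ hv, ?_, rfl⟩
        rw [map_smul, norm_smul, norm_inv, norm_norm]
        exact inv_mul_cancel₀ hne
      rw [norm_smul, norm_inv, norm_norm, mul_pow] at h1
      have h2 : ν * ‖L v‖ ^ 2 ≤ (‖L v‖⁻¹ ^ 2 * ‖v‖ ^ 2) * ‖L v‖ ^ 2 :=
        mul_le_mul_of_nonneg_right h1 (sq_nonneg _)
      have h3 : (‖L v‖⁻¹ ^ 2 * ‖v‖ ^ 2) * ‖L v‖ ^ 2 = ‖v‖ ^ 2 := by
        field_simp
      rwa [h3] at h2
  obtain ⟨r, -, hr, hrS⟩ := exists_seq_tendsto_sInf hSne hSb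
  choose y hyN hyL hyr using hrS
  have hbd : ∃ C : ℝ, ∀ n, ‖y n‖ ≤ C := by
    obtain ⟨C, hC⟩ := hr.bddAbove_range
    refine ⟨Real.sqrt C, fun n => ?_⟩
    apply Real.le_sqrt_of_sq_le
    rw [← hyr n]
    exact hC ⟨n, rfl⟩
  obtain ⟨φ, hφ, z, hz⟩ := hcomp y hyN hbd
  have hrφ : Tendsto (fun n => ‖y (φ n)‖ ^ 2) atTop (𝓝 ν) := by
    have := hr.comp hφ.tendsto_atTop
    refine this.congr fun n => ?_
    exact hyr (φ n)
  have hkey : ∀ a b, ‖y (φ a) - y (φ b)‖ ^ 2 ≤ 2 * (‖y (φ a)‖ ^ 2 - ν)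
      + 2 * (‖y (φ b)‖ ^ 2 - ν) + ν * ‖L (y (φ a)) - L (y (φ b))‖ ^ 2 := by
    intro a b
    have h1 := parallelogram_law_with_norm ℝ (y (φ a)) (y (φ b))
    have h2 := parallelogram_law_with_norm ℝ (L (y (φ a))) (L (y (φ b)))
    have h3 := hmin _ (N.add_mem (hyN (φ a)) (hyN (φ b)))
    rw [map_add] at h3
    rw [hyL, hyL] at h2
    have h4 : ‖L (y (φ a)) + L (y (φ b))‖ ^ 2 = 4 - ‖L (y (φ a)) - L (y (φ b))‖ ^ 2 := by
      nlinarith
    rw [h4] at h3
    nlinarith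
  have hcau : CauchySeq (fun n => y (φ n)) := by
    rw [Metric.cauchySeq_iff]
    intro δ hδ
    have hLc : CauchySeq (fun n => L (y (φ n))) := hz.cauchySeq
    rw [Metric.cauchySeq_iff] at hLc
    set η : ℝ := δ ^ 2 / (8 * (ν + 1)) with hη
    have hηpos : 0 < η := by positivity
    obtain ⟨N1, hN1⟩ := hLc (Real.sqrt η) (Real.sqrt_pos.2 hηpos)
    have hev : ∀ᶠ n in atTop, ‖y (φ n)‖ ^ 2 < ν + δ ^ 2 / 8 :=
      hrφ.eventually (gt_mem_nhds (by linarith [sq_pos_of_pos hδ]))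
    obtain ⟨N2, hN2⟩ := eventually_atTop.1 hev
    refine ⟨max N1 N2, fun a ha b hb => ?_⟩
    have h1 := hN1 a ((le_max_left _ _).trans ha) b ((le_max_left _ _).trans hb)
    have h2 := hN2 a ((le_max_right _ _).trans ha)
    have h3 := hN2 b ((le_max_right _ _).trans hb)
    have h4 := hkey a b
    rw [dist_eq_norm] at h1 ⊢
    have h5 : ‖L (y (φ a)) - L (y (φ b))‖ ^ 2 < η := by
      have := pow_lt_pow_left₀ h1 (norm_nonneg _) two_ne_zero
      rwa [Real.sq_sqrt hηpos.le] at this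
    have h6 : ν * ‖L (y (φ a)) - L (y (φ b))‖ ^ 2 ≤ (ν + 1) * η := by
      apply mul_le_mul (by linarith) h5.le (sq_nonneg _) (by linarith)
    have h7 : (ν + 1) * η = δ ^ 2 / 8 := by
      rw [hη]; field_simp
    have h8 : ‖y (φ a) - y (φ b)‖ ^ 2 < δ ^ 2 := by
      have := sq_pos_of_pos hδ
      linarith
    exact lt_of_pow_lt_pow_left₀ 2 hδ.le h8
  obtain ⟨w, hw⟩ := cauchySeq_tendsto_of_complete hcau
  have hwN : w ∈ N := hN.mem_of_tendsto hw (Eventually.of_forall fun n => hyN (φ n))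
  have hLw : ‖L w‖ = 1 := by
    have h1 : Tendsto (fun n => ‖L (y (φ n))‖) atTop (𝓝 ‖L w‖) :=
      ((L.continuous.tendsto w).comp hw).norm
    have h2 : (fun n => ‖L (y (φ n))‖) = fun _ => (1 : ℝ) := funext fun n => hyL (φ n)
    rw [h2] at h1
    exact (tendsto_nhds_unique h1 tendsto_const_nhds)
  have hwν : ‖w‖ ^ 2 = ν := by
    have h1 : Tendsto (fun n => ‖y (φ n)‖ ^ 2) atTop (𝓝 (‖w‖ ^ 2)) := hw.norm.pow 2
    exact tendsto_nhds_unique h1 hrφ
  exact ⟨w, hwN, hLw, fun v hv => by rw [hwν]; exact hmin v hv⟩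

theorem euler_lagrange (N : Submodule ℝ 𝓗) (L : 𝓗 →L[ℝ] H) {y : 𝓗} (hy : y ∈ N)
    (hLy : ‖L y‖ = 1) (hmin : ∀ v ∈ N, ‖y‖ ^ 2 * ‖L v‖ ^ 2 ≤ ‖v‖ ^ 2) {v : 𝓗} (hv : v ∈ N) :
    inner ℝ y v = ‖y‖ ^ 2 * inner ℝ (L y) (L v) := by
  have h : ∀ t : ℝ, 0 ≤ 2 * t * (inner ℝ y v - ‖y‖ ^ 2 * inner ℝ (L y) (L v))
      + t ^ 2 * (‖v‖ ^ 2 - ‖y‖ ^ 2 * ‖L v‖ ^ 2) := by
    intro t
    have h1 := hmin _ (N.add_mem hy (N.smul_mem t hv))
    rw [map_add, map_smul, norm_add_sq_real, norm_add_sq_real, real_inner_smul_right,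
      real_inner_smul_right, norm_smul, norm_smul, mul_pow, mul_pow, Real.norm_eq_abs, sq_abs,
      hLy] at h1
    nlinarith
  have := eq_zero_of_quadratic h
  linarith

/-- Existence of a nonzero combination orthogonal to given vectors. -/
theorem exists_comb {n : ℕ} (B : Fin (n + 1) → Fin n → ℝ) :
    ∃ c : Fin (n + 1) → ℝ, c ≠ 0 ∧ ∀ i, ∑ j, c j * B j i = 0 := by
  let f : (Fin (n + 1) → ℝ) →ₗ[ℝ] (Fin n → ℝ) :=
    { toFun := fun c i => ∑ j, c j * B j i
      map_add' := by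
        intro a b
        ext i
        simp [add_mul, Finset.sum_add_distrib]
      map_smul' := by
        intro r a
        ext i
        simp [Finset.mul_sum, mul_assoc] }
  have hker : LinearMap.ker f ≠ ⊥ := by
    apply LinearMap.ker_ne_bot_of_finrank_lt
    simp
  obtain ⟨c, hc, hc0⟩ := (Submodule.ne_bot_iff _).1 hker
  refine ⟨c, hc0, fun i => ?_⟩
  have := congrFun (LinearMap.mem_ker.1 hc) i
  exact this

/-- Successive minimisation. -/
theorem spectral [CompleteSpace 𝓗] (M : Submodule ℝ 𝓗) (hM : IsClosed (M : Set 𝓗))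
    (L : 𝓗 →L[ℝ] H)
    (hcomp : ∀ x : ℕ → 𝓗, (∀ n, x n ∈ M) → (∃ C : ℝ, ∀ n, ‖x n‖ ≤ C) →
      ∃ φ : ℕ → ℕ, StrictMono φ ∧ ∃ z, Tendsto (fun n => L (x (φ n))) atTop (𝓝 z)) :
    ∀ (n : ℕ) (A : Fin n → 𝓗), (∀ j, A j ∈ M) →
      (∀ c : Fin n → ℝ, c ≠ 0 → L (∑ j, c j • A j) ≠ 0) →
      ∃ (x : Fin n → 𝓗) (ν : Fin n → ℝ), (∀ i, x i ∈ M) ∧
        (∀ i j, inner ℝ (L (x i)) (L (x j)) = if i = j then (1 : ℝ) else 0) ∧
        (∀ i, ∀ y ∈ M, inner ℝ (x i) y = ν i * inner ℝ (L (x i)) (L y)) ∧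
        (∀ i, ∀ y ∈ M, (∀ j, j < i → inner ℝ (L (x j)) (L y) = 0) →
          ν i * ‖L y‖ ^ 2 ≤ ‖y‖ ^ 2) := by
  intro n
  induction n with
  | zero =>
    intro A _ _
    exact ⟨fun i => i.elim0, fun i => i.elim0, fun i => i.elim0, fun i => i.elim0,
      fun i => i.elim0, fun i => i.elim0⟩
  | succ n ih =>
    intro A hA hLA
    obtain ⟨x, ν, hxM, hon, hEL, hmn⟩ := ih (fun j => A j.castSucc) (fun j => hA _) (by
      intro c hc
      have h1 := hLA (Fin.snoc c 0) (by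
        intro h0
        apply hc
        funext i
        have := congrFun h0 i.castSucc
        simpa using this)
      rw [Fin.sum_univ_castSucc] at h1
      simpa using h1)
    -- the closed subspace
    let N : Submodule ℝ 𝓗 :=
      { carrier := {y | y ∈ M ∧ ∀ j, inner ℝ (L (x j)) (L y) = 0}
        add_mem' := by
          rintro a b ⟨ha, ha'⟩ ⟨hb, hb'⟩
          refine ⟨M.add_mem ha hb, fun j => ?_⟩
          rw [map_add, inner_add_right, ha', hb', add_zero]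
        zero_mem' := ⟨M.zero_mem, fun j => by simp⟩
        smul_mem' := by
          rintro c a ⟨ha, ha'⟩
          refine ⟨M.smul_mem c ha, fun j => ?_⟩
          rw [map_smul, real_inner_smul_right, ha', mul_zero] }
    have hNmem : ∀ y, y ∈ N ↔ y ∈ M ∧ ∀ j, inner ℝ (L (x j)) (L y) = 0 := fun y => Iff.rfl
    have hNclosed : IsClosed (N : Set 𝓗) := by
      have : (N : Set 𝓗) = (M : Set 𝓗) ∩ ⋂ j, {y | inner ℝ (L (x j)) (L y) = 0} := by
        ext y
        simp only [SetLike.mem_coe, hNmem, Set.mem_inter_iff, Set.mem_iInter]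
        exact Iff.rfl
      rw [this]
      refine hM.inter (isClosed_iInter fun j => ?_)
      exact isClosed_eq (continuous_const.inner L.continuous) continuous_const
    obtain ⟨c, hc0, hc⟩ := exists_comb (fun (j : Fin (n + 1)) (i : Fin n) =>
      inner ℝ (L (x i)) (L (A j)))
    have hy₀ : (∑ j, c j • A j) ∈ N := by
      refine (hNmem _).2 ⟨M.sum_mem fun j _ => M.smul_mem _ (hA j), fun i => ?_⟩
      rw [map_sum, inner_sum]
      rw [← hc i]
      refine Finset.sum_congr rfl fun j _ => ?_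
      rw [map_smul, real_inner_smul_right]
    obtain ⟨y, hyN, hyL, hymin⟩ := exists_min N hNclosed L
      (fun x hx hb => hcomp x (fun n => ((hNmem _).1 (hx n)).1) hb) _ hy₀ (hLA c hc0)
    have hyM := ((hNmem _).1 hyN).1
    have hyort := ((hNmem _).1 hyN).2
    refine ⟨Fin.snoc x y, Fin.snoc ν (‖y‖ ^ 2), ?_, ?_, ?_, ?_⟩
    · intro i
      refine Fin.lastCases ?_ (fun i => ?_) i
      · simpa using hyM
      · simpa using hxM i
    · intro i j
      refine Fin.lastCases ?_ (fun i => ?_) i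
      · refine Fin.lastCases ?_ (fun j => ?_) j
        · simp [hyL]
        · simp only [Fin.snoc_last, Fin.snoc_castSucc]
          rw [real_inner_comm, hyort j, if_neg (Fin.castSucc_lt_last j).ne']
      · refine Fin.lastCases ?_ (fun j => ?_) j
        · simp only [Fin.snoc_last, Fin.snoc_castSucc]
          rw [hyort i, if_neg (Fin.castSucc_lt_last i).ne]
        · simp only [Fin.snoc_castSucc, Fin.castSucc_inj]
          exact hon i j
    · intro i v hv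
      refine Fin.lastCases ?_ (fun i => ?_) i
      · simp only [Fin.snoc_last]
        have hyx : ∀ i, inner ℝ y (x i) = 0 := by
          intro i
          rw [real_inner_comm, hEL i y hyM, hyort i, mul_zero]
        set v' : 𝓗 := v - ∑ i, (inner ℝ (L (x i)) (L v)) • x i with hv'
        have hv'N : v' ∈ N := by
          refine (hNmem _).2 ⟨M.sub_mem hv (M.sum_mem fun i _ => M.smul_mem _ (hxM i)),
            fun j => ?_⟩
          rw [hv', map_sub, map_sum, inner_sub_right, inner_sum]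
          simp only [map_smul, real_inner_smul_right, hon]
          simp
        have h1 := euler_lagrange N L hyN hyL hymin hv'N
        have h2 : inner ℝ y v' = inner ℝ y v := by
          rw [hv', inner_sub_right, inner_sum]
          simp only [real_inner_smul_right, hyx, mul_zero, Finset.sum_const_zero, sub_zero]
        have h3 : inner ℝ (L y) (L v') = inner ℝ (L y) (L v) := by
          rw [hv', map_sub, map_sum, inner_sub_right, inner_sum]
          simp only [map_smul, real_inner_smul_right]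
          have : ∀ i, inner ℝ (L y) (L (x i)) = 0 := fun i => by
            rw [real_inner_comm]; exact hyort i
          simp only [this, mul_zero, Finset.sum_const_zero, sub_zero]
        rw [h2, h3] at h1
        exact h1
      · simp only [Fin.snoc_castSucc]
        exact hEL i v hv
    · intro i v hv
      refine Fin.lastCases ?_ (fun i => ?_) i
      · intro hj
        simp only [Fin.snoc_last]
        apply hymin
        refine (hNmem _).2 ⟨hv, fun j => ?_⟩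
        have := hj j.castSucc (Fin.castSucc_lt_last j)
        simpa using this
      · intro hj
        simp only [Fin.snoc_castSucc]
        apply hmn i v hv
        intro j hji
        have := hj j.castSucc (by simpa using hji)
        simpa using this

/-- min-max: any independent tuple contains a combination with large Rayleigh quotient. -/
theorem spectral_lower {n : ℕ} (M : Submodule ℝ 𝓗) (L : 𝓗 →L[ℝ] H) (x : Fin (n + 1) → 𝓗)
    (ν : Fin (n + 1) → ℝ)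
    (h : ∀ i, ∀ y ∈ M, (∀ j, j < i → inner ℝ (L (x j)) (L y) = 0) →
          ν i * ‖L y‖ ^ 2 ≤ ‖y‖ ^ 2)
    (A : Fin (n + 1) → 𝓗) (hA : ∀ j, A j ∈ M) :
    ∃ c : Fin (n + 1) → ℝ, c ≠ 0 ∧
      ν (Fin.last n) * ‖L (∑ j, c j • A j)‖ ^ 2 ≤ ‖∑ j, c j • A j‖ ^ 2 := by
  obtain ⟨c, hc0, hc⟩ := exists_comb (fun (j : Fin (n + 1)) (i : Fin n) =>
      inner ℝ (L (x i.castSucc)) (L (A j)))
  refine ⟨c, hc0, h (Fin.last n) _ (M.sum_mem fun j _ => M.smul_mem _ (hA j)) ?_⟩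
  intro i hi
  obtain ⟨i', rfl⟩ : ∃ i' : Fin n, i'.castSucc = i := ⟨i.castPred hi.ne, Fin.castSucc_castPred _ _⟩
  rw [map_sum, inner_sum]
  rw [← hc i']
  refine Finset.sum_congr rfl fun j _ => ?_
  rw [map_smul, real_inner_smul_right]

/-- The values `ν` are nondecreasing. -/
theorem spectral_mono {n : ℕ} (M : Submodule ℝ 𝓗) (L : 𝓗 →L[ℝ] H) (x : Fin n → 𝓗)
    (ν : Fin n → ℝ) (hxM : ∀ i, x i ∈ M)
    (hon : ∀ i j, inner ℝ (L (x i)) (L (x j)) = if i = j then (1 : ℝ) else 0)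
    (hEL : ∀ i, ∀ y ∈ M, inner ℝ (x i) y = ν i * inner ℝ (L (x i)) (L y))
    (h : ∀ i, ∀ y ∈ M, (∀ j, j < i → inner ℝ (L (x j)) (L y) = 0) →
          ν i * ‖L y‖ ^ 2 ≤ ‖y‖ ^ 2) : Monotone ν := by
  intro i j hij
  have h1 := h i (x j) (hxM j) (fun l hl => by
    rw [hon, if_neg (lt_of_lt_of_le hl hij).ne])
  have h2 := hEL j (x j) (hxM j)
  rw [hon, if_pos rfl, mul_one, real_inner_self_eq_norm_sq] at h2
  have h3 : ‖L (x j)‖ ^ 2 = 1 := by
    rw [← real_inner_self_eq_norm_sq, hon, if_pos rfl]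
  rw [h3, mul_one, h2] at h1
  exact h1

end Pool.Agent.Work.MP_2cde6c_an
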