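import Pool.Agent.Work.MP_2cde6c_an.Rellich
import Pool.Agent.Work.MP_2cde6c_an.Spectral

set_option autoImplicit false

/-!
# The quadratic form, the min-max value, and the eigenfunctions of a confined potential
-/

open MeasureTheory Filter
open scoped ENNReal Topology ContDiff

namespace Pool.Agent.Work.MP_2cde6c_an

variable {d : ℕ}

/-- The min-max value, as in the frozen statement. -/
noncomputable def lamK (k : ℕ) (V : (Fin d → ℝ) → ℝ≥0∞) : ℝ≥0∞ :=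
  ⨅ (u : Fin k → (Fin d → ℝ) → ℝ) (g : Fin k → Fin d → (Fin d → ℝ) → ℝ)
       (_ : (∀ j, MemLp (u j) 2 volume) ∧ (∀ j i, MemLp (g j i) 2 volume) ∧
         (∀ j i (φ : (Fin d → ℝ) → ℝ), ContDiff ℝ ((⊤ : ℕ∞) : WithTop ℕ∞) φ →
            HasCompactSupport φ →
            ∫ x, u j x * fderiv ℝ φ x (Pi.single i (1 : ℝ)) = - ∫ x, g j i x * φ x) ∧
         (∀ j, ∫⁻ x, V x * ENNReal.ofReal (u j x ^ 2) < ⊤) ∧
         (∀ c : Fin k → ℝ, c ≠ 0 →
            ∫⁻ x, ENNReal.ofReal ((∑ j, c j * u j x) ^ 2) ≠ 0)),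
       ⨆ (c : Fin k → ℝ) (_ : c ≠ 0),
         (∫⁻ x, ((∑ i, ENNReal.ofReal ((∑ j, c j * g j i x) ^ 2))
              + V x * ENNReal.ofReal ((∑ j, c j * u j x) ^ 2))) /
           ∫⁻ x, ENNReal.ofReal ((∑ j, c j * u j x) ^ 2)

/-- square root of the potential (zero where `V = ∞`) -/
noncomputable def sV (V : (Fin d → ℝ) → ℝ≥0∞) (x : Fin d → ℝ) : ℝ := Real.sqrt (V x).toReal

theorem measurable_sV {V : (Fin d → ℝ) → ℝ≥0∞} (hV : Measurable V) : Measurable (sV V) :=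
  hV.ennreal_toReal.sqrt

/-- form domain -/
structure Dom (V : (Fin d → ℝ) → ℝ≥0∞) (u : (Fin d → ℝ) → ℝ)
    (g : Fin d → (Fin d → ℝ) → ℝ) : Prop where
  wp : WP u g
  top : ∀ᵐ x ∂(volume : Measure (Fin d → ℝ)), V x = ⊤ → u x = 0
  mw : MemLp (fun x => sV V x * u x) 2 volume

theorem V_mul_eq {V : (Fin d → ℝ) → ℝ≥0∞} {u : (Fin d → ℝ) → ℝ} {x : Fin d → ℝ}
    (h : V x = ⊤ → u x = 0) :
    V x * ENNReal.ofReal (u x ^ 2) = ENNReal.ofReal ((sV V x * u x) ^ 2) := by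
  by_cases hx : V x = ⊤
  · rw [h hx]; simp
  · rw [mul_pow, sV, Real.sq_sqrt ENNReal.toReal_nonneg, ENNReal.ofReal_mul ENNReal.toReal_nonneg,
      ENNReal.ofReal_toReal hx]

theorem lintegral_V_eq {V : (Fin d → ℝ) → ℝ≥0∞} {u : (Fin d → ℝ) → ℝ}
    (h : ∀ᵐ x ∂(volume : Measure (Fin d → ℝ)), V x = ⊤ → u x = 0) :
    ∫⁻ x, V x * ENNReal.ofReal (u x ^ 2) = nsq (fun x => sV V x * u x) := by
  apply lintegral_congr_ae
  filter_upwards [h] with x hx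
  exact V_mul_eq hx

theorem top_of_lintegral {V : (Fin d → ℝ) → ℝ≥0∞} (hV : Measurable V) {u : (Fin d → ℝ) → ℝ}
    (hu : AEMeasurable u volume) (h : ∫⁻ x, V x * ENNReal.ofReal (u x ^ 2) ≠ ⊤) :
    ∀ᵐ x ∂(volume : Measure (Fin d → ℝ)), V x = ⊤ → u x = 0 := by
  have hm : AEMeasurable (fun x => V x * ENNReal.ofReal (u x ^ 2)) volume :=
    hV.aemeasurable.mul (ENNReal.measurable_ofReal.comp_aemeasurable (hu.pow_const 2))
  filter_upwards [ae_lt_top' hm h] with x hx hVx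
  by_contra hne
  rw [hVx, ENNReal.top_mul] at hx
  · exact absurd hx (lt_irrefl _)
  · rw [Ne, ENNReal.ofReal_eq_zero, not_le]
    positivity

theorem Dom.of_lintegral {V : (Fin d → ℝ) → ℝ≥0∞} (hV : Measurable V) {u : (Fin d → ℝ) → ℝ}
    {g : Fin d → (Fin d → ℝ) → ℝ} (h : WP u g)
    (hf : ∫⁻ x, V x * ENNReal.ofReal (u x ^ 2) < ⊤) : Dom V u g := by
  have ht := top_of_lintegral hV h.mu.1.aemeasurable hf.ne
  refine ⟨h, ht, memLp_of_nsq ?_ ?_⟩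
  · exact (measurable_sV hV).aestronglyMeasurable.mul h.mu.1
  · rw [← lintegral_V_eq ht]
    exact hf

theorem Dom.lintegral_eq {V : (Fin d → ℝ) → ℝ≥0∞} {u : (Fin d → ℝ) → ℝ}
    {g : Fin d → (Fin d → ℝ) → ℝ} (h : Dom V u g) :
    ∫⁻ x, V x * ENNReal.ofReal (u x ^ 2) = nsq (fun x => sV V x * u x) :=
  lintegral_V_eq h.top

theorem Dom.lintegral_lt_top {V : (Fin d → ℝ) → ℝ≥0∞} {u : (Fin d → ℝ) → ℝ}
    {g : Fin d → (Fin d → ℝ) → ℝ} (h : Dom V u g) :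
    ∫⁻ x, V x * ENNReal.ofReal (u x ^ 2) < ⊤ := by
  rw [h.lintegral_eq]
  exact nsq_lt_top h.mw

theorem Dom.sum {ι : Type} [Fintype ι] {V : (Fin d → ℝ) → ℝ≥0∞} {u : ι → (Fin d → ℝ) → ℝ}
    {g : ι → Fin d → (Fin d → ℝ) → ℝ} (h : ∀ j, Dom V (u j) (g j)) (c : ι → ℝ) :
    Dom V (fun x => ∑ j, c j * u j x) (fun i x => ∑ j, c j * g j i x) := by
  refine ⟨WP.sum (fun j => (h j).wp) c, ?_, ?_⟩
  · have : ∀ᵐ x ∂(volume : Measure (Fin d → ℝ)), ∀ j, V x = ⊤ → u j x = 0 :=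
      (ae_all_iff.2 fun j => (h j).top)
    filter_upwards [this] with x hx hVx
    exact Finset.sum_eq_zero fun j _ => by rw [hx j hVx, mul_zero]
  · have e : (fun x => sV V x * ∑ j, c j * u j x) = fun x => ∑ j, c j * (sV V x * u j x) := by
      funext x
      rw [Finset.mul_sum]
      exact Finset.sum_congr rfl fun j _ => by ring
    rw [e]
    exact memLp_finsetSum _ fun j _ => (h j).mw.const_mul _

theorem Dom.congr {V : (Fin d → ℝ) → ℝ≥0∞} {u u' : (Fin d → ℝ) → ℝ}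
    {g g' : Fin d → (Fin d → ℝ) → ℝ} (h : Dom V u g)
    (hu : u =ᵐ[volume] u') (hg : ∀ i, g i =ᵐ[volume] g' i) : Dom V u' g' := by
  refine ⟨h.wp.congr hu hg, ?_, h.mw.ae_eq ?_⟩
  · filter_upwards [h.top, hu] with x hx hx' hV
    rw [← hx', hx hV]
  · filter_upwards [hu] with x hx
    rw [hx]

theorem Dom.zero {V : (Fin d → ℝ) → ℝ≥0∞} : Dom V (fun _ : Fin d → ℝ => (0 : ℝ)) (fun _ _ => 0) :=
  ⟨WP.zero, by simp, by simp⟩

theorem Dom.add {V : (Fin d → ℝ) → ℝ≥0∞} {u u' : (Fin d → ℝ) → ℝ}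
    {g g' : Fin d → (Fin d → ℝ) → ℝ} (h : Dom V u g) (h' : Dom V u' g') :
    Dom V (fun x => u x + u' x) (fun i x => g i x + g' i x) := by
  have := Dom.sum (ι := Fin 2) (u := ![u, u']) (g := ![g, g'])
    (by intro j; fin_cases j <;> simpa) (fun _ => 1)
  simpa [Fin.sum_univ_two] using this

theorem Dom.smul {V : (Fin d → ℝ) → ℝ≥0∞} {u : (Fin d → ℝ) → ℝ} {g : Fin d → (Fin d → ℝ) → ℝ}
    (h : Dom V u g) (c : ℝ) :
    Dom V (fun x => c * u x) (fun i x => c * g i x) := by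
  have := Dom.sum (ι := Fin 1) (u := fun _ => u) (g := fun _ => g)
    (by intro j; simpa) (fun _ => c)
  simpa using this

/-- the energy -/
noncomputable def qf (V : (Fin d → ℝ) → ℝ≥0∞) (u : (Fin d → ℝ) → ℝ)
    (g : Fin d → (Fin d → ℝ) → ℝ) : ℝ≥0∞ :=
  ∫⁻ x, ((∑ i, ENNReal.ofReal (g i x ^ 2)) + V x * ENNReal.ofReal (u x ^ 2))

theorem qf_eq (V : (Fin d → ℝ) → ℝ≥0∞) {u : (Fin d → ℝ) → ℝ}
    {g : Fin d → (Fin d → ℝ) → ℝ} (hg : ∀ i, AEMeasurable (g i) volume) :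
    qf V u g = ∑ i, nsq (g i) + ∫⁻ x, V x * ENNReal.ofReal (u x ^ 2) := by
  have hm : ∀ i, AEMeasurable (fun x => ENNReal.ofReal (g i x ^ 2)) volume := fun i =>
    ENNReal.measurable_ofReal.comp_aemeasurable ((hg i).pow_const 2)
  rw [qf, lintegral_add_left' (Finset.aemeasurable_fun_sum _ fun i _ => hm i),
    lintegral_finsetSum' _ fun i _ => hm i]
  rfl

theorem lamK_le {k : ℕ} {V : (Fin d → ℝ) → ℝ≥0∞} {u : Fin k → (Fin d → ℝ) → ℝ}
    {g : Fin k → Fin d → (Fin d → ℝ) → ℝ} (h : ∀ j, Dom V (u j) (g j))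
    (hind : ∀ c : Fin k → ℝ, c ≠ 0 → nsq (fun x => ∑ j, c j * u j x) ≠ 0) {t : ℝ≥0∞}
    (ht : ∀ c : Fin k → ℝ, c ≠ 0 → qf V (fun x => ∑ j, c j * u j x)
      (fun i x => ∑ j, c j * g j i x) ≤ t * nsq (fun x => ∑ j, c j * u j x)) :
    lamK k V ≤ t := by
  refine iInf_le_of_le u (iInf_le_of_le g (iInf_le_of_le ?_ ?_))
  · refine ⟨fun j => (h j).wp.mu, fun j i => (h j).wp.mg i, fun j i φ h1 h2 =>
      (h j).wp.wk i φ ⟨h1, h2⟩, fun j => (h j).lintegral_lt_top, hind⟩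
  · refine iSup₂_le fun c hc => ?_
    exact ENNReal.div_le_of_le_mul (ht c hc)

theorem exists_of_lamK_lt {k : ℕ} {V : (Fin d → ℝ) → ℝ≥0∞} (hV : Measurable V) {t : ℝ≥0∞}
    (hlt : lamK k V < t) : ∃ (u : Fin k → (Fin d → ℝ) → ℝ)
      (g : Fin k → Fin d → (Fin d → ℝ) → ℝ), (∀ j, Dom V (u j) (g j)) ∧
      (∀ c : Fin k → ℝ, c ≠ 0 → nsq (fun x => ∑ j, c j * u j x) ≠ 0) ∧
      (∀ c : Fin k → ℝ, c ≠ 0 → qf V (fun x => ∑ j, c j * u j x)
        (fun i x => ∑ j, c j * g j i x) ≤ t * nsq (fun x => ∑ j, c j * u j x)) := by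
  rw [lamK] at hlt
  simp only [iInf_lt_iff] at hlt
  obtain ⟨u, g, ⟨h1, h2, h3, h4, h5⟩, h6⟩ := hlt
  have hwp : ∀ j, WP (u j) (g j) := fun j => ⟨h1 j, h2 j, fun i φ hφ => h3 j i φ hφ.1 hφ.2⟩
  refine ⟨u, g, fun j => Dom.of_lintegral hV (hwp j) (h4 j), h5, fun c hc => ?_⟩
  have h7 := (le_iSup₂ (f := fun (c : Fin k → ℝ) (_ : c ≠ 0) =>
    (∫⁻ x, ((∑ i, ENNReal.ofReal ((∑ j, c j * g j i x) ^ 2))
              + V x * ENNReal.ofReal ((∑ j, c j * u j x) ^ 2))) /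
           ∫⁻ x, ENNReal.ofReal ((∑ j, c j * u j x) ^ 2)) c hc).trans h6.le
  have h8 : nsq (fun x => ∑ j, c j * u j x) ≠ ⊤ := nsq_ne_top (WP.sum hwp c).mu
  exact (ENNReal.div_le_iff (h5 c hc) h8).1 h7

/-! ### The Hilbert space -/

/-- The Hilbert space of states. -/
abbrev HS (d : ℕ) : Type :=
  PiLp 2 (fun _ : Fin 2 ⊕ Fin d => Lp ℝ 2 (volume : Measure (Fin d → ℝ)))

/-- The form domain as a submodule of the Hilbert space. -/
def MV (V : (Fin d → ℝ) → ℝ≥0∞) : Submodule ℝ (HS d) where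
  carrier := {X | Dom V (X (Sum.inl 0)) (fun i => X (Sum.inr i)) ∧
    ∀ᵐ x ∂(volume : Measure (Fin d → ℝ)), X (Sum.inl 1) x = sV V x * X (Sum.inl 0) x}
  add_mem' := by
    rintro X Y ⟨h1, h2⟩ ⟨h3, h4⟩
    have e : ∀ i, ((X + Y) i : (Fin d → ℝ) → ℝ) =ᵐ[volume] fun x => X i x + Y i x := by
      intro i
      have : (X + Y) i = X i + Y i := rfl
      rw [this]
      filter_upwards [Lp.coeFn_add (X i) (Y i)] with x hx
      rw [hx, Pi.add_apply]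
    refine ⟨(h1.add h3).congr (e _).symm (fun i => (e _).symm), ?_⟩
    filter_upwards [e (Sum.inl 0), e (Sum.inl 1), h2, h4] with x e0 e1 hx hy
    rw [e0, e1, hx, hy, mul_add]
  zero_mem' := by
    have e : ∀ i, ((0 : HS d) i : (Fin d → ℝ) → ℝ) =ᵐ[volume] fun x => 0 := by
      intro i
      have : (0 : HS d) i = 0 := rfl
      rw [this]
      exact Lp.coeFn_zero _ _ _
    refine ⟨Dom.zero.congr (e _).symm (fun i => (e _).symm), ?_⟩
    filter_upwards [e (Sum.inl 0), e (Sum.inl 1)] with x e0 e1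
    rw [e0, e1, mul_zero]
  smul_mem' := by
    rintro c X ⟨h1, h2⟩
    have e : ∀ i, ((c • X) i : (Fin d → ℝ) → ℝ) =ᵐ[volume] fun x => c * X i x := by
      intro i
      have : (c • X) i = c • X i := rfl
      rw [this]
      filter_upwards [Lp.coeFn_smul c (X i)] with x hx
      rw [hx, Pi.smul_apply, smul_eq_mul]
    refine ⟨(h1.smul c).congr (e _).symm (fun i => (e _).symm), ?_⟩
    filter_upwards [e (Sum.inl 0), e (Sum.inl 1), h2] with x e0 e1 hx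
    rw [e0, e1, hx]
    ring

theorem mem_MV (V : (Fin d → ℝ) → ℝ≥0∞) (X : HS d) : X ∈ MV V ↔
    (Dom V (X (Sum.inl 0)) (fun i => X (Sum.inr i)) ∧
    ∀ᵐ x ∂(volume : Measure (Fin d → ℝ)), X (Sum.inl 1) x = sV V x * X (Sum.inl 0) x) := Iff.rfl

theorem Lp_tendsto_ae {f : ℕ → Lp ℝ 2 (volume : Measure (Fin d → ℝ))}
    {F : Lp ℝ 2 (volume : Measure (Fin d → ℝ))} (h : Tendsto f atTop (𝓝 F)) :
    ∃ φ : ℕ → ℕ, StrictMono φ ∧
      ∀ᵐ x ∂(volume : Measure (Fin d → ℝ)), Tendsto (fun n => f (φ n) x) atTop (𝓝 (F x)) := by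
  have h1 := (tendstoInMeasure_of_tendsto_Lp h)
  exact h1.exists_seq_tendsto_ae

theorem isClosed_MV (V : (Fin d → ℝ) → ℝ≥0∞) : IsClosed (MV V : Set (HS d)) := by
  apply IsSeqClosed.isClosed
  intro X Y hX hXY
  have hc : ∀ i, Tendsto (fun n => X n i) atTop (𝓝 (Y i)) := by
    intro i
    have := (PiLp.continuous_apply 2 (fun _ : Fin 2 ⊕ Fin d =>
      Lp ℝ 2 (volume : Measure (Fin d → ℝ))) i).tendsto Y
    exact this.comp hXY
  have hc' : ∀ i, Tendsto (fun n => eLpNorm (fun x => X n i x - Y i x) 2 volume) atTop (𝓝 0) := by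
    intro i
    have := (Lp.tendsto_Lp_iff_tendsto_eLpNorm' _ _).1 (hc i)
    exact this
  have hwp : WP (Y (Sum.inl 0)) (fun i => Y (Sum.inr i)) :=
    WP.of_tendsto (fun n => ((mem_MV V _).1 (hX n)).1.wp) (Lp.memLp _) (fun i => Lp.memLp _)
      (hc' _) (fun i => hc' _)
  obtain ⟨φ, hφ, hae⟩ := Lp_tendsto_ae (hc (Sum.inl 0))
  obtain ⟨ψ, hψ, hae'⟩ := Lp_tendsto_ae ((hc (Sum.inl 1)).comp hφ.tendsto_atTop)
  have hrel : ∀ᵐ x ∂(volume : Measure (Fin d → ℝ)), ∀ n,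
      X n (Sum.inl 1) x = sV V x * X n (Sum.inl 0) x :=
    ae_all_iff.2 fun n => ((mem_MV V _).1 (hX n)).2
  have htop : ∀ᵐ x ∂(volume : Measure (Fin d → ℝ)), ∀ n, V x = ⊤ → X n (Sum.inl 0) x = 0 :=
    ae_all_iff.2 fun n => ((mem_MV V _).1 (hX n)).1.top
  have hw : ∀ᵐ x ∂(volume : Measure (Fin d → ℝ)), Y (Sum.inl 1) x = sV V x * Y (Sum.inl 0) x := by
    filter_upwards [hae, hae', hrel] with x h1 h2 h3
    have h4 : Tendsto (fun n => sV V x * X (φ (ψ n)) (Sum.inl 0) x) atTop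
        (𝓝 (sV V x * Y (Sum.inl 0) x)) := (h1.comp hψ.tendsto_atTop).const_mul _
    refine tendsto_nhds_unique h2 (h4.congr fun n => ?_)
    exact (h3 _).symm
  refine (mem_MV V _).2 ⟨⟨hwp, ?_, ?_⟩, hw⟩
  · filter_upwards [hae, htop] with x h1 h2 hV
    have : (fun n => X (φ n) (Sum.inl 0) x) = fun _ => 0 := funext fun n => h2 _ hV
    rw [this] at h1
    exact (tendsto_nhds_unique h1 tendsto_const_nhds)
  · exact (Lp.memLp (Y (Sum.inl 1))).ae_eq hw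

/-- projection to the function -/
noncomputable def Lproj (d : ℕ) : HS d →L[ℝ] Lp ℝ 2 (volume : Measure (Fin d → ℝ)) :=
  PiLp.proj 2 (fun _ : Fin 2 ⊕ Fin d => Lp ℝ 2 (volume : Measure (Fin d → ℝ))) (Sum.inl 0)

theorem Lproj_apply (X : HS d) : Lproj d X = X (Sum.inl 0) := rfl

theorem Lp_nsq (f : Lp ℝ 2 (volume : Measure (Fin d → ℝ))) : ENNReal.ofReal (‖f‖ ^ 2) = nsq f := by
  rw [nsq_eq, Lp.norm_def, ENNReal.ofReal_pow ENNReal.toReal_nonneg,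
    ENNReal.ofReal_toReal (Lp.memLp f).2.ne]

theorem Lp_inner (f g : Lp ℝ 2 (volume : Measure (Fin d → ℝ))) :
    inner ℝ f g = ∫ x, f x * g x := by
  rw [MeasureTheory.L2.inner_def]
  congr 1
  ext x
  simp [mul_comm]

theorem Lp_norm_sq (f : Lp ℝ 2 (volume : Measure (Fin d → ℝ))) :
    ‖f‖ ^ 2 = ∫ x, f x ^ 2 := by
  rw [← real_inner_self_eq_norm_sq, Lp_inner]
  simp only [sq]

theorem compact_MV {V : (Fin d → ℝ) → ℝ≥0∞} {S : Set (Fin d → ℝ)}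
    (hS : Bornology.IsBounded S) (hVS : ∀ x, x ∉ S → V x = ⊤) (X : ℕ → HS d)
    (hX : ∀ n, X n ∈ MV V) (hb : ∃ C : ℝ, ∀ n, ‖X n‖ ≤ C) :
    ∃ φ : ℕ → ℕ, StrictMono φ ∧ ∃ z, Tendsto (fun n => Lproj d (X (φ n))) atTop (𝓝 z) := by
  obtain ⟨C, hC⟩ := hb
  have hn : ∀ n, ∑ i, nsq (X n i) ≤ ENNReal.ofReal (C ^ 2) := by
    intro n
    have h1 : ∑ i, nsq (X n i) = ENNReal.ofReal (‖X n‖ ^ 2) := by
      rw [PiLp.norm_sq_eq_of_L2, ENNReal.ofReal_sum_of_nonneg fun i _ => sq_nonneg _]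
      exact Finset.sum_congr rfl fun i _ => (Lp_nsq _).symm
    rw [h1]
    apply ENNReal.ofReal_le_ofReal
    exact pow_le_pow_left₀ (norm_nonneg _) (hC n) 2
  obtain ⟨φ, hφ, v, hv, hlim⟩ := rellich (ι := Unit)
    (u := fun n _ => X n (Sum.inl 0)) (g := fun n _ i => X n (Sum.inr i))
    (fun n _ => ((mem_MV V _).1 (hX n)).1.wp) hS
    (fun n _ => by
      filter_upwards [((mem_MV V _).1 (hX n)).1.top] with x hx hxS
      exact hx (hVS x hxS)) (K := ENNReal.ofReal (C ^ 2)) ENNReal.ofReal_ne_top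
    (fun n _ => by
      refine le_trans ?_ (hn n)
      exact Finset.single_le_sum (f := fun i => nsq (X n i)) (fun i _ => zero_le)
        (Finset.mem_univ (Sum.inl 0)))
    (fun n _ => by
      refine le_trans ?_ (hn n)
      rw [Fintype.sum_sum_type]
      exact le_add_self)
  refine ⟨φ, hφ, (hv ()).toLp _, ?_⟩
  rw [Lp.tendsto_Lp_iff_tendsto_eLpNorm']
  refine (hlim ()).congr fun n => ?_
  apply eLpNorm_congr_ae
  filter_upwards [(hv ()).coeFn_toLp] with x hx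
  rw [Pi.sub_apply, hx]
  rfl

/-- The state attached to an element of the form domain. -/
noncomputable def Dom.state {V : (Fin d → ℝ) → ℝ≥0∞} {u : (Fin d → ℝ) → ℝ}
    {g : Fin d → (Fin d → ℝ) → ℝ} (h : Dom V u g) : HS d :=
  WithLp.toLp 2 (Sum.elim ![h.wp.mu.toLp u, h.mw.toLp _] (fun i => (h.wp.mg i).toLp (g i)))

theorem Dom.state_u {V : (Fin d → ℝ) → ℝ≥0∞} {u : (Fin d → ℝ) → ℝ}
    {g : Fin d → (Fin d → ℝ) → ℝ} (h : Dom V u g) : h.state (Sum.inl 0) =ᵐ[volume] u :=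
  h.wp.mu.coeFn_toLp

theorem Dom.state_w {V : (Fin d → ℝ) → ℝ≥0∞} {u : (Fin d → ℝ) → ℝ}
    {g : Fin d → (Fin d → ℝ) → ℝ} (h : Dom V u g) :
    h.state (Sum.inl 1) =ᵐ[volume] fun x => sV V x * u x :=
  h.mw.coeFn_toLp

theorem Dom.state_g {V : (Fin d → ℝ) → ℝ≥0∞} {u : (Fin d → ℝ) → ℝ}
    {g : Fin d → (Fin d → ℝ) → ℝ} (h : Dom V u g) (i : Fin d) :
    h.state (Sum.inr i) =ᵐ[volume] g i :=
  (h.wp.mg i).coeFn_toLp

theorem Dom.state_mem {V : (Fin d → ℝ) → ℝ≥0∞} {u : (Fin d → ℝ) → ℝ}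
    {g : Fin d → (Fin d → ℝ) → ℝ} (h : Dom V u g) : h.state ∈ MV V := by
  refine (mem_MV V _).2 ⟨h.congr h.state_u.symm (fun i => (h.state_g i).symm), ?_⟩
  filter_upwards [h.state_u, h.state_w] with x h1 h2
  rw [h1, h2]

/-- bilinear form -/
noncomputable def bf (V : (Fin d → ℝ) → ℝ≥0∞) (u : (Fin d → ℝ) → ℝ)
    (g : Fin d → (Fin d → ℝ) → ℝ) (v : (Fin d → ℝ) → ℝ) (h : Fin d → (Fin d → ℝ) → ℝ) : ℝ :=
  (∑ i, ∫ x, g i x * h i x) + ∫ x, (sV V x * u x) * (sV V x * v x)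

theorem Dom.inner_state {V : (Fin d → ℝ) → ℝ≥0∞} {u v : (Fin d → ℝ) → ℝ}
    {g h : Fin d → (Fin d → ℝ) → ℝ} (hu : Dom V u g) (hv : Dom V v h) :
    inner ℝ hu.state hv.state = bf V u g v h + ∫ x, u x * v x := by
  rw [PiLp.inner_apply, Fintype.sum_sum_type, Fin.sum_univ_two, bf]
  have e0 : inner ℝ (hu.state (Sum.inl 0)) (hv.state (Sum.inl 0)) = ∫ x, u x * v x := by
    rw [Lp_inner]
    apply integral_congr_ae
    filter_upwards [hu.state_u, hv.state_u] with x h1 h2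
    rw [h1, h2]
  have e1 : inner ℝ (hu.state (Sum.inl 1)) (hv.state (Sum.inl 1))
      = ∫ x, (sV V x * u x) * (sV V x * v x) := by
    rw [Lp_inner]
    apply integral_congr_ae
    filter_upwards [hu.state_w, hv.state_w] with x h1 h2
    rw [h1, h2]
  have e2 : ∀ i, inner ℝ (hu.state (Sum.inr i)) (hv.state (Sum.inr i))
      = ∫ x, g i x * h i x := by
    intro i
    rw [Lp_inner]
    apply integral_congr_ae
    filter_upwards [hu.state_g i, hv.state_g i] with x h1 h2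
    rw [h1, h2]
  rw [e0, e1]
  simp only [e2]
  ring

theorem Dom.inner_Lproj {V : (Fin d → ℝ) → ℝ≥0∞} {u v : (Fin d → ℝ) → ℝ}
    {g h : Fin d → (Fin d → ℝ) → ℝ} (hu : Dom V u g) (hv : Dom V v h) :
    inner ℝ (Lproj d hu.state) (Lproj d hv.state) = ∫ x, u x * v x := by
  rw [Lproj_apply, Lproj_apply, Lp_inner]
  apply integral_congr_ae
  filter_upwards [hu.state_u, hv.state_u] with x h1 h2
  rw [h1, h2]

theorem Dom.qf_eq_bf {V : (Fin d → ℝ) → ℝ≥0∞} {u : (Fin d → ℝ) → ℝ}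
    {g : Fin d → (Fin d → ℝ) → ℝ} (h : Dom V u g) :
    qf V u g = ENNReal.ofReal (bf V u g u g) := by
  rw [qf_eq V fun i => (h.wp.mg i).1.aemeasurable, h.lintegral_eq, nsq_ofReal h.mw, bf,
    ENNReal.ofReal_add, ENNReal.ofReal_sum_of_nonneg]
  · congr 1
    · refine Finset.sum_congr rfl fun i _ => ?_
      rw [nsq_ofReal (h.wp.mg i)]
      simp only [sq]
    · simp only [sq]
  · intro i _
    exact integral_nonneg fun x => mul_self_nonneg _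
  · exact Finset.sum_nonneg fun i _ => integral_nonneg fun x => mul_self_nonneg _
  · exact integral_nonneg fun x => mul_self_nonneg _

theorem Dom.bf_nonneg (V : (Fin d → ℝ) → ℝ≥0∞) (u : (Fin d → ℝ) → ℝ)
    (g : Fin d → (Fin d → ℝ) → ℝ) : 0 ≤ bf V u g u g := by
  rw [bf]
  refine add_nonneg (Finset.sum_nonneg fun i _ => integral_nonneg fun x => mul_self_nonneg _)
    (integral_nonneg fun x => mul_self_nonneg _)

end Pool.Agent.Work.MP_2cde6c_an
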