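import Pool.Agent.Work.MP_2cde6c_an.Local
import Pool.Agent.Work.MP_2cde6c_an.ExistBox

set_option autoImplicit false

/-!
# The killing competitor
-/

open MeasureTheory Filter
open scoped ENNReal Topology ContDiff

namespace Pool.Agent.Work.MP_2cde6c_an

variable {d : ℕ}

/-- the potential killed on a ball and multiplied by `κ` elsewhere -/
noncomputable def killed (V : (Fin d → ℝ) → ℝ≥0∞) (a : Fin d → ℝ) (r κ : ℝ) (x : Fin d → ℝ) :
    ℝ≥0∞ := if dist x a ≤ r then ⊤ else ENNReal.ofReal κ * V x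

theorem adm_killed {p : ℝ} (hp : 0 < p) {S : Set (Fin d → ℝ)} {V : (Fin d → ℝ) → ℝ≥0∞}
    (hV : Adm p S V) (a : Fin d → ℝ) (r : ℝ) {m' : ℝ} (_hm0 : 0 ≤ m') (hm1 : m' ≤ 1 / 2)
    (hm : m' ≤ (∫⁻ x in Metric.closedBall a r, V x ^ (-p)).toReal) :
    Adm p S (killed V a r ((1 - m') ^ (1 / p))) := by
  set κ : ℝ := (1 - m') ^ (1 / p) with hκ
  have hκ0 : 0 < κ := Real.rpow_pos_of_pos (by linarith) _
  have hball : MeasurableSet {x : Fin d → ℝ | dist x a ≤ r} :=
    (Metric.isClosed_closedBall (x := a) (ε := r)).measurableSet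
  refine ⟨Measurable.ite hball measurable_const (measurable_const.mul hV.meas), fun x hx => ?_, ?_⟩
  · unfold killed
    split_ifs
    · rfl
    · rw [hV.out x hx, ENNReal.mul_top]
      rw [Ne, ENNReal.ofReal_eq_zero, not_le]
      exact hκ0
  · set Bs : Set (Fin d → ℝ) := Metric.closedBall a r with hBs
    have hBm : MeasurableSet Bs := measurableSet_closedBall
    have hVp : Measurable (fun x => V x ^ (-p)) := hV.meas.pow_const _
    have e1 : ∀ x, killed V a r κ x ^ (-p)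
        = Bsᶜ.indicator (fun x => ENNReal.ofReal κ ^ (-p) * V x ^ (-p)) x := by
      intro x
      unfold killed
      by_cases hx : dist x a ≤ r
      · rw [if_pos hx, ENNReal.top_rpow_of_neg (by linarith), Set.indicator_of_notMem]
        rw [Set.mem_compl_iff, not_not]
        exact hx
      · rw [if_neg hx, Set.indicator_of_mem (show x ∈ Bsᶜ from hx), ENNReal.mul_rpow_eq_ite,
          if_neg]
        rintro ⟨(⟨h1, -⟩ | ⟨h1, -⟩), -⟩
        · rw [ENNReal.ofReal_eq_zero] at h1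
          linarith
        · exact ENNReal.ofReal_ne_top h1
    simp only [e1]
    rw [lintegral_indicator hBm.compl, lintegral_const_mul _ hVp]
    have hsum : (∫⁻ x in Bs, V x ^ (-p)) + ∫⁻ x in Bsᶜ, V x ^ (-p) ≤ 1 := by
      rw [lintegral_add_compl _ hBm]; exact hV.int
    set I1 := ∫⁻ x in Bs, V x ^ (-p) with hI1
    set I2 := ∫⁻ x in Bsᶜ, V x ^ (-p) with hI2
    have hI1t : I1 ≠ ⊤ := ((le_self_add.trans hsum).trans_lt ENNReal.one_lt_top).ne
    have hI2t : I2 ≠ ⊤ := ((le_add_self.trans hsum).trans_lt ENNReal.one_lt_top).ne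
    have hr : I1.toReal + I2.toReal ≤ 1 := by
      rw [← ENNReal.toReal_add hI1t hI2t]
      have := ENNReal.toReal_mono ENNReal.one_ne_top hsum
      simpa using this
    have e2 : ENNReal.ofReal κ ^ (-p) = ENNReal.ofReal ((1 - m')⁻¹) := by
      rw [ENNReal.ofReal_rpow_of_pos hκ0, hκ, ← Real.rpow_mul (by linarith)]
      have : 1 / p * -p = -1 := by field_simp
      rw [this, Real.rpow_neg_one]
    rw [e2, ← ENNReal.ofReal_toReal hI2t, ← ENNReal.ofReal_mul (by
      have : (0:ℝ) < 1 - m' := by linarith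
      positivity)]
    rw [← ENNReal.ofReal_one]
    apply ENNReal.ofReal_le_ofReal
    rw [inv_mul_le_iff₀ (by linarith), mul_one]
    linarith

theorem kill_ball {p : ℝ} (hp : 0 < p) (hp1 : p ≤ 1) {n : ℕ} {S : Set (Fin d → ℝ)}
    {V : (Fin d → ℝ) → ℝ≥0∞} (hV : Adm p S V)
    (hmin : ∀ W, Adm p S W → lamK (n + 1) V ≤ lamK (n + 1) W)
    {u : Fin (n + 1) → (Fin d → ℝ) → ℝ} {g : Fin (n + 1) → Fin d → (Fin d → ℝ) → ℝ}
    {lm : Fin (n + 1) → ℝ} (hE : IsEig V u g lm)
    (hlam : lamK (n + 1) V = ENNReal.ofReal (lm (Fin.last n)))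
    {Λ : ℝ} (hΛ : lm (Fin.last n) ≤ Λ) {β : ℝ}
    (hβ : ∀ (V : (Fin d → ℝ) → ℝ≥0∞), Measurable V → ∫⁻ x, V x ^ (-p) ≤ 1 →
      ∀ (v : (Fin d → ℝ) → ℝ) (h : Fin d → (Fin d → ℝ) → ℝ), Dom V v h → ∀ N : ℝ, 0 ≤ N →
      3 / 4 * N ≤ ∫ x, v x ^ 2 → (∑ i, ∫ x, h i x ^ 2) ≤ (2 * Λ + 1) * N →
      β * N ≤ ∫ x, (sV V x * v x) ^ 2)
    {η : (Fin d → ℝ) → ℝ} (hη : ContDiff ℝ ((⊤ : ℕ∞) : WithTop ℕ∞) η) (hη0 : ∀ x, 0 ≤ η x)
    (hη1 : ∀ x, η x ≤ 1) {B : ℝ}
    (hB : ∀ i x, |fderiv ℝ η x (Pi.single i (1 : ℝ))| ≤ B)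
    {a : Fin d → ℝ} {r s : ℝ} (hηin : ∀ x, dist x a ≤ r → η x = 1)
    (hηout : ∀ x, r + s ≤ dist x a → η x = 0)
    {α : ℝ} (hα : α = ∫ x in Metric.closedBall a (r + s), ∑ j, u j x ^ 2) (hα1 : α ≤ 1 / 4)
    (hK : (2 * Λ + d * B ^ 2) * α ≤ 1) :
    min ((∫⁻ x in Metric.closedBall a r, V x ^ (-p)).toReal) (1 / 2) * β
      ≤ (2 * Λ + d * B ^ 2) * α := by
  classical
  set m := (∫⁻ x in Metric.closedBall a r, V x ^ (-p)).toReal with hm
  set m' := min m (1 / 2) with hm'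
  have hm0 : 0 ≤ m := ENNReal.toReal_nonneg
  have hm'0 : 0 ≤ m' := le_min hm0 (by norm_num)
  have hm'1 : m' ≤ 1 / 2 := min_le_right _ _
  have hΛ0 : 0 ≤ lm (Fin.last n) := hE.nonneg _
  set Λ0 := lm (Fin.last n) with hΛ0def
  have hΛn : 0 ≤ Λ := hΛ0.trans hΛ
  have humem : ∀ j, MemLp (u j) 2 volume := fun j => (hE.dom j).wp.mu
  set U : (Fin (n + 1) → ℝ) → (Fin d → ℝ) → ℝ := fun c x => ∑ j, c j * u j x with hU
  set G : (Fin (n + 1) → ℝ) → Fin d → (Fin d → ℝ) → ℝ := fun c i x => ∑ j, c j * g j i x with hG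
  set F : (Fin (n + 1) → ℝ) → (Fin d → ℝ) → ℝ := fun c x => ∑ j, (c j * lm j) * u j x with hF
  have hdU : ∀ c, Dom V (U c) (G c) := fun c => Dom.sum hE.dom c
  have hFm : ∀ c, MemLp (F c) 2 volume := fun c => memLp_finsetSum _ fun j _ =>
    (humem j).const_mul _
  set ρ : (Fin d → ℝ) → ℝ := fun x => ∑ j, u j x ^ 2 with hρ
  have hρi : Integrable ρ volume := integrable_finsetSum _ fun j _ => (humem j).integrable_sq
  have hρ0 : ∀ x, 0 ≤ ρ x := fun x => Finset.sum_nonneg fun j _ => sq_nonneg _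
  set bs : Set (Fin d → ℝ) := Metric.closedBall a (r + s) with hbs
  have hbm : MeasurableSet bs := measurableSet_closedBall
  have hα0 : 0 ≤ α := by rw [hα]; exact integral_nonneg fun x => hρ0 x
  -- the function χ
  set χ : (Fin d → ℝ) → ℝ := fun x => 1 - η x with hχdef
  have hχ : ContDiff ℝ ((⊤ : ℕ∞) : WithTop ℕ∞) χ := contDiff_const.sub hη
  have hχ0 : ∀ x, 0 ≤ χ x := fun x => by rw [hχdef]; simp only; linarith [hη1 x]
  have hχ1 : ∀ x, χ x ≤ 1 := fun x => by rw [hχdef]; simp only; linarith [hη0 x]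
  have hχabs : ∀ x, |χ x| ≤ 1 := fun x => by rw [abs_of_nonneg (hχ0 x)]; exact hχ1 x
  have hχB : ∀ i x, |fderiv ℝ χ x (Pi.single i (1 : ℝ))| ≤ B := fun i x => by
    rw [hχdef, pd_one_sub, abs_neg]; exact hB i x
  have hout : ∀ x, x ∉ bs → η x = 0 := fun x hx => by
    apply hηout
    rw [hbs, Metric.mem_closedBall, not_le] at hx
    exact hx.le
  have hχout : ∀ x, x ∉ bs → χ x = 1 := fun x hx => by
    rw [hχdef]; simp only; rw [hout x hx, sub_zero]
  have hdχout : ∀ x, x ∉ bs → ∀ i, fderiv ℝ χ x (Pi.single i (1 : ℝ)) = 0 := fun x hx i => by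
    rw [hχdef, pd_one_sub, pd_zero_of_min hη0 (hout x hx), neg_zero]
  -- the competitor
  set κ : ℝ := (1 - m') ^ (1 / p) with hκ
  have hκ0 : 0 < κ := Real.rpow_pos_of_pos (by linarith) _
  have hκ1 : κ ≤ 1 - m' := by
    have h1 : (1 - m') ^ (1 / p) ≤ (1 - m') ^ (1 : ℝ) := by
      apply Real.rpow_le_rpow_of_exponent_ge (by linarith) (by linarith)
      rw [le_div_iff₀ hp]; linarith
    rwa [Real.rpow_one] at h1
  set W := killed V a r κ with hW
  have hWadm : Adm p S W := adm_killed hp hV a r hm'0 hm'1 (min_le_left _ _)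
  have hWV : ∀ x, χ x ≠ 0 → W x = ENNReal.ofReal κ * V x := by
    intro x hx
    rw [hW]
    unfold killed
    rw [if_neg]
    intro hc
    apply hx
    rw [hχdef]; simp only; rw [hηin x hc, sub_self]
  have hdW : ∀ c, Dom W (fun x => χ x * U c x) (fun i x => χ x * G c i x
      + U c x * fderiv ℝ χ x (Pi.single i (1 : ℝ))) := fun c =>
    (hdU c).cut hχ hχabs hχB hκ0 hWV
  have hdV : ∀ c, Dom V (fun x => χ x * U c x) (fun i x => χ x * G c i x
      + U c x * fderiv ℝ χ x (Pi.single i (1 : ℝ))) := fun c =>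
    (hdU c).cut hχ hχabs hχB one_pos (fun x _ => by simp)
  -- norms
  have hNU : ∀ c, ∫ x, U c x ^ 2 = ∑ j, c j ^ 2 := fun c => hE.integral_sum_sq c
  have hN0 : ∀ c : Fin (n + 1) → ℝ, 0 ≤ ∑ j, c j ^ 2 := fun c =>
    Finset.sum_nonneg fun j _ => sq_nonneg _
  have hUρ : ∀ c x, U c x ^ 2 ≤ (∑ j, c j ^ 2) * ρ x := fun c x =>
    Finset.sum_mul_sq_le_sq_mul_sq _ _ _
  have hindint : ∀ K : ℝ, ∫ x, bs.indicator (fun x => K * ρ x) x = K * α := by
    intro K
    rw [integral_indicator hbm, integral_const_mul, hα]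
  have hindi : ∀ K : ℝ, Integrable (bs.indicator (fun x => K * ρ x)) volume := fun K =>
    (hρi.const_mul K).indicator hbm
  -- (c)
  have hc1 : ∀ c, (1 - α) * (∑ j, c j ^ 2) ≤ ∫ x, (χ x * U c x) ^ 2 := by
    intro c
    have h1 : ∫ x, (U c x ^ 2 - bs.indicator (fun x => (∑ j, c j ^ 2) * ρ x) x)
        ≤ ∫ x, (χ x * U c x) ^ 2 := by
      refine integral_mono ((hdU c).wp.mu.integrable_sq.sub (hindi _))
        (hdV c).wp.mu.integrable_sq fun x => ?_
      simp only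
      by_cases hx : x ∈ bs
      · rw [Set.indicator_of_mem hx]
        have := hUρ c x
        have := sq_nonneg (χ x * U c x)
        linarith
      · rw [Set.indicator_of_notMem hx, hχout x hx, one_mul, sub_zero]
    rw [integral_sub (hdU c).wp.mu.integrable_sq (hindi _), hNU, hindint] at h1
    linarith
  have hc2 : ∀ c, ∫ x, (χ x * U c x) ^ 2 ≤ ∑ j, c j ^ 2 := by
    intro c
    rw [← hNU c]
    refine integral_mono (hdV c).wp.mu.integrable_sq (hdU c).wp.mu.integrable_sq fun x => ?_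
    simp only
    rw [mul_pow]
    refine mul_le_of_le_one_left (sq_nonneg _) ?_
    have := hχ0 x
    have := hχ1 x
    nlinarith
  -- (a)
  have ha1 : ∀ c, (∑ i, ∫ x, (fderiv ℝ χ x (Pi.single i (1 : ℝ)) * U c x) ^ 2)
      ≤ d * B ^ 2 * α * ∑ j, c j ^ 2 := by
    intro c
    have h1 : ∀ i, ∫ x, (fderiv ℝ χ x (Pi.single i (1 : ℝ)) * U c x) ^ 2
        ≤ B ^ 2 * (∑ j, c j ^ 2) * α := by
      intro i
      rw [← hindint]
      refine integral_mono (memLp_bdd_mul (hdU c).wp.mu (cont_pd hχ _) (hχB i)).integrable_sq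
        (hindi _) fun x => ?_
      simp only
      by_cases hx : x ∈ bs
      · rw [Set.indicator_of_mem hx, mul_pow]
        have h2 : fderiv ℝ χ x (Pi.single i (1 : ℝ)) ^ 2 ≤ B ^ 2 := by
          rw [← sq_abs]
          exact pow_le_pow_left₀ (abs_nonneg _) (hχB i x) 2
        calc fderiv ℝ χ x (Pi.single i (1 : ℝ)) ^ 2 * U c x ^ 2
            ≤ B ^ 2 * ((∑ j, c j ^ 2) * ρ x) :=
              mul_le_mul h2 (hUρ c x) (sq_nonneg _) (sq_nonneg _)
          _ = B ^ 2 * (∑ j, c j ^ 2) * ρ x := by ring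
      · rw [Set.indicator_of_notMem hx, hdχout x hx i]
        simp
    refine (Finset.sum_le_sum fun i _ => h1 i).trans (le_of_eq ?_)
    simp
    ring
  -- (b)
  have hb1 : ∀ c, ∫ x, F c x * (χ x ^ 2 * U c x)
      ≤ Λ0 * (∑ j, c j ^ 2) + Λ * (∑ j, c j ^ 2) * α := by
    intro c
    have hFU : ∫ x, F c x * U c x ≤ Λ0 * ∑ j, c j ^ 2 := by
      have h1 := hE.weak_eq c _ _ (hdU c)
      rw [hE.bf_sum c] at h1
      rw [← h1, Finset.mul_sum]
      refine Finset.sum_le_sum fun j _ => ?_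
      exact mul_le_mul_of_nonneg_right (hE.mono (Fin.le_last j)) (sq_nonneg _)
    have h2 : ∫ x, F c x * (χ x ^ 2 * U c x)
        ≤ ∫ x, (F c x * U c x + bs.indicator (fun x => Λ * (∑ j, c j ^ 2) * ρ x) x) := by
      have i1 : Integrable (fun x => F c x * (χ x ^ 2 * U c x)) volume := by
        refine integrable_mul (hFm c) (memLp_bdd_mul (hdU c).wp.mu (hχ.continuous.pow 2) (A := 1)
          fun x => ?_)
        rw [abs_pow]
        exact pow_le_one₀ (abs_nonneg _) (hχabs x)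
      refine integral_mono i1 ((integrable_mul (hFm c) (hdU c).wp.mu).add (hindi _)) fun x => ?_
      simp only
      by_cases hx : x ∈ bs
      · rw [Set.indicator_of_mem hx]
        have h3 := pt_bound c (fun j => u j x) lm (fun j => hE.nonneg j)
          (fun j => (hE.mono (Fin.le_last j)).trans hΛ)
        have h4 : F c x * (χ x ^ 2 * U c x) = F c x * U c x - (1 - χ x ^ 2) * (F c x * U c x) := by
          ring
        rw [h4]
        have h5 : 0 ≤ 1 - χ x ^ 2 := by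
          have := hχ0 x
          have := hχ1 x
          nlinarith
        have h6 : 1 - χ x ^ 2 ≤ 1 := by linarith [sq_nonneg (χ x)]
        have h7 : -((1 - χ x ^ 2) * (F c x * U c x)) ≤ |F c x * U c x| := by
          rw [← mul_neg]
          calc (1 - χ x ^ 2) * -(F c x * U c x) ≤ (1 - χ x ^ 2) * |F c x * U c x| :=
                mul_le_mul_of_nonneg_left (neg_le_abs _) h5
            _ ≤ 1 * |F c x * U c x| := mul_le_mul_of_nonneg_right h6 (abs_nonneg _)
            _ = _ := one_mul _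
        have h8 : |F c x * U c x| ≤ Λ * (∑ j, c j ^ 2) * ρ x := h3
        linarith
      · rw [Set.indicator_of_notMem hx, hχout x hx]
        apply le_of_eq
        ring
    rw [integral_add (integrable_mul (hFm c) (hdU c).wp.mu) (hindi _), hindint] at h2
    linarith
  -- total energy
  have hE1 : ∀ c, (∑ i, ∫ x, (χ x * G c i x + U c x * fderiv ℝ χ x (Pi.single i (1 : ℝ))) ^ 2)
      + ∫ x, (χ x * (sV V x * U c x)) ^ 2
      ≤ (Λ0 + (Λ + d * B ^ 2) * α) * ∑ j, c j ^ 2 := by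
    intro c
    rw [ims (hdU c) (f := F c) (fun v h hv => hE.weak_eq c v h hv) hχ hχabs hχB]
    have h1 := ha1 c
    have h2 := hb1 c
    nlinarith
  -- lower bound of the potential energy
  have hlow : ∀ c, β * (∑ j, c j ^ 2) ≤ ∫ x, (χ x * (sV V x * U c x)) ^ 2 := by
    intro c
    have h1 := hβ V hV.meas hV.int _ _ (hdV c) (∑ j, c j ^ 2) (hN0 c) (by
      have := hc1 c
      have h2 : 3 / 4 * (∑ j, c j ^ 2) ≤ (1 - α) * (∑ j, c j ^ 2) :=
        mul_le_mul_of_nonneg_right (by linarith) (hN0 c)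
      linarith) (by
      have h3 := hE1 c
      have h4 : 0 ≤ ∫ x, (χ x * (sV V x * U c x)) ^ 2 := integral_nonneg fun x => sq_nonneg _
      have h5 : (Λ0 + (Λ + d * B ^ 2) * α) * (∑ j, c j ^ 2) ≤ (2 * Λ + 1) * ∑ j, c j ^ 2 := by
        refine mul_le_mul_of_nonneg_right ?_ (hN0 c)
        have : (Λ + d * B ^ 2) * α ≤ (2 * Λ + d * B ^ 2) * α :=
          mul_le_mul_of_nonneg_right (by linarith) hα0
        linarith
      linarith)
    refine h1.trans (le_of_eq ?_)
    congr 1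
    ext x
    ring
  -- contradiction
  by_contra hcon
  rw [not_le] at hcon
  set γ := m' * β - (2 * Λ + d * B ^ 2) * α with hγ
  have hγ0 : 0 < γ := by rw [hγ]; linarith
  have hkey : ∀ c, bf W (fun x => χ x * U c x) (fun i x => χ x * G c i x
      + U c x * fderiv ℝ χ x (Pi.single i (1 : ℝ))) (fun x => χ x * U c x)
      (fun i x => χ x * G c i x + U c x * fderiv ℝ χ x (Pi.single i (1 : ℝ)))
      ≤ (Λ0 - γ) * ∫ x, (χ x * U c x) ^ 2 := by
    intro c
    rw [bf_cut hκ0 hWV]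
    have h1 := hE1 c
    have h2 := hlow c
    have h3 := hc1 c
    have h4 := hc2 c
    set P := ∑ i, ∫ x, (χ x * G c i x + U c x * fderiv ℝ χ x (Pi.single i (1 : ℝ))) ^ 2
    set Q := ∫ x, (χ x * (sV V x * U c x)) ^ 2
    set X := ∫ x, (χ x * U c x) ^ 2
    set N := ∑ j, c j ^ 2
    have hN : 0 ≤ N := hN0 c
    have hQ : 0 ≤ Q := integral_nonneg fun x => sq_nonneg _
    have h5 : κ * Q ≤ Q - m' * Q := by nlinarith
    have h6 : m' * (β * N) ≤ m' * Q := mul_le_mul_of_nonneg_left h2 hm'0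
    have h7 : Λ0 * ((1 - α) * N) ≤ Λ0 * X := mul_le_mul_of_nonneg_left h3 hΛ0
    have h8 : γ * X ≤ γ * N := mul_le_mul_of_nonneg_left h4 hγ0.le
    have h9 : Λ0 * (α * N) ≤ Λ * (α * N) := mul_le_mul_of_nonneg_right hΛ (by positivity)
    have h10 : γ * N = m' * (β * N) - (2 * Λ + d * B ^ 2) * α * N := by rw [hγ]; ring
    nlinarith
  have hXpos : ∀ c : Fin (n + 1) → ℝ, c ≠ 0 → 0 < ∫ x, (χ x * U c x) ^ 2 := by
    intro c hc
    refine lt_of_lt_of_le ?_ (hc1 c)
    exact mul_pos (by linarith) (sum_sq_pos hc)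
  have hpos : 0 ≤ Λ0 - γ := by
    by_contra hneg
    rw [not_le] at hneg
    have hne : (Pi.single (Fin.last n) (1 : ℝ) : Fin (n + 1) → ℝ) ≠ 0 := by
      intro h
      have := congrFun h (Fin.last n)
      simp at this
    have h1 := hkey (Pi.single (Fin.last n) 1)
    have h2 := hXpos _ hne
    have h3 := Dom.bf_nonneg W (fun x => χ x * U (Pi.single (Fin.last n) 1) x)
      (fun i x => χ x * G (Pi.single (Fin.last n) 1) i x
      + U (Pi.single (Fin.last n) 1) x * fderiv ℝ χ x (Pi.single i (1 : ℝ)))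
    have h4 : (Λ0 - γ) * ∫ x, (χ x * U (Pi.single (Fin.last n) 1) x) ^ 2 < 0 :=
      mul_neg_of_neg_of_pos hneg h2
    linarith
  have hle : lamK (n + 1) W ≤ ENNReal.ofReal (Λ0 - γ) := by
    have hU' : ∀ c : Fin (n + 1) → ℝ, (fun x => ∑ j, c j * (χ x * u j x))
        = fun x => χ x * U c x := by
      intro c
      funext x
      rw [hU]
      simp only
      rw [Finset.mul_sum]
      exact Finset.sum_congr rfl fun j _ => by ring
    have hG' : ∀ c : Fin (n + 1) → ℝ, (fun (i : Fin d) x => ∑ j, c j * (χ x * g j i x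
        + u j x * fderiv ℝ χ x (Pi.single i (1 : ℝ)))) = fun i x => χ x * G c i x
        + U c x * fderiv ℝ χ x (Pi.single i (1 : ℝ)) := by
      intro c
      funext i x
      rw [hU, hG]
      simp only
      rw [Finset.mul_sum, Finset.sum_mul, ← Finset.sum_add_distrib]
      exact Finset.sum_congr rfl fun j _ => by ring
    refine lamK_le (u := fun j x => χ x * u j x) (g := fun j i x => χ x * g j i x
        + u j x * fderiv ℝ χ x (Pi.single i (1 : ℝ)))
      (fun j => (hE.dom j).cut hχ hχabs hχB hκ0 hWV) (fun c hc => ?_) (fun c _ => ?_)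
    · rw [hU' c, nsq_ofReal (hdW c).wp.mu, Ne, ENNReal.ofReal_eq_zero, not_le]
      exact hXpos c hc
    · rw [hU' c, hG' c, (hdW c).qf_eq_bf, nsq_ofReal (hdW c).wp.mu, ← ENNReal.ofReal_mul hpos]
      exact ENNReal.ofReal_le_ofReal (hkey c)
  have hlt : ENNReal.ofReal (Λ0 - γ) < ENNReal.ofReal Λ0 :=
    (ENNReal.ofReal_lt_ofReal_iff (by linarith)).2 (by linarith)
  have h1 := hmin W hWadm
  rw [hlam] at h1
  exact absurd (h1.trans hle) (not_le.2 hlt)

end Pool.Agent.Work.MP_2cde6c_an
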