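import Pool.Agent.Work.MP_2cde6c_an.Eig

set_option autoImplicit false

/-!
# Weighted Nash inequality
-/

open MeasureTheory Filter
open scoped ENNReal Topology ContDiff

namespace Pool.Agent.Work.MP_2cde6c_an

variable {d : ℕ}

theorem ptwise {p : ℝ} (hp : 0 < p) (_hp1 : p ≤ 1) {V : ℝ≥0∞} {v : ℝ} (hV0 : V ≠ 0)
    (hVt : V = ⊤ → v = 0) :
    ENNReal.ofReal |v| ≤ (V * ENNReal.ofReal (v ^ 2)) ^ (p / 2) * (V ^ (-p)) ^ (1 / 2 : ℝ)
      * (ENNReal.ofReal (v ^ 2)) ^ ((1 - p) / 2) := by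
  by_cases hv : v = 0
  · simp [hv]
  have hVT : V ≠ ⊤ := fun h => hv (hVt h)
  have hvv : ENNReal.ofReal (v ^ 2) ≠ 0 := by
    rw [Ne, ENNReal.ofReal_eq_zero, not_le]; positivity
  rw [ENNReal.mul_rpow_of_nonneg _ _ (by positivity), ← ENNReal.rpow_mul]
  have e1 : V ^ (p / 2) * ENNReal.ofReal (v ^ 2) ^ (p / 2) * V ^ (-p * (1 / 2))
      * ENNReal.ofReal (v ^ 2) ^ ((1 - p) / 2)
      = (V ^ (p / 2) * V ^ (-p * (1 / 2))) *
        (ENNReal.ofReal (v ^ 2) ^ (p / 2) * ENNReal.ofReal (v ^ 2) ^ ((1 - p) / 2)) := by ring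
  rw [e1, ← ENNReal.rpow_add _ _ hV0 hVT, ← ENNReal.rpow_add _ _ hvv ENNReal.ofReal_ne_top]
  have e2 : p / 2 + -p * (1 / 2) = 0 := by ring
  have e3 : p / 2 + (1 - p) / 2 = 1 / 2 := by ring
  rw [e2, e3, ENNReal.rpow_zero, one_mul, ENNReal.ofReal_rpow_of_nonneg (sq_nonneg _) (by norm_num),
    ← Real.sqrt_eq_rpow, Real.sqrt_sq_eq_abs]

theorem weighted_holder {p : ℝ} (hp : 0 < p) (hp1 : p ≤ 1) {V : (Fin d → ℝ) → ℝ≥0∞}
    (hV : Measurable V) {v : (Fin d → ℝ) → ℝ} (hv : AEMeasurable v volume)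
    (htop : ∀ᵐ x ∂(volume : Measure (Fin d → ℝ)), V x = ⊤ → v x = 0) {A : Set (Fin d → ℝ)}
    (hA : MeasurableSet A) (hvA : ∀ᵐ x ∂(volume : Measure (Fin d → ℝ)), x ∉ A → v x = 0)
    (hfin : ∫⁻ x in A, V x ^ (-p) ≠ ⊤) :
    (∫⁻ x, ENNReal.ofReal |v x|) ^ 2
      ≤ (∫⁻ x, V x * ENNReal.ofReal (v x ^ 2)) ^ p * (∫⁻ x in A, V x ^ (-p))
        * (nsq v) ^ (1 - p) := by
  set f : Fin 3 → (Fin d → ℝ) → ℝ≥0∞ := ![fun x => V x * ENNReal.ofReal (v x ^ 2),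
    A.indicator (fun x => V x ^ (-p)), fun x => ENNReal.ofReal (v x ^ 2)] with hf
  set q : Fin 3 → ℝ := ![p / 2, 1 / 2, (1 - p) / 2] with hq
  have hvm : AEMeasurable (fun x => ENNReal.ofReal (v x ^ 2)) volume :=
    ENNReal.measurable_ofReal.comp_aemeasurable (hv.pow_const 2)
  have hVp : Measurable (fun x => V x ^ (-p)) := hV.pow_const _
  have hfm : ∀ i ∈ (Finset.univ : Finset (Fin 3)), AEMeasurable (f i) volume := by
    intro i _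
    fin_cases i
    · exact hV.aemeasurable.mul hvm
    · exact (hVp.indicator hA).aemeasurable
    · exact hvm
  have hqs : ∑ i ∈ (Finset.univ : Finset (Fin 3)), q i = 1 := by
    simp [hq, Fin.sum_univ_three]; ring
  have hq0 : ∀ i ∈ (Finset.univ : Finset (Fin 3)), 0 ≤ q i := by
    intro i _
    fin_cases i
    · change 0 ≤ p / 2; positivity
    · change (0 : ℝ) ≤ 1 / 2; norm_num
    · change 0 ≤ (1 - p) / 2; linarith
  have hH := ENNReal.lintegral_prod_norm_pow_le (μ := (volume : Measure (Fin d → ℝ)))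
    Finset.univ hfm hqs hq0
  rw [Fin.prod_univ_three] at hH
  simp only [Fin.prod_univ_three] at hH
  have e0 : ∀ x, f 0 x = V x * ENNReal.ofReal (v x ^ 2) := fun x => rfl
  have e1 : ∀ x, f 1 x = A.indicator (fun x => V x ^ (-p)) x := fun x => rfl
  have e2 : ∀ x, f 2 x = ENNReal.ofReal (v x ^ 2) := fun x => rfl
  have q0 : q 0 = p / 2 := rfl
  have q1 : q 1 = 1 / 2 := rfl
  have q2 : q 2 = (1 - p) / 2 := rfl
  simp only [e0, e1, e2, q0, q1, q2] at hH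
  rw [lintegral_indicator hA] at hH
  have hV0 : ∀ᵐ x ∂(volume : Measure (Fin d → ℝ)), x ∈ A → V x ≠ 0 := by
    have h1 := ae_lt_top hVp hfin
    rw [ae_restrict_iff' hA] at h1
    filter_upwards [h1] with x hx hxA h0
    have := hx hxA
    rw [h0, ENNReal.zero_rpow_of_neg (by linarith)] at this
    exact lt_irrefl _ this
  have hle : ∫⁻ x, ENNReal.ofReal |v x| ≤ ∫⁻ x, (V x * ENNReal.ofReal (v x ^ 2)) ^ (p / 2)
      * (A.indicator (fun x => V x ^ (-p)) x) ^ (1 / 2 : ℝ)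
      * (ENNReal.ofReal (v x ^ 2)) ^ ((1 - p) / 2) := by
    apply lintegral_mono_ae
    filter_upwards [htop, hvA, hV0] with x h1 h2 h3
    by_cases hxA : x ∈ A
    · rw [Set.indicator_of_mem hxA]
      exact ptwise hp hp1 (h3 hxA) h1
    · rw [h2 hxA]; simp
  have h4 := hle.trans hH
  have h5 := pow_le_pow_left₀ (zero_le) h4 2
  refine h5.trans (le_of_eq ?_)
  rw [mul_pow, mul_pow, ← ENNReal.rpow_natCast, ← ENNReal.rpow_natCast, ← ENNReal.rpow_natCast,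
    ← ENNReal.rpow_mul, ← ENNReal.rpow_mul, ← ENNReal.rpow_mul]
  have r0 : p / 2 * ((2 : ℕ) : ℝ) = p := by push_cast; ring
  have r1 : (1 / 2 : ℝ) * ((2 : ℕ) : ℝ) = 1 := by push_cast; ring
  have r2 : (1 - p) / 2 * ((2 : ℕ) : ℝ) = 1 - p := by push_cast; ring
  rw [r0, r1, r2, ENNReal.rpow_one]
  rfl

/-- Weighted Nash inequality in real form. -/
theorem nashV {p : ℝ} (hp : 0 < p) (hp1 : p ≤ 1) {V : (Fin d → ℝ) → ℝ≥0∞}
    (hV : Measurable V) {v : (Fin d → ℝ) → ℝ} {h : Fin d → (Fin d → ℝ) → ℝ} (hd : Dom V v h)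
    {A : Set (Fin d → ℝ)} (hA : MeasurableSet A)
    (hvA : ∀ᵐ x ∂(volume : Measure (Fin d → ℝ)), x ∉ A → v x = 0) {m : ℝ} (hm : 0 ≤ m)
    (hint : ∫⁻ x in A, V x ^ (-p) ≤ ENNReal.ofReal m) {ε : ℝ} (hε : 0 < ε) :
    ε ^ d * ∫ x, v x ^ 2 ≤ (2 * ε) ^ d * (d * ε ^ 2) * (∑ i, ∫ x, h i x ^ 2)
      + (∫ x, (sV V x * v x) ^ 2) ^ p * m * (∫ x, v x ^ 2) ^ (1 - p) := by
  have hfin : ∫⁻ x in A, V x ^ (-p) ≠ ⊤ := (hint.trans_lt ENNReal.ofReal_lt_top).ne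
  have h1 := nash hd.wp hε
  have h2 := weighted_holder hp hp1 hV hd.wp.mu.1.aemeasurable hd.top hA hvA hfin
  have hX : 0 ≤ ∫ x, v x ^ 2 := integral_nonneg fun x => sq_nonneg _
  have hW : 0 ≤ ∫ x, (sV V x * v x) ^ 2 := integral_nonneg fun x => sq_nonneg _
  have hG : ∀ i, 0 ≤ ∫ x, h i x ^ 2 := fun i => integral_nonneg fun x => sq_nonneg _
  have hGs : 0 ≤ (∑ i, ∫ x, h i x ^ 2) := Finset.sum_nonneg fun i _ => hG i
  have h3 : (∫⁻ x, ENNReal.ofReal |v x|) ^ 2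
      ≤ ENNReal.ofReal ((∫ x, (sV V x * v x) ^ 2) ^ p * m * (∫ x, v x ^ 2) ^ (1 - p)) := by
    refine h2.trans ?_
    rw [hd.lintegral_eq, nsq_ofReal hd.mw, nsq_ofReal hd.wp.mu,
      ENNReal.ofReal_rpow_of_nonneg hW hp.le, ENNReal.ofReal_rpow_of_nonneg hX (by linarith),
      ENNReal.ofReal_mul (by positivity), ENNReal.ofReal_mul (by positivity)]
    gcongr
  have h4 : ENNReal.ofReal (ε ^ d * ∫ x, v x ^ 2)
      ≤ ENNReal.ofReal ((2 * ε) ^ d * (d * ε ^ 2) * (∑ i, ∫ x, h i x ^ 2)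
      + (∫ x, (sV V x * v x) ^ 2) ^ p * m * (∫ x, v x ^ 2) ^ (1 - p)) := by
    rw [ENNReal.ofReal_mul (by positivity), ← nsq_ofReal hd.wp.mu,
      ENNReal.ofReal_add (by positivity) (by positivity),
      ENNReal.ofReal_mul (p := (2 * ε) ^ d * (d * ε ^ 2)) (by positivity),
      ENNReal.ofReal_sum_of_nonneg fun i _ => hG i]
    refine h1.trans (add_le_add ?_ h3)
    gcongr with i _
    rw [nsq_ofReal (hd.wp.mg i)]
  refine (ENNReal.ofReal_le_ofReal_iff ?_).1 h4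
  positivity

/-- Lower bound for the potential energy. -/
theorem exists_beta (d : ℕ) {p : ℝ} (hp : 0 < p) (hp1 : p ≤ 1) {Λ : ℝ} (hΛ : 0 ≤ Λ) :
    ∃ β : ℝ, 0 < β ∧ ∀ (V : (Fin d → ℝ) → ℝ≥0∞), Measurable V → ∫⁻ x, V x ^ (-p) ≤ 1 →
      ∀ (v : (Fin d → ℝ) → ℝ) (h : Fin d → (Fin d → ℝ) → ℝ), Dom V v h → ∀ N : ℝ, 0 ≤ N →
      3 / 4 * N ≤ ∫ x, v x ^ 2 → (∑ i, ∫ x, h i x ^ 2) ≤ (2 * Λ + 1) * N →
      β * N ≤ ∫ x, (sV V x * v x) ^ 2 := by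
  set D : ℝ := 4 * (2 ^ d * d * (2 * Λ + 1)) + 1 with hD
  have hD0 : 0 < D := by positivity
  set ε : ℝ := Real.sqrt (1 / D) with hε
  have hε0 : 0 < ε := Real.sqrt_pos.2 (by positivity)
  have hε2 : ε ^ 2 = 1 / D := Real.sq_sqrt (by positivity)
  have hsmall : 2 ^ d * (d * ε ^ 2) * (2 * Λ + 1) ≤ 1 / 4 := by
    rw [hε2]
    have : 2 ^ d * (d * (1 / D)) * (2 * Λ + 1) = (2 ^ d * d * (2 * Λ + 1)) / D := by ring
    rw [this, div_le_iff₀ hD0, hD]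
    nlinarith
  refine ⟨(2 / 3 * ε ^ d) ^ (1 / p) * (3 / 4), by positivity, ?_⟩
  intro V hV hVp v h hd N hN hX hG
  rcases eq_or_lt_of_le hN with hN0 | hN0
  · rw [← hN0, mul_zero]
    exact integral_nonneg fun x => sq_nonneg _
  set X := ∫ x, v x ^ 2 with hXdef
  set W := ∫ x, (sV V x * v x) ^ 2 with hWdef
  have hX0 : 0 < X := lt_of_lt_of_le (by positivity) hX
  have hW0 : 0 ≤ W := integral_nonneg fun x => sq_nonneg _
  have h1 := nashV hp hp1 hV hd MeasurableSet.univ (Eventually.of_forall fun x hx =>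
    absurd (Set.mem_univ x) hx) (m := 1) zero_le_one (by
      rw [setLIntegral_univ, ENNReal.ofReal_one]; exact hVp) hε0
  rw [← hXdef, ← hWdef, mul_one] at h1
  have hεd : 0 < ε ^ d := by positivity
  have h2 : (2 * ε) ^ d * (d * ε ^ 2) * (∑ i, ∫ x, h i x ^ 2) ≤ ε ^ d * (1 / 4 * N) := by
    have e : (2 * ε) ^ d * (d * ε ^ 2) * (∑ i, ∫ x, h i x ^ 2)
        = ε ^ d * (2 ^ d * (d * ε ^ 2) * (∑ i, ∫ x, h i x ^ 2)) := by
      rw [mul_pow]; ring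
    rw [e]
    refine mul_le_mul_of_nonneg_left ?_ hεd.le
    calc 2 ^ d * (d * ε ^ 2) * (∑ i, ∫ x, h i x ^ 2)
        ≤ 2 ^ d * (d * ε ^ 2) * ((2 * Λ + 1) * N) :=
          mul_le_mul_of_nonneg_left hG (by positivity)
      _ = (2 ^ d * (d * ε ^ 2) * (2 * Λ + 1)) * N := by ring
      _ ≤ 1 / 4 * N := mul_le_mul_of_nonneg_right hsmall hN
  have h3 : 2 / 3 * ε ^ d * X ≤ W ^ p * X ^ (1 - p) := by
    have h4 : 1 / 4 * N ≤ X / 3 := by linarith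
    have h5 : ε ^ d * (1 / 4 * N) ≤ ε ^ d * (X / 3) := mul_le_mul_of_nonneg_left h4 hεd.le
    nlinarith
  have h6 : 2 / 3 * ε ^ d * X ^ p ≤ W ^ p := by
    have hXp : 0 < X ^ (1 - p) := Real.rpow_pos_of_pos hX0 _
    have e : X = X ^ p * X ^ (1 - p) := by
      rw [← Real.rpow_add hX0]; simp
    have h7 : (2 / 3 * ε ^ d * X ^ p) * X ^ (1 - p) ≤ W ^ p * X ^ (1 - p) := by
      calc (2 / 3 * ε ^ d * X ^ p) * X ^ (1 - p) = 2 / 3 * ε ^ d * (X ^ p * X ^ (1 - p)) := by ring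
        _ = 2 / 3 * ε ^ d * X := by rw [← e]
        _ ≤ _ := h3
    exact le_of_mul_le_mul_right h7 hXp
  have h8 : (2 / 3 * ε ^ d) ^ (1 / p) * X ≤ W := by
    have h9 := Real.rpow_le_rpow (by positivity) h6 (show 0 ≤ 1 / p by positivity)
    rw [Real.mul_rpow (by positivity) (by positivity), ← Real.rpow_mul hX0.le,
      ← Real.rpow_mul hW0, mul_one_div_cancel hp.ne', Real.rpow_one, Real.rpow_one] at h9
    exact h9
  calc (2 / 3 * ε ^ d) ^ (1 / p) * (3 / 4) * N = (2 / 3 * ε ^ d) ^ (1 / p) * (3 / 4 * N) := by ring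
    _ ≤ (2 / 3 * ε ^ d) ^ (1 / p) * X := mul_le_mul_of_nonneg_left hX (by positivity)
    _ ≤ W := h8

end Pool.Agent.Work.MP_2cde6c_an
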