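import Pool.Agent.Work.MP_2cde6c_an.Cutoff
import Pool.Agent.Work.MP_2cde6c_an.Weight

set_option autoImplicit false

/-!
# Localisation identities
-/

open MeasureTheory Filter
open scoped ENNReal Topology ContDiff

namespace Pool.Agent.Work.MP_2cde6c_an

variable {d : ℕ}

theorem memLp_bdd_mul {f a : (Fin d → ℝ) → ℝ} (hf : MemLp f 2 volume) (ha : Continuous a) {A : ℝ}
    (hA : ∀ x, |a x| ≤ A) : MemLp (fun x => a x * f x) 2 volume := by
  refine MemLp.of_le_mul (c := A) hf (ha.aestronglyMeasurable.mul hf.1) ?_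
  filter_upwards with x
  rw [norm_mul]
  exact mul_le_mul_of_nonneg_right (hA x) (norm_nonneg _)

/-- partial derivatives of a smooth function are continuous -/
theorem cont_pd {χ : (Fin d → ℝ) → ℝ} (hχ : ContDiff ℝ ((⊤ : ℕ∞) : WithTop ℕ∞) χ) (v : Fin d → ℝ) :
    Continuous (fun x => fderiv ℝ χ x v) :=
  (hχ.continuous_fderiv (by simp)).clm_apply continuous_const

theorem pd_sq {χ : (Fin d → ℝ) → ℝ} (hχ : ContDiff ℝ ((⊤ : ℕ∞) : WithTop ℕ∞) χ)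
    (x v : Fin d → ℝ) :
    fderiv ℝ (fun x => χ x * χ x) x v = 2 * χ x * fderiv ℝ χ x v := by
  have hdx : DifferentiableAt ℝ χ x := (hχ.differentiable (by simp)).differentiableAt
  rw [fderiv_fun_mul hdx hdx]
  simp [smul_eq_mul]
  ring

/-- Localisation identity (IMS-type) for a weak solution. -/
theorem ims {V : (Fin d → ℝ) → ℝ≥0∞} {U : (Fin d → ℝ) → ℝ} {G : Fin d → (Fin d → ℝ) → ℝ}
    (hd : Dom V U G) {f : (Fin d → ℝ) → ℝ}
    (heq : ∀ v h, Dom V v h → bf V U G v h = ∫ x, f x * v x)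
    {χ : (Fin d → ℝ) → ℝ} (hχ : ContDiff ℝ ((⊤ : ℕ∞) : WithTop ℕ∞) χ) {B : ℝ}
    (hA : ∀ x, |χ x| ≤ 1) (hB : ∀ i x, |fderiv ℝ χ x (Pi.single i (1 : ℝ))| ≤ B) :
    (∑ i, ∫ x, (χ x * G i x + U x * fderiv ℝ χ x (Pi.single i (1 : ℝ))) ^ 2)
      + ∫ x, (χ x * (sV V x * U x)) ^ 2
      = (∫ x, f x * (χ x ^ 2 * U x))
        + ∑ i, ∫ x, (fderiv ℝ χ x (Pi.single i (1 : ℝ)) * U x) ^ 2 := by
  have hχχ : ContDiff ℝ ((⊤ : ℕ∞) : WithTop ℕ∞) (fun x => χ x * χ x) := hχ.mul hχ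
  have hA2 : ∀ x, |χ x * χ x| ≤ 1 := fun x => by
    rw [abs_mul]
    exact mul_le_one₀ (hA x) (abs_nonneg _) (hA x)
  have hB0 : ∀ i x, |fderiv ℝ (fun x => χ x * χ x) x (Pi.single i (1 : ℝ))| ≤ 2 * B := by
    intro i x
    rw [pd_sq hχ, abs_mul, abs_mul, abs_two]
    have h1 := hA x
    have h2 := hB i x
    have h3 : |χ x| * |fderiv ℝ χ x (Pi.single i (1 : ℝ))| ≤ 1 * B :=
      mul_le_mul h1 h2 (abs_nonneg _) zero_le_one
    nlinarith
  have hcut := hd.cut (V' := V) hχχ hA2 hB0 one_pos (fun x _ => by simp)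
  have h1 := heq _ _ hcut
  rw [bf] at h1
  simp only [pd_sq hχ] at h1
  -- integrability
  have mχU : MemLp (fun x => χ x * U x) 2 volume := memLp_bdd_mul hd.wp.mu hχ.continuous hA
  have mχG : ∀ i, MemLp (fun x => χ x * G i x) 2 volume := fun i =>
    memLp_bdd_mul (hd.wp.mg i) hχ.continuous hA
  have mdU : ∀ i, MemLp (fun x => fderiv ℝ χ x (Pi.single i (1 : ℝ)) * U x) 2 volume := fun i =>
    memLp_bdd_mul hd.wp.mu (cont_pd hχ _) (hB i)
  have e1 : ∀ i, ∫ x, (χ x * G i x + U x * fderiv ℝ χ x (Pi.single i (1 : ℝ))) ^ 2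
      = (∫ x, G i x * (χ x * χ x * G i x
          + U x * (2 * χ x * fderiv ℝ χ x (Pi.single i (1 : ℝ)))))
        + ∫ x, (fderiv ℝ χ x (Pi.single i (1 : ℝ)) * U x) ^ 2 := by
    intro i
    rw [← integral_add]
    · congr 1
      ext x
      ring
    · have i1 := integrable_mul (mχG i) (mχG i)
      have i2 := (integrable_mul (mχG i) (mdU i)).const_mul 2
      refine (i1.add i2).congr (Eventually.of_forall fun x => ?_)
      simp only [Pi.add_apply]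
      ring
    · exact (mdU i).integrable_sq
  have e2 : ∫ x, (χ x * (sV V x * U x)) ^ 2
      = ∫ x, (sV V x * U x) * (sV V x * (χ x * χ x * U x)) := by
    congr 1
    ext x
    ring
  have e3 : ∫ x, f x * (χ x * χ x * U x) = ∫ x, f x * (χ x ^ 2 * U x) := by
    congr 1
    ext x
    ring
  simp only [e1, Finset.sum_add_distrib]
  rw [e2, ← e3, ← h1]
  ring

/-- The right-hand side for a combination of eigenfunctions. -/
theorem IsEig.weak_eq {V : (Fin d → ℝ) → ℝ≥0∞} {k : ℕ} {u : Fin k → (Fin d → ℝ) → ℝ}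
    {g : Fin k → Fin d → (Fin d → ℝ) → ℝ} {lm : Fin k → ℝ} (h : IsEig V u g lm)
    (c : Fin k → ℝ) (v : (Fin d → ℝ) → ℝ) (w : Fin d → (Fin d → ℝ) → ℝ) (hv : Dom V v w) :
    bf V (fun x => ∑ j, c j * u j x) (fun i x => ∑ j, c j * g j i x) v w
      = ∫ x, (∑ j, (c j * lm j) * u j x) * v x := by
  rw [bf_sum_left h.dom c hv, integral_sum_mul (fun j => (h.dom j).wp.mu) _ hv.wp.mu]
  refine Finset.sum_congr rfl fun j _ => ?_
  rw [h.el j v w hv]
  ring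

theorem comb_abs_le {k : ℕ} (c y : Fin k → ℝ) :
    |∑ j, c j * y j| ≤ Real.sqrt (∑ j, c j ^ 2) * Real.sqrt (∑ j, y j ^ 2) := by
  rw [← Real.sqrt_mul (Finset.sum_nonneg fun j _ => sq_nonneg _)]
  apply Real.abs_le_sqrt
  exact Finset.sum_mul_sq_le_sq_mul_sq _ _ _

/-- pointwise bound `|U · LU| ≤ Λ N ρ` -/
theorem pt_bound {k : ℕ} (c y lm : Fin k → ℝ) {Λ : ℝ} (h0 : ∀ j, 0 ≤ lm j) (hΛ : ∀ j, lm j ≤ Λ) :
    |(∑ j, (c j * lm j) * y j) * ∑ j, c j * y j| ≤ Λ * (∑ j, c j ^ 2) * ∑ j, y j ^ 2 := by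
  rcases isEmpty_or_nonempty (Fin k) with he | ⟨⟨j0⟩⟩
  · simp
  have hΛ0 : 0 ≤ Λ := (h0 j0).trans (hΛ j0)
  have h1 := comb_abs_le (fun j => c j * lm j) y
  have h2 := comb_abs_le c y
  have h3 : ∑ j, (c j * lm j) ^ 2 ≤ Λ ^ 2 * ∑ j, c j ^ 2 := by
    rw [Finset.mul_sum]
    refine Finset.sum_le_sum fun j _ => ?_
    rw [mul_pow, mul_comm]
    exact mul_le_mul_of_nonneg_right (pow_le_pow_left₀ (h0 j) (hΛ j) 2) (sq_nonneg _)
  have h4 : Real.sqrt (∑ j, (c j * lm j) ^ 2) ≤ Λ * Real.sqrt (∑ j, c j ^ 2) := by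
    refine (Real.sqrt_le_sqrt h3).trans (le_of_eq ?_)
    rw [Real.sqrt_mul (sq_nonneg _), Real.sqrt_sq hΛ0]
  set a := Real.sqrt (∑ j, c j ^ 2)
  set b := Real.sqrt (∑ j, y j ^ 2)
  have ha : 0 ≤ a := Real.sqrt_nonneg _
  have hb : 0 ≤ b := Real.sqrt_nonneg _
  have ha2 : a ^ 2 = ∑ j, c j ^ 2 := Real.sq_sqrt (Finset.sum_nonneg fun j _ => sq_nonneg _)
  have hb2 : b ^ 2 = ∑ j, y j ^ 2 := Real.sq_sqrt (Finset.sum_nonneg fun j _ => sq_nonneg _)
  rw [abs_mul]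
  calc |∑ j, (c j * lm j) * y j| * |∑ j, c j * y j|
      ≤ (Λ * a * b) * (a * b) := by
        refine mul_le_mul (h1.trans ?_) h2 (abs_nonneg _) (by positivity)
        exact mul_le_mul_of_nonneg_right h4 hb
    _ = Λ * (∑ j, c j ^ 2) * ∑ j, y j ^ 2 := by rw [← ha2, ← hb2]; ring

/-- the gradient of a cutoff vanishes where the cutoff vanishes (if nonnegative) -/
theorem pd_zero_of_min {η : (Fin d → ℝ) → ℝ} (h0 : ∀ x, 0 ≤ η x) {x : Fin d → ℝ} (hx : η x = 0)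
    (v : Fin d → ℝ) : fderiv ℝ η x v = 0 := by
  have : IsLocalMin η x := by
    filter_upwards with y
    rw [hx]; exact h0 y
  rw [this.fderiv_eq_zero]
  simp

theorem pd_zero_of_max {η : (Fin d → ℝ) → ℝ} (h1 : ∀ x, η x ≤ 1) {x : Fin d → ℝ} (hx : η x = 1)
    (v : Fin d → ℝ) : fderiv ℝ η x v = 0 := by
  have : IsLocalMax η x := by
    filter_upwards with y
    rw [hx]; exact h1 y
  rw [this.fderiv_eq_zero]
  simp

theorem pd_one_sub {η : (Fin d → ℝ) → ℝ} (x v : Fin d → ℝ) :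
    fderiv ℝ (fun x => 1 - η x) x v = - fderiv ℝ η x v := by
  rw [fderiv_const_sub]
  simp

end Pool.Agent.Work.MP_2cde6c_an
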