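import Pool.Agent.Work.MP_2cde6c_an.Trans

set_option autoImplicit false

/-!
# Cell inequality, Nash inequality and Rellich compactness
-/

open MeasureTheory Filter
open scoped ENNReal Topology ContDiff

namespace Pool.Agent.Work.MP_2cde6c_an

variable {d : ℕ}

/-- The cell with index `z` of the grid of mesh `ε`. -/
def cell (ε : ℝ) (z : Fin d → ℤ) : Set (Fin d → ℝ) :=
  Set.pi Set.univ (fun i => Set.Ico ((z i : ℝ) * ε) (((z i : ℝ) + 1) * ε))

theorem measurableSet_cell (ε : ℝ) (z : Fin d → ℤ) : MeasurableSet (cell ε z) :=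
  MeasurableSet.univ_pi fun _ => measurableSet_Ico

theorem volume_cell {ε : ℝ} (hε : 0 < ε) (z : Fin d → ℤ) :
    volume (cell ε z) = ENNReal.ofReal (ε ^ d) := by
  rw [cell, volume_pi_pi]
  simp only [Real.volume_Ico]
  have : ∀ i, ((z i : ℝ) + 1) * ε - (z i : ℝ) * ε = ε := fun i => by ring
  simp only [this]
  rw [Finset.prod_const, ENNReal.ofReal_pow hε.le]
  simp

theorem mem_cell_iff {ε : ℝ} (hε : 0 < ε) (z : Fin d → ℤ) (x : Fin d → ℝ) :
    x ∈ cell ε z ↔ ∀ i, ⌊x i / ε⌋ = z i := by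
  simp only [cell, Set.mem_pi, Set.mem_univ, true_imp_iff, Set.mem_Ico]
  refine forall_congr' fun i => ?_
  rw [Int.floor_eq_iff, le_div_iff₀ hε, div_lt_iff₀ hε]

theorem iUnion_cell {ε : ℝ} (hε : 0 < ε) : (⋃ z : Fin d → ℤ, cell ε z) = Set.univ := by
  apply Set.eq_univ_of_forall
  intro x
  rw [Set.mem_iUnion]
  exact ⟨fun i => ⌊x i / ε⌋, (mem_cell_iff hε _ _).2 fun i => rfl⟩

theorem disjoint_cell {ε : ℝ} (hε : 0 < ε) :
    Pairwise (Function.onFun Disjoint (cell (d := d) ε)) := by
  intro z z' hne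
  rw [Function.onFun, Set.disjoint_left]
  intro x hx hx'
  apply hne
  rw [mem_cell_iff hε] at hx hx'
  funext i
  rw [← hx i, hx' i]

theorem lintegral_cells {ε : ℝ} (hε : 0 < ε) (f : (Fin d → ℝ) → ℝ≥0∞) :
    ∫⁻ x, f x = ∑' z : Fin d → ℤ, ∫⁻ x in cell ε z, f x := by
  rw [← lintegral_iUnion (fun z => measurableSet_cell ε z) (disjoint_cell hε), iUnion_cell hε,
    setLIntegral_univ]

theorem sub_mem_of_mem_cell {ε : ℝ} (hε : 0 < ε) {z : Fin d → ℤ} {x y : Fin d → ℝ}
    (hx : x ∈ cell ε z) (hy : y ∈ cell ε z) : y - x ∈ Metric.closedBall (0 : Fin d → ℝ) ε := by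
  rw [mem_closedBall_zero_iff, pi_norm_le_iff_of_nonneg hε.le]
  intro i
  simp only [cell, Set.mem_pi, Set.mem_univ, true_imp_iff, Set.mem_Ico] at hx hy
  rw [Pi.sub_apply, Real.norm_eq_abs, abs_le]
  have h1 := hx i
  have h2 := hy i
  constructor <;> nlinarith

/-- The variance identity on a set of finite measure. -/
theorem var_identity {v : (Fin d → ℝ) → ℝ} (hv : MemLp v 2 volume) {Q : Set (Fin d → ℝ)}
    (hQf : volume Q ≠ ⊤) :
    ∫⁻ x in Q, ∫⁻ y in Q, ENNReal.ofReal ((v x - v y) ^ 2)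
      = ENNReal.ofReal (2 * (volume Q).toReal * (∫ x in Q, v x ^ 2)
          - 2 * (∫ x in Q, v x) ^ 2) := by
  have hfin : IsFiniteMeasure (volume.restrict Q) := ⟨by
    rw [Measure.restrict_apply_univ]; exact lt_top_iff_ne_top.2 hQf⟩
  have h2 : MemLp v 2 (volume.restrict Q) := hv.restrict Q
  have h1 : Integrable v (volume.restrict Q) := h2.integrable (by norm_num)
  have hsq : Integrable (fun x => v x ^ 2) (volume.restrict Q) := h2.integrable_sq
  set m := (volume Q).toReal with hm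
  set B := ∫ x in Q, v x ^ 2 with hB
  set A := ∫ x in Q, v x with hA
  have hmm : (volume.restrict Q).real Set.univ = m := by
    rw [Measure.real, Measure.restrict_apply_univ]
  have hF : ∀ x, ∫ y in Q, (v x - v y) ^ 2 = m * v x ^ 2 - 2 * v x * A + B := by
    intro x
    have : ∀ y, (v x - v y) ^ 2 = v x ^ 2 - 2 * v x * v y + v y ^ 2 := fun y => by ring
    simp only [this]
    have i1 : Integrable (fun y => v x ^ 2 - 2 * v x * v y) (volume.restrict Q) :=
      (integrable_const _).sub (h1.const_mul _)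
    rw [integral_add i1 hsq, integral_sub (integrable_const _) (h1.const_mul _),
      integral_const_mul, integral_const, hmm, smul_eq_mul]
  have hin : ∀ x, ∫⁻ y in Q, ENNReal.ofReal ((v x - v y) ^ 2)
      = ENNReal.ofReal (m * v x ^ 2 - 2 * v x * A + B) := by
    intro x
    rw [← hF x, ofReal_integral_eq_lintegral_ofReal]
    · have : (fun y => (v x - v y) ^ 2) = fun y => v x ^ 2 - 2 * v x * v y + v y ^ 2 := by
        funext y; ring
      rw [this]
      exact ((integrable_const _).sub (h1.const_mul _)).add hsq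
    · exact Eventually.of_forall fun y => sq_nonneg _
  simp only [hin]
  have i2 : Integrable (fun x => m * v x ^ 2 - 2 * v x * A) (volume.restrict Q) := by
    refine (hsq.const_mul m).sub ?_
    have : (fun x => 2 * v x * A) = fun x => (2 * A) * v x := by funext x; ring
    rw [this]
    exact h1.const_mul _
  rw [← ofReal_integral_eq_lintegral_ofReal]
  · congr 1
    rw [integral_add i2 (integrable_const _), integral_sub (hsq.const_mul m) ?_,
      integral_const_mul, integral_const, hmm, smul_eq_mul]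
    · have : ∫ x in Q, 2 * v x * A = 2 * A * A := by
        rw [← integral_const_mul]
        congr 1
        ext x
        ring
      rw [this]
      ring
    · have : (fun x => 2 * v x * A) = fun x => (2 * A) * v x := by funext x; ring
      rw [this]
      exact h1.const_mul _
  · exact i2.add (integrable_const _)
  · filter_upwards with x
    rw [← hF x]
    exact integral_nonneg fun y => sq_nonneg _

theorem sum_osc_le {u : (Fin d → ℝ) → ℝ} {g : Fin d → (Fin d → ℝ) → ℝ} (h : WP u g)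
    (hum : Measurable u) {ε : ℝ} (hε : 0 < ε) :
    ∑' z : Fin d → ℤ, ∫⁻ x in cell ε z, ∫⁻ y in cell ε z, ENNReal.ofReal ((u x - u y) ^ 2)
      ≤ ENNReal.ofReal ((2 * ε) ^ d * (d * ε ^ 2)) * ∑ i, nsq (g i) := by
  set B : Set (Fin d → ℝ) := Metric.closedBall 0 ε with hB
  have step1 : ∀ (z : Fin d → ℤ) (x : Fin d → ℝ), x ∈ cell ε z →
      ∫⁻ y in cell ε z, ENNReal.ofReal ((u x - u y) ^ 2)
        ≤ ∫⁻ a in B, ENNReal.ofReal ((u (x + a) - u x) ^ 2) := by
    intro z x hx
    have e1 : ∫⁻ y in cell ε z, ENNReal.ofReal ((u x - u y) ^ 2)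
        = ∫⁻ y, (cell ε z).indicator (fun y => ENNReal.ofReal ((u x - u y) ^ 2)) y :=
      (lintegral_indicator (measurableSet_cell ε z) _).symm
    have e2 : ∫⁻ a in B, ENNReal.ofReal ((u (x + a) - u x) ^ 2)
        = ∫⁻ a, B.indicator (fun a => ENNReal.ofReal ((u (x + a) - u x) ^ 2)) a :=
      (lintegral_indicator measurableSet_closedBall _).symm
    rw [e1, e2, ← lintegral_add_left_eq_self (μ := volume)
      (fun y => (cell ε z).indicator (fun y => ENNReal.ofReal ((u x - u y) ^ 2)) y) x]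
    apply lintegral_mono
    intro a
    by_cases ha : x + a ∈ cell ε z
    · have : a ∈ B := by
        have := sub_mem_of_mem_cell hε hx ha
        rwa [add_sub_cancel_left] at this
      simp only [Set.indicator_of_mem ha, Set.indicator_of_mem this]
      apply ENNReal.ofReal_le_ofReal
      apply le_of_eq
      ring
    · simp only [Set.indicator_of_notMem ha]
      exact zero_le
  have hmeas : Measurable (Function.uncurry fun (x a : Fin d → ℝ) =>
      ENNReal.ofReal ((u (x + a) - u x) ^ 2)) := by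
    apply ENNReal.measurable_ofReal.comp
    apply Measurable.pow_const
    exact (hum.comp (measurable_fst.add measurable_snd)).sub (hum.comp measurable_fst)
  calc ∑' z : Fin d → ℤ, ∫⁻ x in cell ε z, ∫⁻ y in cell ε z, ENNReal.ofReal ((u x - u y) ^ 2)
      ≤ ∑' z : Fin d → ℤ, ∫⁻ x in cell ε z,
          ∫⁻ a in B, ENNReal.ofReal ((u (x + a) - u x) ^ 2) := by
        refine ENNReal.tsum_le_tsum fun z => ?_
        exact setLIntegral_mono' (measurableSet_cell ε z) fun x hx => step1 z x hx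
    _ = ∫⁻ x, ∫⁻ a in B, ENNReal.ofReal ((u (x + a) - u x) ^ 2) := (lintegral_cells hε _).symm
    _ = ∫⁻ a in B, ∫⁻ x, ENNReal.ofReal ((u (x + a) - u x) ^ 2) := by
        exact lintegral_lintegral_swap hmeas.aemeasurable
    _ ≤ ∫⁻ _ in B, ENNReal.ofReal (d * ε ^ 2) * ∑ i, nsq (g i) := by
        refine setLIntegral_mono' measurableSet_closedBall fun a ha => ?_
        refine (h.translation a).trans ?_
        gcongr
        rw [hB, mem_closedBall_zero_iff, pi_norm_le_iff_of_nonneg hε.le] at ha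
        calc ∑ i, a i ^ 2 ≤ ∑ _i : Fin d, ε ^ 2 := by
              refine Finset.sum_le_sum fun i _ => ?_
              have := ha i
              rw [Real.norm_eq_abs] at this
              exact sq_le_sq' (by linarith [abs_le.1 this]) (abs_le.1 this).2
          _ = d * ε ^ 2 := by simp
    _ = ENNReal.ofReal ((2 * ε) ^ d * (d * ε ^ 2)) * ∑ i, nsq (g i) := by
        rw [setLIntegral_const, hB, Real.volume_pi_closedBall 0 hε.le, Fintype.card_fin]
        rw [ENNReal.ofReal_mul (p := (2 * ε) ^ d) (by positivity), mul_comm (ENNReal.ofReal ((2 * ε) ^ d)),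
          mul_assoc, mul_assoc, mul_comm (ENNReal.ofReal ((2 * ε) ^ d))]

/-- The cell inequality. -/
theorem cell_ineq {u : (Fin d → ℝ) → ℝ} {g : Fin d → (Fin d → ℝ) → ℝ} (h : WP u g)
    {ε : ℝ} (hε : 0 < ε) :
    ENNReal.ofReal (ε ^ d) * nsq u
      ≤ ENNReal.ofReal ((2 * ε) ^ d * (d * ε ^ 2)) * ∑ i, nsq (g i)
        + ∑' z : Fin d → ℤ, ENNReal.ofReal ((∫ x in cell ε z, u x) ^ 2) := by
  -- reduce to measurable `u`
  wlog hum : Measurable u generalizing u
  · obtain ⟨u', hu'm, hu'⟩ := h.mu.1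
    have h' : WP u' g := h.congr hu' fun i => ae_eq_rfl
    have := this h' hu'm.measurable
    rw [nsq_congr hu']
    refine this.trans ?_
    have e : ∀ z : Fin d → ℤ, ∫ x in cell ε z, u' x = ∫ x in cell ε z, u x := fun z =>
      integral_congr_ae (EventuallyEq.symm (ae_restrict_of_ae hu'))
    simp only [e]
    exact le_rfl
  have hcell : ∀ z : Fin d → ℤ, ENNReal.ofReal (ε ^ d) *
      ∫⁻ x in cell ε z, ENNReal.ofReal (u x ^ 2)
      ≤ (∫⁻ x in cell ε z, ∫⁻ y in cell ε z, ENNReal.ofReal ((u x - u y) ^ 2))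
        + ENNReal.ofReal ((∫ x in cell ε z, u x) ^ 2) := by
    intro z
    have hvol := volume_cell hε z
    rw [var_identity h.mu (by rw [hvol]; exact ENNReal.ofReal_ne_top), hvol,
      ENNReal.toReal_ofReal (by positivity)]
    have hsq : Integrable (fun x => u x ^ 2) (volume.restrict (cell ε z)) :=
      (h.mu.restrict _).integrable_sq
    rw [← ofReal_integral_eq_lintegral_ofReal hsq (Eventually.of_forall fun x => sq_nonneg _),
      ← ENNReal.ofReal_mul (by positivity)]
    set Bz := ∫ x in cell ε z, u x ^ 2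
    set A := ∫ x in cell ε z, u x
    have hBz : 0 ≤ Bz := integral_nonneg fun x => sq_nonneg _
    have hp : 0 ≤ ε ^ d * Bz := by positivity
    rcases le_or_gt 0 (2 * ε ^ d * Bz - 2 * A ^ 2) with h0 | h0
    · rw [← ENNReal.ofReal_add h0 (sq_nonneg _)]
      apply ENNReal.ofReal_le_ofReal
      nlinarith [sq_nonneg A]
    · refine le_trans ?_ le_add_self
      apply ENNReal.ofReal_le_ofReal
      nlinarith [sq_nonneg A]
  rw [nsq, lintegral_cells hε, ← ENNReal.tsum_mul_left]
  calc ∑' z : Fin d → ℤ, ENNReal.ofReal (ε ^ d) * ∫⁻ x in cell ε z, ENNReal.ofReal (u x ^ 2)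
      ≤ ∑' z : Fin d → ℤ,
        ((∫⁻ x in cell ε z, ∫⁻ y in cell ε z, ENNReal.ofReal ((u x - u y) ^ 2))
        + ENNReal.ofReal ((∫ x in cell ε z, u x) ^ 2)) := ENNReal.tsum_le_tsum hcell
    _ = (∑' z : Fin d → ℤ,
        ∫⁻ x in cell ε z, ∫⁻ y in cell ε z, ENNReal.ofReal ((u x - u y) ^ 2))
        + ∑' z : Fin d → ℤ, ENNReal.ofReal ((∫ x in cell ε z, u x) ^ 2) := ENNReal.tsum_add
    _ ≤ _ := by
        gcongr
        exact sum_osc_le h hum hε

/-- Nash-type inequality -/
theorem nash {u : (Fin d → ℝ) → ℝ} {g : Fin d → (Fin d → ℝ) → ℝ} (h : WP u g)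
    {ε : ℝ} (hε : 0 < ε) :
    ENNReal.ofReal (ε ^ d) * nsq u
      ≤ ENNReal.ofReal ((2 * ε) ^ d * (d * ε ^ 2)) * ∑ i, nsq (g i)
        + (∫⁻ x, ENNReal.ofReal |u x|) ^ 2 := by
  refine (cell_ineq h hε).trans ?_
  gcongr
  set a : (Fin d → ℤ) → ℝ≥0∞ := fun z => ∫⁻ x in cell ε z, ENNReal.ofReal |u x| with ha
  have h1 : ∀ z, ENNReal.ofReal ((∫ x in cell ε z, u x) ^ 2) ≤ a z ^ 2 := by
    intro z
    have hfin : IsFiniteMeasure (volume.restrict (cell ε z)) := ⟨by
      rw [Measure.restrict_apply_univ, volume_cell hε]; exact ENNReal.ofReal_lt_top⟩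
    have hint : Integrable u (volume.restrict (cell ε z)) :=
      (h.mu.restrict _).integrable (by norm_num)
    rw [← sq_abs, ENNReal.ofReal_pow (abs_nonneg _)]
    gcongr
    rw [ha]
    simp only
    rw [← ofReal_integral_eq_lintegral_ofReal hint.abs (Eventually.of_forall fun x => abs_nonneg _)]
    apply ENNReal.ofReal_le_ofReal
    exact abs_integral_le_integral_abs
  have h2 : ∑' z, a z = ∫⁻ x, ENNReal.ofReal |u x| := (lintegral_cells hε _).symm
  calc ∑' z : Fin d → ℤ, ENNReal.ofReal ((∫ x in cell ε z, u x) ^ 2)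
      ≤ ∑' z, a z ^ 2 := ENNReal.tsum_le_tsum h1
    _ ≤ ∑' z, a z * ∑' z, a z := by
        refine ENNReal.tsum_le_tsum fun z => ?_
        rw [sq]
        gcongr
        exact ENNReal.le_tsum z
    _ = (∫⁻ x, ENNReal.ofReal |u x|) ^ 2 := by
        rw [ENNReal.tsum_mul_right, h2, sq]

end Pool.Agent.Work.MP_2cde6c_an
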