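import Pool.Agent.Work.MP_2cde6c_an.Nash

set_option autoImplicit false

/-!
# Rellich compactness
-/

open MeasureTheory Filter
open scoped ENNReal Topology ContDiff

namespace Pool.Agent.Work.MP_2cde6c_an

variable {d : ℕ}

theorem nsq_add_le (f g : (Fin d → ℝ) → ℝ) (hf : AEMeasurable f volume) :
    nsq (fun x => f x + g x) ≤ 2 * nsq f + 2 * nsq g := by
  unfold nsq
  rw [← lintegral_const_mul' _ _ (by norm_num), ← lintegral_const_mul' _ _ (by norm_num),
    ← lintegral_add_left']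
  · apply lintegral_mono
    intro x
    have h2 : (2 : ℝ≥0∞) = ENNReal.ofReal 2 := by simp
    simp only
    rw [h2, ← ENNReal.ofReal_mul (by norm_num), ← ENNReal.ofReal_mul (by norm_num),
      ← ENNReal.ofReal_add (by positivity) (by positivity)]
    apply ENNReal.ofReal_le_ofReal
    nlinarith [sq_nonneg (f x - g x)]
  · exact (ENNReal.measurable_ofReal.comp_aemeasurable (hf.pow_const 2)).const_mul _

theorem nsq_sub_le (f g : (Fin d → ℝ) → ℝ) (hf : AEMeasurable f volume) :
    nsq (fun x => f x - g x) ≤ 2 * nsq f + 2 * nsq g := by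
  have := nsq_add_le f (fun x => - g x) hf
  have e : nsq (fun x => - g x) = nsq g := by
    unfold nsq
    simp
  rw [e] at this
  simpa [sub_eq_add_neg] using this

theorem abs_setIntegral_le {f : (Fin d → ℝ) → ℝ} (hf : MemLp f 2 volume) {Q : Set (Fin d → ℝ)}
    (hQ : MeasurableSet Q) (hQf : volume Q ≠ ⊤) :
    |∫ x in Q, f x| ≤ Real.sqrt (volume Q).toReal * Real.sqrt (nsq f).toReal := by
  have h1 : MemLp (Q.indicator (fun _ => (1 : ℝ))) 2 volume :=
    memLp_indicator_const 2 hQ 1 (Or.inr hQf)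
  have h2 := cs_integral h1 hf
  have e1 : (∫ x, Q.indicator (fun _ => (1 : ℝ)) x * f x) = ∫ x in Q, f x := by
    rw [← integral_indicator hQ]
    congr 1
    ext x
    by_cases hx : x ∈ Q
    · simp [Set.indicator_of_mem hx]
    · simp [Set.indicator_of_notMem hx]
  have e2 : (∫ x, Q.indicator (fun _ => (1 : ℝ)) x ^ 2) = (volume Q).toReal := by
    have : (fun x => Q.indicator (fun _ => (1 : ℝ)) x ^ 2) = Q.indicator (fun _ => (1 : ℝ)) := by
      funext x
      by_cases hx : x ∈ Q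
      · simp [Set.indicator_of_mem hx]
      · simp [Set.indicator_of_notMem hx]
    rw [this, integral_indicator hQ]
    simp [Measure.real]
  rw [e1, e2, ← nsq_toReal hf] at h2
  exact h2

theorem finite_cells {ε : ℝ} (hε : 0 < ε) {S : Set (Fin d → ℝ)} (hS : Bornology.IsBounded S) :
    {z : Fin d → ℤ | (cell ε z ∩ S).Nonempty}.Finite := by
  obtain ⟨R, hR⟩ := hS.subset_closedBall 0
  have hfin : (Set.pi Set.univ (fun _ : Fin d => Set.Icc (⌊-R / ε⌋) (⌊R / ε⌋))).Finite :=
    Set.Finite.pi fun _ => Set.finite_Icc _ _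
  refine hfin.subset ?_
  rintro z ⟨x, hx, hxS⟩
  rw [mem_cell_iff hε] at hx
  have hxR := hR hxS
  rw [mem_closedBall_zero_iff] at hxR
  intro i _
  rw [← hx i]
  have hxi : |x i| ≤ R := (norm_le_pi_norm x i).trans hxR
  rw [abs_le] at hxi
  constructor
  · apply Int.floor_le_floor
    exact (div_le_div_iff_of_pos_right hε).2 hxi.1
  · apply Int.floor_le_floor
    exact (div_le_div_iff_of_pos_right hε).2 hxi.2

theorem rellich {ι : Type} [Fintype ι] {u : ℕ → ι → (Fin d → ℝ) → ℝ}
    {g : ℕ → ι → Fin d → (Fin d → ℝ) → ℝ} (h : ∀ n j, WP (u n j) (g n j))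
    {S : Set (Fin d → ℝ)} (hS : Bornology.IsBounded S)
    (h0 : ∀ n j, ∀ᵐ x ∂(volume : Measure (Fin d → ℝ)), x ∉ S → u n j x = 0) {K : ℝ≥0∞}
    (hK : K ≠ ⊤) (hu : ∀ n j, nsq (u n j) ≤ K) (hg : ∀ n j, ∑ i, nsq (g n j i) ≤ K) :
    ∃ φ : ℕ → ℕ, StrictMono φ ∧ ∃ v : ι → (Fin d → ℝ) → ℝ, (∀ j, MemLp (v j) 2 volume) ∧
      ∀ j, Tendsto (fun n => eLpNorm (fun x => u (φ n) j x - v j x) 2 volume) atTop (𝓝 0) := by
  classical
  -- extraction of a subsequence along which all cell integrals converge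
  set εs : ℕ → ℝ := fun m => 1 / ((m : ℝ) + 1) with hεs
  have hεpos : ∀ m, 0 < εs m := fun m => by rw [hεs]; positivity
  let T := ℕ × (Fin d → ℤ) × ι
  let A : ℕ → T → ℝ := fun n t => ∫ x in cell (εs t.1) t.2.1, u n t.2.2 x
  let bd : T → ℝ := fun t => Real.sqrt ((volume (cell (εs t.1) t.2.1)).toReal)
    * Real.sqrt K.toReal
  have hAmem : ∀ n, A n ∈ Set.pi Set.univ (fun t => Set.Icc (-(bd t)) (bd t)) := by
    intro n t _
    rw [← Set.mem_preimage, Set.mem_preimage]
    have := abs_setIntegral_le (h n t.2.2).mu (measurableSet_cell (εs t.1) t.2.1)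
      (by rw [volume_cell (hεpos _)]; exact ENNReal.ofReal_ne_top)
    rw [Set.mem_Icc, ← abs_le]
    refine this.trans ?_
    refine mul_le_mul_of_nonneg_left ?_ (Real.sqrt_nonneg _)
    exact Real.sqrt_le_sqrt (ENNReal.toReal_mono hK (hu n t.2.2))
  have hcomp : IsCompact (Set.pi Set.univ (fun t : T => Set.Icc (-(bd t)) (bd t))) :=
    isCompact_univ_pi fun t => isCompact_Icc
  obtain ⟨Ai, -, φ, hφ, hlim⟩ := hcomp.tendsto_subseq hAmem
  refine ⟨φ, hφ, ?_⟩
  have hlim' : ∀ t : T, Tendsto (fun n => A (φ n) t) atTop (𝓝 (Ai t)) := by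
    rw [tendsto_pi_nhds] at hlim
    exact hlim
  -- the subsequence is Cauchy
  have hcauchy : ∀ j, CauchySeq (fun n => ((h (φ n) j).mu.toLp (u (φ n) j))) := by
    intro j
    rw [Metric.cauchySeq_iff]
    intro δ hδ
    -- choose the mesh
    set C : ℝ := 2 ^ d * d * (4 * K.toReal) with hC
    have hC0 : 0 ≤ C := by positivity
    obtain ⟨m, hm⟩ : ∃ m : ℕ, C * (εs m) ^ 2 < δ ^ 2 / 2 := by
      have : Tendsto (fun m : ℕ => C * (εs m) ^ 2) atTop (𝓝 (C * 0 ^ 2)) := by
        refine (Tendsto.pow ?_ 2).const_mul C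
        exact tendsto_one_div_add_atTop_nhds_zero_nat
      have h2 : C * 0 ^ 2 < δ ^ 2 / 2 := by simp; positivity
      exact (this.eventually (gt_mem_nhds h2)).exists
    set ε := εs m with hε_def
    have hε : 0 < ε := hεpos m
    set F := (finite_cells hε hS).toFinset with hF
    -- cell sums are Cauchy
    have hsum : Tendsto (fun p : ℕ × ℕ => ∑ z ∈ F, (A (φ p.1) (m, z, j) - A (φ p.2) (m, z, j)) ^ 2)
        (atTop ×ˢ atTop) (𝓝 0) := by
      have : Tendsto (fun p : ℕ × ℕ => ∑ z ∈ F,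
          (A (φ p.1) (m, z, j) - A (φ p.2) (m, z, j)) ^ 2)
          (atTop ×ˢ atTop) (𝓝 (∑ z ∈ F, (Ai (m, z, j) - Ai (m, z, j)) ^ 2)) := by
        refine tendsto_finsetSum _ fun z _ => ?_
        refine Tendsto.pow ?_ 2
        exact ((hlim' (m, z, j)).comp tendsto_fst).sub ((hlim' (m, z, j)).comp tendsto_snd)
      simpa using this
    have hev : ∀ᶠ p : ℕ × ℕ in atTop ×ˢ atTop,
        ∑ z ∈ F, (A (φ p.1) (m, z, j) - A (φ p.2) (m, z, j)) ^ 2 < ε ^ d * (δ ^ 2 / 2) :=
      hsum.eventually (gt_mem_nhds (by positivity))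
    rw [prod_atTop_atTop_eq, eventually_atTop] at hev
    obtain ⟨⟨N1, N2⟩, hN⟩ := hev
    refine ⟨max N1 N2, fun a ha b hb => ?_⟩
    have hab := hN (a, b) ⟨(le_max_left _ _).trans ha, (le_max_right _ _).trans hb⟩
    simp only at hab
    set v : (Fin d → ℝ) → ℝ := fun x => u (φ a) j x - u (φ b) j x with hv
    have hWP := (h (φ a) j).sub (h (φ b) j)
    have hmain := cell_ineq hWP hε
    have hG : ∑ i, nsq (fun x => g (φ a) j i x - g (φ b) j i x) ≤ 4 * K := by
      calc ∑ i, nsq (fun x => g (φ a) j i x - g (φ b) j i x)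
          ≤ ∑ i, (2 * nsq (g (φ a) j i) + 2 * nsq (g (φ b) j i)) := by
            refine Finset.sum_le_sum fun i _ => ?_
            exact nsq_sub_le _ _ ((h (φ a) j).mg i).1.aemeasurable
        _ = 2 * ∑ i, nsq (g (φ a) j i) + 2 * ∑ i, nsq (g (φ b) j i) := by
            rw [Finset.sum_add_distrib, ← Finset.mul_sum, ← Finset.mul_sum]
        _ ≤ 2 * K + 2 * K := by gcongr <;> exact hg _ _
        _ = 4 * K := by ring
    have hcellsum : ∑' z : Fin d → ℤ, ENNReal.ofReal
        ((∫ x in cell ε z, (u (φ a) j x - u (φ b) j x)) ^ 2)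
        = ENNReal.ofReal (∑ z ∈ F, (A (φ a) (m, z, j) - A (φ b) (m, z, j)) ^ 2) := by
      rw [tsum_eq_sum (s := F), ENNReal.ofReal_sum_of_nonneg fun z _ => sq_nonneg _]
      · refine Finset.sum_congr rfl fun z _ => ?_
        congr 2
        have hfin : IsFiniteMeasure (volume.restrict (cell ε z)) := ⟨by
          rw [Measure.restrict_apply_univ, volume_cell hε]; exact ENNReal.ofReal_lt_top⟩
        rw [integral_sub]
        · exact ((h (φ a) j).mu.restrict _).integrable (by norm_num)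
        · exact ((h (φ b) j).mu.restrict _).integrable (by norm_num)
      · intro z hz
        have hz' : ¬ (cell ε z ∩ S).Nonempty := by
          intro hc
          apply hz
          rw [hF]
          exact (Set.Finite.mem_toFinset _).2 hc
        have : ∫ x in cell ε z, (u (φ a) j x - u (φ b) j x) = 0 := by
          rw [← integral_zero (Fin d → ℝ) ℝ (μ := volume.restrict (cell ε z))]
          apply integral_congr_ae
          filter_upwards [ae_restrict_mem (measurableSet_cell ε z),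
            ae_restrict_of_ae (h0 (φ a) j), ae_restrict_of_ae (h0 (φ b) j)] with x hx h1 h2
          have hxS : x ∉ S := fun hc => hz' ⟨x, hx, hc⟩
          rw [h1 hxS, h2 hxS, sub_zero]
        rw [this]
        simp
    rw [hcellsum] at hmain
    have hfin : nsq v < ENNReal.ofReal (δ ^ 2) := by
      have hpos : 0 < ε ^ d := by positivity
      have hKr : (4 * K) = ENNReal.ofReal (4 * K.toReal) := by
        rw [ENNReal.ofReal_mul (by norm_num), ENNReal.ofReal_toReal hK]
        simp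
      have h3 : ENNReal.ofReal (ε ^ d) * nsq v < ENNReal.ofReal (ε ^ d) * ENNReal.ofReal (δ ^ 2) := by
        refine lt_of_le_of_lt hmain ?_
        calc ENNReal.ofReal ((2 * ε) ^ d * (d * ε ^ 2))
              * ∑ i, nsq (fun x => g (φ a) j i x - g (φ b) j i x)
              + ENNReal.ofReal (∑ z ∈ F, (A (φ a) (m, z, j) - A (φ b) (m, z, j)) ^ 2)
            ≤ ENNReal.ofReal ((2 * ε) ^ d * (d * ε ^ 2)) * ENNReal.ofReal (4 * K.toReal)
              + ENNReal.ofReal (∑ z ∈ F, (A (φ a) (m, z, j) - A (φ b) (m, z, j)) ^ 2) := by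
              rw [← hKr]
              gcongr
          _ = ENNReal.ofReal ((2 * ε) ^ d * (d * ε ^ 2) * (4 * K.toReal)
              + ∑ z ∈ F, (A (φ a) (m, z, j) - A (φ b) (m, z, j)) ^ 2) := by
              rw [← ENNReal.ofReal_mul (by positivity),
                ← ENNReal.ofReal_add (by positivity) (Finset.sum_nonneg fun z _ => sq_nonneg _)]
          _ < ENNReal.ofReal (ε ^ d) * ENNReal.ofReal (δ ^ 2) := by
              rw [← ENNReal.ofReal_mul hpos.le, ENNReal.ofReal_lt_ofReal_iff (by positivity)]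
              have e1 : (2 * ε) ^ d * (d * ε ^ 2) * (4 * K.toReal) = ε ^ d * (C * ε ^ 2) := by
                rw [hC, mul_pow]; ring
              rw [e1]
              have h5 : ε ^ d * (C * ε ^ 2) < ε ^ d * (δ ^ 2 / 2) :=
                mul_lt_mul_of_pos_left hm hpos
              have h6 : ε ^ d * δ ^ 2 = ε ^ d * (δ ^ 2 / 2) + ε ^ d * (δ ^ 2 / 2) := by ring
              rw [h6]
              exact add_lt_add h5 hab
      have h7 : ENNReal.ofReal (ε ^ d) ≠ 0 := by
        rw [Ne, ENNReal.ofReal_eq_zero, not_le]; exact hpos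
      exact (ENNReal.mul_lt_mul_iff_right h7 ENNReal.ofReal_ne_top).1 h3
    have hdist : dist ((h (φ a) j).mu.toLp (u (φ a) j)) ((h (φ b) j).mu.toLp (u (φ b) j))
        = (eLpNorm v 2 volume).toReal := by
      rw [dist_eq_norm, ← MemLp.toLp_sub, Lp.norm_toLp]
      rfl
    rw [hdist]
    rw [nsq_eq] at hfin
    have hvn : eLpNorm v 2 volume ≠ ⊤ := hWP.mu.2.ne
    have h8 : (eLpNorm v 2 volume).toReal ^ 2 < δ ^ 2 := by
      rw [← ENNReal.toReal_pow]
      exact (ENNReal.lt_ofReal_iff_toReal_lt (ENNReal.pow_ne_top hvn)).1 hfin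
    exact lt_of_pow_lt_pow_left₀ 2 hδ.le h8
  have hex : ∀ j, ∃ w : Lp ℝ 2 (volume : Measure (Fin d → ℝ)),
      Tendsto (fun n => ((h (φ n) j).mu.toLp (u (φ n) j))) atTop (𝓝 w) := fun j =>
    cauchySeq_tendsto_of_complete (hcauchy j)
  choose w hw using hex
  refine ⟨fun j => w j, fun j => Lp.memLp (w j), fun j => ?_⟩
  have h9 := (Lp.tendsto_Lp_iff_tendsto_eLpNorm' _ _).1 (hw j)
  refine h9.congr fun n => ?_
  apply eLpNorm_congr_ae
  filter_upwards [(h (φ n) j).mu.coeFn_toLp] with x hx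
  rw [Pi.sub_apply, hx]

end Pool.Agent.Work.MP_2cde6c_an
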