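import Pool.Agent.Work.MP_2cde6c_an.Tight

set_option autoImplicit false

/-!
# Every optimal potential has bounded finiteness set
-/

open MeasureTheory Filter
open scoped ENNReal Topology ContDiff

namespace Pool.Agent.Work.MP_2cde6c_an

variable {d : ℕ}

theorem lamK_lt_top {k : ℕ} {V : (Fin d → ℝ) → ℝ≥0∞} {u : Fin k → (Fin d → ℝ) → ℝ}
    {g : Fin k → Fin d → (Fin d → ℝ) → ℝ} (hd : ∀ j, Dom V (u j) (g j))
    (hind : ∀ c : Fin k → ℝ, c ≠ 0 → nsq (fun x => ∑ j, c j * u j x) ≠ 0) :
    lamK k V < ⊤ := by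
  obtain ⟨α, hα, hαc⟩ := exists_alpha (fun j => (hd j).wp.mu) hind
  set Q : ℝ := (∑ i, ∑ j, ∫ x, g j i x ^ 2) + ∑ j, ∫ x, (sV V x * u j x) ^ 2 with hQ
  have hQ0 : 0 ≤ Q := add_nonneg
    (Finset.sum_nonneg fun i _ => Finset.sum_nonneg fun j _ => integral_nonneg fun x => sq_nonneg _)
    (Finset.sum_nonneg fun j _ => integral_nonneg fun x => sq_nonneg _)
  have key : ∀ (c : Fin k → ℝ) (f : Fin k → (Fin d → ℝ) → ℝ), (∀ j, MemLp (f j) 2 volume) →
      ∫ x, (∑ j, c j * f j x) * (∑ j, c j * f j x) ≤ (∑ j, c j ^ 2) * ∑ j, ∫ x, f j x ^ 2 := by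
    intro c f hf
    have hs : MemLp (fun x => ∑ j, c j * f j x) 2 volume :=
      memLp_finsetSum _ fun j _ => (hf j).const_mul _
    have hi : Integrable (fun x => ∑ j, f j x ^ 2) volume :=
      integrable_finsetSum _ fun j _ => (hf j).integrable_sq
    rw [← integral_finsetSum _ fun j _ => (hf j).integrable_sq, ← integral_const_mul]
    refine integral_mono (integrable_mul hs hs) (hi.const_mul _) fun x => ?_
    simp only
    rw [← sq]
    exact Finset.sum_mul_sq_le_sq_mul_sq _ _ _
  refine lt_of_le_of_lt (lamK_le hd hind (t := ENNReal.ofReal (Q / α)) fun c _ => ?_)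
    ENNReal.ofReal_lt_top
  rw [(Dom.sum hd c).qf_eq_bf, nsq_ofReal (Dom.sum hd c).wp.mu,
    ← ENNReal.ofReal_mul (by positivity)]
  apply ENNReal.ofReal_le_ofReal
  have h1 : bf V (fun x => ∑ j, c j * u j x) (fun i x => ∑ j, c j * g j i x)
      (fun x => ∑ j, c j * u j x) (fun i x => ∑ j, c j * g j i x) ≤ (∑ j, c j ^ 2) * Q := by
    rw [bf, hQ, mul_add]
    refine add_le_add ?_ ?_
    · rw [Finset.mul_sum]
      exact Finset.sum_le_sum fun i _ => key c (fun j => g j i) fun j => (hd j).wp.mg i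
    · have h2 := key c (fun j x => sV V x * u j x) fun j => (hd j).mw
      refine le_trans (le_of_eq ?_) h2
      congr 1
      ext x
      have : sV V x * ∑ j, c j * u j x = ∑ j, c j * (sV V x * u j x) := by
        rw [Finset.mul_sum]
        exact Finset.sum_congr rfl fun j _ => by ring
      rw [this]
  refine h1.trans ?_
  have h2 := hαc c
  calc (∑ j, c j ^ 2) * Q = (Q / α) * (α * ∑ j, c j ^ 2) := by field_simp
    _ ≤ _ := mul_le_mul_of_nonneg_left h2 (by positivity)

theorem WP.of_TF {φ : (Fin d → ℝ) → ℝ} (hφ : TF φ) :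
    WP φ (fun i x => fderiv ℝ φ x (Pi.single i (1 : ℝ))) := by
  refine ⟨hφ.memLp 2, fun i => hφ.memLp_fderiv _ 2, ?_⟩
  intro i ψ hψ
  refine integral_mul_fderiv_eq_neg_fderiv_mul_of_integrable ?_ ?_ ?_ ?_ ?_
  · exact integrable_mul (hφ.memLp_fderiv _ 2) (hψ.memLp 2)
  · exact integrable_mul (hφ.memLp 2) (hψ.memLp_fderiv _ 2)
  · exact integrable_mul (hφ.memLp 2) (hψ.memLp 2)
  · intro x _
    exact (hφ.1.differentiable (by simp)).differentiableAt
  · intro x _
    exact (hψ.1.differentiable (by simp)).differentiableAt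

theorem bump_TF (a : Fin d → ℝ) {r s : ℝ} (hr : 0 ≤ r) (hs : 0 < s) : TF (bump a r s) := by
  refine ⟨bump_contDiff a r s, ?_⟩
  refine HasCompactSupport.intro (isCompact_closedBall a (r + s)) fun x hx => ?_
  rw [Metric.mem_closedBall, not_le] at hx
  exact bump_zero hr hs hx.le

/-- Some admissible potential has finite `k`-th min-max value. -/
theorem exists_finite (hd : 1 ≤ d) {p : ℝ} (hp : 0 < p) (k : ℕ) :
    ∃ W : (Fin d → ℝ) → ℝ≥0∞, Measurable W ∧ ∫⁻ x, W x ^ (-p) ≤ 1 ∧ lamK k W < ⊤ := by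
  classical
  let i0 : Fin d := ⟨0, hd⟩
  set ctr : Fin k → (Fin d → ℝ) := fun j => Pi.single i0 ((j : ℕ) : ℝ) with hctr
  set u : Fin k → (Fin d → ℝ) → ℝ := fun j => bump (ctr j) (1 / 8) (1 / 8) with hu
  have hTF : ∀ j, TF (u j) := fun j => bump_TF _ (by norm_num) (by norm_num)
  set S : Set (Fin d → ℝ) := Metric.closedBall 0 ((k : ℝ) + 1) with hS
  have hSm : MeasurableSet S := measurableSet_closedBall
  have hSt : volume S ≠ ⊤ := Metric.isBounded_closedBall.measure_lt_top.ne
  have hS0 : volume S ≠ 0 := by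
    have : 0 < volume S := Metric.measure_closedBall_pos _ _ (by positivity)
    exact this.ne'
  set cst : ℝ≥0∞ := (volume S) ^ (1 / p) with hcst
  have hcstt : cst ≠ ⊤ := by
    rw [hcst]
    exact ENNReal.rpow_ne_top_of_nonneg (by positivity) hSt
  set W : (Fin d → ℝ) → ℝ≥0∞ := fun x => if x ∈ S then cst else ⊤ with hW
  have hWm : Measurable W := Measurable.ite hSm measurable_const measurable_const
  have hWp : ∫⁻ x, W x ^ (-p) ≤ 1 := by
    have e1 : ∀ x, W x ^ (-p) = S.indicator (fun _ => (volume S)⁻¹) x := by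
      intro x
      by_cases hx : x ∈ S
      · rw [Set.indicator_of_mem hx, hW]
        simp only
        rw [if_pos hx, hcst, ← ENNReal.rpow_mul]
        have : 1 / p * -p = -1 := by field_simp
        rw [this, ENNReal.rpow_neg_one]
      · rw [Set.indicator_of_notMem hx, hW]
        simp only
        rw [if_neg hx, ENNReal.top_rpow_of_neg (by linarith)]
    simp only [e1]
    rw [lintegral_indicator hSm, setLIntegral_const, ENNReal.inv_mul_cancel hS0 hSt]
  have hnctr : ∀ j, ‖ctr j‖ ≤ k := by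
    intro j
    rw [hctr, pi_norm_le_iff_of_nonneg (Nat.cast_nonneg k)]
    intro l
    simp only
    by_cases hl : l = i0
    · rw [hl, Pi.single_eq_same, Real.norm_eq_abs, abs_of_nonneg (Nat.cast_nonneg _)]
      exact_mod_cast j.2.le
    · rw [Pi.single_eq_of_ne hl, norm_zero]
      exact Nat.cast_nonneg k
  have hsupp : ∀ j x, x ∉ S → u j x = 0 := by
    intro j x hx
    apply bump_zero (by norm_num) (by norm_num)
    rw [hS, Metric.mem_closedBall, not_le, dist_zero_right] at hx
    have h1 : ‖x‖ ≤ dist x (ctr j) + ‖ctr j‖ := by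
      rw [dist_eq_norm]
      have := norm_add_le (x - ctr j) (ctr j)
      simpa using this
    have := hnctr j
    linarith
  have hdom : ∀ j, Dom W (u j) (fun i x => fderiv ℝ (u j) x (Pi.single i (1 : ℝ))) := by
    intro j
    refine ⟨WP.of_TF (hTF j), ?_, ?_⟩
    · refine Eventually.of_forall fun x hx => ?_
      apply hsupp
      intro hxS
      rw [hW] at hx
      simp only at hx
      rw [if_pos hxS] at hx
      exact hcstt hx
    · have e1 : (fun x => sV W x * u j x) = fun x => Real.sqrt cst.toReal * u j x := by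
        funext x
        by_cases hx : x ∈ S
        · rw [sV, hW]
          simp only
          rw [if_pos hx]
        · rw [hsupp j x hx, mul_zero, mul_zero]
      rw [e1]
      exact ((hTF j).memLp 2).const_mul _
  have hind : ∀ c : Fin k → ℝ, c ≠ 0 → nsq (fun x => ∑ j, c j * u j x) ≠ 0 := by
    intro c hc h0
    obtain ⟨j, hj⟩ := Function.ne_iff.1 hc
    have hcj : c j ≠ 0 := hj
    have hm : AEStronglyMeasurable (fun x => ∑ j, c j * u j x) volume :=
      (WP.sum (fun j => (hdom j).wp) c).mu.1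
    rw [nsq_eq_zero hm] at h0
    have hval : ∀ x ∈ Metric.closedBall (ctr j) (1 / 8), ∑ l, c l * u l x = c j := by
      intro x hx
      rw [Metric.mem_closedBall] at hx
      rw [Finset.sum_eq_single j]
      · have : u j x = 1 := bump_one (by norm_num) (by norm_num) hx
        rw [this, mul_one]
      · intro l _ hl
        have : u l x = 0 := by
          apply bump_zero (by norm_num) (by norm_num)
          have h1 : dist (ctr l) (ctr j) ≤ dist x (ctr l) + dist x (ctr j) := by
            rw [dist_comm x (ctr l)]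
            exact dist_triangle _ _ _
          have h2 : (1 : ℝ) ≤ dist (ctr l) (ctr j) := by
            have h3 : dist (ctr l i0) (ctr j i0) ≤ dist (ctr l) (ctr j) := dist_le_pi_dist _ _ _
            refine le_trans ?_ h3
            rw [hctr]
            simp only [Pi.single_eq_same]
            rw [Real.dist_eq]
            have h4 : (l : ℕ) ≠ (j : ℕ) := fun h => hl (Fin.ext h)
            have h5 : ((l : ℕ) : ℤ) - ((j : ℕ) : ℤ) ≠ 0 := by omega
            have h6 : (1 : ℤ) ≤ |((l : ℕ) : ℤ) - ((j : ℕ) : ℤ)| := Int.one_le_abs h5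
            have h7 : ((1 : ℤ) : ℝ) ≤ ((|((l : ℕ) : ℤ) - ((j : ℕ) : ℤ)| : ℤ) : ℝ) := by
              exact_mod_cast h6
            push_cast at h7
            exact h7
          linarith
        rw [this, mul_zero]
      · intro h
        exact absurd (Finset.mem_univ j) h
    have hpos : 0 < volume (Metric.closedBall (ctr j) (1 / 8 : ℝ)) :=
      Metric.measure_closedBall_pos _ _ (by norm_num)
    have hzero : volume (Metric.closedBall (ctr j) (1 / 8 : ℝ)) = 0 := by
      rw [EventuallyEq, ae_iff] at h0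
      refine measure_mono_null ?_ h0
      intro x hx
      change ¬ (∑ l, c l * u l x = (0 : (Fin d → ℝ) → ℝ) x)
      rw [hval x hx]
      exact hcj
    exact hpos.ne' hzero
  exact ⟨W, hWm, hWp, lamK_lt_top hdom hind⟩

theorem tail_integral {ρ : (Fin d → ℝ) → ℝ} (hρi : Integrable ρ volume)
    {ε : ℝ} (hε : 0 < ε) :
    ∃ n : ℕ, ∫ x in (Metric.closedBall (0 : Fin d → ℝ) n)ᶜ, ρ x ≤ ε := by
  have h1 : Tendsto (fun n : ℕ => ∫ x in Metric.closedBall (0 : Fin d → ℝ) n, ρ x) atTop
      (𝓝 (∫ x in ⋃ n : ℕ, Metric.closedBall (0 : Fin d → ℝ) n, ρ x)) := by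
    refine tendsto_setIntegral_of_monotone (fun n => measurableSet_closedBall) ?_
      hρi.integrableOn
    intro n m hnm
    exact Metric.closedBall_subset_closedBall (by exact_mod_cast hnm)
  rw [Metric.iUnion_closedBall_nat, setIntegral_univ] at h1
  have h2 := h1.const_sub (∫ x, ρ x)
  rw [sub_self] at h2
  obtain ⟨n, hn⟩ := (h2.eventually (gt_mem_nhds hε)).exists
  refine ⟨n, ?_⟩
  have := integral_add_compl (μ := (volume : Measure (Fin d → ℝ)))
    (s := Metric.closedBall (0 : Fin d → ℝ) n) measurableSet_closedBall hρi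
  linarith

/-- Every optimal potential is infinite outside a bounded set. -/
theorem optimal_bounded {p : ℝ} (hp : 0 < p) (hp1 : p ≤ 1) (n : ℕ) {V : (Fin d → ℝ) → ℝ≥0∞}
    (hV : Measurable V) (hVp : ∫⁻ x, V x ^ (-p) ≤ 1)
    (hmin : ∀ W : (Fin d → ℝ) → ℝ≥0∞, Measurable W → ∫⁻ x, W x ^ (-p) ≤ 1 →
      lamK (n + 1) V ≤ lamK (n + 1) W) (hfin : lamK (n + 1) V < ⊤) :
    ∃ R : ℝ, ∀ᵐ x ∂(volume : Measure (Fin d → ℝ)), R < ‖x‖ → V x = ⊤ := by
  have hA : Adm p (Set.univ : Set (Fin d → ℝ)) V :=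
    ⟨hV, fun x hx => absurd (Set.mem_univ x) hx, hVp⟩
  have hmin' : ∀ W, Adm p (Set.univ : Set (Fin d → ℝ)) W → lamK (n + 1) V ≤ lamK (n + 1) W :=
    fun W hW => hmin W hW.meas hW.int
  obtain ⟨u, g, lm, hE, hlam⟩ := exists_isEig_of_compact hV
    (fun X hX hb => compact_full hp hp1 hV hVp X hX hb) hfin
  set Λ := lm (Fin.last n) with hΛ
  have hΛ0 : 0 ≤ Λ := hE.nonneg _
  have humem : ∀ j, MemLp (u j) 2 volume := fun j => (hE.dom j).wp.mu
  have hρi : Integrable (fun x => ∑ j, u j x ^ 2) volume :=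
    integrable_finsetSum _ fun j _ => (humem j).integrable_sq
  have hρ0 : ∀ x, 0 ≤ ∑ j, u j x ^ 2 := fun x => Finset.sum_nonneg fun j _ => sq_nonneg _
  obtain ⟨ε₀, hε₀, hdg⟩ := de_giorgi d hp hp1 n hΛ0
  obtain ⟨β, hβ, hβ'⟩ := exists_beta d hp hp1 hΛ0
  obtain ⟨C, hC, hcut⟩ := exists_cutoff d
  obtain ⟨M, hM⟩ := tail_integral hρi hε₀
  -- far balls
  have hfar : ∀ a : Fin d → ℝ, (M : ℝ) + 1 < ‖a‖ →
      ∀ᵐ x ∂(volume : Measure (Fin d → ℝ)), x ∈ Metric.closedBall a (1 / 4) → V x = ⊤ := by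
    intro a ha
    have h1 : (∫ x in Metric.closedBall a 1, ∑ j, u j x ^ 2) ≤ ε₀ := by
      refine le_trans ?_ hM
      refine setIntegral_mono_set hρi.integrableOn (Eventually.of_forall fun x => hρ0 x)
        (Eventually.of_forall ?_)
      intro x hx
      have hx' : dist x a ≤ 1 := Metric.mem_closedBall.1 hx
      change ¬ (x ∈ Metric.closedBall (0 : Fin d → ℝ) (M : ℝ))
      rw [Metric.mem_closedBall, not_le, dist_zero_right]
      have h2 : ‖a‖ ≤ ‖x‖ + dist x a := by
        rw [dist_comm, dist_eq_norm]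
        have := norm_add_le x (a - x)
        simpa [add_comm] using this
      linarith
    have h2 := hdg _ V hA hmin' u g lm hE hlam le_rfl a h1
    obtain ⟨η, k1, k2, k3, k4, k5, k6⟩ := hcut a (1 / 4) (1 / 4) (by norm_num) (by norm_num)
    have hrs : (1 / 4 : ℝ) + 1 / 4 = 1 / 2 := by norm_num
    have hkill := kill_ball hp hp1 hA hmin' hE hlam le_rfl hβ' k1 k2 k3 k6
      (r := 1 / 4) (s := 1 / 4) k4 k5 (α := 0) (by rw [hrs, h2]) (by norm_num)
      (by rw [mul_zero]; norm_num)
    rw [mul_zero] at hkill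
    set m := (∫⁻ x in Metric.closedBall a (1 / 4), V x ^ (-p)).toReal with hm
    have hm0 : 0 ≤ m := ENNReal.toReal_nonneg
    have hmz : m = 0 := by
      have h3 : min m (1 / 2) ≤ 0 := by
        by_contra hne
        rw [not_le] at hne
        have := mul_pos hne hβ
        linarith
      rcases min_le_iff.1 h3 with h4 | h4
      · exact le_antisymm h4 hm0
      · norm_num at h4
    have hmt : ∫⁻ x in Metric.closedBall a (1 / 4), V x ^ (-p) ≠ ⊤ :=
      (((setLIntegral_le_lintegral _ _).trans hVp).trans_lt ENNReal.one_lt_top).ne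
    have hz : ∫⁻ x in Metric.closedBall a (1 / 4), V x ^ (-p) = 0 := by
      rw [hm, ENNReal.toReal_eq_zero_iff] at hmz
      rcases hmz with h | h
      · exact h
      · exact absurd h hmt
    rw [lintegral_eq_zero_iff (hV.pow_const _)] at hz
    rw [EventuallyEq, ae_restrict_iff' measurableSet_closedBall] at hz
    filter_upwards [hz] with x hx hxb
    have h5 := hx hxb
    by_contra hne
    rw [Pi.zero_apply, ENNReal.rpow_eq_zero_iff] at h5
    rcases h5 with ⟨-, h6⟩ | ⟨h6, -⟩
    · linarith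
    · exact hne h6
  refine ⟨(M : ℝ) + 2, ?_⟩
  have hall : ∀ᵐ x ∂(volume : Measure (Fin d → ℝ)), ∀ l : ℕ,
      (M : ℝ) + 1 < ‖TopologicalSpace.denseSeq (Fin d → ℝ) l‖ →
      x ∈ Metric.closedBall (TopologicalSpace.denseSeq (Fin d → ℝ) l) (1 / 4) → V x = ⊤ := by
    rw [ae_all_iff]
    intro l
    by_cases hl : (M : ℝ) + 1 < ‖TopologicalSpace.denseSeq (Fin d → ℝ) l‖
    · filter_upwards [hfar _ hl] with x hx _
      exact hx
    · exact Eventually.of_forall fun x h => absurd h hl
  filter_upwards [hall] with x hx hxR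
  obtain ⟨y, ⟨l, rfl⟩, hy⟩ := Metric.mem_closure_iff.1
    ((TopologicalSpace.denseRange_denseSeq (Fin d → ℝ)).closure_range ▸ Set.mem_univ x)
    (1 / 4) (by norm_num)
  refine hx l ?_ ?_
  · have h2 : ‖x‖ ≤ ‖TopologicalSpace.denseSeq (Fin d → ℝ) l‖
        + dist x (TopologicalSpace.denseSeq (Fin d → ℝ) l) := by
      rw [dist_eq_norm]
      have := norm_add_le (TopologicalSpace.denseSeq (Fin d → ℝ) l)
        (x - TopologicalSpace.denseSeq (Fin d → ℝ) l)
      simpa [add_comm] using this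
    linarith
  · rw [Metric.mem_closedBall]
    exact hy.le

end Pool.Agent.Work.MP_2cde6c_an
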