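import Pool.Agent.Work.MP_2cde6c_an.Main

set_option autoImplicit false

/-!
# Compactness on the whole space and structure of all optimal potentials
-/

open MeasureTheory Filter
open scoped ENNReal Topology ContDiff

namespace Pool.Agent.Work.MP_2cde6c_an

variable {d : ℕ}

theorem sq_setIntegral_le {f : (Fin d → ℝ) → ℝ} (hf : MemLp f 2 volume) {Q : Set (Fin d → ℝ)}
    (hQ : MeasurableSet Q) (hQf : volume Q ≠ ⊤) :
    ENNReal.ofReal ((∫ x in Q, f x) ^ 2) ≤ volume Q * ∫⁻ x in Q, ENNReal.ofReal (f x ^ 2) := by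
  have h1 := abs_setIntegral_le (f := Q.indicator f) (hf.indicator hQ) hQ hQf
  have e1 : ∫ x in Q, Q.indicator f x = ∫ x in Q, f x :=
    setIntegral_congr_fun hQ fun x hx => Set.indicator_of_mem hx f
  have e2 : nsq (Q.indicator f) = ∫⁻ x in Q, ENNReal.ofReal (f x ^ 2) := by
    rw [nsq, ← lintegral_indicator hQ]
    congr 1
    ext x
    by_cases hx : x ∈ Q
    · rw [Set.indicator_of_mem hx, Set.indicator_of_mem hx]
    · rw [Set.indicator_of_notMem hx, Set.indicator_of_notMem hx]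
      simp
  rw [e1] at h1
  have hn : nsq (Q.indicator f) ≠ ⊤ := nsq_ne_top (hf.indicator hQ)
  have h2 : (∫ x in Q, f x) ^ 2 ≤ (volume Q).toReal * (nsq (Q.indicator f)).toReal := by
    rw [← sq_abs]
    refine (pow_le_pow_left₀ (abs_nonneg _) h1 2).trans (le_of_eq ?_)
    rw [mul_pow, Real.sq_sqrt ENNReal.toReal_nonneg, Real.sq_sqrt ENNReal.toReal_nonneg]
  refine (ENNReal.ofReal_le_ofReal h2).trans (le_of_eq ?_)
  rw [ENNReal.ofReal_mul ENNReal.toReal_nonneg, ENNReal.ofReal_toReal hQf,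
    ENNReal.ofReal_toReal hn, e2]

/-- Compactness of tight sequences of weak pairs. -/
theorem rellich_tight {u : ℕ → (Fin d → ℝ) → ℝ}
    {g : ℕ → Fin d → (Fin d → ℝ) → ℝ} (h : ∀ n, WP (u n) (g n))
    (hT : ∀ δ : ℝ, 0 < δ → ∃ S : Set (Fin d → ℝ), Bornology.IsBounded S ∧ MeasurableSet S ∧
      ∀ n, ∫⁻ x in Sᶜ, ENNReal.ofReal (u n x ^ 2) ≤ ENNReal.ofReal δ) {K : ℝ≥0∞}
    (hK : K ≠ ⊤) (hu : ∀ n, nsq (u n) ≤ K) (hg : ∀ n, ∑ i, nsq (g n i) ≤ K) :
    ∃ φ : ℕ → ℕ, StrictMono φ ∧ ∃ v : (Fin d → ℝ) → ℝ, MemLp v 2 volume ∧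
      Tendsto (fun n => eLpNorm (fun x => u (φ n) x - v x) 2 volume) atTop (𝓝 0) := by
  classical
  set εs : ℕ → ℝ := fun m => 1 / ((m : ℝ) + 1) with hεs
  have hεpos : ∀ m, 0 < εs m := fun m => by rw [hεs]; positivity
  let T := ℕ × (Fin d → ℤ)
  let A : ℕ → T → ℝ := fun n t => ∫ x in cell (εs t.1) t.2, u n x
  let bd : T → ℝ := fun t => Real.sqrt ((volume (cell (εs t.1) t.2)).toReal)
    * Real.sqrt K.toReal
  have hAmem : ∀ n, A n ∈ Set.pi Set.univ (fun t => Set.Icc (-(bd t)) (bd t)) := by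
    intro n t _
    have := abs_setIntegral_le (h n).mu (measurableSet_cell (εs t.1) t.2)
      (by rw [volume_cell (hεpos _)]; exact ENNReal.ofReal_ne_top)
    rw [Set.mem_Icc, ← abs_le]
    refine this.trans ?_
    refine mul_le_mul_of_nonneg_left ?_ (Real.sqrt_nonneg _)
    exact Real.sqrt_le_sqrt (ENNReal.toReal_mono hK (hu n))
  have hcomp : IsCompact (Set.pi Set.univ (fun t : T => Set.Icc (-(bd t)) (bd t))) :=
    isCompact_univ_pi fun t => isCompact_Icc
  obtain ⟨Ai, -, φ, hφ, hlim⟩ := hcomp.tendsto_subseq hAmem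
  refine ⟨φ, hφ, ?_⟩
  have hlim' : ∀ t : T, Tendsto (fun n => A (φ n) t) atTop (𝓝 (Ai t)) := by
    rw [tendsto_pi_nhds] at hlim
    exact hlim
  have hcauchy : CauchySeq (fun n => ((h (φ n)).mu.toLp (u (φ n)))) := by
    rw [Metric.cauchySeq_iff]
    intro δ hδ
    set C : ℝ := 2 ^ d * d * (4 * K.toReal) with hC
    have hC0 : 0 ≤ C := by positivity
    obtain ⟨m, hm⟩ : ∃ m : ℕ, C * (εs m) ^ 2 < δ ^ 2 / 4 := by
      have : Tendsto (fun m : ℕ => C * (εs m) ^ 2) atTop (𝓝 (C * 0 ^ 2)) := by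
        refine (Tendsto.pow ?_ 2).const_mul C
        exact tendsto_one_div_add_atTop_nhds_zero_nat
      have h2 : C * 0 ^ 2 < δ ^ 2 / 4 := by simp; positivity
      exact (this.eventually (gt_mem_nhds h2)).exists
    set ε := εs m with hε_def
    have hε : 0 < ε := hεpos m
    obtain ⟨S, hS, hSm, hSδ⟩ := hT (δ ^ 2 / 16) (by positivity)
    set F := (finite_cells hε hS).toFinset with hF
    have hsum : Tendsto (fun p : ℕ × ℕ => ∑ z ∈ F, (A (φ p.1) (m, z) - A (φ p.2) (m, z)) ^ 2)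
        (atTop ×ˢ atTop) (𝓝 0) := by
      have : Tendsto (fun p : ℕ × ℕ => ∑ z ∈ F,
          (A (φ p.1) (m, z) - A (φ p.2) (m, z)) ^ 2)
          (atTop ×ˢ atTop) (𝓝 (∑ z ∈ F, (Ai (m, z) - Ai (m, z)) ^ 2)) := by
        refine tendsto_finsetSum _ fun z _ => ?_
        refine Tendsto.pow ?_ 2
        exact ((hlim' (m, z)).comp tendsto_fst).sub ((hlim' (m, z)).comp tendsto_snd)
      simpa using this
    have hev : ∀ᶠ p : ℕ × ℕ in atTop ×ˢ atTop,
        ∑ z ∈ F, (A (φ p.1) (m, z) - A (φ p.2) (m, z)) ^ 2 < ε ^ d * (δ ^ 2 / 4) :=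
      hsum.eventually (gt_mem_nhds (by positivity))
    rw [prod_atTop_atTop_eq, eventually_atTop] at hev
    obtain ⟨⟨N1, N2⟩, hN⟩ := hev
    refine ⟨max N1 N2, fun a ha b hb => ?_⟩
    have hab := hN (a, b) ⟨(le_max_left _ _).trans ha, (le_max_right _ _).trans hb⟩
    simp only at hab
    set v : (Fin d → ℝ) → ℝ := fun x => u (φ a) x - u (φ b) x with hv
    have hWP : WP v _ := (h (φ a)).sub (h (φ b))
    have hmain := cell_ineq hWP hε
    have hG : ∑ i, nsq (fun x => g (φ a) i x - g (φ b) i x) ≤ 4 * K := by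
      calc ∑ i, nsq (fun x => g (φ a) i x - g (φ b) i x)
          ≤ ∑ i, (2 * nsq (g (φ a) i) + 2 * nsq (g (φ b) i)) := by
            refine Finset.sum_le_sum fun i _ => ?_
            exact nsq_sub_le _ _ ((h (φ a)).mg i).1.aemeasurable
        _ = 2 * ∑ i, nsq (g (φ a) i) + 2 * ∑ i, nsq (g (φ b) i) := by
            rw [Finset.sum_add_distrib, ← Finset.mul_sum, ← Finset.mul_sum]
        _ ≤ 2 * K + 2 * K := by gcongr <;> exact hg _
        _ = 4 * K := by ring
    -- the tail contribution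
    have hvS : ∫⁻ x in Sᶜ, ENNReal.ofReal (v x ^ 2) ≤ ENNReal.ofReal (δ ^ 2 / 4) := by
      have h1 : ∀ x, ENNReal.ofReal (v x ^ 2) ≤ ENNReal.ofReal 2 * ENNReal.ofReal (u (φ a) x ^ 2)
          + ENNReal.ofReal 2 * ENNReal.ofReal (u (φ b) x ^ 2) := by
        intro x
        rw [← ENNReal.ofReal_mul (by norm_num), ← ENNReal.ofReal_mul (by norm_num),
          ← ENNReal.ofReal_add (by positivity) (by positivity)]
        apply ENNReal.ofReal_le_ofReal
        have : v x = u (φ a) x - u (φ b) x := rfl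
        rw [this]
        nlinarith [sq_nonneg (u (φ a) x + u (φ b) x)]
      calc ∫⁻ x in Sᶜ, ENNReal.ofReal (v x ^ 2)
          ≤ ∫⁻ x in Sᶜ, (ENNReal.ofReal 2 * ENNReal.ofReal (u (φ a) x ^ 2)
            + ENNReal.ofReal 2 * ENNReal.ofReal (u (φ b) x ^ 2)) := lintegral_mono h1
        _ = ENNReal.ofReal 2 * (∫⁻ x in Sᶜ, ENNReal.ofReal (u (φ a) x ^ 2))
            + ENNReal.ofReal 2 * ∫⁻ x in Sᶜ, ENNReal.ofReal (u (φ b) x ^ 2) := by
            rw [lintegral_add_left', lintegral_const_mul' _ _ ENNReal.ofReal_ne_top,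
              lintegral_const_mul' _ _ ENNReal.ofReal_ne_top]
            exact ((ENNReal.measurable_ofReal.comp_aemeasurable
              ((h (φ a)).mu.1.aemeasurable.pow_const 2)).const_mul _).restrict
        _ ≤ ENNReal.ofReal 2 * ENNReal.ofReal (δ ^ 2 / 16)
            + ENNReal.ofReal 2 * ENNReal.ofReal (δ ^ 2 / 16) := by
            gcongr <;> exact hSδ _
        _ = ENNReal.ofReal (δ ^ 2 / 4) := by
            rw [← ENNReal.ofReal_mul (by norm_num), ← ENNReal.ofReal_add (by positivity)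
              (by positivity)]
            congr 1
            ring
    have hcellsum : ∑' z : Fin d → ℤ, ENNReal.ofReal ((∫ x in cell ε z, v x) ^ 2)
        ≤ ENNReal.ofReal (∑ z ∈ F, (A (φ a) (m, z) - A (φ b) (m, z)) ^ 2)
          + ENNReal.ofReal (ε ^ d) * ENNReal.ofReal (δ ^ 2 / 4) := by
      have hpt : ∀ z : Fin d → ℤ, ENNReal.ofReal ((∫ x in cell ε z, v x) ^ 2)
          ≤ (if z ∈ F then ENNReal.ofReal ((∫ x in cell ε z, v x) ^ 2) else 0)
            + ENNReal.ofReal (ε ^ d) *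
              ∫⁻ x in cell ε z, Sᶜ.indicator (fun x => ENNReal.ofReal (v x ^ 2)) x := by
        intro z
        by_cases hz : z ∈ F
        · rw [if_pos hz]; exact le_self_add
        · rw [if_neg hz, zero_add]
          have hz' : ¬ (cell ε z ∩ S).Nonempty := by
            intro hc
            apply hz
            rw [hF]
            exact (Set.Finite.mem_toFinset _).2 hc
          have e1 : ∫⁻ x in cell ε z, Sᶜ.indicator (fun x => ENNReal.ofReal (v x ^ 2)) x
              = ∫⁻ x in cell ε z, ENNReal.ofReal (v x ^ 2) := by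
            apply setLIntegral_congr_fun (measurableSet_cell ε z)
            intro x hx
            have hxS : x ∈ Sᶜ := fun hc => hz' ⟨x, hx, hc⟩
            exact Set.indicator_of_mem hxS _
          rw [e1]
          have := sq_setIntegral_le hWP.mu (measurableSet_cell ε z)
            (by rw [volume_cell hε]; exact ENNReal.ofReal_ne_top)
          rwa [volume_cell hε] at this
      refine (ENNReal.tsum_le_tsum hpt).trans ?_
      rw [ENNReal.tsum_add, ENNReal.tsum_mul_left, ← lintegral_cells hε,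
        lintegral_indicator hSm.compl]
      refine add_le_add (le_of_eq ?_) (mul_le_mul_of_nonneg_left hvS (zero_le))
      rw [tsum_eq_sum (s := F) (fun z hz => if_neg hz),
        ENNReal.ofReal_sum_of_nonneg fun z _ => sq_nonneg _]
      refine Finset.sum_congr rfl fun z hz => ?_
      rw [if_pos hz]
      congr 2
      have hfin : IsFiniteMeasure (volume.restrict (cell ε z)) := ⟨by
        rw [Measure.restrict_apply_univ, volume_cell hε]; exact ENNReal.ofReal_lt_top⟩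
      have : ∫ x in cell ε z, v x = ∫ x in cell ε z, (u (φ a) x - u (φ b) x) := rfl
      rw [this, integral_sub]
      · exact ((h (φ a)).mu.restrict _).integrable (by norm_num)
      · exact ((h (φ b)).mu.restrict _).integrable (by norm_num)
    have hfin : nsq v < ENNReal.ofReal (δ ^ 2) := by
      have hpos : 0 < ε ^ d := by positivity
      have hKr : (4 * K) = ENNReal.ofReal (4 * K.toReal) := by
        rw [ENNReal.ofReal_mul (by norm_num), ENNReal.ofReal_toReal hK]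
        simp
      have h3 : ENNReal.ofReal (ε ^ d) * nsq v < ENNReal.ofReal (ε ^ d) * ENNReal.ofReal (δ ^ 2) := by
        refine lt_of_le_of_lt (hmain.trans (add_le_add le_rfl hcellsum)) ?_
        calc ENNReal.ofReal ((2 * ε) ^ d * (d * ε ^ 2))
              * ∑ i, nsq (fun x => g (φ a) i x - g (φ b) i x)
              + (ENNReal.ofReal (∑ z ∈ F, (A (φ a) (m, z) - A (φ b) (m, z)) ^ 2)
                + ENNReal.ofReal (ε ^ d) * ENNReal.ofReal (δ ^ 2 / 4))
            ≤ ENNReal.ofReal ((2 * ε) ^ d * (d * ε ^ 2)) * ENNReal.ofReal (4 * K.toReal)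
              + (ENNReal.ofReal (∑ z ∈ F, (A (φ a) (m, z) - A (φ b) (m, z)) ^ 2)
                + ENNReal.ofReal (ε ^ d) * ENNReal.ofReal (δ ^ 2 / 4)) := by
              rw [← hKr]
              gcongr
          _ = ENNReal.ofReal ((2 * ε) ^ d * (d * ε ^ 2) * (4 * K.toReal)
              + ((∑ z ∈ F, (A (φ a) (m, z) - A (φ b) (m, z)) ^ 2) + ε ^ d * (δ ^ 2 / 4))) := by
              have n1 : 0 ≤ ∑ z ∈ F, (A (φ a) (m, z) - A (φ b) (m, z)) ^ 2 :=
                Finset.sum_nonneg fun z _ => sq_nonneg _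
              rw [← ENNReal.ofReal_mul (by positivity), ← ENNReal.ofReal_mul (by positivity),
                ← ENNReal.ofReal_add n1 (by positivity),
                ← ENNReal.ofReal_add (by positivity) (by positivity)]
          _ < ENNReal.ofReal (ε ^ d) * ENNReal.ofReal (δ ^ 2) := by
              rw [← ENNReal.ofReal_mul hpos.le, ENNReal.ofReal_lt_ofReal_iff (by positivity)]
              have e1 : (2 * ε) ^ d * (d * ε ^ 2) * (4 * K.toReal) = ε ^ d * (C * ε ^ 2) := by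
                rw [hC, mul_pow]; ring
              rw [e1]
              have h5 : ε ^ d * (C * ε ^ 2) < ε ^ d * (δ ^ 2 / 4) :=
                mul_lt_mul_of_pos_left hm hpos
              have h6 : ε ^ d * δ ^ 2 = ε ^ d * (δ ^ 2 / 4) + ε ^ d * (δ ^ 2 / 4)
                + ε ^ d * (δ ^ 2 / 4) + ε ^ d * (δ ^ 2 / 4) := by ring
              have h7 : 0 < ε ^ d * (δ ^ 2 / 4) := by positivity
              rw [h6]
              linarith
      have h7 : ENNReal.ofReal (ε ^ d) ≠ 0 := by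
        rw [Ne, ENNReal.ofReal_eq_zero, not_le]; exact hpos
      exact (ENNReal.mul_lt_mul_iff_right h7 ENNReal.ofReal_ne_top).1 h3
    have hdist : dist ((h (φ a)).mu.toLp (u (φ a))) ((h (φ b)).mu.toLp (u (φ b)))
        = (eLpNorm v 2 volume).toReal := by
      rw [dist_eq_norm, ← MemLp.toLp_sub, Lp.norm_toLp]
      rfl
    rw [hdist]
    rw [nsq_eq] at hfin
    have hvn : eLpNorm v 2 volume ≠ ⊤ := hWP.mu.2.ne
    have h8 : (eLpNorm v 2 volume).toReal ^ 2 < δ ^ 2 := by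
      rw [← ENNReal.toReal_pow]
      exact (ENNReal.lt_ofReal_iff_toReal_lt (ENNReal.pow_ne_top hvn)).1 hfin
    exact lt_of_pow_lt_pow_left₀ 2 hδ.le h8
  obtain ⟨w, hw⟩ := cauchySeq_tendsto_of_complete hcauchy
  refine ⟨w, Lp.memLp w, ?_⟩
  have h9 := (Lp.tendsto_Lp_iff_tendsto_eLpNorm' _ _).1 hw
  refine h9.congr fun n => ?_
  apply eLpNorm_congr_ae
  filter_upwards [(h (φ n)).mu.coeFn_toLp] with x hx
  rw [Pi.sub_apply, hx]

/-- tails of an integrable weight -/
theorem tail_weight {p : ℝ} {V : (Fin d → ℝ) → ℝ≥0∞}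
    (hVp : ∫⁻ x, V x ^ (-p) ≤ 1) {δ : ℝ} (hδ : 0 < δ) :
    ∃ n : ℕ, ∫⁻ x in (Metric.closedBall (0 : Fin d → ℝ) n)ᶜ, V x ^ (-p) ≤ ENNReal.ofReal δ := by
  set μ : Measure (Fin d → ℝ) := volume.withDensity (fun x => V x ^ (-p)) with hμ
  have hμfin : μ Set.univ ≠ ⊤ := by
    rw [hμ, withDensity_apply _ MeasurableSet.univ, setLIntegral_univ]
    exact (hVp.trans_lt ENNReal.one_lt_top).ne
  have h1 := tendsto_measure_iInter_atTop (μ := μ)
    (s := fun n : ℕ => (Metric.closedBall (0 : Fin d → ℝ) n)ᶜ)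
    (fun n => measurableSet_closedBall.compl.nullMeasurableSet)
    (fun n m hnm => Set.compl_subset_compl.2
      (Metric.closedBall_subset_closedBall (by exact_mod_cast hnm)))
    ⟨0, (measure_lt_top_of_subset (Set.subset_univ _) hμfin).ne⟩
  have h2 : (⋂ n : ℕ, (Metric.closedBall (0 : Fin d → ℝ) n)ᶜ) = ∅ := by
    rw [← Set.compl_iUnion, Metric.iUnion_closedBall_nat, Set.compl_univ]
  rw [h2, measure_empty] at h1
  have h3 := h1.eventually (gt_mem_nhds (show (0 : ℝ≥0∞) < ENNReal.ofReal δ by simpa using hδ))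
  obtain ⟨n, hn⟩ := h3.exists
  refine ⟨n, ?_⟩
  simp only [Function.comp] at hn
  rw [hμ, withDensity_apply _ measurableSet_closedBall.compl] at hn
  exact hn.le

/-- tightness of bounded subsets of the form domain -/
theorem dom_tight {p : ℝ} (hp : 0 < p) (hp1 : p ≤ 1) {V : (Fin d → ℝ) → ℝ≥0∞} (hV : Measurable V)
    (hVp : ∫⁻ x, V x ^ (-p) ≤ 1) {C : ℝ} (hC : 0 ≤ C) {δ : ℝ} (hδ : 0 < δ) :
    ∃ S : Set (Fin d → ℝ), Bornology.IsBounded S ∧ MeasurableSet S ∧
      ∀ (u : (Fin d → ℝ) → ℝ) (g : Fin d → (Fin d → ℝ) → ℝ), Dom V u g →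
        ∫ x, u x ^ 2 ≤ C → (∑ i, ∫ x, g i x ^ 2) ≤ C → ∫ x, (sV V x * u x) ^ 2 ≤ C →
        ∫⁻ x in Sᶜ, ENNReal.ofReal (u x ^ 2) ≤ ENNReal.ofReal δ := by
  obtain ⟨B, hB, hcut⟩ := exists_cutoff d
  set C2 : ℝ := 2 * C + 2 * (d * B ^ 2 * C) with hC2
  have hC20 : 0 ≤ C2 := by positivity
  -- choose ε
  set D : ℝ := 2 ^ d * d * C2 * 2 / δ + 1 with hD
  have hD0 : 0 < D := by positivity
  set ε : ℝ := Real.sqrt (1 / D) with hε
  have hε0 : 0 < ε := Real.sqrt_pos.2 (by positivity)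
  have hε2 : ε ^ 2 = 1 / D := Real.sq_sqrt (by positivity)
  have hεd : 0 < ε ^ d := by positivity
  have hsmall : 2 ^ d * (d * ε ^ 2) * C2 ≤ δ / 2 := by
    rw [hε2]
    have : 2 ^ d * (d * (1 / D)) * C2 = (2 ^ d * d * C2) / D := by ring
    rw [this, div_le_iff₀ hD0, hD]
    have : δ / 2 * (2 ^ d * d * C2 * 2 / δ + 1) = 2 ^ d * d * C2 + δ / 2 := by
      field_simp
    rw [this]
    linarith
  -- choose the radius
  set m : ℝ := ε ^ d * (δ / 2) / (C + 1) with hm
  have hm0 : 0 < m := by positivity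
  obtain ⟨n, hn⟩ := tail_weight hVp hm0
  refine ⟨Metric.closedBall 0 ((n : ℝ) + 1), Metric.isBounded_closedBall,
    measurableSet_closedBall, ?_⟩
  intro u g hd hX hG hW
  obtain ⟨η, hη, hη0, hη1, hηin, hηout, hηd⟩ := hcut 0 (n : ℝ) 1 (Nat.cast_nonneg n) one_pos
  set χ : (Fin d → ℝ) → ℝ := fun x => 1 - η x with hχdef
  have hχ : ContDiff ℝ ((⊤ : ℕ∞) : WithTop ℕ∞) χ := contDiff_const.sub hη
  have hχ0 : ∀ x, 0 ≤ χ x := fun x => by rw [hχdef]; simp only; linarith [hη1 x]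
  have hχ1 : ∀ x, χ x ≤ 1 := fun x => by rw [hχdef]; simp only; linarith [hη0 x]
  have hχabs : ∀ x, |χ x| ≤ 1 := fun x => by rw [abs_of_nonneg (hχ0 x)]; exact hχ1 x
  have hχB : ∀ i x, |fderiv ℝ χ x (Pi.single i (1 : ℝ))| ≤ B := fun i x => by
    rw [hχdef, pd_one_sub, abs_neg]
    simpa using hηd i x
  have hcutd := hd.cut (V' := V) hχ hχabs hχB one_pos (fun x _ => by simp)
  have hout : ∀ x, x ∉ (Metric.closedBall (0 : Fin d → ℝ) n)ᶜ → χ x * u x = 0 := by
    intro x hx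
    rw [Set.mem_compl_iff, not_not] at hx
    have : χ x = 0 := by rw [hχdef]; simp only; rw [hηin x (Metric.mem_closedBall.1 hx), sub_self]
    rw [this, zero_mul]
  have hχ2 : ∀ x, χ x ^ 2 ≤ 1 := fun x => by
    have := hχ0 x
    have := hχ1 x
    nlinarith
  have hX' : ∫ x, (χ x * u x) ^ 2 ≤ C := by
    refine le_trans (integral_mono hcutd.wp.mu.integrable_sq hd.wp.mu.integrable_sq fun x => ?_) hX
    simp only
    rw [mul_pow]
    exact mul_le_of_le_one_left (sq_nonneg _) (hχ2 x)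
  have hW' : ∫ x, (sV V x * (χ x * u x)) ^ 2 ≤ C := by
    refine le_trans (integral_mono hcutd.mw.integrable_sq hd.mw.integrable_sq fun x => ?_) hW
    simp only
    have : (sV V x * (χ x * u x)) ^ 2 = χ x ^ 2 * (sV V x * u x) ^ 2 := by ring
    rw [this]
    exact mul_le_of_le_one_left (sq_nonneg _) (hχ2 x)
  have hG' : (∑ i, ∫ x, (χ x * g i x + u x * fderiv ℝ χ x (Pi.single i (1 : ℝ))) ^ 2) ≤ C2 := by
    have h1 : ∀ i, ∫ x, (χ x * g i x + u x * fderiv ℝ χ x (Pi.single i (1 : ℝ))) ^ 2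
        ≤ 2 * (∫ x, g i x ^ 2) + 2 * (B ^ 2 * C) := by
      intro i
      have h2 : ∫ x, (χ x * g i x + u x * fderiv ℝ χ x (Pi.single i (1 : ℝ))) ^ 2
          ≤ ∫ x, (2 * g i x ^ 2 + 2 * (B ^ 2 * u x ^ 2)) := by
        refine integral_mono (hcutd.wp.mg i).integrable_sq
          (((hd.wp.mg i).integrable_sq.const_mul _).add
            ((hd.wp.mu.integrable_sq.const_mul _).const_mul _)) fun x => ?_
        simp only
        set a := χ x * g i x
        set b := u x * fderiv ℝ χ x (Pi.single i (1 : ℝ))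
        have h3 : a ^ 2 ≤ g i x ^ 2 := by
          have : a ^ 2 = χ x ^ 2 * g i x ^ 2 := by simp only [a]; ring
          rw [this]
          exact mul_le_of_le_one_left (sq_nonneg _) (hχ2 x)
        have h4 : b ^ 2 ≤ B ^ 2 * u x ^ 2 := by
          have : b ^ 2 = |fderiv ℝ χ x (Pi.single i (1 : ℝ))| ^ 2 * u x ^ 2 := by
            simp only [b]; rw [sq_abs]; ring
          rw [this]
          exact mul_le_mul_of_nonneg_right (pow_le_pow_left₀ (abs_nonneg _) (hχB i x) 2)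
            (sq_nonneg _)
        nlinarith [sq_nonneg (a - b)]
      rw [integral_add ((hd.wp.mg i).integrable_sq.const_mul _)
        ((hd.wp.mu.integrable_sq.const_mul _).const_mul _), integral_const_mul,
        integral_const_mul, integral_const_mul] at h2
      have h5 : B ^ 2 * ∫ x, u x ^ 2 ≤ B ^ 2 * C := mul_le_mul_of_nonneg_left hX (sq_nonneg _)
      linarith
    refine (Finset.sum_le_sum fun i _ => h1 i).trans ?_
    rw [Finset.sum_add_distrib, ← Finset.mul_sum]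
    simp only [Finset.sum_const, Finset.card_univ, Fintype.card_fin, nsmul_eq_mul]
    rw [hC2]
    have : (d : ℝ) * (2 * (B ^ 2 * C)) = 2 * (d * B ^ 2 * C) := by ring
    rw [this]
    linarith
  have hN := nashV hp hp1 hV hcutd (A := (Metric.closedBall (0 : Fin d → ℝ) n)ᶜ)
    measurableSet_closedBall.compl (Eventually.of_forall hout) hm0.le hn hε0
  set X := ∫ x, (χ x * u x) ^ 2 with hXdef
  have hX0 : 0 ≤ X := integral_nonneg fun x => sq_nonneg _
  set Wv := ∫ x, (sV V x * (χ x * u x)) ^ 2 with hWdef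
  have hW0 : 0 ≤ Wv := integral_nonneg fun x => sq_nonneg _
  have h1 : Wv ^ p * m * X ^ (1 - p) ≤ C * m := by
    have h2 : Wv ^ p ≤ C ^ p := Real.rpow_le_rpow hW0 hW' hp.le
    have h3 : X ^ (1 - p) ≤ C ^ (1 - p) := Real.rpow_le_rpow hX0 hX' (by linarith)
    have h4 : C ^ p * C ^ (1 - p) = C := by
      rcases eq_or_lt_of_le hC with h0 | h0
      · rw [← h0, Real.zero_rpow hp.ne', zero_mul]
      · rw [← Real.rpow_add h0]; simp
    calc Wv ^ p * m * X ^ (1 - p) ≤ C ^ p * m * C ^ (1 - p) := by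
          refine mul_le_mul (mul_le_mul_of_nonneg_right h2 hm0.le) h3
            (Real.rpow_nonneg hX0 _) (by positivity)
      _ = C ^ p * C ^ (1 - p) * m := by ring
      _ = C * m := by rw [h4]
  have h2 : C * m ≤ ε ^ d * (δ / 2) := by
    rw [hm]
    have : C * (ε ^ d * (δ / 2) / (C + 1)) = ε ^ d * (δ / 2) * (C / (C + 1)) := by ring
    rw [this]
    refine mul_le_of_le_one_right (by positivity) ?_
    rw [div_le_one (by linarith)]
    linarith
  have h3 : (2 * ε) ^ d * (d * ε ^ 2)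
      * (∑ i, ∫ x, (χ x * g i x + u x * fderiv ℝ χ x (Pi.single i (1 : ℝ))) ^ 2)
      ≤ ε ^ d * (δ / 2) := by
    calc _ ≤ (2 * ε) ^ d * (d * ε ^ 2) * C2 := mul_le_mul_of_nonneg_left hG' (by positivity)
      _ = ε ^ d * (2 ^ d * (d * ε ^ 2) * C2) := by rw [mul_pow]; ring
      _ ≤ ε ^ d * (δ / 2) := mul_le_mul_of_nonneg_left hsmall hεd.le
  have h4 : X ≤ δ := by
    have h5 : ε ^ d * X ≤ ε ^ d * δ := by
      have : ε ^ d * δ = ε ^ d * (δ / 2) + ε ^ d * (δ / 2) := by ring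
      rw [this]
      linarith
    exact le_of_mul_le_mul_left h5 hεd
  calc ∫⁻ x in (Metric.closedBall (0 : Fin d → ℝ) ((n : ℝ) + 1))ᶜ, ENNReal.ofReal (u x ^ 2)
      = ∫⁻ x in (Metric.closedBall (0 : Fin d → ℝ) ((n : ℝ) + 1))ᶜ,
          ENNReal.ofReal ((χ x * u x) ^ 2) := by
        apply setLIntegral_congr_fun measurableSet_closedBall.compl
        intro x hx
        have : χ x = 1 := by
          rw [hχdef]
          simp only
          rw [hηout x, sub_zero]
          rw [Set.mem_compl_iff, Metric.mem_closedBall, not_le] at hx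
          exact hx.le
        simp only [this, one_mul]
    _ ≤ nsq (fun x => χ x * u x) := setLIntegral_le_lintegral _ _
    _ = ENNReal.ofReal X := nsq_ofReal hcutd.wp.mu
    _ ≤ ENNReal.ofReal δ := ENNReal.ofReal_le_ofReal h4

/-- The form domain embeds compactly for every admissible potential. -/
theorem compact_full {p : ℝ} (hp : 0 < p) (hp1 : p ≤ 1) {V : (Fin d → ℝ) → ℝ≥0∞}
    (hV : Measurable V) (hVp : ∫⁻ x, V x ^ (-p) ≤ 1) (X : ℕ → HS d)
    (hX : ∀ n, X n ∈ MV V) (hb : ∃ C : ℝ, ∀ n, ‖X n‖ ≤ C) :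
    ∃ φ : ℕ → ℕ, StrictMono φ ∧ ∃ z, Tendsto (fun n => Lproj d (X (φ n))) atTop (𝓝 z) := by
  obtain ⟨C, hC⟩ := hb
  have hnorm : ∀ n, ∑ i, ‖X n i‖ ^ 2 ≤ C ^ 2 := by
    intro n
    rw [← PiLp.norm_sq_eq_of_L2]
    exact pow_le_pow_left₀ (norm_nonneg _) (hC n) 2
  have hn : ∀ n, ∑ i, nsq (X n i) ≤ ENNReal.ofReal (C ^ 2) := by
    intro n
    have h1 : ∑ i, nsq (X n i) = ENNReal.ofReal (∑ i, ‖X n i‖ ^ 2) := by
      rw [ENNReal.ofReal_sum_of_nonneg fun i _ => sq_nonneg _]
      exact Finset.sum_congr rfl fun i _ => (Lp_nsq _).symm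
    rw [h1]
    exact ENNReal.ofReal_le_ofReal (hnorm n)
  have hterm : ∀ n i, ‖X n i‖ ^ 2 ≤ C ^ 2 := fun n i =>
    (Finset.single_le_sum (f := fun i => ‖X n i‖ ^ 2) (fun i _ => sq_nonneg _)
      (Finset.mem_univ i)).trans (hnorm n)
  obtain ⟨φ, hφ, v, hv, hlim⟩ := rellich_tight
    (u := fun n => X n (Sum.inl 0)) (g := fun n i => X n (Sum.inr i))
    (fun n => ((mem_MV V _).1 (hX n)).1.wp)
    (fun δ hδ => by
      obtain ⟨S, h1, h2, h3⟩ := dom_tight hp hp1 hV hVp (C := C ^ 2) (sq_nonneg _) hδ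
      refine ⟨S, h1, h2, fun n => ?_⟩
      have hm := (mem_MV V _).1 (hX n)
      refine h3 _ _ hm.1 ?_ ?_ ?_
      · rw [← Lp_norm_sq]; exact hterm n _
      · have h4 : ∀ i, ∫ x, X n (Sum.inr i) x ^ 2 = ‖X n (Sum.inr i)‖ ^ 2 := fun i =>
          (Lp_norm_sq _).symm
        simp only [h4]
        refine le_trans ?_ (hnorm n)
        rw [Fintype.sum_sum_type]
        exact le_add_of_nonneg_left (Finset.sum_nonneg fun i _ => sq_nonneg _)
      · have h4 : ∫ x, (sV V x * X n (Sum.inl 0) x) ^ 2 = ‖X n (Sum.inl 1)‖ ^ 2 := by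
          rw [Lp_norm_sq]
          apply integral_congr_ae
          filter_upwards [hm.2] with x hx
          rw [hx]
        rw [h4]
        exact hterm n _)
    (K := ENNReal.ofReal (C ^ 2)) ENNReal.ofReal_ne_top
    (fun n => by
      refine le_trans ?_ (hn n)
      exact Finset.single_le_sum (f := fun i => nsq (X n i)) (fun i _ => zero_le)
        (Finset.mem_univ (Sum.inl 0)))
    (fun n => by
      refine le_trans ?_ (hn n)
      rw [Fintype.sum_sum_type]
      exact le_add_self)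
  refine ⟨φ, hφ, hv.toLp _, ?_⟩
  rw [Lp.tendsto_Lp_iff_tendsto_eLpNorm']
  refine hlim.congr fun n => ?_
  apply eLpNorm_congr_ae
  filter_upwards [hv.coeFn_toLp] with x hx
  rw [Pi.sub_apply, hx]
  rfl

end Pool.Agent.Work.MP_2cde6c_an
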