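import Pool.Agent.Work.MP_2cde6c_an.Defs

set_option autoImplicit false

/-!
# The translation estimate `‖u(· + a) - u‖₂ ≤ |a| ‖∇u‖₂`
-/

open MeasureTheory Filter
open scoped ENNReal Topology ContDiff

namespace Pool.Agent.Work.MP_2cde6c_an

variable {d : ℕ}

theorem cs_integral {f g : (Fin d → ℝ) → ℝ} (hf : MemLp f 2 volume) (hg : MemLp g 2 volume) :
    |∫ x, f x * g x| ≤ Real.sqrt (∫ x, f x ^ 2) * Real.sqrt (∫ x, g x ^ 2) := by
  have e : ∀ (f g : (Fin d → ℝ) → ℝ) (hf : MemLp f 2 volume) (hg : MemLp g 2 volume),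
      (∫ x, f x * g x) = inner ℝ (hf.toLp f) (hg.toLp g) := by
    intro f g hf hg
    rw [MeasureTheory.L2.inner_def]
    apply integral_congr_ae
    filter_upwards [hf.coeFn_toLp, hg.coeFn_toLp] with x hx hx'
    rw [hx, hx']
    simp [mul_comm]
  have n : ∀ (f : (Fin d → ℝ) → ℝ) (hf : MemLp f 2 volume),
      Real.sqrt (∫ x, f x ^ 2) = ‖hf.toLp f‖ := by
    intro f hf
    have : (∫ x, f x ^ 2) = ‖hf.toLp f‖ ^ 2 := by
      rw [← real_inner_self_eq_norm_sq, ← e f f hf hf]
      simp only [sq]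
    rw [this, Real.sqrt_sq (norm_nonneg _)]
  rw [e f g hf hg, n f hf, n g hg]
  exact abs_real_inner_le_norm _ _

/-- A function in `L²` whose pairing with test functions is bounded is bounded in `L²`. -/
theorem dual_bound {f : (Fin d → ℝ) → ℝ} (hf : MemLp f 2 volume) {K : ℝ} (_hK : 0 ≤ K)
    (h : ∀ φ, TF φ → |∫ x, f x * φ x| ≤ K * Real.sqrt (∫ x, φ x ^ 2)) :
    ∫ x, f x ^ 2 ≤ K ^ 2 := by
  have e : ∀ (f g : (Fin d → ℝ) → ℝ) (hf : MemLp f 2 volume) (hg : MemLp g 2 volume),
      (∫ x, f x * g x) = inner ℝ (hf.toLp f) (hg.toLp g) := by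
    intro f g hf hg
    rw [MeasureTheory.L2.inner_def]
    apply integral_congr_ae
    filter_upwards [hf.coeFn_toLp, hg.coeFn_toLp] with x hx hx'
    rw [hx, hx']
    simp [mul_comm]
  have n' : ∀ (f : (Fin d → ℝ) → ℝ) (hf : MemLp f 2 volume),
      (∫ x, f x ^ 2) = ‖hf.toLp f‖ ^ 2 := by
    intro f hf
    rw [← real_inner_self_eq_norm_sq, ← e f f hf hf]
    simp only [sq]
  let D : Submodule ℝ (Lp ℝ 2 (volume : Measure (Fin d → ℝ))) :=
    { carrier := {F | ∃ φ : (Fin d → ℝ) → ℝ, TF φ ∧ (F : (Fin d → ℝ) → ℝ) =ᵐ[volume] φ}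
      add_mem' := by
        rintro a b ⟨φ, hφ, ha⟩ ⟨ψ, hψ, hb⟩
        refine ⟨fun x => φ x + ψ x, hφ.add hψ, ?_⟩
        filter_upwards [Lp.coeFn_add a b, ha, hb] with x h1 h2 h3
        rw [h1, Pi.add_apply, h2, h3]
      zero_mem' := by
        refine ⟨fun _ => 0, ⟨contDiff_const, HasCompactSupport.zero⟩, ?_⟩
        filter_upwards [Lp.coeFn_zero ℝ 2 (volume : Measure (Fin d → ℝ))] with x h1
        rw [h1]; rfl
      smul_mem' := by
        rintro c a ⟨φ, hφ, ha⟩
        refine ⟨fun x => c * φ x, ⟨contDiff_const.mul hφ.1, hφ.2.mul_left⟩, ?_⟩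
        filter_upwards [Lp.coeFn_smul c a, ha] with x h1 h2
        rw [h1, Pi.smul_apply, h2, smul_eq_mul] }
  have hD : D.topologicalClosure = ⊤ := by
    rw [Submodule.topologicalClosure_eq_top_iff, eq_bot_iff]
    intro g hg
    rw [Submodule.mem_orthogonal'] at hg
    rw [Submodule.mem_bot]
    have hgm : MemLp (g : (Fin d → ℝ) → ℝ) 2 volume := Lp.memLp g
    have : ∀ᵐ x ∂(volume : Measure (Fin d → ℝ)), g x = 0 := by
      refine ae_eq_zero_of_integral_contDiff_smul_eq_zero
        (hgm.locallyIntegrable (by norm_num)) ?_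
      intro φ hφ hφc
      have hT : TF φ := ⟨hφ, hφc⟩
      have h1 := hg ((hT.memLp 2).toLp φ) ⟨φ, hT, (hT.memLp 2).coeFn_toLp⟩
      have h2 := e _ _ hgm (hT.memLp 2)
      rw [Lp.toLp_coeFn, h1] at h2
      rw [← h2]
      congr 1
      ext x
      rw [smul_eq_mul, mul_comm]
    exact (Lp.eq_zero_iff_ae_eq_zero).2 this
  have hcl : (hf.toLp f) ∈ closure (D : Set (Lp ℝ 2 (volume : Measure (Fin d → ℝ)))) := by
    have : hf.toLp f ∈ D.topologicalClosure := by rw [hD]; trivial
    exact this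
  have hclosed : IsClosed {F : Lp ℝ 2 (volume : Measure (Fin d → ℝ)) |
      |inner ℝ (hf.toLp f) F| ≤ K * ‖F‖} := by
    apply isClosed_le
    · exact (continuous_const.inner continuous_id).abs
    · exact continuous_const.mul continuous_norm
  have hsub : (D : Set (Lp ℝ 2 (volume : Measure (Fin d → ℝ)))) ⊆
      {F : Lp ℝ 2 (volume : Measure (Fin d → ℝ)) | |inner ℝ (hf.toLp f) F| ≤ K * ‖F‖} := by
    rintro F ⟨φ, hφ, hF⟩
    have hF' : F = (hφ.memLp 2).toLp φ := by
      apply Lp.ext
      exact hF.trans (hφ.memLp 2).coeFn_toLp.symm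
    have := h φ hφ
    rw [e _ _ hf (hφ.memLp 2), n' _ (hφ.memLp 2), Real.sqrt_sq (norm_nonneg _), ← hF'] at this
    exact this
  have := closure_minimal hsub hclosed hcl
  simp only [Set.mem_ofPred_eq, real_inner_self_eq_norm_sq] at this
  rw [n' f hf]
  rw [abs_of_nonneg (sq_nonneg _)] at this
  rcases eq_or_lt_of_le (norm_nonneg (hf.toLp f)) with h0 | h0
  · rw [← h0]; nlinarith [sq_nonneg K]
  · have h1 : ‖hf.toLp f‖ ≤ K := by
      have : ‖hf.toLp f‖ * ‖hf.toLp f‖ ≤ K * ‖hf.toLp f‖ := by rw [← sq]; exact this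
      exact le_of_mul_le_mul_right this h0
    exact pow_le_pow_left₀ (norm_nonneg _) h1 2

theorem TF.exists_bound {φ : (Fin d → ℝ) → ℝ} (h : TF φ) :
    ∃ R : ℝ, 0 ≤ R ∧ ∀ x, R < ‖x‖ → φ x = 0 ∧ fderiv ℝ φ x = 0 := by
  obtain ⟨R, hR⟩ := h.2.isCompact.isBounded.subset_closedBall 0
  refine ⟨max R 0, le_max_right _ _, fun x hx => ?_⟩
  have hx' : x ∉ tsupport φ := by
    intro hc
    have := hR hc
    rw [mem_closedBall_zero_iff] at this
    exact absurd (lt_of_le_of_lt (le_max_left R 0) hx) (not_lt.2 this)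
  refine ⟨image_eq_zero_of_notMem_tsupport hx', ?_⟩
  by_contra hne
  exact hx' (tsupport_fderiv_subset ℝ (subset_tsupport _ hne))

theorem WP.hasDerivAt_pair {u : (Fin d → ℝ) → ℝ} {g : Fin d → (Fin d → ℝ) → ℝ} (h : WP u g)
    {φ : (Fin d → ℝ) → ℝ} (hφ : TF φ) (a : Fin d → ℝ) (t : ℝ) :
    HasDerivAt (fun t : ℝ => ∫ x, u x * φ (x - t • a))
      (∑ i, a i * ∫ x, g i x * φ (x - t • a)) t := by
  obtain ⟨R, hR0, hR⟩ := hφ.exists_bound
  have hc : Continuous (fun x => fderiv ℝ φ x a) := hφ.fderiv_continuous a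
  obtain ⟨C, hC⟩ := hc.bounded_above_of_compact_support (hφ.fderiv_hasCompactSupport a)
  have hC0 : 0 ≤ C := (norm_nonneg _).trans (hC 0)
  set R' : ℝ := R + (|t| + 1) * ‖a‖ with hR'
  have hbound_int : Integrable (fun x => |u x| *
      (Set.indicator (Metric.closedBall (0 : Fin d → ℝ) R') (fun _ => C) x)) volume := by
    apply integrable_mul h.mu.abs
    exact memLp_indicator_const 2 measurableSet_closedBall C
      (Or.inr (Metric.isBounded_closedBall.measure_lt_top.ne))
  have key := hasDerivAt_integral_of_dominated_loc_of_deriv_le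
    (F := fun (t : ℝ) x => u x * φ (x - t • a))
    (F' := fun (t : ℝ) x => u x * (fderiv ℝ φ (x - t • a) (-a))) (x₀ := t)
    (s := Metric.ball t 1) (μ := (volume : Measure (Fin d → ℝ)))
    (bound := fun x => |u x| *
      (Set.indicator (Metric.closedBall (0 : Fin d → ℝ) R') (fun _ => C) x))
    (Metric.ball_mem_nhds t one_pos) ?_ ?_ ?_ ?_ hbound_int ?_
  · have e := key.2
    have e2 : (∫ x, u x * (fderiv ℝ φ (x - t • a) (-a)))
        = ∑ i, a i * ∫ x, g i x * φ (x - t • a) := by
      have hT := hφ.comp_sub (t • a)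
      have hw : ∀ i, ∫ x, g i x * φ (x - t • a)
          = - ∫ x, u x * fderiv ℝ φ (x - t • a) (Pi.single i (1 : ℝ)) := by
        intro i
        have := h.wk i _ hT
        simp only [fderiv_comp_sub'] at this
        rw [this, neg_neg]
      have hexp : ∀ x, u x * (fderiv ℝ φ (x - t • a) (-a))
          = ∑ i, (- a i) * (u x * fderiv ℝ φ (x - t • a) (Pi.single i (1 : ℝ))) := by
        intro x
        have ha : a = ∑ i, a i • (Pi.single i (1 : ℝ) : Fin d → ℝ) := by
          ext j
          simp [Finset.sum_apply, Pi.single_apply]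
        rw [map_neg]
        conv_lhs => rw [ha]
        rw [map_sum, mul_neg, Finset.mul_sum, ← Finset.sum_neg_distrib]
        have : ∀ y : Fin d → ℝ, fderiv ℝ φ (x - t • ∑ i, a i • (Pi.single i (1 : ℝ) : Fin d → ℝ)) y
            = fderiv ℝ φ (x - t • a) y := by
          intro y; rw [← ha]
        refine Finset.sum_congr rfl fun i _ => ?_
        rw [this, map_smul, smul_eq_mul]
        ring
      simp_rw [hexp]
      rw [integral_finsetSum]
      · refine Finset.sum_congr rfl fun i _ => ?_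
        rw [integral_const_mul, hw i]
        ring
      · intro i _
        have := integrable_mul h.mu (hT.memLp_fderiv (Pi.single i (1 : ℝ)) 2)
        simp only [fderiv_comp_sub'] at this
        exact this.const_mul _
    rw [e2] at e
    exact e
  · filter_upwards with s
    exact h.mu.1.mul (hφ.comp_sub (s • a)).1.continuous.aestronglyMeasurable
  · exact integrable_mul h.mu ((hφ.comp_sub (t • a)).memLp 2)
  · refine h.mu.1.mul ?_
    have := hφ.fderiv_continuous (-a)
    exact (this.comp (continuous_id.sub continuous_const)).aestronglyMeasurable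
  · filter_upwards with x s hs
    rw [norm_mul, Real.norm_eq_abs]
    refine mul_le_mul_of_nonneg_left ?_ (abs_nonneg _)
    rw [map_neg, norm_neg]
    by_cases hx : x ∈ Metric.closedBall (0 : Fin d → ℝ) R'
    · rw [Set.indicator_of_mem hx]
      exact hC _
    · rw [Set.indicator_of_notMem hx]
      have hs' : |s| < |t| + 1 := by
        rw [Metric.mem_ball, Real.dist_eq] at hs
        have := abs_sub_abs_le_abs_sub s t
        linarith
      have hx' : R < ‖x - s • a‖ := by
        rw [mem_closedBall_zero_iff, not_le] at hx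
        have h1 : ‖x‖ ≤ ‖x - s • a‖ + ‖s • a‖ := by
          have := norm_add_le (x - s • a) (s • a)
          simpa using this
        rw [norm_smul, Real.norm_eq_abs] at h1
        have h2 : |s| * ‖a‖ ≤ (|t| + 1) * ‖a‖ :=
          mul_le_mul_of_nonneg_right hs'.le (norm_nonneg _)
        linarith
      rw [(hR _ hx').2]
      simp
  · filter_upwards with x s _
    have h1 : HasFDerivAt φ (fderiv ℝ φ (x - s • a)) (x - s • a) :=
      (hφ.1.differentiable (by simp)).differentiableAt.hasFDerivAt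
    have h2 : HasDerivAt (fun s : ℝ => x - s • a) (-a) s := by
      have := ((hasDerivAt_id s).smul_const a).const_sub x
      simpa using this
    exact (h1.comp_hasDerivAt s h2).const_mul (u x)

/-- translation estimate -/
theorem WP.translation {u : (Fin d → ℝ) → ℝ} {g : Fin d → (Fin d → ℝ) → ℝ} (h : WP u g)
    (a : Fin d → ℝ) :
    nsq (fun x => u (x + a) - u x) ≤ ENNReal.ofReal (∑ i, a i ^ 2) * ∑ i, nsq (g i) := by
  have mp : MeasurePreserving (fun x : Fin d → ℝ => x + a) volume volume :=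
    measurePreserving_add_right volume a
  have hua : MemLp (fun x => u (x + a)) 2 volume := h.mu.comp_measurePreserving mp
  have hd : MemLp (fun x => u (x + a) - u x) 2 volume := hua.sub h.mu
  set K : ℝ := Real.sqrt (∑ i, a i ^ 2) * Real.sqrt (∑ i, ∫ x, g i x ^ 2) with hK
  have hK0 : 0 ≤ K := by positivity
  have hmain : ∫ x, (u (x + a) - u x) ^ 2 ≤ K ^ 2 := by
    refine dual_bound hd hK0 ?_
    intro φ hφ
    have h1 := norm_image_sub_le_of_norm_deriv_le_segment_01'
      (f := fun t : ℝ => ∫ x, u x * φ (x - t • a))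
      (f' := fun t => ∑ i, a i * ∫ x, g i x * φ (x - t • a))
      (C := K * Real.sqrt (∫ x, φ x ^ 2))
      (fun t _ => (h.hasDerivAt_pair hφ a t).hasDerivWithinAt) ?_
    · simp only [one_smul, zero_smul, sub_zero] at h1
      rw [Real.norm_eq_abs] at h1
      have e1 := integral_add_right_eq_self (μ := volume)
        (fun x : Fin d → ℝ => u x * φ (x - a)) a
      simp only [add_sub_cancel_right] at e1
      have e2 : ∫ x, (u (x + a) - u x) * φ x
          = (∫ x, u (x + a) * φ x) - ∫ x, u x * φ x := by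
        rw [← integral_sub (integrable_mul hua (hφ.memLp 2)) (integrable_mul h.mu (hφ.memLp 2))]
        congr 1
        ext x
        ring
      rw [e2, e1]
      exact h1
    · intro t _
      rw [Real.norm_eq_abs]
      have hT := hφ.comp_sub (t • a)
      have hφt : ∫ x, φ (x - t • a) ^ 2 = ∫ x, φ x ^ 2 :=
        integral_sub_right_eq_self (fun x => φ x ^ 2) (t • a)
      calc |∑ i, a i * ∫ x, g i x * φ (x - t • a)|
          ≤ ∑ i, |a i * ∫ x, g i x * φ (x - t • a)| := Finset.abs_sum_le_sum_abs _ _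
        _ ≤ ∑ i, |a i| * (Real.sqrt (∫ x, g i x ^ 2) * Real.sqrt (∫ x, φ x ^ 2)) := by
            refine Finset.sum_le_sum fun i _ => ?_
            rw [abs_mul]
            refine mul_le_mul_of_nonneg_left ?_ (abs_nonneg _)
            have := cs_integral (h.mg i) (hT.memLp 2)
            rwa [hφt] at this
        _ = (∑ i, |a i| * Real.sqrt (∫ x, g i x ^ 2)) * Real.sqrt (∫ x, φ x ^ 2) := by
            rw [Finset.sum_mul]
            exact Finset.sum_congr rfl fun i _ => by ring
        _ ≤ K * Real.sqrt (∫ x, φ x ^ 2) := by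
            refine mul_le_mul_of_nonneg_right ?_ (Real.sqrt_nonneg _)
            have hcs := Finset.sum_mul_sq_le_sq_mul_sq Finset.univ (fun i => |a i|)
              (fun i => Real.sqrt (∫ x, g i x ^ 2))
            have e3 : ∑ i, Real.sqrt (∫ x, g i x ^ 2) ^ 2 = ∑ i, ∫ x, g i x ^ 2 := by
              refine Finset.sum_congr rfl fun i _ => ?_
              exact Real.sq_sqrt (integral_nonneg fun x => sq_nonneg _)
            simp only [sq_abs] at hcs
            rw [e3] at hcs
            rw [hK, ← Real.sqrt_mul (Finset.sum_nonneg fun i _ => sq_nonneg _)]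
            exact Real.le_sqrt_of_sq_le hcs
  rw [nsq_ofReal hd]
  have e4 : ∑ i, nsq (g i) = ENNReal.ofReal (∑ i, ∫ x, g i x ^ 2) := by
    rw [ENNReal.ofReal_sum_of_nonneg fun i _ => integral_nonneg fun x => sq_nonneg _]
    exact Finset.sum_congr rfl fun i _ => nsq_ofReal (h.mg i)
  rw [e4, ← ENNReal.ofReal_mul (Finset.sum_nonneg fun i _ => sq_nonneg _)]
  apply ENNReal.ofReal_le_ofReal
  refine hmain.trans (le_of_eq ?_)
  rw [hK, mul_pow, Real.sq_sqrt (Finset.sum_nonneg fun i _ => sq_nonneg _),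
    Real.sq_sqrt (Finset.sum_nonneg fun i _ => integral_nonneg fun x => sq_nonneg _)]

end Pool.Agent.Work.MP_2cde6c_an
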